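import Mathlib

/-!
# Short integral curves of a vector field which is strictly differentiable at a point
-/

set_option autoImplicit false

namespace Pool.Agent.Helper78.EC.Ode

open Function Metric Set Filter Topology ODE
open scoped NNReal

section

variable {E : Type*} [NormedAddCommGroup E] [NormedSpace ℝ E] [CompleteSpace E]
  {f : ℝ → E → E} {tmin tmax : ℝ} {t₀ : Icc tmin tmax} {x₀ x : E} {a r L K : ℝ≥0}

theorem exists_mem (hf : IsPicardLindelof f t₀ x₀ a r L K) (hx : x ∈ closedBall x₀ r) :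
    ∃ α : ℝ → E, α t₀ = x ∧ (∀ t, α t ∈ closedBall x₀ a) ∧
      ∀ t ∈ Icc tmin tmax, HasDerivWithinAt α (f t (α t)) (Icc tmin tmax) t := by
  obtain ⟨α, hα⟩ := FunSpace.exists_isFixedPt_next hf hx
  refine ⟨α.compProj, by rw [FunSpace.compProj_val, ← hα, FunSpace.next_apply₀],
    fun t => α.compProj_mem_closedBall hf.mul_max_le, fun t ht ↦ ?_⟩
  apply hasDerivWithinAt_picard_Icc t₀.2 hf.continuousOn_uncurry
    α.continuous_compProj.continuousOn (fun _ ht' ↦ α.compProj_mem_closedBall hf.mul_max_le)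
    x ht |>.congr_of_mem _ ht
  intro t' ht'
  nth_rw 1 [← hα]
  rw [FunSpace.compProj_of_mem ht', FunSpace.next_apply]

end

/-- **Integral curves of the multiples of a vector field.** -/
theorem curve {E : Type*} [NormedAddCommGroup E] [NormedSpace ℂ E] [CompleteSpace E]
    (g : E → E) (g' : E →L[ℂ] E) (z : E) (hg : HasStrictFDerivAt g g' z) (U : Set E)
    (hU : U ∈ 𝓝 z) :
    ∃ δ : ℝ, 0 < δ ∧ ∀ u : ℂ, ‖u‖ < δ → ∃ α : ℝ → E, α 0 = z ∧ (∀ t, α t ∈ U) ∧
      ∀ t ∈ Icc (0 : ℝ) 1, HasDerivWithinAt α (u • g (α t)) (Icc (0 : ℝ) 1) t := by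
  obtain ⟨K, s, hs, hl⟩ := hg.exists_lipschitzOnWith
  obtain ⟨a, ha0, ha⟩ := Metric.mem_nhds_iff.1 (inter_mem hs hU)
  have ha2 : closedBall z (a / 2) ⊆ s ∩ U :=
    (closedBall_subset_ball (half_lt_self ha0)).trans ha
  let M : ℝ := K * a + ‖g z‖ + 1
  have hM : 0 < M := by positivity
  have hb : ∀ x ∈ closedBall z (a / 2), ‖g x‖ ≤ M := by
    intro x hx
    have h1 : ‖g x - g z‖ ≤ K * ‖x - z‖ :=
      hl.norm_sub_le (ha2 hx).1 (mem_of_mem_nhds hs)
    have h2 : ‖x - z‖ ≤ a := by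
      rw [mem_closedBall_iff_norm] at hx
      linarith
    have h3 : ‖g x‖ ≤ ‖g x - g z‖ + ‖g z‖ := norm_le_norm_sub_add _ _
    have h4 : (K : ℝ) * ‖x - z‖ ≤ K * a := by gcongr
    simp only [M]
    linarith
  refine ⟨a / 2 / M, by positivity, fun u hu => ?_⟩
  have hpl : IsPicardLindelof (fun (_ : ℝ) (x : E) => u • g x) (tmin := 0) (tmax := 1)
      ⟨0, by simp⟩ z (⟨a / 2, by positivity⟩ : ℝ≥0) 0 (⟨‖u‖ * M, by positivity⟩ : ℝ≥0)
      (⟨‖u‖ * K, by positivity⟩ : ℝ≥0) := by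
    apply IsPicardLindelof.of_time_independent
    · intro x hx
      rw [norm_smul]
      exact mul_le_mul_of_nonneg_left (hb x hx) (norm_nonneg _)
    · apply LipschitzOnWith.of_dist_le_mul
      intro x hx y hy
      rw [dist_eq_norm, dist_eq_norm, ← smul_sub, norm_smul]
      have h1 := hl.norm_sub_le (ha2 hx).1 (ha2 hy).1
      calc ‖u‖ * ‖g x - g y‖ ≤ ‖u‖ * (K * ‖x - y‖) := by gcongr
        _ = _ := by
          rw [← mul_assoc]
          rfl
    · have h1 : ‖u‖ * M ≤ a / 2 := by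
        rw [lt_div_iff₀ hM] at hu
        exact hu.le
      simp only [sub_zero, sub_self, zero_le_one, sup_of_le_left, mul_one, NNReal.coe_zero]
      exact h1
  obtain ⟨α, h1, h2, h3⟩ := exists_mem hpl (mem_closedBall_self (le_refl _))
  exact ⟨α, h1, fun t => (ha2 (h2 t)).2, h3⟩

end Pool.Agent.Helper78.EC.Ode
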