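import Mathlib
import Pool.Agent.Helper78.SC.Cov
import Pool.Agent.Helper78.SC.Td
import Pool.Agent.Helper78.EC.Ode

/-!
# Moving along a polynomial vector field which is tangent at one point
-/

set_option autoImplicit false

namespace Pool.Agent.Helper78.EC.Flow

open MvPolynomial Filter Topology Module Set
open Pool.Agent.Helper78.SC Pool.Agent.Helper78.SC.Ax Pool.Agent.Helper78.SC.Cov

variable {n : ℕ} {K : IntermediateField ℚ ℂ}

/-- the derivative along the vector field `V` -/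
noncomputable def LD (V : Fin n → MvPolynomial (Fin n ⊕ Fin n) K)
    (G : MvPolynomial (Fin n ⊕ Fin n) K) : MvPolynomial (Fin n ⊕ Fin n) K :=
  ∑ j, V j * (pderiv (Sum.inl j) G + X (Sum.inr j) * pderiv (Sum.inr j) G)

theorem fd_V (x : Fin n → ℂ) (V : Fin n → MvPolynomial (Fin n ⊕ Fin n) K)
    (G : MvPolynomial (Fin n ⊕ Fin n) K) :
    fd K x G (fun j => aeval (pt x) (V j)) = aeval (pt x) (LD V G) := by
  rw [fd_apply]
  unfold Ext.dv LD
  rw [Fintype.sum_sum_type, ← Finset.sum_add_distrib, map_sum]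
  refine Finset.sum_congr rfl (fun j _ => ?_)
  simp only [Sum.elim_inl, Sum.elim_inr, map_mul, map_add, aeval_X]
  have : pt x (Sum.inr j) = Complex.exp (x j) := rfl
  rw [this]
  ring

theorem continuous_pt : Continuous (fun x : Fin n → ℂ => pt x) := by
  refine continuous_pi (fun s => ?_)
  rcases s with j | j
  · exact continuous_apply j
  · exact Complex.continuous_exp.comp (continuous_apply j)

theorem continuous_aeval (G : MvPolynomial (Fin n ⊕ Fin n) K) :
    Continuous (fun x : Fin n → ℂ => aeval (pt x) G) :=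
  continuous_iff_continuousAt.2 (fun x => (hasDeriv K x G).continuousAt)

/-- algebraic numbers are dense -/
theorem exists_alg_near (a : ℂ) {δ : ℝ} (hδ : 0 < δ) : ∃ u : ℂ, ‖u‖ < δ ∧ IsAlgebraic ℚ (a + u) := by
  obtain ⟨p, hp⟩ := exists_rat_near a.re (ε := δ / 2) (by positivity)
  obtain ⟨q, hq⟩ := exists_rat_near a.im (ε := δ / 2) (by positivity)
  refine ⟨(p : ℂ) + q * Complex.I - a, ?_, ?_⟩
  · have h1 : (p : ℂ) + q * Complex.I - a = ((p - a.re : ℝ) : ℂ) + ((q - a.im : ℝ) : ℂ) * Complex.I := by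
      conv_lhs => rw [← Complex.re_add_im a]
      push_cast
      ring
    rw [h1]
    refine (norm_add_le _ _).trans_lt ?_
    rw [norm_mul, Complex.norm_I, mul_one, Complex.norm_real, Complex.norm_real, Real.norm_eq_abs,
      Real.norm_eq_abs, abs_sub_comm, abs_sub_comm (q : ℝ)]
    linarith
  · rw [add_sub_cancel]
    have hI : IsAlgebraic ℚ Complex.I := by
      refine ⟨Polynomial.X ^ 2 + 1, ?_, by simp⟩
      intro h
      have := congrArg (Polynomial.eval 0) h
      simp at this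
    exact (isAlgebraic_algebraMap p).add ((isAlgebraic_algebraMap q).mul hI)

/-- the derivative of a polynomial along a curve -/
theorem deriv_curve (G : MvPolynomial (Fin n ⊕ Fin n) K) (α : ℝ → (Fin n → ℂ)) (v : Fin n → ℂ)
    (s : Set ℝ) (t : ℝ) (hα : HasDerivWithinAt α v s t) :
    HasDerivWithinAt (fun t => aeval (pt (α t)) G) (fd K (α t) G v) s t :=
  (((hasDeriv K (α t) G).hasFDerivAt).restrictScalars ℝ).comp_hasDerivWithinAt t hα

/-- **The flow.** -/
theorem flow (z : Fin n → ℂ) (V : Fin n → MvPolynomial (Fin n ⊕ Fin n) K)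
    (hV : ∀ G : MvPolynomial (Fin n ⊕ Fin n) K, aeval (pt z) G = 0 → aeval (pt z) (LD V G) = 0)
    (k : Fin n) (hk : aeval (pt z) (V k) ≠ 0) (U : Set (Fin n → ℂ)) (hU : U ∈ 𝓝 z) :
    ∃ x ∈ U, IsAlgebraic ℚ (x k) ∧ (∀ G : MvPolynomial (Fin n ⊕ Fin n) K,
      aeval (pt z) G = 0 → aeval (pt x) G = 0) ∧ ∀ i, aeval (pt z) (V i) = 0 → x i = z i := by
  classical
  -- the vector field
  let g : (Fin n → ℂ) → (Fin n → ℂ) := fun x i => aeval (pt x) (V i) * (aeval (pt x) (V k))⁻¹
  have hinv : HasStrictFDerivAt (fun x : Fin n → ℂ => (aeval (pt x) (V k))⁻¹)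
      (-((aeval (pt z) (V k)) ^ 2)⁻¹ • fd K z (V k)) z :=
    (hasStrictDerivAt_inv hk).comp_hasStrictFDerivAt z (hasDeriv K z (V k))
  have hg : HasStrictFDerivAt g (ContinuousLinearMap.pi (fun i =>
      aeval (pt z) (V i) • (-((aeval (pt z) (V k)) ^ 2)⁻¹ • fd K z (V k)) +
        (aeval (pt z) (V k))⁻¹ • fd K z (V i))) z :=
    hasStrictFDerivAt_pi.2 (fun i => (hasDeriv K z (V i)).mul hinv)
  have hW : U ∩ {x | aeval (pt x) (V k) ≠ 0} ∈ 𝓝 z :=
    inter_mem hU ((continuous_aeval (V k)).continuousAt.eventually_ne hk)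
  obtain ⟨δ, hδ, hcurve⟩ := Ode.curve g _ z hg _ hW
  obtain ⟨u, hu, hualg⟩ := exists_alg_near (z k) hδ
  obtain ⟨α, hα0, hαU, hα⟩ := hcurve u hu
  have hcont : ContinuousOn α (Icc (0 : ℝ) 1) := fun t ht => (hα t ht).continuousWithinAt
  -- the derivative of a polynomial
  have hD : ∀ G : MvPolynomial (Fin n ⊕ Fin n) K, ∀ t ∈ Icc (0 : ℝ) 1,
      HasDerivWithinAt (fun t => aeval (pt (α t)) G)
        (u * (aeval (pt (α t)) (V k))⁻¹ * aeval (pt (α t)) (LD V G)) (Icc (0 : ℝ) 1) t := by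
    intro G t ht
    have h1 := deriv_curve G α _ _ t (hα t ht)
    have h2 : u • g (α t) = (u * (aeval (pt (α t)) (V k))⁻¹) • fun j => aeval (pt (α t)) (V j) := by
      funext i
      simp only [g, Pi.smul_apply, smul_eq_mul]
      ring
    rw [h2, map_smul, fd_V, smul_eq_mul] at h1
    exact h1
  -- the ideal of the point
  let I : Ideal (MvPolynomial (Fin n ⊕ Fin n) K) := RingHom.ker (aeval (pt z) : _ →ₐ[K] ℂ).toRingHom
  have hI : ∀ G, G ∈ I ↔ aeval (pt z) G = 0 := fun G => RingHom.mem_ker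
  obtain ⟨S, hS⟩ := (isNoetherianRing_iff_ideal_fg _).1
    (inferInstance : IsNoetherianRing (MvPolynomial (Fin n ⊕ Fin n) K)) I
  have hSI : ∀ P : S, P.1 ∈ I := fun P => by
    rw [← hS]
    exact Ideal.subset_span P.2
  have hcomb : ∀ G ∈ I, ∃ A : S → MvPolynomial (Fin n ⊕ Fin n) K, G = ∑ P : S, A P * P.1 := by
    intro G hG
    rw [← hS] at hG
    obtain ⟨f, hf⟩ := Submodule.mem_span_finset'.1 hG
    exact ⟨f, by rw [← hf]; rfl⟩
  have hA : ∀ P : S, ∃ A : S → MvPolynomial (Fin n ⊕ Fin n) K, LD V P.1 = ∑ Q : S, A Q * Q.1 := by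
    intro P
    apply hcomb
    rw [hI]
    exact hV _ ((hI _).1 (hSI P))
  choose A hA using hA
  let H : ℝ → (S → ℂ) := fun t P => aeval (pt (α t)) P.1
  let H' : ℝ → (S → ℂ) := fun t P =>
    u * (aeval (pt (α t)) (V k))⁻¹ * aeval (pt (α t)) (LD V P.1)
  have hHd : ∀ t ∈ Icc (0 : ℝ) 1, HasDerivWithinAt H (H' t) (Icc (0 : ℝ) 1) t := fun t ht =>
    hasDerivWithinAt_pi.2 (fun P => hD P.1 t ht)
  have hHc : ContinuousOn H (Icc (0 : ℝ) 1) := fun t ht => (hHd t ht).continuousWithinAt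
  -- the bound
  let B : ℝ → ℝ := fun t => ∑ P : S, ∑ Q : S,
    ‖u * (aeval (pt (α t)) (V k))⁻¹ * aeval (pt (α t)) (A P Q)‖
  have hBc : ContinuousOn B (Icc (0 : ℝ) 1) := by
    refine continuousOn_finsetSum _ (fun P _ => continuousOn_finsetSum _ (fun Q _ => ?_))
    refine ContinuousOn.norm ?_
    refine ContinuousOn.mul (ContinuousOn.mul continuousOn_const ?_) ?_
    · refine ContinuousOn.inv₀ ((continuous_aeval (V k)).comp_continuousOn hcont) ?_
      intro t _
      exact (hαU t).2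
    · exact (continuous_aeval (A P Q)).comp_continuousOn hcont
  obtain ⟨C, hC⟩ := isCompact_Icc.exists_bound_of_continuousOn hBc
  have hbound : ∀ t ∈ Ico (0 : ℝ) 1, ‖H' t‖ ≤ C * ‖H t‖ := by
    intro t ht
    have ht' : t ∈ Icc (0 : ℝ) 1 := Ico_subset_Icc_self ht
    have hC' : B t ≤ C := (le_abs_self _).trans (hC t ht')
    have hB0 : 0 ≤ B t := Finset.sum_nonneg (fun P _ => Finset.sum_nonneg (fun Q _ => norm_nonneg _))
    refine (pi_norm_le_iff_of_nonneg (mul_nonneg (hB0.trans hC') (norm_nonneg _))).2 (fun P => ?_)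
    have e1 : H' t P = ∑ Q : S, (u * (aeval (pt (α t)) (V k))⁻¹ * aeval (pt (α t)) (A P Q)) * H t Q := by
      simp only [H', H]
      rw [hA P, map_sum, Finset.mul_sum]
      refine Finset.sum_congr rfl (fun Q _ => ?_)
      rw [map_mul]
      ring
    rw [e1]
    calc ‖∑ Q : S, (u * (aeval (pt (α t)) (V k))⁻¹ * aeval (pt (α t)) (A P Q)) * H t Q‖
        ≤ ∑ Q : S, ‖u * (aeval (pt (α t)) (V k))⁻¹ * aeval (pt (α t)) (A P Q)‖ * ‖H t‖ := by
          refine (norm_sum_le _ _).trans (Finset.sum_le_sum (fun Q _ => ?_))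
          rw [norm_mul]
          exact mul_le_mul_of_nonneg_left (norm_le_pi_norm _ _) (norm_nonneg _)
      _ = (∑ Q : S, ‖u * (aeval (pt (α t)) (V k))⁻¹ * aeval (pt (α t)) (A P Q)‖) * ‖H t‖ := by
          rw [Finset.sum_mul]
      _ ≤ B t * ‖H t‖ := by
          apply mul_le_mul_of_nonneg_right _ (norm_nonneg _)
          exact Finset.single_le_sum (f := fun P : S => ∑ Q : S,
            ‖u * (aeval (pt (α t)) (V k))⁻¹ * aeval (pt (α t)) (A P Q)‖)
            (fun P _ => Finset.sum_nonneg (fun Q _ => norm_nonneg _)) (Finset.mem_univ P)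
      _ ≤ C * ‖H t‖ := mul_le_mul_of_nonneg_right hC' (norm_nonneg _)
  have hH0 : H 0 = 0 := by
    funext P
    simp only [H, hα0]
    exact (hI _).1 (hSI P)
  have hzero := eq_zero_of_abs_deriv_le_mul_abs_self_of_eq_zero_right hHc
    (fun t ht => ((hHd t (Ico_subset_Icc_self ht)).mono_of_mem_nhdsWithin
      (Icc_mem_nhdsGE_of_mem ht))) hH0 hbound
  have hall : ∀ G : MvPolynomial (Fin n ⊕ Fin n) K, aeval (pt z) G = 0 →
      ∀ t ∈ Icc (0 : ℝ) 1, aeval (pt (α t)) G = 0 := by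
    intro G hG t ht
    obtain ⟨f, hf⟩ := hcomb G ((hI G).2 hG)
    rw [hf, map_sum]
    refine Finset.sum_eq_zero (fun P _ => ?_)
    rw [map_mul]
    have := congrFun (hzero t ht) P
    have h2 : aeval (pt (α t)) P.1 = 0 := this
    rw [h2, mul_zero]
  -- the coordinates
  have hcoord : ∀ i : Fin n, ∀ t ∈ Icc (0 : ℝ) 1,
      HasDerivWithinAt (fun t => α t i) ((u • g (α t)) i) (Icc (0 : ℝ) 1) t := fun i t ht =>
    hasDerivWithinAt_pi.1 (hα t ht) i
  have hconst : ∀ (i : Fin n) (c : ℂ), (∀ t ∈ Icc (0 : ℝ) 1, (u • g (α t)) i = c) →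
      α 1 i = z i + c := by
    intro i c hc
    let φ : ℝ → ℂ := fun t => α t i - t * c
    have h1 : ∀ t ∈ Icc (0 : ℝ) 1, HasDerivWithinAt φ 0 (Icc (0 : ℝ) 1) t := by
      intro t ht
      have h2 := hcoord i t ht
      rw [hc t ht] at h2
      have h3 : HasDerivWithinAt (fun t : ℝ => (t : ℂ) * c) c (Icc (0 : ℝ) 1) t := by
        have h4 : HasDerivAt (fun t : ℝ => (t : ℂ) * c) (1 * c) t :=
          (Complex.ofRealCLM.hasDerivAt).mul_const c
        rw [one_mul] at h4
        exact h4.hasDerivWithinAt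
      have h5 := h2.sub h3
      rw [sub_self] at h5
      exact h5
    have h2 := eq_zero_of_abs_deriv_le_mul_abs_self_of_eq_zero_right
      (f := fun t => φ t - φ 0) (f' := fun _ => 0) (K := 0) (a := 0) (b := 1)
      (fun t ht => ((h1 t ht).sub_const (φ 0)).continuousWithinAt)
      (fun t ht => ((h1 t (Ico_subset_Icc_self ht)).sub_const (φ 0)).mono_of_mem_nhdsWithin
        (Icc_mem_nhdsGE_of_mem ht)) (sub_self _) (fun t _ => by simp) 1 (right_mem_Icc.2 zero_le_one)
    simp only [φ, Complex.ofReal_one, one_mul, Complex.ofReal_zero, zero_mul, sub_zero, hα0] at h2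
    linear_combination h2
  refine ⟨α 1, (hαU 1).1, ?_, fun G hG => hall G hG 1 (right_mem_Icc.2 zero_le_one), ?_⟩
  · rw [hconst k u]
    · exact hualg
    · intro t ht
      change u * (aeval (pt (α t)) (V k) * (aeval (pt (α t)) (V k))⁻¹) = u
      rw [mul_inv_cancel₀ (hαU t).2, mul_one]
  · intro i hi
    rw [hconst i 0, add_zero]
    intro t ht
    change u * (aeval (pt (α t)) (V i) * (aeval (pt (α t)) (V k))⁻¹) = 0
    rw [hall _ hi t ht, zero_mul, mul_zero]

end Pool.Agent.Helper78.EC.Flow
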