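import Mathlib
import Pool.Agent.Helper78.EC.Flow
import Pool.Agent.Helper78.SC.Low

/-!
# A point with few exponential derivations and given coordinates

Let `z` be a point of `ℂⁿ`, `T` a set of indices and `r` the dimension of the space of the vectors
`(D z_i)_{i ∈ T}` for the exponential derivations `D` at `z`.  There is a point `x` with the same
coordinates with index in `T` for which the space of all `(D x_i)` has dimension at most `r`.
-/

set_option autoImplicit false

namespace Pool.Agent.Helper78.EC.Move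

open MvPolynomial Filter Topology Module Set
open Pool.Agent.Helper78.SC Pool.Agent.Helper78.SC.Ax Pool.Agent.Helper78.SC.Cov
open Pool.Agent.Helper78.EC.Flow Pool.Agent.W252

variable {n : ℕ} {K : IntermediateField ℚ ℂ}

theorem der_exp {z : Fin n → ℂ} {D : Derivation ℚ ℂ ℂ} (hD : D ∈ Dl K z) (j : Fin n) :
    D (Complex.exp (z j)) = Complex.exp (z j) * D (z j) := by
  have := hD.2 j
  unfold dlog at this
  have he : Complex.exp (z j) ≠ 0 := Complex.exp_ne_zero _
  field_simp at this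
  rw [this]

theorem fd_der {z : Fin n → ℂ} {D : Derivation ℚ ℂ ℂ} (hD : D ∈ Dl K z)
    (P : MvPolynomial (Fin n ⊕ Fin n) K) : fd K z P (zv z D) = D (aeval (pt z) P) := by
  have h1 := Ext.der_eq_dv (Td.up K D hD.1) (pt z) P
  have h2 : (Td.up K D hD.1) (aeval (pt z) P) = D (aeval (pt z) P) := rfl
  rw [← h2, h1, fd_apply]
  congr 1
  funext s
  rcases s with j | j
  · rfl
  · exact (der_exp hD j).symm

theorem der_algebraic (D : Derivation ℚ ℂ ℂ) {β : ℂ} (hβ : IsAlgebraic ℚ β) : D β = 0 :=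
  Pool.Agent.H327R2.SC.der_alg (K := ℚ) (L := ℂ) ⊥ D (fun x hx => by
    obtain ⟨q, rfl⟩ := IntermediateField.mem_bot.1 hx
    exact D.map_algebraMap q) (hβ.tower_top _)

/-- the restriction to the coordinates in `T` -/
noncomputable def res (T : Set (Fin n)) : (Fin n → ℂ) →ₗ[ℂ] (T → ℂ) :=
  LinearMap.funLeft ℂ ℂ (Subtype.val : T → Fin n)

/-- the space of the values of the exponential derivations -/
noncomputable def TT (K : IntermediateField ℚ ℂ) (z : Fin n → ℂ) : Submodule ℂ (Fin n → ℂ) :=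
  (Dl K z).map (zv z)

/-- the rank of the coordinates in `T` -/
noncomputable def rt (K : IntermediateField ℚ ℂ) (z : Fin n → ℂ) (T : Set (Fin n)) : ℕ :=
  finrank ℂ ((TT K z).map (res T))

theorem rank_null (V : Submodule ℂ (Fin n → ℂ)) (T : Set (Fin n)) :
    finrank ℂ (V.map (res T)) + finrank ℂ ↥(V ⊓ LinearMap.ker (res T)) = finrank ℂ V := by
  have h1 := (res T ∘ₗ V.subtype).finrank_range_add_finrank_ker
  rw [LinearMap.range_comp, Submodule.range_subtype] at h1
  have h2 : (LinearMap.ker (res T ∘ₗ V.subtype)).map V.subtype = V ⊓ LinearMap.ker (res T) := by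
    ext v
    constructor
    · rintro ⟨⟨w, hw⟩, hw2, rfl⟩
      exact ⟨hw, hw2⟩
    · rintro ⟨h3, h4⟩
      exact ⟨⟨v, h3⟩, h4, rfl⟩
  rw [← h2, Submodule.finrank_map_subtype_eq]
  exact h1

/-- the coefficients of the differential -/
noncomputable def cf (G : MvPolynomial (Fin n ⊕ Fin n) K) (i : Fin n) :
    MvPolynomial (Fin n ⊕ Fin n) K :=
  pderiv (Sum.inl i) G + X (Sum.inr i) * pderiv (Sum.inr i) G

theorem fd_cf (x v : Fin n → ℂ) (G : MvPolynomial (Fin n ⊕ Fin n) K) :
    fd K x G v = ∑ i, v i * aeval (pt x) (cf G i) := by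
  rw [fd_apply]
  unfold Ext.dv cf
  rw [Fintype.sum_sum_type, ← Finset.sum_add_distrib]
  refine Finset.sum_congr rfl (fun j _ => ?_)
  simp only [Sum.elim_inl, Sum.elim_inr, map_mul, map_add, aeval_X]
  have : pt x (Sum.inr j) = Complex.exp (x j) := rfl
  rw [this]
  ring

/-- the vectors with values in the field generated by the point -/
theorem lift_vec (z : Fin n → ℂ) (w : Fin n → ℂ)
    (hw : ∀ i, w i ∈ IntermediateField.adjoin K (Set.range (pt z))) :
    ∃ (c : ℂ) (V : Fin n → MvPolynomial (Fin n ⊕ Fin n) K), c ≠ 0 ∧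
      ∀ i, aeval (pt z) (V i) = c * w i := by
  classical
  have h1 : ∀ i, ∃ r s : MvPolynomial (Fin n ⊕ Fin n) K, aeval (pt z) s ≠ 0 ∧
      w i * aeval (pt z) s = aeval (pt z) r := by
    intro i
    obtain ⟨r, s, hrs⟩ := (IntermediateField.mem_adjoin_range_iff K (pt z) (w i)).1 (hw i)
    by_cases hs : aeval (pt z) s = 0
    · refine ⟨0, 1, by simp, ?_⟩
      rw [hrs, hs, div_zero, zero_mul, map_zero]
    · refine ⟨r, s, hs, ?_⟩
      rw [hrs, div_mul_cancel₀ _ hs]
  choose r s hs hrs using h1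
  refine ⟨aeval (pt z) (∏ i, s i), fun i => r i * ∏ j ∈ Finset.univ.erase i, s j, ?_, fun i => ?_⟩
  · rw [map_prod]
    exact Finset.prod_ne_zero_iff.2 (fun i _ => hs i)
  · rw [map_mul, ← hrs, ← Finset.mul_prod_erase Finset.univ s (Finset.mem_univ i), map_mul]
    ring

/-- the space of the tangent vectors which vanish on `T` -/
noncomputable def W (K : IntermediateField ℚ ℂ) (z : Fin n → ℂ) (T : Set (Fin n)) :
    Submodule ℂ (Fin n → ℂ) := Tz K z ⊓ LinearMap.ker (res T)

theorem mem_W {z : Fin n → ℂ} {T : Set (Fin n)} {v : Fin n → ℂ} : v ∈ W K z T ↔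
    (∀ G : MvPolynomial (Fin n ⊕ Fin n) K, aeval (pt z) G = 0 → fd K z G v = 0) ∧ ∀ i ∈ T, v i = 0 := by
  unfold W Tz
  rw [Submodule.mem_inf, Submodule.mem_iInf]
  constructor
  · rintro ⟨h1, h2⟩
    refine ⟨fun G hG => h1 ⟨G, hG⟩, fun i hi => ?_⟩
    exact congrFun (LinearMap.mem_ker.1 h2) ⟨i, hi⟩
  · rintro ⟨h1, h2⟩
    refine ⟨fun G => h1 G.1 G.2, ?_⟩
    rw [LinearMap.mem_ker]
    funext i
    exact h2 i i.2

/-- **The space `W` is generated by vectors of values of polynomials.** -/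
theorem W_le (z : Fin n → ℂ) (T : Set (Fin n)) :
    W K z T ≤ Submodule.span ℂ {w | w ∈ W K z T ∧
      ∃ V : Fin n → MvPolynomial (Fin n ⊕ Fin n) K, ∀ i, w i = aeval (pt z) (V i)} := by
  classical
  intro v hv
  let F := IntermediateField.adjoin K (Set.range (pt z))
  let β := Module.Basis.ofVectorSpace F ℂ
  have hcf : ∀ G : MvPolynomial (Fin n ⊕ Fin n) K, aeval (pt z) G ∈ F := by
    intro G
    have h1 : aeval (pt z) G ∈ Algebra.adjoin K (Set.range (pt z)) := by
      rw [Algebra.adjoin_range_eq_range_aeval]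
      exact ⟨G, rfl⟩
    exact IntermediateField.algebra_adjoin_le_adjoin K _ h1
  rw [mem_W] at hv
  let b := fun (j : Module.Basis.ofVectorSpaceIndex F ℂ) (i : Fin n) => ((β.repr (v i) j : F) : ℂ)
  have hb : ∀ j, b j ∈ W K z T := by
    intro j
    rw [mem_W]
    constructor
    · intro G hG
      have h1 := hv.1 G hG
      rw [fd_cf] at h1 ⊢
      have h2 : (β.coord j) (∑ i, v i * aeval (pt z) (cf G i)) = 0 := by rw [h1, map_zero]
      rw [map_sum] at h2
      have h3 : ∀ i, (β.coord j) (v i * aeval (pt z) (cf G i)) =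
          (⟨aeval (pt z) (cf G i), hcf _⟩ : F) * β.repr (v i) j := by
        intro i
        have h4 : v i * aeval (pt z) (cf G i) = (⟨aeval (pt z) (cf G i), hcf _⟩ : F) • v i :=
          mul_comm _ _
        rw [h4, map_smul]
        rfl
      simp only [h3] at h2
      have h5 := congrArg (fun x : F => (x : ℂ)) h2
      simp only [IntermediateField.coe_zero] at h5
      rw [← h5]
      push_cast
      exact Finset.sum_congr rfl (fun i _ => mul_comm _ _)
    · intro i hi
      simp only [b, hv.2 i hi, map_zero, Finsupp.coe_zero, Pi.zero_apply, IntermediateField.coe_zero]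
  let s : Finset (Module.Basis.ofVectorSpaceIndex F ℂ) := Finset.univ.biUnion fun i => (β.repr (v i)).support
  have hsum : v = ∑ j ∈ s, (β j : ℂ) • b j := by
    funext i
    rw [Finset.sum_apply]
    have h1 : v i = ∑ j ∈ s, (β.repr (v i) j) • β j := by
      conv_lhs => rw [← β.linearCombination_repr (v i), Finsupp.linearCombination_apply]
      rw [Finsupp.sum]
      apply Finset.sum_subset
      · intro j hj
        exact Finset.mem_biUnion.2 ⟨i, Finset.mem_univ i, hj⟩
      · intro j _ hj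
        rw [Finsupp.notMem_support_iff.1 hj, zero_smul]
    rw [h1]
    refine Finset.sum_congr rfl (fun j _ => ?_)
    change ((β.repr (v i) j : F) : ℂ) * β j = β j * ((β.repr (v i) j : F) : ℂ)
    exact mul_comm _ _
  rw [hsum]
  refine Submodule.sum_mem _ (fun j _ => Submodule.smul_mem _ _ ?_)
  obtain ⟨c, V, hc, hV⟩ := lift_vec (K := K) z (b j) (fun i => (β.repr (v i) j : F).2)
  have h1 : b j = c⁻¹ • (fun i => aeval (pt z) (V i)) := by
    funext i
    rw [Pi.smul_apply, hV, smul_eq_mul, inv_mul_cancel_left₀ hc]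
  rw [h1]
  apply Submodule.smul_mem
  apply Submodule.subset_span
  refine ⟨?_, V, fun i => rfl⟩
  have h2 : (fun i => aeval (pt z) (V i)) = c • b j := by
    funext i
    rw [hV]
    rfl
  rw [h2]
  exact Submodule.smul_mem _ _ (hb j)

/-- upper semicontinuity -/
theorem usc (z : Fin n → ℂ) (S : Finset (MvPolynomial (Fin n ⊕ Fin n) K)) :
    ∀ᶠ x in 𝓝 z, finrank ℂ ↥(⨅ P : S, LinearMap.ker (fd K x P : (Fin n → ℂ) →ₗ[ℂ] ℂ)) ≤
      finrank ℂ ↥(⨅ P : S, LinearMap.ker (fd K z P : (Fin n → ℂ) →ₗ[ℂ] ℂ)) := by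
  classical
  set N₀ := ⨅ P : S, LinearMap.ker (fd K z P : (Fin n → ℂ) →ₗ[ℂ] ℂ) with hN₀
  obtain ⟨N, hN⟩ := Submodule.exists_isCompl N₀
  let u := finBasis ℂ N
  let A : (Fin n → ℂ) → Fin (finrank ℂ N) → (S → ℂ) := fun x j P => fd K x P.1 (u j : Fin n → ℂ)
  have hmem : ∀ x v, v ∈ (⨅ P : S, LinearMap.ker (fd K x P : (Fin n → ℂ) →ₗ[ℂ] ℂ)) ↔
      ∀ P : S, fd K x P.1 v = 0 := by
    intro x v
    rw [Submodule.mem_iInf]
    rfl
  have hcomb : ∀ (x : Fin n → ℂ) (c : Fin (finrank ℂ N) → ℂ), ∑ j, c j • A x j =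
      fun P : S => fd K x P.1 (∑ j, c j • (u j : Fin n → ℂ)) := by
    intro x c
    funext P
    rw [Finset.sum_apply, map_sum]
    refine Finset.sum_congr rfl (fun j _ => ?_)
    rw [map_smul]
    rfl
  have h0 : LinearIndependent ℂ (A z) := by
    rw [Fintype.linearIndependent_iff]
    intro c hc
    rw [hcomb] at hc
    have h1 : (∑ j, c j • (u j : Fin n → ℂ)) ∈ N₀ := by
      rw [hN₀, hmem]
      exact fun P => congrFun hc P
    have h2 : (∑ j, c j • (u j : Fin n → ℂ)) ∈ N := Submodule.sum_mem _ (fun j _ => N.smul_mem _ (u j).2)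
    have h3 : (∑ j, c j • (u j : Fin n → ℂ)) = 0 := by
      have := Submodule.disjoint_def.1 hN.disjoint _ h1 h2
      exact this
    have h4 : ∑ j, c j • u j = 0 := by
      apply Subtype.ext
      rw [Submodule.coe_sum]
      exact h3
    exact Fintype.linearIndependent_iff.1 u.linearIndependent c h4
  have hcontA : Continuous A := by
    refine continuous_pi (fun j => continuous_pi (fun P => ?_))
    simp only [A, fd_cf]
    exact continuous_finsetSum _ (fun i _ => continuous_const.mul (continuous_aeval _))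
  have hev : ∀ᶠ x in 𝓝 z, LinearIndependent ℂ (A x) :=
    hcontA.continuousAt.eventually (isOpen_setOfPred_linearIndependent.mem_nhds h0)
  filter_upwards [hev] with x hx
  have hdisj : Disjoint (⨅ P : S, LinearMap.ker (fd K x P : (Fin n → ℂ) →ₗ[ℂ] ℂ)) N := by
    rw [Submodule.disjoint_def]
    intro v hv1 hv2
    rw [hmem] at hv1
    have h1 : v = ∑ j, (u.repr ⟨v, hv2⟩ j) • (u j : Fin n → ℂ) := by
      have := congrArg (fun y : N => (y : Fin n → ℂ)) (u.sum_repr ⟨v, hv2⟩)
      simp only [Submodule.coe_sum] at this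
      exact this.symm
    have h2 := Fintype.linearIndependent_iff.1 hx (fun j => u.repr ⟨v, hv2⟩ j) (by
      rw [hcomb, ← h1]
      funext P
      exact hv1 P)
    rw [h1]
    exact Finset.sum_eq_zero (fun j _ => by rw [h2 j, zero_smul])
  have h1 := Submodule.finrank_add_finrank_le_of_disjoint hdisj
  have h2 := Submodule.finrank_add_eq_of_isCompl hN
  omega

/-- **One step.** -/
theorem step (z : Fin n → ℂ) (T : Set (Fin n)) (h : rt K z T < wd K z) :
    ∃ x : Fin n → ℂ, (∀ i ∈ T, x i = z i) ∧ wd K x < wd K z ∧ rt K x T ≤ rt K z T := by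
  classical
  have hTz : TT K z = Tz K z := by
    apply le_antisymm
    · rintro _ ⟨D, hD, rfl⟩
      unfold Tz
      rw [Submodule.mem_iInf]
      intro P
      rw [LinearMap.mem_ker]
      change fd K z P.1 (zv z D) = 0
      rw [fd_der hD, P.2, map_zero]
    · exact Tz_le K z
  -- the basis of `W`
  obtain ⟨b, hbs, hbspan, hbli⟩ := exists_linearIndependent ℂ {w | w ∈ W K z T ∧
    ∃ V : Fin n → MvPolynomial (Fin n ⊕ Fin n) K, ∀ i, w i = aeval (pt z) (V i)}
  have hbfin : b.Finite := hbli.setFinite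
  have := hbfin.fintype
  have hbW : ∀ w : b, w.1 ∈ W K z T := fun w => (hbs w.2).1
  choose V hV using fun w : b => (hbs w.2).2
  have hcard : finrank ℂ ↥(W K z T) ≤ Fintype.card b := by
    have h1 : W K z T ≤ Submodule.span ℂ b := by
      rw [hbspan]
      exact W_le z T
    have h2 := finrank_span_set_eq_card hbli
    rw [Set.toFinset_card] at h2
    rw [← h2]
    exact Submodule.finrank_mono h1
  have hrn := rank_null (TT K z) T
  have hWeq : TT K z ⊓ LinearMap.ker (res T) = W K z T := by rw [hTz]; rfl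
  rw [hWeq] at hrn
  have hwd : finrank ℂ (TT K z) = wd K z := rfl
  have hrt : finrank ℂ ((TT K z).map (res T)) = rt K z T := rfl
  have hpos : 0 < Fintype.card b := by omega
  obtain ⟨w₀⟩ := Fintype.card_pos_iff.1 hpos
  have hw₀ : w₀.1 ≠ 0 := hbli.ne_zero w₀
  obtain ⟨k, hk⟩ : ∃ k, w₀.1 k ≠ 0 := by
    by_contra hcon
    push Not at hcon
    exact hw₀ (funext hcon)
  -- the neighbourhood
  obtain ⟨S, hS1, hS2⟩ := exists_finset K z
  let A : (Fin n → ℂ) → b → (Fin n → ℂ) := fun x w i => aeval (pt x) (V w i)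
  have hAz : A z = fun w : b => w.1 := by
    funext w i
    exact (hV w i).symm
  have hAc : Continuous A := continuous_pi (fun w => continuous_pi (fun i => continuous_aeval _))
  have hA0 : LinearIndependent ℂ (A z) := by rw [hAz]; exact hbli
  have hev1 : ∀ᶠ x in 𝓝 z, LinearIndependent ℂ (A x) :=
    hAc.continuousAt.eventually (isOpen_setOfPred_linearIndependent.mem_nhds hA0)
  have hkz : aeval (pt z) (V w₀ k) ≠ 0 := by rw [← hV]; exact hk
  have hev2 : ∀ᶠ x in 𝓝 z, aeval (pt x) (V w₀ k) ≠ 0 :=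
    (continuous_aeval (V w₀ k)).continuousAt.eventually_ne hkz
  have hLD : ∀ (w : b) (G : MvPolynomial (Fin n ⊕ Fin n) K), aeval (pt z) G = 0 →
      aeval (pt z) (LD (V w) G) = 0 := by
    intro w G hG
    rw [← fd_V]
    have h1 : (fun j => aeval (pt z) (V w j)) = w.1 := by
      funext i
      exact (hV w i).symm
    rw [h1]
    exact (mem_W.1 (hbW w)).1 G hG
  obtain ⟨x, hxU, hxalg, hx1, hx2⟩ := flow z (V w₀) (hLD w₀) k hkz _
    (inter_mem (inter_mem hev1 hev2) (usc z S))
  obtain ⟨⟨hxa, hxb⟩, hxc⟩ := hxU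
  have hxa' : LinearIndependent ℂ (A x) := hxa
  have hxb' : aeval (pt x) (V w₀ k) ≠ 0 := hxb
  have hxc' : finrank ℂ ↥(⨅ P : S, LinearMap.ker (fd K x P : (Fin n → ℂ) →ₗ[ℂ] ℂ)) ≤ wd K z :=
    le_trans hxc hS2
  set N := ⨅ P : S, LinearMap.ker (fd K x P : (Fin n → ℂ) →ₗ[ℂ] ℂ) with hN
  have hmemN : ∀ v, v ∈ N ↔ ∀ P : S, fd K x P.1 v = 0 := by
    intro v
    rw [hN, Submodule.mem_iInf]
    rfl
  have hTN : TT K x ≤ N := by
    rintro _ ⟨D, hD, rfl⟩
    rw [hmemN]
    intro P
    rw [fd_der hD, hx1 _ (hS1 _ P.2), map_zero]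
  have hVN : ∀ w : b, A x w ∈ N := by
    intro w
    rw [hmemN]
    intro P
    change fd K x P.1 (fun i => aeval (pt x) (V w i)) = 0
    rw [fd_V]
    exact hx1 _ (hLD w _ (hS1 _ P.2))
  have hTi : ∀ i ∈ T, ∀ w : b, aeval (pt z) (V w i) = 0 := by
    intro i hi w
    rw [← hV]
    exact (mem_W.1 (hbW w)).2 i hi
  refine ⟨x, fun i hi => hx2 i (hTi i hi w₀), ?_, ?_⟩
  · have h1 : TT K x < N := by
      refine lt_of_le_of_ne hTN (fun heq => ?_)
      have h2 := hVN w₀
      rw [← heq] at h2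
      obtain ⟨D, hD, hDe⟩ := h2
      have h3 : D (x k) = aeval (pt x) (V w₀ k) := congrFun hDe k
      rw [der_algebraic D hxalg] at h3
      exact hxb' h3.symm
    have h2 := Submodule.finrank_lt_finrank_of_lt h1
    have h3 : finrank ℂ (TT K x) = wd K x := rfl
    omega
  · have h1 : finrank ℂ ((TT K x).map (res T)) ≤ finrank ℂ (N.map (res T)) :=
      Submodule.finrank_mono (Submodule.map_mono hTN)
    have h2 := rank_null N T
    have h3 : Fintype.card b ≤ finrank ℂ ↥(N ⊓ LinearMap.ker (res T)) := by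
      have h4 : ∀ w : b, A x w ∈ N ⊓ LinearMap.ker (res T) := by
        intro w
        refine ⟨hVN w, ?_⟩
        rw [SetLike.mem_coe, LinearMap.mem_ker]
        funext i
        exact hx1 _ (hTi i i.2 w)
      have h5 : LinearIndependent ℂ (fun w : b => (⟨A x w, h4 w⟩ : ↥(N ⊓ LinearMap.ker (res T)))) :=
        LinearIndependent.of_comp (N ⊓ LinearMap.ker (res T)).subtype hxa'
      exact h5.fintype_card_le_finrank
    have h6 : finrank ℂ ((TT K x).map (res T)) = rt K x T := rfl
    omega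

/-- **Moving.** -/
theorem move (z : Fin n → ℂ) (T : Set (Fin n)) :
    ∃ x : Fin n → ℂ, (∀ i ∈ T, x i = z i) ∧ wd K x ≤ rt K z T := by
  induction h : wd K z using Nat.strong_induction_on generalizing z with
  | _ m ih =>
    by_cases hlt : rt K z T < wd K z
    · obtain ⟨x, h1, h2, h3⟩ := step z T hlt
      obtain ⟨y, h4, h5⟩ := ih (wd K x) (by omega) x rfl
      exact ⟨y, fun i hi => (h4 i hi).trans (h1 i hi), h5.trans h3⟩
    · exact ⟨z, fun _ _ => rfl, not_lt.1 hlt⟩

end Pool.Agent.Helper78.EC.Move
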