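import Mathlib
import Pool.Agent.Helper78.EC.Move

/-!
# The exponential algebraic closure

`ecl K` is the field of the numbers which are killed by all exponential derivations over `K` at some
point.  It is closed under the exponential function and logarithms, algebraically closed, idempotent,
and countable if `K` is countable.
-/

set_option autoImplicit false

namespace Pool.Agent.Helper78.EC.Closure

open MvPolynomial Filter Topology Module Set
open Pool.Agent.Helper78.SC Pool.Agent.Helper78.SC.Ax Pool.Agent.Helper78.SC.Cov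
open Pool.Agent.Helper78.EC.Flow Pool.Agent.Helper78.EC.Move Pool.Agent.W252

variable {K : IntermediateField ℚ ℂ}

theorem Dl_append_left {n m : ℕ} (z : Fin n → ℂ) (w : Fin m → ℂ) :
    Dl K (Fin.append z w) ≤ Dl K z := by
  intro D hD
  refine ⟨hD.1, fun i => ?_⟩
  have := hD.2 (Fin.castAdd m i)
  rwa [Fin.append_left] at this

theorem Dl_append_right {n m : ℕ} (z : Fin n → ℂ) (w : Fin m → ℂ) :
    Dl K (Fin.append z w) ≤ Dl K w := by
  intro D hD
  refine ⟨hD.1, fun i => ?_⟩
  have := hD.2 (Fin.natAdd n i)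
  rwa [Fin.append_right] at this

theorem CC_mono {n m : ℕ} {z : Fin n → ℂ} {w : Fin m → ℂ} (h : Dl K w ≤ Dl K z) :
    CC K z ≤ CC K w := fun _ hx D hD => hx D (h hD)

/-- **The exponential algebraic closure.** -/
noncomputable def ecl (K : IntermediateField ℚ ℂ) : IntermediateField ℚ ℂ where
  carrier := {x | ∃ (n : ℕ) (z : Fin n → ℂ), x ∈ CC K z}
  mul_mem' := by
    rintro a b ⟨n, z, hz⟩ ⟨m, w, hw⟩
    exact ⟨n + m, Fin.append z w, (CC K _).mul_mem (CC_mono (Dl_append_left z w) hz)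
      (CC_mono (Dl_append_right z w) hw)⟩
  add_mem' := by
    rintro a b ⟨n, z, hz⟩ ⟨m, w, hw⟩
    exact ⟨n + m, Fin.append z w, (CC K _).add_mem (CC_mono (Dl_append_left z w) hz)
      (CC_mono (Dl_append_right z w) hw)⟩
  algebraMap_mem' := fun r => ⟨0, Fin.elim0, (CC K _).algebraMap_mem r⟩
  inv_mem' := by
    rintro a ⟨n, z, hz⟩
    exact ⟨n, z, (CC K z).inv_mem hz⟩

theorem mem_ecl {x : ℂ} : x ∈ ecl K ↔ ∃ (n : ℕ) (z : Fin n → ℂ), x ∈ CC K z := Iff.rfl

theorem le_ecl : K ≤ ecl K := fun _ hx => ⟨0, Fin.elim0, le_CC hx⟩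

/-- one point for finitely many elements -/
theorem common (A : Finset ℂ) (hA : ∀ c ∈ A, c ∈ ecl K) :
    ∃ (m : ℕ) (w : Fin m → ℂ), ∀ c ∈ A, c ∈ CC K w := by
  classical
  induction A using Finset.induction_on with
  | empty => exact ⟨0, Fin.elim0, by simp⟩
  | insert a A ha ih =>
    obtain ⟨m, w, hw⟩ := ih (fun c hc => hA c (Finset.mem_insert_of_mem hc))
    obtain ⟨n, z, hz⟩ := hA a (Finset.mem_insert_self _ _)
    refine ⟨n + m, Fin.append z w, fun c hc => ?_⟩
    rcases Finset.mem_insert.1 hc with rfl | hc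
    · exact CC_mono (Dl_append_left z w) hz
    · exact CC_mono (Dl_append_right z w) (hw c hc)

theorem exp_mem {x : ℂ} (hx : x ∈ ecl K) : Complex.exp x ∈ ecl K := by
  obtain ⟨n, z, hz⟩ := hx
  refine ⟨1 + n, Fin.append (fun _ : Fin 1 => x) z, fun D hD => ?_⟩
  have h1 := der_exp (Dl_append_left (fun _ : Fin 1 => x) z hD) 0
  have h2 : D x = 0 := hz D (Dl_append_right _ z hD)
  rw [h2, mul_zero] at h1
  exact h1

theorem log_mem {x : ℂ} (hx : Complex.exp x ∈ ecl K) : x ∈ ecl K := by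
  obtain ⟨n, z, hz⟩ := hx
  refine ⟨1 + n, Fin.append (fun _ : Fin 1 => x) z, fun D hD => ?_⟩
  have h1 := der_exp (Dl_append_left (fun _ : Fin 1 => x) z hD) 0
  have h2 : D (Complex.exp x) = 0 := hz D (Dl_append_right _ z hD)
  rw [h2] at h1
  exact (mul_eq_zero.1 h1.symm).resolve_left (Complex.exp_ne_zero _)

/-- the elements killed by a derivation -/
noncomputable def kl (D : Derivation ℚ ℂ ℂ) : IntermediateField ℚ ℂ where
  carrier := {w | D w = 0}
  mul_mem' := by
    intro a b ha hb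
    have ha' : D a = 0 := ha
    have hb' : D b = 0 := hb
    change D (a * b) = 0
    rw [Derivation.leibniz, ha', hb', smul_zero, smul_zero, add_zero]
  add_mem' := by
    intro a b ha hb
    have ha' : D a = 0 := ha
    have hb' : D b = 0 := hb
    change D (a + b) = 0
    rw [map_add, ha', hb', add_zero]
  algebraMap_mem' := fun r => D.map_algebraMap r
  inv_mem' := by
    intro a ha
    have ha' : D a = 0 := ha
    change D a⁻¹ = 0
    rw [Derivation.leibniz_inv, ha', smul_zero]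

/-- the chain rule for polynomials with killed coefficients -/
theorem der_aeval {E : IntermediateField ℚ ℂ} {σ : Type*} [Fintype σ] (D : Derivation ℚ ℂ ℂ)
    (x : σ → ℂ) (P : MvPolynomial σ E) (hP : ∀ m, D ((P.coeff m : E) : ℂ) = 0) :
    D (aeval x P) = Ext.dv x (fun s => D (x s)) P := by
  classical
  have h1 : ∀ m : σ →₀ ℕ, D (aeval x (monomial m (1 : E))) =
      Ext.dv x (fun s => D (x s)) (monomial m (1 : E)) := by
    intro m
    have h2 := Ext.der_eq_dv D x (monomial m (1 : ℚ))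
    have h3 : (monomial m (1 : E)) = map (algebraMap ℚ E) (monomial m (1 : ℚ)) := by
      rw [map_monomial, RingHom.map_one]
    have h4 : aeval x (monomial m (1 : E)) = aeval x (monomial m (1 : ℚ)) := by
      rw [h3, aeval_map_algebraMap]
    rw [h4, h2]
    unfold Ext.dv
    refine Finset.sum_congr rfl (fun s _ => ?_)
    congr 1
    rw [h3, pderiv_map, aeval_map_algebraMap]
  have h2 : P = ∑ m ∈ P.support, C (P.coeff m) * monomial m 1 := by
    conv_lhs => rw [← P.support_sum_monomial_coeff]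
    refine Finset.sum_congr rfl (fun m _ => ?_)
    rw [C_mul_monomial, mul_one]
  rw [h2, map_sum, map_sum, Ext.dv_sum]
  refine Finset.sum_congr rfl (fun m _ => ?_)
  rw [map_mul, Derivation.leibniz, h1, Ext.dv_mul, Ext.dv_C, aeval_C]
  have h3 : D (algebraMap E ℂ (P.coeff m)) = 0 := hP m
  rw [h3, smul_zero, mul_zero, smul_eq_mul]

/-- the tangent space is cut out by finitely many polynomials -/
theorem exists_finset_eq {n : ℕ} (E : IntermediateField ℚ ℂ) (z : Fin n → ℂ) :
    ∃ S : Finset (MvPolynomial (Fin n ⊕ Fin n) E), (∀ P ∈ S, aeval (pt z) P = 0) ∧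
      ∀ v : Fin n → ℂ, (∀ P ∈ S, fd E z P v = 0) → v ∈ TT E z := by
  obtain ⟨S, hS1, hS2⟩ := exists_finset E z
  refine ⟨S, hS1, fun v hv => ?_⟩
  have h1 : TT E z ≤ ⨅ P : S, LinearMap.ker (fd E z P : (Fin n → ℂ) →ₗ[ℂ] ℂ) := by
    rintro _ ⟨D, hD, rfl⟩
    rw [Submodule.mem_iInf]
    intro P
    rw [LinearMap.mem_ker]
    change fd E z P.1 (zv z D) = 0
    rw [fd_der hD, hS1 _ P.2, map_zero]
  have h2 := Submodule.eq_of_le_of_finrank_le h1 hS2
  rw [h2, Submodule.mem_iInf]
  exact fun P => hv P.1 P.2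

/-- **Descent of the coefficients.** -/
theorem descent {n : ℕ} (z : Fin n → ℂ) : ∃ (m : ℕ) (w : Fin m → ℂ),
    ∀ D ∈ Dl K (Fin.append z w), zv z D ∈ TT (ecl K) z := by
  classical
  obtain ⟨S, hS1, hS2⟩ := exists_finset_eq (ecl K) z
  obtain ⟨m, w, hw⟩ := common (K := K)
    (S.biUnion fun P => P.support.image fun s => ((P.coeff s : ecl K) : ℂ)) (by
      intro c hc
      obtain ⟨P, -, hc⟩ := Finset.mem_biUnion.1 hc
      obtain ⟨s, -, rfl⟩ := Finset.mem_image.1 hc
      exact (P.coeff s).2)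
  refine ⟨m, w, fun D hD => hS2 _ (fun P hP => ?_)⟩
  have hDz := Dl_append_left z w hD
  have hDw := Dl_append_right z w hD
  have h1 : ∀ s, D ((P.coeff s : ecl K) : ℂ) = 0 := by
    intro s
    by_cases hs : s ∈ P.support
    · exact hw _ (Finset.mem_biUnion.2 ⟨P, hP, Finset.mem_image.2 ⟨s, hs, rfl⟩⟩) D hDw
    · rw [notMem_support_iff.1 hs]
      exact map_zero D
  have h2 := der_aeval D (pt z) P h1
  rw [hS1 P hP, map_zero] at h2
  rw [fd_apply, h2]
  congr 1
  funext s
  rcases s with j | j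
  · rfl
  · exact (der_exp hDz j).symm

/-- **Idempotence.** -/
theorem CC_ecl_le {n : ℕ} (z : Fin n → ℂ) : CC (ecl K) z ≤ ecl K := by
  intro x hx
  obtain ⟨m, w, hw⟩ := descent (K := K) (Fin.append (fun _ : Fin 1 => x) z)
  refine ⟨(1 + n) + m, Fin.append (Fin.append (fun _ : Fin 1 => x) z) w, fun D hD => ?_⟩
  obtain ⟨D', hD', hDD⟩ := hw D hD
  have h1 : D' x = 0 := hx D' (Dl_append_right _ z hD')
  have h2 := congrFun hDD (Fin.castAdd n 0)
  change D' (Fin.append (fun _ : Fin 1 => x) z (Fin.castAdd n 0)) =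
    D (Fin.append (fun _ : Fin 1 => x) z (Fin.castAdd n 0)) at h2
  rw [Fin.append_left] at h2
  rw [← h2, h1]

theorem ecl_ecl_le : ecl (ecl K) ≤ ecl K := by
  rintro x ⟨n, z, hz⟩
  exact CC_ecl_le z hz

/-- the field `ecl K` is algebraically closed -/
theorem alg_mem {x : ℂ} (hx : IsAlgebraic (ecl K) x) : x ∈ ecl K := by
  obtain ⟨p, hp, hp0⟩ := hx
  classical
  obtain ⟨m, w, hw⟩ := common (K := K) (p.support.image fun s => ((p.coeff s : ecl K) : ℂ)) (by
    intro c hc
    obtain ⟨s, -, rfl⟩ := Finset.mem_image.1 hc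
    exact (p.coeff s).2)
  refine ⟨m, w, fun D hD => ?_⟩
  have h1 : ∀ s, ((p.coeff s : ecl K) : ℂ) ∈ kl D := by
    intro s
    by_cases hs : s ∈ p.support
    · exact hw _ (Finset.mem_image.2 ⟨s, hs, rfl⟩) D hD
    · rw [Polynomial.notMem_support_iff.1 hs]
      exact map_zero D
  apply Pool.Agent.H327R2.SC.der_alg (kl D) D (fun x hx => hx)
  let q : Polynomial ℂ := p.map (algebraMap (ecl K) ℂ)
  have hq : q ∈ Polynomial.lifts (algebraMap (kl D) ℂ) := by
    rw [Polynomial.lifts_iff_coeff_lifts]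
    intro s
    rw [Polynomial.coeff_map]
    exact ⟨⟨_, h1 s⟩, rfl⟩
  obtain ⟨r, hr⟩ := (Polynomial.mem_lifts _).1 hq
  refine ⟨r, ?_, ?_⟩
  · rintro rfl
    rw [Polynomial.map_zero] at hr
    exact hp ((Polynomial.map_eq_zero_iff (algebraMap (ecl K) ℂ).injective).1 hr.symm)
  · rw [Polynomial.aeval_def, ← Polynomial.eval_map, hr, Polynomial.eval_map, ← Polynomial.aeval_def]
    exact hp0

/-- **Countability.** -/
theorem countable (hK : Countable K) : Countable (ecl K) := by
  have h1 : ((ecl K : IntermediateField ℚ ℂ) : Set ℂ) ⊆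
      ⋃ n : ℕ, (fun y : Fin (1 + n) → ℂ => y (Fin.castAdd n 0)) '' {y | wd K y ≤ 0} := by
    rintro x ⟨n, z, hz⟩
    obtain ⟨y, hy1, hy2⟩ := move (K := K) (Fin.append (fun _ : Fin 1 => x) z) {Fin.castAdd n 0}
    refine Set.mem_iUnion.2 ⟨n, y, ?_, ?_⟩
    · have h2 : rt K (Fin.append (fun _ : Fin 1 => x) z) {Fin.castAdd n 0} = 0 := by
        unfold rt
        rw [Submodule.finrank_eq_zero, Submodule.eq_bot_iff]
        rintro _ ⟨_, ⟨D, hD, rfl⟩, rfl⟩
        funext i
        obtain ⟨i, rfl⟩ := i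
        change D (Fin.append (fun _ : Fin 1 => x) z (Fin.castAdd n 0)) = 0
        rw [Fin.append_left]
        exact hz D (Dl_append_right _ z hD)
      rw [h2] at hy2
      exact hy2
    · have := hy1 _ (Set.mem_singleton _)
      rw [Fin.append_left] at this
      exact this
  have h2 : ((ecl K : IntermediateField ℚ ℂ) : Set ℂ).Countable :=
    (Set.countable_iUnion (fun n => (Cov.countable K hK _ (fun z hz => hz)).image _)).mono h1
  exact h2.to_subtype

end Pool.Agent.Helper78.EC.Closure
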