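import Mathlib
import Pool.Agent.Helper78.EC.Closure

/-!
# Generic points

A point `t` of `ℂᵐ` is generic over `K` if it has exponential derivations over `K` with arbitrary
values at `t` which are exponential at any given further numbers.  Outside of a set of Hausdorff
dimension `2 m - 2` all points are generic, and over `ecl K` the transcendence degree of
`(t, z, e^z)` is at least `m + n` if `z_1, …, z_n` are linearly independent over `ℚ` modulo `ecl K`.
-/

set_option autoImplicit false

namespace Pool.Agent.Helper78.EC.Generic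

open MvPolynomial Filter Topology Module Set
open Pool.Agent.Helper78.SC Pool.Agent.Helper78.SC.Ax Pool.Agent.Helper78.SC.Cov
open Pool.Agent.Helper78.EC.Flow Pool.Agent.Helper78.EC.Move Pool.Agent.Helper78.EC.Closure
open Pool.Agent.W252 Pool.Agent.TH813.Core Pool.Agent.TH813.Rank

variable {K : IntermediateField ℚ ℂ}

/-- generic points -/
def Gen (K : IntermediateField ℚ ℂ) {m : ℕ} (t : Fin m → ℂ) : Prop :=
  ∀ (n : ℕ) (y : Fin n → ℂ), (Dl K (Fin.append t y)).map (zv t) = ⊤

theorem mem_Dl_append {n m : ℕ} {z : Fin n → ℂ} {w : Fin m → ℂ} {D : Derivation ℚ ℂ ℂ}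
    (h1 : D ∈ Dl K z) (h2 : D ∈ Dl K w) : D ∈ Dl K (Fin.append z w) := by
  refine ⟨h1.1, fun i => ?_⟩
  refine Fin.addCases (fun j => ?_) (fun j => ?_) i
  · rw [Fin.append_left]
    exact h1.2 j
  · rw [Fin.append_right]
    exact h2.2 j

/-- the bad points come from points with few exponential derivations -/
theorem bad_subset (m : ℕ) : {t : Fin m → ℂ | ¬ Gen K t} ⊆
    ⋃ n : ℕ, (fun (x : Fin (m + n) → ℂ) (j : Fin m) => x (Fin.castAdd n j)) ''
      {x | wd K x ≤ m - 1 ∧ 0 < m} := by
  intro t ht
  have ht' : ¬ Gen K t := ht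
  unfold Gen at ht'
  push Not at ht'
  obtain ⟨n, y, hy⟩ := ht'
  have h1 : finrank ℂ ((Dl K (Fin.append t y)).map (zv t)) < m := by
    by_contra hcon
    apply hy
    apply Submodule.eq_top_of_finrank_eq
    apply le_antisymm (Submodule.finrank_le _)
    rw [finrank_fintype_fun_eq_card, Fintype.card_fin]
    omega
  let T : Set (Fin (m + n)) := Set.range (Fin.castAdd n)
  obtain ⟨x, hx1, hx2⟩ := move (K := K) (Fin.append t y) T
  have h2 : rt K (Fin.append t y) T ≤ finrank ℂ ((Dl K (Fin.append t y)).map (zv t)) := by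
    unfold rt
    let f : (Fin m → ℂ) →ₗ[ℂ] (T → ℂ) :=
      LinearMap.funLeft ℂ ℂ (fun i : T => i.2.choose)
    have h3 : (TT K (Fin.append t y)).map (res T) ≤ ((Dl K (Fin.append t y)).map (zv t)).map f := by
      rintro _ ⟨_, ⟨D, hD, rfl⟩, rfl⟩
      refine ⟨_, ⟨D, hD, rfl⟩, ?_⟩
      funext i
      change D (t i.2.choose) = D (Fin.append t y i.1)
      conv_rhs => rw [← i.2.choose_spec]
      rw [Fin.append_left]
    exact (Submodule.finrank_mono h3).trans (Submodule.finrank_map_le _ _)
  refine Set.mem_iUnion.2 ⟨n, x, ⟨by omega, by omega⟩, ?_⟩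
  funext j
  have := hx1 (Fin.castAdd n j) ⟨j, rfl⟩
  rw [Fin.append_left] at this
  exact this

/-- **The dimension of the set of the points which are not generic.** -/
theorem dimH_bad (hK : Countable K) (m : ℕ) :
    dimH {t : Fin m → ℂ | ¬ Gen K t} ≤ ((2 * (m - 1) : ℕ) : ENNReal) := by
  refine (dimH_mono (bad_subset m)).trans ?_
  rw [dimH_iUnion]
  refine iSup_le (fun n => ?_)
  let P : (Fin (m + n) → ℂ) →L[ℂ] (Fin m → ℂ) :=
    ContinuousLinearMap.pi (fun j => ContinuousLinearMap.proj (Fin.castAdd n j))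
  have h1 : (fun (x : Fin (m + n) → ℂ) (j : Fin m) => x (Fin.castAdd n j)) = P := rfl
  rw [h1]
  exact (P.lipschitz.dimH_image_le _).trans (Cov.dimH_le K hK _ _ (fun z hz => hz.1))

/-- the points which are not generic are countably many for `m = 1` -/
theorem countable_bad (hK : Countable K) : {t : Fin 1 → ℂ | ¬ Gen K t}.Countable := by
  refine Set.Countable.mono (bad_subset 1) (Set.countable_iUnion (fun n => Set.Countable.image ?_ _))
  exact Cov.countable K hK _ (fun z hz => hz.1)

/-- genericity over the closure -/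
theorem gen_ecl {m n : ℕ} {t : Fin m → ℂ} (ht : Gen K t) (y : Fin n → ℂ) :
    (Dl (ecl K) (Fin.append t y)).map (zv t) = ⊤ := by
  obtain ⟨k, w, hw⟩ := descent (K := K) (Fin.append t y)
  rw [eq_top_iff]
  intro v _
  have h1 : v ∈ (Dl K (Fin.append t (Fin.append y w))).map (zv t) := by
    rw [ht]
    trivial
  obtain ⟨D, hD, rfl⟩ := h1
  have hDt := Dl_append_left _ _ hD
  have hDyw := Dl_append_right _ _ hD
  obtain ⟨D', hD', hDD⟩ := hw D (mem_Dl_append
    (mem_Dl_append hDt (Dl_append_left _ _ hDyw)) (Dl_append_right _ _ hDyw))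
  refine ⟨D', hD', ?_⟩
  funext j
  have h2 := congrFun hDD (Fin.castAdd n j)
  change D' (Fin.append t y (Fin.castAdd n j)) = D (Fin.append t y (Fin.castAdd n j)) at h2
  rw [Fin.append_left] at h2
  exact h2

theorem CC_ecl {n : ℕ} (z : Fin n → ℂ) : CC (ecl K) z = ecl K := le_antisymm (CC_ecl_le z) le_CC

theorem rk_eq_R (E : IntermediateField ℚ ℂ) {n : ℕ} (z : Fin n → ℂ) : rk E z = Low.R E (pt z) := by
  have h1 := Td.td_eq E z
  rw [Low.td_eq_R] at h1
  exact_mod_cast h1.symm

/-- **The main inequality.** -/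
theorem key {m n : ℕ} (t : Fin m → ℂ) (ht : Gen K t) (z : Fin n → ℂ)
    (hz : ∀ q : Fin n → ℚ, ∑ i, (q i : ℂ) * z i ∈ ecl K → q = 0) :
    m + n ≤ Low.R (ecl K) (Sum.elim t (pt z)) := by
  classical
  set E := ecl K with hE
  set Z := Fin.append t z with hZ
  have hwd : m ≤ wd E Z := by
    let f : (Fin (m + n) → ℂ) →ₗ[ℂ] (Fin m → ℂ) := LinearMap.funLeft ℂ ℂ (Fin.castAdd n)
    have h1 : (Dl E Z).map (zv t) ≤ ((Dl E Z).map (zv Z)).map f := by
      rintro _ ⟨D, hD, rfl⟩
      refine ⟨_, ⟨D, hD, rfl⟩, ?_⟩
      funext j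
      change D (Fin.append t z (Fin.castAdd n j)) = D (t j)
      rw [Fin.append_left]
    have h2 := Submodule.finrank_mono h1
    rw [gen_ecl ht z, finrank_top, finrank_fintype_fun_eq_card, Fintype.card_fin] at h2
    exact h2.trans (Submodule.finrank_map_le _ _)
  set h := finrank ℚ (Q E Z) with hh
  have h1 : rk E (cz E Z) + wd E Z + (m + n) ≤ rk E Z + h := Ax.main (K := E) (z := Z)
  -- the relations
  have hZl : ∀ j : Fin m, Z (Fin.castAdd n j) = t j := fun j => Fin.append_left _ _ _
  have hZr : ∀ i : Fin n, Z (Fin.natAdd m i) = z i := fun i => Fin.append_right _ _ _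
  let A : Matrix (Fin h) (Fin (m + n)) ℚ := AA E Z
  have hA : ∀ l, cz E Z l = ∑ j, (A l j : ℂ) * Z j := fun l => rfl
  have hcz : ∀ l, cz E Z l ∈ E := fun l => by
    have := cz_mem (K := E) (z := Z) l
    rwa [CC_ecl] at this
  have hli : LinearIndependent ℚ (fun (l : Fin h) (j : Fin m) => A l (Fin.castAdd n j)) := by
    rw [Fintype.linearIndependent_iff]
    intro g hg
    have h2 : ∀ j : Fin m, ∑ l, g l * A l (Fin.castAdd n j) = 0 := by
      intro j
      have := congrFun hg j
      simpa [Finset.sum_apply] using this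
    have h3 : (fun i : Fin n => ∑ l, g l * A l (Fin.natAdd m i)) = 0 := by
      apply hz
      have h4 : ∑ l, (g l : ℂ) * cz E Z l ∈ E := E.sum_mem (fun l _ => E.mul_mem
        (E.algebraMap_mem (g l)) (hcz l))
      have h5 : ∑ l, (g l : ℂ) * cz E Z l =
          ∑ i : Fin n, ((∑ l, g l * A l (Fin.natAdd m i) : ℚ) : ℂ) * z i := by
        simp only [hA, Fin.sum_univ_add, hZl, hZr, mul_add, Finset.sum_add_distrib]
        have h6 : ∑ l, (g l : ℂ) * ∑ j : Fin m, (A l (Fin.castAdd n j) : ℂ) * t j = 0 := by
          simp only [Finset.mul_sum]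
          rw [Finset.sum_comm]
          refine Finset.sum_eq_zero (fun j _ => ?_)
          have h7 : ∑ l, (g l : ℂ) * ((A l (Fin.castAdd n j) : ℂ) * t j) =
              ((∑ l, g l * A l (Fin.castAdd n j) : ℚ) : ℂ) * t j := by
            push_cast
            rw [Finset.sum_mul]
            exact Finset.sum_congr rfl (fun l _ => by ring)
          rw [h7, h2 j, Rat.cast_zero, zero_mul]
        rw [h6, zero_add]
        simp only [Finset.mul_sum]
        rw [Finset.sum_comm]
        refine Finset.sum_congr rfl (fun i _ => ?_)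
        push_cast
        rw [Finset.sum_mul]
        exact Finset.sum_congr rfl (fun l _ => by ring)
      rw [h5] at h4
      exact h4
    have h4 : ∑ l, g l • (fun l => AA E Z l) l = 0 := by
      funext j
      rw [Finset.sum_apply]
      refine Fin.addCases (fun j => ?_) (fun i => ?_) j
      · have := h2 j
        simpa using this
      · have := congrFun h3 i
        simpa using this
    exact Fintype.linearIndependent_iff.1 (AA_indep (K := E) (z := Z)) g h4
  -- the upper bound
  have h2 : rk E Z + h ≤ Low.R E (Sum.elim t (pt z)) + m := by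
    rw [rk_eq_R]
    unfold Low.R
    set V := LinearMap.range (Trd.vl (pt Z) : Derivation E ℂ ℂ →ₗ[ℂ] _) with hV
    let φ : Fin m ⊕ (Fin n ⊕ Fin n) → Fin (m + n) ⊕ Fin (m + n) :=
      Sum.elim (fun j => Sum.inl (Fin.castAdd n j))
        (Sum.elim (fun i => Sum.inl (Fin.natAdd m i)) (fun i => Sum.inr (Fin.natAdd m i)))
    let f : V →ₗ[ℂ] (Fin m ⊕ (Fin n ⊕ Fin n) → ℂ) := LinearMap.funLeft ℂ ℂ φ ∘ₗ V.subtype
    have hφ : ∀ s, pt Z (φ s) = Sum.elim t (pt z) s := by
      rintro (j | (i | i))
      · exact hZl j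
      · exact hZr i
      · exact congrArg Complex.exp (hZr i)
    have e1 := f.finrank_range_add_finrank_ker
    have e2 : finrank ℂ (LinearMap.range f) ≤ finrank ℂ (LinearMap.range
        (Trd.vl (Sum.elim t (pt z)) : Derivation E ℂ ℂ →ₗ[ℂ] _)) := by
      apply Submodule.finrank_mono
      rintro _ ⟨⟨_, D, rfl⟩, rfl⟩
      refine ⟨D, ?_⟩
      funext s
      change D (Sum.elim t (pt z) s) = D (pt Z (φ s))
      rw [hφ]
    let M : Matrix (Fin h) (Fin m) ℂ := fun l j => ((A l (Fin.castAdd n j) : ℚ) : ℂ)
    have hM1 : LinearIndependent ℂ M.row :=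
      (linearIndependent_algebraMap_comp_iff (R := ℚ) (S := ℂ)
        (v := fun (l : Fin h) (j : Fin m) => A l (Fin.castAdd n j))).2 hli
    have hM2 : finrank ℂ (LinearMap.range M.mulVecLin) = h := by
      have := hM1.rank_matrix
      rw [Fintype.card_fin] at this
      exact this
    have hM3 := M.mulVecLin.finrank_range_add_finrank_ker
    rw [finrank_fintype_fun_eq_card, Fintype.card_fin] at hM3
    have e3 : finrank ℂ (LinearMap.ker f) ≤ finrank ℂ (LinearMap.ker M.mulVecLin) := by
      let g : LinearMap.ker f →ₗ[ℂ] (Fin m → ℂ) :=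
        { toFun := fun v j => (v.1.1 (Sum.inr (Fin.castAdd n j))) / Complex.exp (t j)
          map_add' := fun v w => by
            funext j
            simp only [Submodule.coe_add, Pi.add_apply, add_div]
          map_smul' := fun c v => by
            funext j
            simp only [Submodule.coe_smul, Pi.smul_apply, smul_eq_mul, mul_div_assoc, RingHom.id_apply] }
      have hg1 : Function.Injective g := by
        rintro ⟨⟨a, ha⟩, ha0⟩ ⟨⟨b, hb⟩, hb0⟩ hab
        apply Subtype.ext
        apply Subtype.ext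
        have ha1 : ∀ s, a (φ s) = 0 := fun s => congrFun (LinearMap.mem_ker.1 ha0) s
        have hb1 : ∀ s, b (φ s) = 0 := fun s => congrFun (LinearMap.mem_ker.1 hb0) s
        funext s
        change a s = b s
        rcases s with i | i
        · refine Fin.addCases (fun j => ?_) (fun j => ?_) i
          · exact (ha1 (Sum.inl j)).trans (hb1 (Sum.inl j)).symm
          · exact (ha1 (Sum.inr (Sum.inl j))).trans (hb1 (Sum.inr (Sum.inl j))).symm
        · refine Fin.addCases (fun j => ?_) (fun j => ?_) i
          · have h3 : a (Sum.inr (Fin.castAdd n j)) / Complex.exp (t j) =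
              b (Sum.inr (Fin.castAdd n j)) / Complex.exp (t j) := congrFun hab j
            exact (div_left_inj' (Complex.exp_ne_zero _)).1 h3
          · exact (ha1 (Sum.inr (Sum.inr j))).trans (hb1 (Sum.inr (Sum.inr j))).symm
      have hg2 : ∀ v, g v ∈ LinearMap.ker M.mulVecLin := by
        rintro ⟨⟨_, D, rfl⟩, hD0⟩
        have hD1 : ∀ s, D (pt Z (φ s)) = 0 := fun s => congrFun (LinearMap.mem_ker.1 hD0) s
        rw [LinearMap.mem_ker, Matrix.mulVecLin_apply]
        funext l
        have h3 : dlog (D.restrictScalars ℚ) (cz E Z l) = 0 := by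
          rw [dlog_eq_zero]
          exact D.map_algebraMap (⟨_, exp_mem (hcz l)⟩ : E)
        have h4 : dlog (D.restrictScalars ℚ) (cz E Z l) =
            ∑ j, (A l j : ℂ) * dlog (D.restrictScalars ℚ) (Z j) := dlog_comb (AA E Z) _ l
        rw [h4, Fin.sum_univ_add] at h3
        have h5 : ∑ i : Fin n, (A l (Fin.natAdd m i) : ℂ) *
            dlog (D.restrictScalars ℚ) (Z (Fin.natAdd m i)) = 0 := by
          refine Finset.sum_eq_zero (fun i _ => ?_)
          have h6 : dlog (D.restrictScalars ℚ) (Z (Fin.natAdd m i)) = 0 := by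
            rw [dlog_eq_zero]
            exact hD1 (Sum.inr (Sum.inr i))
          rw [h6, mul_zero]
        rw [h5, add_zero] at h3
        rw [Pi.zero_apply, ← h3]
        change ∑ j : Fin m, (A l (Fin.castAdd n j) : ℂ) *
          (D (Complex.exp (Z (Fin.castAdd n j))) / Complex.exp (t j)) = _
        refine Finset.sum_congr rfl (fun j _ => ?_)
        unfold dlog
        rw [hZl]
        rfl
      let g' : LinearMap.ker f →ₗ[ℂ] LinearMap.ker M.mulVecLin :=
        g.codRestrict (LinearMap.ker M.mulVecLin) hg2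
      have hg3 : Function.Injective g' := fun a b hab => hg1 (congrArg (fun y : LinearMap.ker M.mulVecLin => (y : Fin m → ℂ)) hab)
      exact LinearMap.finrank_le_finrank_of_injective hg3
    omega
  omega

/-- families of maximal rank are algebraically independent -/
theorem algInd_of_R {E : IntermediateField ℚ ℂ} {σ : Type} [Fintype σ] (x : σ → ℂ)
    (hx : Fintype.card σ ≤ Low.R E x) : AlgebraicIndependent E x := by
  classical
  have : CharZero E := charZero_of_injective_algebraMap (algebraMap ℚ E).injective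
  set F := IntermediateField.adjoin E (Set.range x) with hF
  let y : σ → F := fun s => ⟨x s, IntermediateField.subset_adjoin E _ ⟨s, rfl⟩⟩
  have h1 : Algebra.trdeg E F = ((Low.R E x : ℕ) : Cardinal) := Trd.trdeg_eq x
  have halg : Algebra.IsAlgebraic (Algebra.adjoin E (Set.range y)) F := by
    constructor
    rintro ⟨w, hw⟩
    induction hw using IntermediateField.adjoin_induction with
    | mem a ha =>
      obtain ⟨s, rfl⟩ := ha
      exact isAlgebraic_algebraMap (⟨y s, Algebra.subset_adjoin ⟨s, rfl⟩⟩ : Algebra.adjoin E (Set.range y))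
    | algebraMap a =>
      exact isAlgebraic_algebraMap (algebraMap E (Algebra.adjoin E (Set.range y)) a)
    | add a b ha hb iha ihb => exact iha.add ihb
    | inv a ha iha => exact iha.inv
    | mul a b ha hb iha ihb => exact iha.mul ihb
  have h2 := Algebra.IsAlgebraic.isTranscendenceBasis_of_lift_le_trdeg_of_finite E y (by
    rw [h1, Cardinal.mk_fintype, Cardinal.lift_natCast, Cardinal.lift_natCast]
    exact_mod_cast hx)
  exact h2.1.map' (f := F.val) F.val.injective

end Pool.Agent.Helper78.EC.Generic
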