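import Mathlib
import Pool.Agent.Helper78.EC.Generic

/-!
# Algebraic independence over the field of a generic point
-/

set_option autoImplicit false

namespace Pool.Agent.Helper78.EC.Use

open MvPolynomial Filter Topology Module Set
open Pool.Agent.Helper78.SC Pool.Agent.Helper78.SC.Ax Pool.Agent.Helper78.SC.Cov
open Pool.Agent.Helper78.EC.Flow Pool.Agent.Helper78.EC.Move Pool.Agent.Helper78.EC.Closure
open Pool.Agent.Helper78.EC.Generic
open Pool.Agent.W252 Pool.Agent.TH813.Core Pool.Agent.TH813.Rank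

variable {K : IntermediateField ℚ ℂ}

/-- algebraic independence from derivations -/
theorem algInd_of_der {F : IntermediateField ℚ ℂ} {σ : Type} [Fintype σ] (x : σ → ℂ)
    (hx : ∀ v : σ → ℂ, ∃ D : Derivation ℚ ℂ ℂ, (∀ w ∈ F, D w = 0) ∧ ∀ s, D (x s) = v s) :
    AlgebraicIndependent F x := by
  apply algInd_of_R
  unfold Low.R
  have h : LinearMap.range (Trd.vl x : Derivation F ℂ ℂ →ₗ[ℂ] (σ → ℂ)) = ⊤ := by
    rw [eq_top_iff]
    intro v _
    obtain ⟨D, hD1, hD2⟩ := hx v
    exact ⟨Td.up F D hD1, funext hD2⟩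
  rw [h, finrank_top, finrank_fintype_fun_eq_card]

/-- derivations with given values -/
theorem exists_der {E : IntermediateField ℚ ℂ} {σ : Type} {x : σ → ℂ}
    (hx : AlgebraicIndependent E x) (v : σ → ℂ) :
    ∃ D : Derivation ℚ ℂ ℂ, (∀ w ∈ E, D w = 0) ∧ ∀ s, D (x s) = v s := by
  have : CharZero E := charZero_of_injective_algebraMap (algebraMap ℚ E).injective
  obtain ⟨D, hD⟩ := Pool.Agent.H135R2.VS.exists_der hx v
  exact ⟨D.restrictScalars ℚ, fun w hw => D.map_algebraMap (⟨w, hw⟩ : E), hD⟩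

/-- a derivation which kills a set kills the field generated by it -/
theorem kills_adjoin {S : Set ℂ} {D : Derivation ℚ ℂ ℂ} (hD : ∀ s ∈ S, D s = 0) :
    ∀ w ∈ IntermediateField.adjoin ℚ S, D w = 0 := by
  have h1 : IntermediateField.adjoin ℚ S ≤ kl D := IntermediateField.adjoin_le_iff.2 hD
  exact fun w hw => h1 hw

/-- and the algebraic closure of the field -/
theorem kills_alg {F : IntermediateField ℚ ℂ} {D : Derivation ℚ ℂ ℂ} (hD : ∀ w ∈ F, D w = 0)
    {w : ℂ} (hw : IsAlgebraic F w) : D w = 0 := by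
  apply Pool.Agent.H327R2.SC.der_alg F D hD hw

theorem gen_algInd {m : ℕ} {t : Fin m → ℂ} (ht : Gen K t) : AlgebraicIndependent (ecl K) t := by
  have h1 := key t ht (Fin.elim0 : Fin 0 → ℂ) (fun q _ => funext fun i => i.elim0)
  have h2 := algInd_of_R (E := ecl K) (Sum.elim t (pt (Fin.elim0 : Fin 0 → ℂ))) (by
    simpa using h1)
  exact h2.comp Sum.inl Sum.inl_injective

/-- the algebraic elements of the closure -/
theorem alg_of_mem {m : ℕ} {t : Fin m → ℂ} (ht : Gen K t) {w : ℂ} (hw : w ∈ ecl K)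
    (hwt : IsAlgebraic (IntermediateField.adjoin ℚ (range t)) w) : IsAlgebraic ℚ w := by
  by_contra hcon
  have h1 : AlgebraicIndependent ℚ (fun _ : Unit => w) :=
    algebraicIndependent_unique_type_iff.2 hcon
  obtain ⟨D₀, hD₀⟩ := Pool.Agent.H135R2.VS.exists_der h1 (fun _ => (1 : ℂ))
  obtain ⟨D₁, hD₁, hD₁t⟩ := exists_der (gen_algInd ht) (fun j => D₀ (t j))
  have h2 : ∀ u ∈ IntermediateField.adjoin ℚ (range t), (D₀ - D₁) u = 0 := by
    apply kills_adjoin
    rintro _ ⟨j, rfl⟩
    rw [Derivation.sub_apply, hD₁t, sub_self]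
  have h3 := kills_alg h2 hwt
  rw [Derivation.sub_apply, hD₁ w hw, sub_zero, hD₀ ()] at h3
  exact one_ne_zero h3

theorem exp_rat {F : Type*} [Field F] [Algebra F ℂ] {l : ℂ} (hl : IsAlgebraic F (Complex.exp l)) (q : ℚ) :
    IsAlgebraic F (Complex.exp (q * l)) := by
  have h1 : Complex.exp ((q : ℂ) * l) ^ q.den = Complex.exp l ^ q.num := by
    rw [← Complex.exp_nat_mul, ← Complex.exp_int_mul]
    congr 1
    rw [← mul_assoc]
    congr 1
    have h2 : ((q.den : ℚ) : ℂ) * (q : ℂ) = ((q.num : ℚ) : ℂ) := by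
      exact_mod_cast (by rw [Rat.den_mul_eq_num] : (q.den : ℚ) * q = q.num)
    simpa using h2
  have h2 : IsAlgebraic F (Complex.exp l ^ q.num) := by
    rcases Int.eq_nat_or_neg q.num with ⟨k, hk | hk⟩
    · rw [hk, zpow_natCast]
      exact hl.pow k
    · rw [hk, zpow_neg, zpow_natCast]
      exact (hl.pow k).inv
  rw [← h1] at h2
  exact IsAlgebraic.of_pow q.den_pos h2

theorem exp_sum {F : Type*} [Field F] [Algebra F ℂ] {n : ℕ} {l : Fin n → ℂ}
    (hl : ∀ i, IsAlgebraic F (Complex.exp (l i))) (q : Fin n → ℚ) :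
    IsAlgebraic F (Complex.exp (∑ i, (q i : ℂ) * l i)) := by
  rw [Complex.exp_sum]
  have h : ∀ s : Finset (Fin n), IsAlgebraic F (∏ i ∈ s, Complex.exp ((q i : ℂ) * l i)) := by
    intro s
    induction s using Finset.induction_on with
    | empty => simpa using isAlgebraic_one
    | insert a s ha ih =>
      rw [Finset.prod_insert ha]
      exact (exp_rat (hl a) (q a)).mul ih
  exact h _

/-- the logarithms over a generic field -/
theorem log_algInd {m n : ℕ} {t : Fin m → ℂ} (ht : Gen K t) {l : Fin n → ℂ}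
    (hl : ∀ i, IsAlgebraic (IntermediateField.adjoin ℚ (range t)) (Complex.exp (l i)))
    (hq : ∀ q : Fin n → ℚ, IsAlgebraic ℚ (Complex.exp (∑ i, (q i : ℂ) * l i)) → q = 0) :
    AlgebraicIndependent (ecl K) (Sum.elim t l) := by
  apply algInd_of_R
  have h1 := key t ht l (fun q hq' => hq q (alg_of_mem ht (exp_mem hq') (exp_sum hl q)))
  have h2 : Low.R (ecl K) (Sum.elim t (pt l)) ≤ Low.R (ecl K) (Sum.elim t l) := by
    apply Low.R_mono
    intro D hD
    have hDt : ∀ w ∈ IntermediateField.adjoin ℚ (range t), (D.restrictScalars ℚ) w = 0 := by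
      apply kills_adjoin
      rintro _ ⟨j, rfl⟩
      exact hD (Sum.inl j)
    rintro (j | (i | i))
    · exact hD (Sum.inl j)
    · exact hD (Sum.inr i)
    · exact kills_alg hDt (hl i)
  rw [Fintype.card_sum, Fintype.card_fin, Fintype.card_fin]
  exact h1.trans h2

end Pool.Agent.Helper78.EC.Use
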