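import Mathlib
import Pool.Agent.Helper78.EC.Use

/-!
# Linear disjointness of the algebraic closure of `ℚ(t)` and the exponential algebraic closure
-/

set_option autoImplicit false


namespace Pool.Agent.Helper78.EC.Disj

open Module Set
open Pool.Agent.Helper78.SC Pool.Agent.Helper78.SC.Ax
open Pool.Agent.Helper78.EC.Closure Pool.Agent.Helper78.EC.Generic Pool.Agent.Helper78.EC.Use

/-- The field of algebraic numbers. -/
noncomputable abbrev QB : IntermediateField ℚ ℂ := algebraicClosure ℚ ℂ

theorem mem_QB {w : ℂ} : w ∈ QB ↔ IsAlgebraic ℚ w := mem_algebraicClosure_iff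

/-- The field of the numbers which are algebraic over `ℚ(t_1, …, t_m)`. -/
noncomputable def Kt {m : ℕ} (t : Fin m → ℂ) : IntermediateField ℚ ℂ :=
  (algebraicClosure (IntermediateField.adjoin ℚ (range t)) ℂ).restrictScalars ℚ

theorem mem_Kt {m : ℕ} {t : Fin m → ℂ} {w : ℂ} :
    w ∈ Kt t ↔ IsAlgebraic (IntermediateField.adjoin ℚ (range t)) w := by
  unfold Kt
  rw [IntermediateField.mem_restrictScalars, mem_algebraicClosure_iff]

theorem QB_le {m : ℕ} (t : Fin m → ℂ) : QB ≤ Kt t := fun _ hw =>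
  mem_Kt.2 ((mem_QB.1 hw).tower_top _)

theorem QB_le_ecl : QB ≤ ecl ⊥ := fun _ hw => alg_mem ((mem_QB.1 hw).tower_top _)

theorem der_aeval {F K : IntermediateField ℚ ℂ} (hFK : F ≤ K) {D : Derivation ℚ ℂ ℂ}
    (hD : ∀ u ∈ F, D u ∈ K) {w : ℂ} (hw : w ∈ K) (p : Polynomial F) :
    ∃ u ∈ K, D (Polynomial.aeval w p) = u + Polynomial.aeval w (Polynomial.derivative p) * D w := by
  induction p using Polynomial.induction_on' with
  | add p q hp hq =>
    obtain ⟨u, hu, h1⟩ := hp
    obtain ⟨v, hv, h2⟩ := hq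
    refine ⟨u + v, K.add_mem hu hv, ?_⟩
    rw [map_add, map_add, h1, h2, Polynomial.derivative_add, map_add]
    ring
  | monomial n a =>
    refine ⟨w ^ n * D (a : ℂ), K.mul_mem (K.pow_mem hw n) (hD _ a.2), ?_⟩
    rw [Polynomial.aeval_monomial, Derivation.leibniz, Derivation.leibniz_pow,
      Polynomial.derivative_monomial, Polynomial.aeval_monomial, map_mul, map_natCast]
    simp only [smul_eq_mul, nsmul_eq_mul]
    change (a : ℂ) * _ + w ^ n * D (a : ℂ) = _
    change _ = _ + (a : ℂ) * _ * _ * _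
    ring

theorem der_mem_adjoin {S : Set ℂ} {D : Derivation ℚ ℂ ℂ}
    (hD : ∀ s ∈ S, D s ∈ IntermediateField.adjoin ℚ S) :
    ∀ w ∈ IntermediateField.adjoin ℚ S, D w ∈ IntermediateField.adjoin ℚ S := by
  intro w hw
  induction hw using IntermediateField.adjoin_induction with
  | mem a ha => exact hD a ha
  | algebraMap a => rw [Derivation.map_algebraMap]; exact zero_mem _
  | add a b ha hb iha ihb => rw [map_add]; exact add_mem iha ihb
  | inv a ha iha =>
    rw [Derivation.leibniz_inv]
    exact mul_mem (neg_mem (pow_mem (inv_mem ha) 2)) iha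
  | mul a b ha hb iha ihb =>
    rw [Derivation.leibniz]
    exact add_mem (mul_mem ha ihb) (mul_mem hb iha)

theorem der_mem_Kt {m : ℕ} {t : Fin m → ℂ} {D : Derivation ℚ ℂ ℂ}
    (hD : ∀ j, D (t j) ∈ IntermediateField.adjoin ℚ (range t)) {w : ℂ} (hw : w ∈ Kt t) :
    D w ∈ Kt t := by
  have hF : IntermediateField.adjoin ℚ (range t) ≤ Kt t := fun u hu =>
    mem_Kt.2 (isAlgebraic_algebraMap (⟨u, hu⟩ : IntermediateField.adjoin ℚ (range t)))
  have hDF := der_mem_adjoin (S := range t) (D := D) (by rintro _ ⟨j, rfl⟩; exact hD j)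
  have halg := mem_Kt.1 hw
  set p := minpoly (IntermediateField.adjoin ℚ (range t)) w with hp
  obtain ⟨u, hu, h1⟩ := der_aeval hF (fun u hu => hF (hDF u hu)) hw p
  rw [hp, minpoly.aeval, map_zero] at h1
  have hne : Polynomial.aeval w (Polynomial.derivative p) ≠ 0 := by
    have hch : CharZero (IntermediateField.adjoin ℚ (range t)) :=
      charZero_of_injective_algebraMap (algebraMap ℚ _).injective
    have hsep : p.Separable := (minpoly.irreducible halg.isIntegral).separable
    exact hsep.aeval_derivative_ne_zero (minpoly.aeval _ w)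
  have hmem : Polynomial.aeval w (Polynomial.derivative p) ∈ Kt t := by
    rw [Polynomial.aeval_eq_sum_range]
    refine sum_mem (fun i _ => ?_)
    rw [Algebra.smul_def]
    exact mul_mem (hF (Subtype.property _)) (pow_mem hw i)
  have h2 : D w = -u / Polynomial.aeval w (Polynomial.derivative p) := by
    rw [eq_div_iff hne]
    linear_combination -h1
  rw [h2]
  exact div_mem (neg_mem hu) hmem

/-- an element of the algebraic closure of `ℚ(t)` which is killed by enough derivations is an
algebraic number -/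
theorem alg_of_killed {m : ℕ} {t : Fin m → ℂ} (D : Fin m → Derivation ℚ ℂ ℂ)
    (hD : ∀ i j, D i (t j) = if i = j then 1 else 0) {w : ℂ} (hw : w ∈ Kt t)
    (h : ∀ i, D i w = 0) : w ∈ QB := by
  rw [mem_QB]
  by_contra hcon
  have h1 : AlgebraicIndependent ℚ (fun _ : Unit => w) :=
    algebraicIndependent_unique_type_iff.2 hcon
  obtain ⟨D₀, hD₀⟩ := Pool.Agent.H135R2.VS.exists_der h1 (fun _ => (1 : ℂ))
  let D' : Derivation ℚ ℂ ℂ := D₀ - ∑ i, D₀ (t i) • D i
  have hD' : ∀ x, D' x = D₀ x - ∑ i, D₀ (t i) * D i x := by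
    intro x
    change (D₀ - ∑ i, D₀ (t i) • D i) x = _
    rw [Derivation.sub_apply]
    congr 1
    have : ∀ s : Finset (Fin m), (∑ i ∈ s, D₀ (t i) • D i) x = ∑ i ∈ s, D₀ (t i) * D i x := by
      intro s
      induction s using Finset.induction_on with
      | empty => simp
      | insert a s ha ih => rw [Finset.sum_insert ha, Finset.sum_insert ha, Derivation.add_apply, ih,
          Derivation.smul_apply, smul_eq_mul]
    exact this _
  have h2 : ∀ u ∈ IntermediateField.adjoin ℚ (range t), D' u = 0 := by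
    apply kills_adjoin
    rintro _ ⟨j, rfl⟩
    rw [hD']
    simp [hD]
  have h3 := kills_alg h2 (mem_Kt.1 hw)
  rw [hD'] at h3
  simp only [h, mul_zero, Finset.sum_const_zero, sub_zero] at h3
  rw [hD₀ ()] at h3
  exact one_ne_zero h3

/-- **Linear disjointness.** -/
theorem disj {m : ℕ} {t : Fin m → ℂ} (ht : AlgebraicIndependent (ecl ⊥) t) {ι : Type*}
    (s : Finset ι) (κ e : ι → ℂ) (hκ : ∀ i ∈ s, κ i ∈ Kt t) (he : ∀ i ∈ s, e i ∈ ecl ⊥)
    (hli : ∀ c : ι → ℂ, (∀ i ∈ s, c i ∈ QB) → ∑ i ∈ s, c i * e i = 0 → ∀ i ∈ s, c i = 0)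
    (h : ∑ i ∈ s, κ i * e i = 0) : ∀ i ∈ s, κ i = 0 := by
  classical
  have hD : ∀ i : Fin m, ∃ D : Derivation ℚ ℂ ℂ, (∀ w ∈ ecl ⊥, D w = 0) ∧
      ∀ j, D (t j) = if i = j then 1 else 0 := fun i =>
    exists_der ht (fun j => if i = j then 1 else 0)
  choose D hD1 hD2 using hD
  have hDK : ∀ i, ∀ w ∈ Kt t, D i w ∈ Kt t := by
    intro i w hw
    apply der_mem_Kt _ hw
    intro j
    rw [hD2]
    split_ifs
    · exact one_mem _
    · exact zero_mem _
  induction s using Finset.strongInduction generalizing κ with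
  | H s ih =>
    by_contra hcon
    push Not at hcon
    obtain ⟨s₀, hs₀, hne⟩ := hcon
    let κ' : ι → ℂ := fun i => κ i / κ s₀
    have hκ' : ∀ i ∈ s, κ' i ∈ Kt t := fun i hi => div_mem (hκ i hi) (hκ s₀ hs₀)
    have hsum : ∑ i ∈ s, κ' i * e i = 0 := by
      have : ∑ i ∈ s, κ' i * e i = (∑ i ∈ s, κ i * e i) / κ s₀ := by
        rw [Finset.sum_div]
        exact Finset.sum_congr rfl (fun i _ => by simp only [κ']; ring)
      rw [this, h, zero_div]
    have hone : κ' s₀ = 1 := div_self hne
    have hQ : ∀ i ∈ s, κ' i ∈ QB := by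
      intro i hi
      apply alg_of_killed D hD2 (hκ' i hi)
      intro k
      by_cases hi0 : i = s₀
      · rw [hi0, hone, Derivation.map_one_eq_zero]
      · have h1 : ∑ j ∈ s.erase s₀, D k (κ' j) * e j = 0 := by
          have h2 := congrArg (D k) hsum
          rw [map_zero, map_sum, ← Finset.add_sum_erase s _ hs₀] at h2
          have h3 : ∀ j ∈ s, D k (κ' j * e j) = D k (κ' j) * e j := by
            intro j hj
            rw [Derivation.leibniz, hD1 k _ (he j hj), smul_zero, zero_add, smul_eq_mul, mul_comm]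
          rw [h3 s₀ hs₀, hone, Derivation.map_one_eq_zero, zero_mul, zero_add] at h2
          rw [← h2]
          exact Finset.sum_congr rfl (fun j hj => (h3 j (Finset.mem_of_mem_erase hj)).symm)
        exact ih (s.erase s₀) (Finset.erase_ssubset hs₀) (fun j => D k (κ' j))
          (fun j hj => hDK k _ (hκ' j (Finset.mem_of_mem_erase hj)))
          (fun j hj => he j (Finset.mem_of_mem_erase hj)) (by
            intro c hc hcs j hj
            have h4 := hli (fun j => if j = s₀ then 0 else c j) (by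
              intro j hj
              split_ifs with h5
              · exact zero_mem _
              · exact hc j (Finset.mem_erase.2 ⟨h5, hj⟩)) (by
              rw [← Finset.add_sum_erase s _ hs₀, if_pos rfl, zero_mul, zero_add, ← hcs]
              exact Finset.sum_congr rfl (fun j hj => by rw [if_neg (Finset.ne_of_mem_erase hj)]))
              j (Finset.mem_of_mem_erase hj)
            rwa [if_neg (Finset.ne_of_mem_erase hj)] at h4) h1 i (Finset.mem_erase.2 ⟨hi0, hi⟩)
    have h5 := hli κ' hQ hsum s₀ hs₀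
    rw [hone] at h5
    exact one_ne_zero h5

/-- a linear map over the algebraic numbers, applied to the coefficients of a relation -/
theorem disj_map {m : ℕ} {t : Fin m → ℂ} (ht : AlgebraicIndependent (ecl ⊥) t) {ι : Type*}
    [Fintype ι] (A : Submodule QB ℂ) (ψ : A →ₗ[QB] QB) (κ : ι → A) (hκ : ∀ i, (κ i : ℂ) ∈ Kt t)
    (f : ι → ℂ) (hf : ∀ i, f i ∈ ecl ⊥) (h : ∑ i, (κ i : ℂ) * f i = 0) :
    ∑ i, (ψ (κ i) : ℂ) * f i = 0 := by
  classical
  let P : Submodule QB ℂ := Submodule.span QB (range f)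
  have hfin : FiniteDimensional QB P := FiniteDimensional.span_of_finite QB (finite_range f)
  let b := finBasis QB P
  let f' : ι → P := fun i => ⟨f i, Submodule.subset_span ⟨i, rfl⟩⟩
  have hrep : ∀ i, f i = ∑ q, ((b.repr (f' i) q : QB) : ℂ) * (b q : ℂ) := by
    intro i
    have h1 := congrArg (fun x : P => (x : ℂ)) (b.sum_repr (f' i))
    rw [← show ((f' i : P) : ℂ) = f i from rfl]
    rw [← h1]
    change ((∑ q, b.repr (f' i) q • b q : P) : ℂ) = _
    rw [Submodule.coe_sum]
    rfl
  have hPe : ∀ x ∈ P, x ∈ ecl ⊥ := by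
    intro x hx
    induction hx using Submodule.span_induction with
    | mem a ha => obtain ⟨i, rfl⟩ := ha; exact hf i
    | zero => exact zero_mem _
    | add a b _ _ iha ihb => exact add_mem iha ihb
    | smul c a _ iha =>
      rw [Algebra.smul_def]
      exact mul_mem (QB_le_ecl c.2) iha
  have h1 : ∑ q, (∑ i, (κ i : ℂ) * ((b.repr (f' i) q : QB) : ℂ)) * (b q : ℂ) = 0 := by
    rw [← h]
    simp only [Finset.sum_mul]
    rw [Finset.sum_comm]
    refine Finset.sum_congr rfl (fun i _ => ?_)
    conv_rhs => rw [hrep i, Finset.mul_sum]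
    exact Finset.sum_congr rfl (fun q _ => by ring)
  have h2 := disj ht Finset.univ (fun q => ∑ i, (κ i : ℂ) * ((b.repr (f' i) q : QB) : ℂ))
    (fun q => (b q : ℂ)) (fun q _ => sum_mem (fun i _ => mul_mem (hκ i) (QB_le t (Subtype.property _))))
    (fun q _ => hPe _ (b q).2) (by
      intro c hc hcs q hq
      let c' : _ → QB := fun q => ⟨c q, hc q (Finset.mem_univ q)⟩
      have h3 : ∑ q, c' q • b q = 0 := by
        apply Subtype.ext
        rw [Submodule.coe_sum, Submodule.coe_zero, ← hcs]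
        rfl
      have h4 := Fintype.linearIndependent_iff.1 b.linearIndependent c' h3 q
      exact congrArg (fun x : QB => (x : ℂ)) h4) h1
  have h3 : ∀ q, ∑ i, (ψ (κ i) : ℂ) * ((b.repr (f' i) q : QB) : ℂ) = 0 := by
    intro q
    have h4 : ∑ i, (b.repr (f' i) q) • κ i = 0 := by
      apply Subtype.ext
      rw [Submodule.coe_sum, Submodule.coe_zero, ← h2 q (Finset.mem_univ q)]
      refine Finset.sum_congr rfl (fun i _ => ?_)
      rw [mul_comm]
      rfl
    have h5 := congrArg ψ h4
    rw [map_sum, map_zero] at h5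
    have h6 := congrArg (fun x : QB => (x : ℂ)) h5
    change ((∑ i, ψ (b.repr (f' i) q • κ i) : QB) : ℂ) = ((0 : QB) : ℂ) at h6
    rw [IntermediateField.coe_sum, IntermediateField.coe_zero] at h6
    rw [← h6]
    refine Finset.sum_congr rfl (fun i _ => ?_)
    rw [map_smul, smul_eq_mul, IntermediateField.coe_mul, mul_comm]
  calc ∑ i, (ψ (κ i) : ℂ) * f i
      = ∑ i, ∑ q, (ψ (κ i) : ℂ) * (((b.repr (f' i) q : QB) : ℂ) * (b q : ℂ)) := by
        refine Finset.sum_congr rfl (fun i _ => ?_)
        conv_lhs => rw [hrep i, Finset.mul_sum]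
    _ = ∑ q, (∑ i, (ψ (κ i) : ℂ) * ((b.repr (f' i) q : QB) : ℂ)) * (b q : ℂ) := by
        rw [Finset.sum_comm]
        refine Finset.sum_congr rfl (fun q _ => ?_)
        rw [Finset.sum_mul]
        exact Finset.sum_congr rfl (fun i _ => by ring)
    _ = 0 := Finset.sum_eq_zero (fun q _ => by rw [h3 q, zero_mul])

/-- points of finitely generated algebras over the algebraic numbers -/
theorem exists_hom (S : Finset ℂ) : Nonempty (Algebra.adjoin QB (S : Set ℂ) →ₐ[QB] QB) := by
  have hft : Algebra.FiniteType QB (Algebra.adjoin QB (S : Set ℂ)) :=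
    (Subalgebra.fg_iff_finiteType _).1 ⟨S, rfl⟩
  obtain ⟨M, hM⟩ := Ideal.exists_maximal (Algebra.adjoin QB (S : Set ℂ))
  let L := Algebra.adjoin QB (S : Set ℂ) ⧸ M
  let : Field L := Ideal.Quotient.field M
  have hfinL : Module.Finite QB L := finite_of_finite_type_of_isJacobsonRing QB L
  have halg : Algebra.IsAlgebraic QB L := Algebra.IsAlgebraic.of_finite QB L
  have hac : IsAlgClosed QB := (algebraicClosure.isAlgClosure ℚ ℂ).isAlgClosed
  exact ⟨(IsAlgClosed.lift : L →ₐ[QB] QB).comp (Ideal.Quotient.mkₐ QB M)⟩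

end Pool.Agent.Helper78.EC.Disj
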