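import Mathlib
import Pool.Agent.Helper78.EC.Disj

/-!
# The structure of the algebraic relations between logarithms over generic fields
-/

set_option autoImplicit false

namespace Pool.Agent.Helper78.EC.Str

open Module Set MvPolynomial
open Pool.Agent.Helper78.SC Pool.Agent.Helper78.SC.Ax
open Pool.Agent.Helper78.EC.Closure Pool.Agent.Helper78.EC.Generic Pool.Agent.Helper78.EC.Use
open Pool.Agent.Helper78.EC.Disj

variable {m : ℕ} {t : Fin m → ℂ}

/-- **Linear disjointness**, for numbers which are killed by the derivations. -/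
theorem disj_gen (D : Fin m → Derivation ℚ ℂ ℂ)
    (hD2 : ∀ i j, D i (t j) = if i = j then 1 else 0) {ι : Type*}
    (s : Finset ι) (κ e : ι → ℂ) (hκ : ∀ i ∈ s, κ i ∈ Kt t) (he : ∀ i ∈ s, ∀ k, D k (e i) = 0)
    (hli : ∀ c : ι → ℂ, (∀ i ∈ s, c i ∈ QB) → ∑ i ∈ s, c i * e i = 0 → ∀ i ∈ s, c i = 0)
    (h : ∑ i ∈ s, κ i * e i = 0) : ∀ i ∈ s, κ i = 0 := by
  classical
  have hDK : ∀ i, ∀ w ∈ Kt t, D i w ∈ Kt t := by
    intro i w hw
    apply der_mem_Kt _ hw
    intro j
    rw [hD2]
    split_ifs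
    · exact one_mem _
    · exact zero_mem _
  induction s using Finset.strongInduction generalizing κ with
  | H s ih =>
    by_contra hcon
    push Not at hcon
    obtain ⟨s₀, hs₀, hne⟩ := hcon
    let κ' : ι → ℂ := fun i => κ i / κ s₀
    have hκ' : ∀ i ∈ s, κ' i ∈ Kt t := fun i hi => div_mem (hκ i hi) (hκ s₀ hs₀)
    have hsum : ∑ i ∈ s, κ' i * e i = 0 := by
      have : ∑ i ∈ s, κ' i * e i = (∑ i ∈ s, κ i * e i) / κ s₀ := by
        rw [Finset.sum_div]
        exact Finset.sum_congr rfl (fun i _ => by simp only [κ']; ring)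
      rw [this, h, zero_div]
    have hone : κ' s₀ = 1 := div_self hne
    have hQ : ∀ i ∈ s, κ' i ∈ QB := by
      intro i hi
      apply alg_of_killed D hD2 (hκ' i hi)
      intro k
      by_cases hi0 : i = s₀
      · rw [hi0, hone, Derivation.map_one_eq_zero]
      · have h1 : ∑ j ∈ s.erase s₀, D k (κ' j) * e j = 0 := by
          have h2 := congrArg (D k) hsum
          rw [map_zero, map_sum, ← Finset.add_sum_erase s _ hs₀] at h2
          have h3 : ∀ j ∈ s, D k (κ' j * e j) = D k (κ' j) * e j := by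
            intro j hj
            rw [Derivation.leibniz, he j hj k, smul_zero, zero_add, smul_eq_mul, mul_comm]
          rw [h3 s₀ hs₀, hone, Derivation.map_one_eq_zero, zero_mul, zero_add] at h2
          rw [← h2]
          exact Finset.sum_congr rfl (fun j hj => (h3 j (Finset.mem_of_mem_erase hj)).symm)
        exact ih (s.erase s₀) (Finset.erase_ssubset hs₀) (fun j => D k (κ' j))
          (fun j hj => hDK k _ (hκ' j (Finset.mem_of_mem_erase hj)))
          (fun j hj => he j (Finset.mem_of_mem_erase hj)) (by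
            intro c hc hcs j hj
            have h4 := hli (fun j => if j = s₀ then 0 else c j) (by
              intro j hj
              split_ifs with h5
              · exact zero_mem _
              · exact hc j (Finset.mem_erase.2 ⟨h5, hj⟩)) (by
              rw [← Finset.add_sum_erase s _ hs₀, if_pos rfl, zero_mul, zero_add, ← hcs]
              exact Finset.sum_congr rfl (fun j hj => by rw [if_neg (Finset.ne_of_mem_erase hj)]))
              j (Finset.mem_of_mem_erase hj)
            rwa [if_neg (Finset.ne_of_mem_erase hj)] at h4) h1 i (Finset.mem_erase.2 ⟨hi0, hi⟩)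
    have h5 := hli κ' hQ hsum s₀ hs₀
    rw [hone] at h5
    exact one_ne_zero h5

/-- the other side of the linear disjointness -/
theorem disj_symm (D : Fin m → Derivation ℚ ℂ ℂ)
    (hD2 : ∀ i j, D i (t j) = if i = j then 1 else 0)
    (hDQ : ∀ i, ∀ w ∈ QB, D i w = 0) {ι : Type*} [Fintype ι]
    (κ e : ι → ℂ) (hκ : ∀ i, κ i ∈ Kt t) (he : ∀ i, ∀ k, D k (e i) = 0)
    (hli : LinearIndependent QB κ) (h : ∑ i, κ i * e i = 0) : ∀ i, e i = 0 := by
  classical
  let P : Submodule QB ℂ := Submodule.span QB (range e)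
  have hfin : FiniteDimensional QB P := FiniteDimensional.span_of_finite QB (finite_range e)
  let b := finBasis QB P
  let e' : ι → P := fun i => ⟨e i, Submodule.subset_span ⟨i, rfl⟩⟩
  have hrep : ∀ i, e i = ∑ q, ((b.repr (e' i) q : QB) : ℂ) * (b q : ℂ) := by
    intro i
    have h1 := congrArg (fun x : P => (x : ℂ)) (b.sum_repr (e' i))
    rw [← show ((e' i : P) : ℂ) = e i from rfl]
    rw [← h1]
    change ((∑ q, b.repr (e' i) q • b q : P) : ℂ) = _
    rw [Submodule.coe_sum]
    rfl
  have hPe : ∀ x ∈ P, ∀ k, D k x = 0 := by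
    intro x hx
    induction hx using Submodule.span_induction with
    | mem a ha => obtain ⟨i, rfl⟩ := ha; exact he i
    | zero => intro k; exact map_zero _
    | add a b _ _ iha ihb => intro k; rw [map_add, iha, ihb, add_zero]
    | smul c a _ iha =>
      intro k
      rw [Algebra.smul_def, Derivation.leibniz, iha, smul_zero, zero_add]
      have : D k (algebraMap QB ℂ c) = 0 := hDQ k _ c.2
      rw [this, smul_zero]
  have h1 : ∑ q, (∑ i, κ i * ((b.repr (e' i) q : QB) : ℂ)) * (b q : ℂ) = 0 := by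
    rw [← h]
    simp only [Finset.sum_mul]
    rw [Finset.sum_comm]
    refine Finset.sum_congr rfl (fun i _ => ?_)
    conv_rhs => rw [hrep i, Finset.mul_sum]
    exact Finset.sum_congr rfl (fun q _ => by ring)
  have h2 := disj_gen D hD2 Finset.univ (fun q => ∑ i, κ i * ((b.repr (e' i) q : QB) : ℂ))
    (fun q => (b q : ℂ)) (fun q _ => sum_mem (fun i _ => mul_mem (hκ i) (QB_le t (Subtype.property _))))
    (fun q _ => hPe _ (b q).2) (by
      intro c hc hcs q hq
      let c' : _ → QB := fun q => ⟨c q, hc q (Finset.mem_univ q)⟩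
      have h3 : ∑ q, c' q • b q = 0 := by
        apply Subtype.ext
        rw [Submodule.coe_sum, Submodule.coe_zero, ← hcs]
        rfl
      have h4 := Fintype.linearIndependent_iff.1 b.linearIndependent c' h3 q
      exact congrArg (fun x : QB => (x : ℂ)) h4) h1
  have h3 : ∀ q i, (b.repr (e' i) q : QB) = 0 := by
    intro q
    apply Fintype.linearIndependent_iff.1 hli (fun i => b.repr (e' i) q)
    rw [← h2 q (Finset.mem_univ q)]
    refine Finset.sum_congr rfl (fun i _ => ?_)
    rw [Algebra.smul_def, mul_comm]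
    rfl
  intro i
  rw [hrep i]
  exact Finset.sum_eq_zero (fun q _ => by rw [h3 q i]; simp)

/-- derivations with given values at `t` and at independent logarithms -/
theorem decomp {n : ℕ} (ht : Gen ⊥ t) (x : Fin n → ℂ) (hx : ∀ i, Complex.exp (x i) ∈ Kt t) :
    ∃ (s : ℕ) (a : Fin n → ℂ) (A : Fin n → Fin s → ℚ) (w : Fin s → ℂ),
      (∀ i, Complex.exp (a i) ∈ QB) ∧ (∀ i, x i = a i + ∑ j, (A i j : ℂ) * w j) ∧
      (∀ j, Complex.exp (w j) ∈ Kt t) ∧ AlgebraicIndependent (ecl ⊥) (Sum.elim t w) := by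
  let W : Submodule ℚ ℂ := Submodule.span ℚ (range x)
  have hfin : FiniteDimensional ℚ W := FiniteDimensional.span_of_finite ℚ (finite_range x)
  have hW : ∀ w ∈ W, Complex.exp w ∈ Kt t := by
    intro w hw
    obtain ⟨q, rfl⟩ := (Submodule.mem_span_range_iff_exists_fun ℚ).1 hw
    have := mem_Kt.2 (Use.exp_sum (fun i => mem_Kt.1 (hx i)) q)
    simpa only [Rat.smul_def] using this
  let P : Submodule ℚ ℂ :=
    { carrier := {l | IsAlgebraic ℚ (Complex.exp l)}
      add_mem' := by
        intro a b ha hb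
        rw [mem_ofPred_eq, Complex.exp_add]
        exact IsAlgebraic.mul ha hb
      zero_mem' := by
        rw [mem_ofPred_eq, Complex.exp_zero]
        exact isAlgebraic_one
      smul_mem' := by
        intro q l hl
        rw [mem_ofPred_eq, Rat.smul_def]
        exact Use.exp_rat hl q }
  let W₀ : Submodule ℚ W := P.comap W.subtype
  obtain ⟨W₁, hc⟩ := W₀.exists_isCompl
  let b₁ := finBasis ℚ W₁
  have hdec : ∀ i, ∃ a ∈ W₀, ∃ b ∈ W₁, a + b = (⟨x i, Submodule.subset_span ⟨i, rfl⟩⟩ : W) := by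
    intro i
    apply Submodule.mem_sup.1
    rw [hc.sup_eq_top]
    trivial
  choose a ha b hb hab using hdec
  refine ⟨finrank ℚ W₁, fun i => (a i : ℂ), fun i k => b₁.repr ⟨b i, hb i⟩ k,
    fun k => ((b₁ k : W) : ℂ), fun i => mem_QB.2 (ha i), fun i => ?_, fun j => hW _ (b₁ j : W).2, ?_⟩
  · have h2 : b i = ∑ k, b₁.repr ⟨b i, hb i⟩ k • (b₁ k : W) := by
      have := congrArg (fun y : W₁ => (y : W)) (b₁.sum_repr ⟨b i, hb i⟩)
      change ((∑ k, b₁.repr ⟨b i, hb i⟩ k • b₁ k : W₁) : W) = b i at this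
      rw [Submodule.coe_sum] at this
      exact this.symm
    have h3 : x i = ((a i + b i : W) : ℂ) := by rw [hab]
    rw [h3, Submodule.coe_add]
    congr 1
    conv_lhs => rw [h2]
    rw [Submodule.coe_sum]
    exact Finset.sum_congr rfl (fun r _ => Rat.smul_def _ _)
  · refine Use.log_algInd ht (l := fun i => ((b₁ i : W) : ℂ))
      (fun i => mem_Kt.1 (hW _ (b₁ i : W).2)) ?_
    intro q hq
    have h2 : (∑ i, q i • b₁ i : W₁) = 0 := by
      have h3 : ((∑ i, q i • b₁ i : W₁) : W) ∈ W₀ := by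
        change (((∑ i, q i • b₁ i : W₁) : W) : ℂ) ∈ P
        have h4 : (((∑ i, q i • b₁ i : W₁) : W) : ℂ) = ∑ i, (q i : ℂ) * ((b₁ i : W) : ℂ) := by
          rw [Submodule.coe_sum, Submodule.coe_sum]
          exact Finset.sum_congr rfl (fun i _ => Rat.smul_def _ _)
        rw [h4]
        exact hq
      exact Subtype.ext (Submodule.disjoint_def.1 hc.disjoint _ h3 (∑ i, q i • b₁ i : W₁).2)
    exact funext (Fintype.linearIndependent_iff.1 b₁.linearIndependent q h2)

theorem log_mem_ecl {a : ℂ} (ha : Complex.exp a ∈ QB) : a ∈ ecl ⊥ :=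
  log_mem (QB_le_ecl ha)

/-- the derivations dual to `t` which kill given logarithms -/
theorem exists_dual {n : ℕ} (ht : Gen ⊥ t) (x : Fin n → ℂ) (hx : ∀ i, Complex.exp (x i) ∈ Kt t) :
    ∃ D : Fin m → Derivation ℚ ℂ ℂ, (∀ i j, D i (t j) = if i = j then 1 else 0) ∧
      (∀ i, ∀ w ∈ ecl ⊥, D i w = 0) ∧ ∀ i j, D i (x j) = 0 := by
  obtain ⟨s, a, A, w, ha, hxa, hw, hai⟩ := decomp ht x hx
  choose D hD1 hD2 using fun i : Fin m =>
    exists_der hai (Sum.elim (fun j => if i = j then 1 else 0) 0)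
  refine ⟨D, fun i j => hD2 i (Sum.inl j), hD1, fun i j => ?_⟩
  rw [hxa, map_add, hD1 i _ (log_mem_ecl (ha j)), zero_add, map_sum]
  refine Finset.sum_eq_zero (fun k _ => ?_)
  rw [Ax.rat_mul]
  have h1 : D i (w k) = 0 := hD2 i (Sum.inr k)
  rw [h1, mul_zero]

/-- the field generated by the algebraic numbers and all logarithms of elements of `Kt t` -/
noncomputable def LF (t : Fin m → ℂ) : IntermediateField ℚ ℂ :=
  IntermediateField.adjoin ℚ ((QB : Set ℂ) ∪ {x | Complex.exp x ∈ Kt t})

/-- finitely many elements of `LF t` -/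
theorem exists_dual_LF {ι : Type} [Finite ι] (ht : Gen ⊥ t) (y : ι → ℂ) (hy : ∀ i, y i ∈ LF t) :
    ∃ D : Fin m → Derivation ℚ ℂ ℂ, (∀ i j, D i (t j) = if i = j then 1 else 0) ∧
      (∀ i, ∀ w ∈ ecl ⊥, D i w = 0) ∧ ∀ i k, D i (y k) = 0 := by
  classical
  have h1 : ∀ k, ∃ T : Finset ℂ, (T : Set ℂ) ⊆ (QB : Set ℂ) ∪ {x | Complex.exp x ∈ Kt t} ∧
      y k ∈ IntermediateField.adjoin ℚ (T : Set ℂ) := fun k =>
    IntermediateField.exists_finset_of_mem_adjoin (hy k)
  choose T hT1 hT2 using h1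
  have : Fintype ι := Fintype.ofFinite ι
  let U : Finset ℂ := (Finset.univ.biUnion T).filter (fun x => Complex.exp x ∈ Kt t)
  let e := U.equivFin
  obtain ⟨D, h1, h2, h3⟩ := exists_dual ht (fun i => ((e.symm i : U) : ℂ))
    (fun i => (Finset.mem_filter.1 (e.symm i).2).2)
  refine ⟨D, h1, h2, fun i k => ?_⟩
  refine kills_adjoin (S := (T k : Set ℂ)) ?_ _ (hT2 k)
  intro x hx
  rcases hT1 k hx with h4 | h4
  · exact h2 i x (QB_le_ecl h4)
  · have h5 : x ∈ U := Finset.mem_filter.2 ⟨Finset.mem_biUnion.2 ⟨k, Finset.mem_univ _, hx⟩, h4⟩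
    have h6 := h3 i (e ⟨x, h5⟩)
    rwa [Equiv.symm_apply_apply] at h6

/-- **Linear disjointness of `Kt t` and of the field generated by all logarithms.** -/
theorem disjoint {ι : Type} [Fintype ι] (ht : Gen ⊥ t) (κ y : ι → ℂ) (hκ : ∀ i, κ i ∈ Kt t)
    (hy : ∀ i, y i ∈ LF t) (hli : LinearIndependent QB κ) (h : ∑ i, κ i * y i = 0) :
    ∀ i, y i = 0 := by
  obtain ⟨D, h1, h2, h3⟩ := exists_dual_LF ht y hy
  exact disj_symm D h1 (fun i w hw => h2 i w (QB_le_ecl hw)) κ y hκ (fun i k => h3 k i) hli h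

/-- relations over the algebraic numbers hold on the whole translate -/
theorem translate {n s : ℕ} {a : Fin n → ℂ} {A : Fin n → Fin s → ℚ} {w : Fin s → ℂ}
    (ha : ∀ i, Complex.exp (a i) ∈ QB) (hai : AlgebraicIndependent (ecl ⊥) w)
    (g : MvPolynomial (Fin n) QB) (hg : aeval (fun i => a i + ∑ j, (A i j : ℂ) * w j) g = 0)
    (v : Fin s → ℂ) : aeval (fun i => a i + ∑ j, (A i j : ℂ) * v j) g = 0 := by
  classical
  let E := ecl ⊥
  let ι : QB →+* E := (IntermediateField.inclusion QB_le_ecl).toRingHom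
  let F : Fin n → MvPolynomial (Fin s) E := fun i =>
    C (⟨a i, log_mem_ecl (ha i)⟩ : E) + ∑ j, C ((A i j : ℚ) : E) * X j
  let G : MvPolynomial (Fin s) E := aeval F (map ι g)
  have hev : ∀ v : Fin s → ℂ, aeval v G = aeval (fun i => a i + ∑ j, (A i j : ℂ) * v j) g := by
    intro v
    have h1 : ∀ p : MvPolynomial (Fin n) E, aeval v (aeval F p) =
        aeval (fun i => a i + ∑ j, (A i j : ℂ) * v j) p := by
      intro p
      have h2 : ((aeval v : MvPolynomial (Fin s) E →ₐ[E] ℂ).comp (aeval F)) =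
          aeval (fun i => a i + ∑ j, (A i j : ℂ) * v j) := by
        apply MvPolynomial.algHom_ext
        intro i
        rw [AlgHom.comp_apply, aeval_X, aeval_X]
        simp only [F, map_add, map_sum, map_mul, aeval_C, aeval_X]
        rfl
      exact DFunLike.congr_fun h2 p
    change aeval v (aeval F (map ι g)) = _
    rw [h1, aeval_def, eval₂_map]
    rfl
  have h1 : G = 0 := by
    rw [AlgebraicIndependent, injective_iff_map_eq_zero] at hai
    apply hai
    rw [hev]
    exact hg
  rw [← hev, h1, map_zero]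

theorem QB_le_LF : QB ≤ LF t := fun _ hw => IntermediateField.subset_adjoin ℚ _ (Or.inl hw)

theorem aeval_mem_LF {n : ℕ} {x : Fin n → ℂ} (hx : ∀ i, Complex.exp (x i) ∈ Kt t)
    (g : MvPolynomial (Fin n) QB) : aeval x g ∈ LF t := by
  induction g using MvPolynomial.induction_on with
  | C a =>
    rw [aeval_C]
    exact QB_le_LF a.2
  | add p q hp hq =>
    rw [map_add]
    exact add_mem hp hq
  | mul_X p i hp =>
    rw [map_mul, aeval_X]
    exact mul_mem hp (IntermediateField.subset_adjoin ℚ _ (Or.inr (hx i)))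

/-- **All relations are defined over the algebraic numbers.** -/
theorem relation {n : ℕ} (ht : Gen ⊥ t) (x : Fin n → ℂ) (hx : ∀ i, Complex.exp (x i) ∈ Kt t)
    (f : MvPolynomial (Fin n) (Kt t)) (hf : aeval x f = 0) :
    ∃ (N : ℕ) (κ : Fin N → Kt t) (g : Fin N → MvPolynomial (Fin n) QB),
      (∀ k, aeval x (g k) = 0) ∧ map (algebraMap (Kt t) ℂ) f =
        ∑ k, C ((κ k : Kt t) : ℂ) * map (algebraMap QB ℂ) (g k) := by
  classical
  let V : Submodule QB ℂ := Submodule.span QB
    ((f.support.image (fun s => ((f.coeff s : Kt t) : ℂ)) : Finset ℂ) : Set ℂ)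
  have hfin : FiniteDimensional QB V := FiniteDimensional.span_finset QB _
  let b := finBasis QB V
  have hVK : ∀ v ∈ V, v ∈ Kt t := by
    intro v hv
    induction hv using Submodule.span_induction with
    | mem a ha =>
      obtain ⟨s, -, rfl⟩ := Finset.mem_image.1 (Finset.mem_coe.1 ha)
      exact Subtype.property _
    | zero => exact zero_mem _
    | add a b _ _ iha ihb => exact add_mem iha ihb
    | smul c a _ iha =>
      rw [Algebra.smul_def]
      exact mul_mem (QB_le t c.2) iha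
  let c' : (Fin n →₀ ℕ) → V := fun s => if hs : s ∈ f.support then
    ⟨((f.coeff s : Kt t) : ℂ), Submodule.subset_span
      (Finset.mem_coe.2 (Finset.mem_image.2 ⟨s, hs, rfl⟩))⟩ else 0
  have hc' : ∀ s, ((c' s : V) : ℂ) = ((f.coeff s : Kt t) : ℂ) := by
    intro s
    by_cases hs : s ∈ f.support
    · simp only [c', dif_pos hs]
    · simp only [c', dif_neg hs]
      rw [notMem_support_iff.1 hs]
      simp
  have hrep : ∀ s, ((f.coeff s : Kt t) : ℂ) = ∑ q, ((b.repr (c' s) q : QB) : ℂ) * (b q : ℂ) := by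
    intro s
    rw [← hc' s]
    conv_lhs => rw [← b.sum_repr (c' s)]
    rw [Submodule.coe_sum]
    rfl
  let g : Fin (finrank QB V) → MvPolynomial (Fin n) QB := fun q =>
    ∑ s ∈ f.support, monomial s (b.repr (c' s) q)
  have hg : map (algebraMap (Kt t) ℂ) f = ∑ k, C ((b k : V) : ℂ) * map (algebraMap QB ℂ) (g k) := by
    conv_lhs => rw [f.as_sum]
    rw [map_sum]
    simp only [g, map_sum, map_monomial, Finset.mul_sum, C_mul_monomial]
    rw [Finset.sum_comm]
    refine Finset.sum_congr rfl (fun s _ => ?_)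
    rw [← map_sum (monomial s)]
    congr 1
    change ((f.coeff s : Kt t) : ℂ) = _
    rw [hrep s]
    exact Finset.sum_congr rfl (fun q _ => mul_comm _ _)
  refine ⟨_, fun k => ⟨(b k : ℂ), hVK _ (b k).2⟩, g, ?_, hg⟩
  have h1 : ∑ k, ((b k : V) : ℂ) * aeval x (g k) = 0 := by
    have h2 : eval x (map (algebraMap (Kt t) ℂ) f) = 0 := by
      rw [eval_map]
      exact hf
    rw [hg, map_sum] at h2
    rw [← h2]
    refine Finset.sum_congr rfl (fun k _ => ?_)
    rw [map_mul, eval_C, eval_map]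
    rfl
  have hli : LinearIndependent QB (fun k => ((b k : V) : ℂ)) :=
    b.linearIndependent.map' V.subtype (Submodule.ker_subtype V)
  exact disjoint ht (fun k => ((b k : V) : ℂ)) (fun k => aeval x (g k)) (fun k => hVK _ (b k).2)
    (fun k => aeval_mem_LF hx (g k)) hli h1

end Pool.Agent.Helper78.EC.Str
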