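import Mathlib
import Pool.Agent.Helper78.EC.Str

/-!
# Relations between two logarithms over generic fields
-/

set_option autoImplicit false

namespace Pool.Agent.Helper78.EC.Curve

open Module Set
open Pool.Agent.Helper78.SC Pool.Agent.Helper78.SC.Ax
open Pool.Agent.Helper78.EC.Closure Pool.Agent.Helper78.EC.Generic Pool.Agent.Helper78.EC.Use
open Pool.Agent.Helper78.EC.Disj Pool.Agent.Helper78.EC.Str

section irr

variable {K : Type} [Field K] [Algebra K ℂ]

open Polynomial in
/-- an irreducible polynomial with a zero whose first coordinate is transcendental -/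
theorem irr_dvd {x y : ℂ} (hx : Transcendental K x) {p q : K[X][X]} (hp : Irreducible p)
    (hpx : aevalAeval x y p = 0) (hqx : aevalAeval x y q = 0) : p ∣ q := by
  classical
  let F := FractionRing K[X]
  have hinj : Function.Injective (aeval x : K[X] →ₐ[K] ℂ) :=
    transcendental_iff_injective.1 hx
  let φ : F →+* ℂ := IsFractionRing.lift (A := K[X]) (K := F)
    (g := (aeval x : K[X] →ₐ[K] ℂ).toRingHom) hinj
  have hφ : ∀ r : K[X], φ (algebraMap K[X] F r) = aeval x r := fun r =>
    IsFractionRing.lift_algebraMap (A := K[X]) (K := F)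
      (g := (aeval x : K[X] →ₐ[K] ℂ).toRingHom) hinj r
  have hev : ∀ r : K[X][X], eval₂ φ y (r.map (algebraMap K[X] F)) = aevalAeval x y r := by
    intro r
    rw [eval₂_map]
    induction r using Polynomial.induction_on' with
    | add r s hr hs => rw [eval₂_add, map_add, hr, hs]
    | monomial n a =>
      rw [eval₂_monomial, RingHom.comp_apply, hφ, ← C_mul_X_pow_eq_monomial, map_mul, map_pow,
        aevalAeval_C, aevalAeval_Y]
  have hdeg : p.natDegree ≠ 0 := by
    intro h0
    rw [eq_C_of_natDegree_eq_zero h0, aevalAeval_C] at hpx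
    have h1 : p.coeff 0 = 0 := hinj (by rw [hpx, map_zero])
    apply hp.ne_zero
    rw [eq_C_of_natDegree_eq_zero h0, h1, C_0]
  have hprim : p.IsPrimitive := hp.isPrimitive hdeg
  have hirr : Irreducible (p.map (algebraMap K[X] F)) :=
    hprim.irreducible_iff_irreducible_map_fraction_map.1 hp
  apply hprim.dvd_of_fraction_map_dvd_fraction_map (K := F)
  by_contra hcon
  obtain ⟨u, v, huv⟩ := (hirr.coprime_iff_not_dvd).2 hcon
  have h1 := congrArg (eval₂ φ y) huv
  rw [eval₂_add, eval₂_mul, eval₂_mul, hev, hev, hpx, hqx, mul_zero, mul_zero, add_zero,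
    eval₂_one] at h1
  exact zero_ne_one h1

open MvPolynomial

theorem irr_dvd0 {x : Fin 2 → ℂ} (hx : Transcendental K (x 0)) {p q : MvPolynomial (Fin 2) K}
    (hp : Irreducible p) (hpx : aeval x p = 0) (hqx : aeval x q = 0) : p ∣ q := by
  let e := Polynomial.Bivariate.equivMvPolynomial K
  have hev : ∀ r : MvPolynomial (Fin 2) K, Polynomial.aevalAeval (x 0) (x 1) (e.symm r) =
      aeval x r := by
    intro r
    have h1 : (Polynomial.aevalAeval (R := K) (x 0) (x 1)).comp (e.symm : _ →ₐ[K] _) = aeval x := by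
      apply MvPolynomial.algHom_ext
      intro i
      rw [aeval_X, AlgHom.comp_apply]
      change Polynomial.aevalAeval (x 0) (x 1) (e.symm (X i)) = x i
      fin_cases i
      · change Polynomial.aevalAeval (x 0) (x 1) (e.symm (X 0)) = x 0
        rw [Polynomial.Bivariate.equivMvPolynomial_symm_X_0, Polynomial.aevalAeval_X]
      · change Polynomial.aevalAeval (x 0) (x 1) (e.symm (X 1)) = x 1
        rw [Polynomial.Bivariate.equivMvPolynomial_symm_X_1, Polynomial.aevalAeval_Y]
    exact DFunLike.congr_fun h1 r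
  have h1 := irr_dvd (x := x 0) (y := x 1) hx (p := e.symm p) (q := e.symm q)
    ((MulEquiv.irreducible_iff e.symm).2 hp) (by rw [hev, hpx]) (by rw [hev, hqx])
  have h2 := map_dvd e h1
  rwa [AlgEquiv.apply_symm_apply, AlgEquiv.apply_symm_apply] at h2

theorem irr_dvd2 {x : Fin 2 → ℂ} (hx : ∃ i, Transcendental K (x i)) {p q : MvPolynomial (Fin 2) K}
    (hp : Irreducible p) (hpx : aeval x p = 0) (hqx : aeval x q = 0) : p ∣ q := by
  obtain ⟨i, hi⟩ := hx
  let σ : Fin 2 ≃ Fin 2 := Equiv.swap 0 i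
  let e := renameEquiv K σ
  have hσ : ∀ r : MvPolynomial (Fin 2) K, aeval (x ∘ σ) (rename σ r) = aeval x r := by
    intro r
    rw [aeval_rename]
    congr 2
    funext k
    simp [σ, Function.comp_def]
  have h1 := irr_dvd0 (x := x ∘ σ) (by
    change Transcendental K (x (Equiv.swap 0 i 0))
    rw [Equiv.swap_apply_left]
    exact hi) (p := e p) (q := e q) ((MulEquiv.irreducible_iff e).2 hp)
    (by change aeval (x ∘ σ) (rename σ p) = 0; rw [hσ, hpx])
    (by change aeval (x ∘ σ) (rename σ q) = 0; rw [hσ, hqx])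
  have h2 := map_dvd e.symm h1
  rwa [AlgEquiv.symm_apply_apply, AlgEquiv.symm_apply_apply] at h2

end irr

open MvPolynomial

/-- the theorem of Hermite and Lindemann -/
theorem lindemann {l : ℂ} (hl : Complex.exp l ∈ QB) (h0 : l ≠ 0) : l ∉ QB := by
  intro h
  have h4 := Pool.Agent.H327R2.SC.lw_algInd (fun _ : Fin 1 => l) (fun _ => mem_QB.1 h)
    ((linearIndependent_unique_iff (v := fun _ : Fin 1 => l)).2 h0)
  exact ((algebraicIndependent_unique_type_iff).1 h4) (mem_QB.1 hl)

theorem transcendental_QB {l : ℂ} (h : l ∉ QB) : Transcendental QB l := by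
  intro h1
  apply h
  rw [mem_QB]
  have : Algebra.IsAlgebraic ℚ QB := algebraicClosure.isAlgebraic ℚ ℂ
  exact h1.restrictScalars ℚ

variable {m : ℕ} {t : Fin m → ℂ}

theorem exp_mem_QB (ht : Gen ⊥ t) {l : ℂ} (hl : l ∈ QB) (he : Complex.exp l ∈ Kt t) :
    Complex.exp l ∈ QB :=
  mem_QB.2 (alg_of_mem ht (exp_mem (QB_le_ecl hl)) (mem_Kt.1 he))

theorem not_mem_QB (ht : Gen ⊥ t) {l : ℂ} (he : Complex.exp l ∈ Kt t) (h0 : l ≠ 0) : l ∉ QB :=
  fun h => lindemann (exp_mem_QB ht h he) h0 h

/-- irreducible factors which vanish -/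
theorem exists_factor {x : Fin 2 → ℂ} {g : MvPolynomial (Fin 2) QB} (hg : g ≠ 0)
    (hx : aeval x g = 0) : ∃ p : MvPolynomial (Fin 2) QB, Irreducible p ∧ aeval x p = 0 := by
  obtain ⟨S, hS, u, hu⟩ := UniqueFactorizationMonoid.exists_prime_factors g hg
  have h1 : aeval x (S.prod) = 0 := by
    have h2 : aeval x (S.prod * (u : MvPolynomial (Fin 2) QB)) = 0 := by rw [hu, hx]
    rw [map_mul, mul_eq_zero] at h2
    rcases h2 with h2 | h2
    · exact h2
    · exfalso
      have h3 : IsUnit (aeval x (u : MvPolynomial (Fin 2) QB)) := u.isUnit.map _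
      rw [h2] at h3
      exact not_isUnit_zero h3
  rw [map_multiset_prod, Multiset.prod_eq_zero_iff, Multiset.mem_map] at h1
  obtain ⟨p, hp, hpx⟩ := h1
  exact ⟨p, (hS p hp).irreducible, hpx⟩

theorem not_const {x : Fin 2 → ℂ} {p : MvPolynomial (Fin 2) QB} (hp : Irreducible p)
    (hpx : aeval x p = 0) (c : QB) : p ≠ C c := by
  rintro rfl
  rw [aeval_C] at hpx
  have : c = 0 := Subtype.ext hpx
  rw [this, map_zero] at hp
  exact hp.ne_zero rfl

/-- **Irreducible relations between two logarithms are defined over the algebraic numbers.** -/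
theorem constant (ht : Gen ⊥ t) (x : Fin 2 → ℂ) (hx : ∀ i, Complex.exp (x i) ∈ Kt t)
    (hx0 : x ≠ 0) (f : MvPolynomial (Fin 2) (Kt t)) (hf : Irreducible f) (hfx : aeval x f = 0) :
    ∃ (c : Kt t) (p : MvPolynomial (Fin 2) QB), Irreducible p ∧ aeval x p = 0 ∧
      map (algebraMap (Kt t) ℂ) f = C (c : ℂ) * map (algebraMap QB ℂ) p := by
  classical
  obtain ⟨i₀, hi₀⟩ := Function.ne_iff.1 hx0
  have htr : ∃ i, Transcendental QB (x i) := ⟨i₀, transcendental_QB (not_mem_QB ht (hx i₀) hi₀)⟩
  obtain ⟨N, κ, g, hg, hfg⟩ := relation ht x hx f hfx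
  have hex : ∃ k, g k ≠ 0 := by
    by_contra hcon
    push Not at hcon
    apply hf.ne_zero
    apply map_injective (algebraMap (Kt t) ℂ) (algebraMap (Kt t) ℂ).injective
    rw [hfg, map_zero]
    exact Finset.sum_eq_zero (fun k _ => by rw [hcon k, map_zero, mul_zero])
  obtain ⟨k₀, hk₀⟩ := hex
  obtain ⟨p, hp, hpx⟩ := exists_factor hk₀ (hg k₀)
  have hdvd : ∀ k, p ∣ g k := fun k => irr_dvd2 htr hp hpx (hg k)
  choose h hh using hdvd
  let j : QB →+* Kt t := (IntermediateField.inclusion (QB_le t)).toRingHom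
  have hjmap : ∀ q : MvPolynomial (Fin 2) QB,
      map (algebraMap (Kt t) ℂ) (map j q) = map (algebraMap QB ℂ) q := by
    intro q
    rw [MvPolynomial.map_map]
    rfl
  have hfac : f = map j p * ∑ k, C (κ k) * map j (h k) := by
    apply map_injective (algebraMap (Kt t) ℂ) (algebraMap (Kt t) ℂ).injective
    rw [hfg, map_mul, hjmap, map_sum, Finset.mul_sum]
    refine Finset.sum_congr rfl (fun k _ => ?_)
    rw [map_mul, hjmap, hh k, map_mul, map_C]
    change C ((κ k : Kt t) : ℂ) * _ = _ * (C ((κ k : Kt t) : ℂ) * _)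
    ring
  rcases hf.isUnit_or_isUnit hfac with h1 | h1
  · exfalso
    obtain ⟨c, -, hc⟩ := (MvPolynomial.isUnit_iff_eq_C_of_isReduced).1 h1
    have h2 : ∀ s, s ≠ 0 → p.coeff s = 0 := by
      intro s hs
      have h3 := congrArg (coeff s) hc
      rw [coeff_map, coeff_C, if_neg (Ne.symm hs)] at h3
      exact (map_eq_zero j).1 h3
    apply not_const hp hpx (p.coeff 0)
    ext s
    rw [coeff_C]
    split_ifs with h3
    · rw [← h3]
    · rw [h2 s (Ne.symm h3)]
  · obtain ⟨c, -, hc⟩ := (MvPolynomial.isUnit_iff_eq_C_of_isReduced).1 h1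
    refine ⟨c, p, hp, hpx, ?_⟩
    rw [hfac, hc, map_mul, hjmap, map_C, mul_comm]
    rfl

end Pool.Agent.Helper78.EC.Curve
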