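import Mathlib
import Pool.Agent.Helper78.EC.Curve

/-!
# Zeros of polynomials in `z` and `e^z` over generic fields: the relations over the exponential closure
-/

set_option autoImplicit false

namespace Pool.Agent.Helper78.EC.Mar

open Set MvPolynomial
open Pool.Agent.Helper78.SC Pool.Agent.Helper78.SC.Ax
open Pool.Agent.Helper78.EC.Closure Pool.Agent.Helper78.EC.Generic Pool.Agent.Helper78.EC.Use
open Pool.Agent.Helper78.EC.Disj Pool.Agent.Helper78.EC.Str Pool.Agent.Helper78.EC.Curve
open Pool.Agent.W252 Pool.Agent.TH813.Core Pool.Agent.TH813.Rank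

section poly

variable {K : Type} [Field K] [CharZero K]

theorem deg0 {p h : MvPolynomial (Fin 2) K} (hp : p ≠ 0) (hh : h ≠ 0) (i : Fin 2)
    (hd : (p * h).degreeOf i ≤ p.degreeOf i) : h.degreeOf i = 0 := by
  rw [degreeOf_mul_eq hp hh] at hd
  omega

theorem eq_C_of_deg {h : MvPolynomial (Fin 2) K} (h0 : ∀ i, h.degreeOf i = 0) :
    h = C (h.coeff 0) := by
  classical
  ext s
  rw [coeff_C]
  split_ifs with hs
  · rw [← hs]
  · by_contra hcon
    apply hs
    have hmem : s ∈ h.support := mem_support_iff.2 hcon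
    ext i
    have h1 := (degreeOf_le_iff (n := i) (f := h) (d := 0)).1 (h0 i).le s hmem
    simpa using (Nat.le_zero.1 h1).symm

/-- a multiple with the same degrees is a constant multiple -/
theorem const_of_dvd {p q : MvPolynomial (Fin 2) K} (hp : p ≠ 0) (hd : ∀ i, q.degreeOf i ≤ p.degreeOf i)
    (hpq : p ∣ q) : ∃ c : K, q = C c * p := by
  obtain ⟨h, rfl⟩ := hpq
  by_cases hh : h = 0
  · exact ⟨0, by rw [hh, mul_zero, map_zero, zero_mul]⟩
  · refine ⟨h.coeff 0, ?_⟩
    have h1 := eq_C_of_deg (fun i => deg0 hp hh i (hd i))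
    conv_lhs => rw [h1]
    ring

theorem degreeOf_pderiv_le (p : MvPolynomial (Fin 2) K) (i j : Fin 2) :
    (pderiv j p).degreeOf i ≤ p.degreeOf i := by
  classical
  rw [degreeOf_le_iff]
  intro s hs
  by_contra hcon
  push Not at hcon
  rw [mem_support_iff] at hs
  apply hs
  rw [coeff_pderiv]
  have h1 : p.coeff (s + Finsupp.single j 1) = 0 := by
    by_contra h2
    have h3 := (degreeOf_le_iff (n := i) (f := p) (d := p.degreeOf i)).1 le_rfl _
      (mem_support_iff.2 h2)
    have h4 : s i ≤ (s + Finsupp.single j 1 : Fin 2 →₀ ℕ) i := by simp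
    omega
  rw [h1, zero_mul]

theorem coeff_euler (p : MvPolynomial (Fin 2) K) (i : Fin 2) (s : Fin 2 →₀ ℕ) :
    coeff s (X i * pderiv i p) = (s i : K) * coeff s p := by
  classical
  rw [coeff_X_mul']
  split_ifs with h
  · rw [coeff_pderiv]
    have h1 : 1 ≤ s i := Nat.one_le_iff_ne_zero.2 (Finsupp.mem_support_iff.1 h)
    have h2 : s - Finsupp.single i 1 + Finsupp.single i 1 = s := by
      ext j
      by_cases hj : j = i
      · subst hj
        simp
        omega
      · simp [Finsupp.single_apply, Ne.symm hj]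
    rw [h2]
    have h3 : (((s - Finsupp.single i 1 : Fin 2 →₀ ℕ) i : ℕ) : K) + 1 = (s i : K) := by
      have : (s - Finsupp.single i 1 : Fin 2 →₀ ℕ) i + 1 = s i := by
        simp
        omega
      exact_mod_cast this
    rw [h3, mul_comm]
  · have h1 : s i = 0 := by simpa using h
    rw [h1]
    simp

/-- an irreducible polynomial is not invariant under `∂/∂X + c Y ∂/∂Y` -/
theorem noInv {p : MvPolynomial (Fin 2) K} (hp : 0 < p.degreeOf 0) (c : K) :
    ¬ p ∣ pderiv 0 p + C c * (X 1 * pderiv 1 p) := by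
  classical
  intro hdvd
  have hp0 : p ≠ 0 := by
    rintro rfl
    simp at hp
  have hco : ∀ s, coeff s (pderiv 0 p + C c * (X 1 * pderiv 1 p)) =
      coeff (s + Finsupp.single 0 1) p * ((s 0 : K) + 1) + c * ((s 1 : K) * coeff s p) := by
    intro s
    rw [coeff_add, coeff_pderiv, coeff_C_mul, coeff_euler]
  have hd : ∀ i, (pderiv 0 p + C c * (X 1 * pderiv 1 p)).degreeOf i ≤ p.degreeOf i := by
    intro i
    rw [degreeOf_le_iff]
    intro s hs
    by_contra hcon
    push Not at hcon
    rw [MvPolynomial.mem_support_iff] at hs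
    apply hs
    rw [hco]
    have h1 : p.coeff (s + Finsupp.single 0 1) = 0 := by
      by_contra h2
      have h3 := (degreeOf_le_iff (n := i) (f := p) (d := p.degreeOf i)).1 le_rfl _
        (MvPolynomial.mem_support_iff.2 h2)
      have h4 : s i ≤ (s + Finsupp.single 0 1 : Fin 2 →₀ ℕ) i := by simp
      omega
    have h1' : p.coeff s = 0 := by
      by_contra h2
      have h3 := (degreeOf_le_iff (n := i) (f := p) (d := p.degreeOf i)).1 le_rfl _
        (MvPolynomial.mem_support_iff.2 h2)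
      omega
    rw [h1, h1']
    ring
  obtain ⟨κ, hκ⟩ := const_of_dvd hp0 hd hdvd
  have hco2 : ∀ s, coeff (s + Finsupp.single 0 1) p * ((s 0 : K) + 1) + c * ((s 1 : K) * coeff s p) =
      κ * coeff s p := by
    intro s
    rw [← hco, hκ, coeff_C_mul]
  -- a monomial of maximal degree
  obtain ⟨s, hs, hs0⟩ : ∃ s ∈ p.support, s 0 = p.degreeOf 0 := by
    rw [degreeOf_eq_sup]
    obtain ⟨s, hs, h⟩ := Finset.exists_mem_eq_sup p.support (by
      rw [Finset.nonempty_iff_ne_empty, Ne, support_eq_empty]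
      exact hp0) (fun s => s 0)
    exact ⟨s, hs, h.symm⟩
  rw [MvPolynomial.mem_support_iff] at hs
  have h1 : p.coeff (s + Finsupp.single 0 1) = 0 := by
    by_contra h2
    have h3 := (degreeOf_le_iff (n := 0) (f := p) (d := p.degreeOf 0)).1 le_rfl _
      (MvPolynomial.mem_support_iff.2 h2)
    have h4 : s 0 + 1 ≤ (s + Finsupp.single 0 1 : Fin 2 →₀ ℕ) 0 := by simp
    omega
  have h2 := hco2 s
  rw [h1, zero_mul, zero_add, ← mul_assoc] at h2
  have h3 : c * (s 1 : K) = κ := mul_right_cancel₀ hs h2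
  have h4 := hco2 (s - Finsupp.single 0 1)
  have h5 : s - Finsupp.single 0 1 + Finsupp.single 0 1 = s := by
    ext j
    by_cases hj : j = 0
    · subst hj
      simp
      omega
    · simp [Finsupp.single_apply, Ne.symm hj]
  have h6 : (s - Finsupp.single 0 1 : Fin 2 →₀ ℕ) 1 = s 1 := by simp
  rw [h5, h6, ← h3, ← mul_assoc] at h4
  have h7 : coeff s p * (((s - Finsupp.single 0 1 : Fin 2 →₀ ℕ) 0 : K) + 1) = 0 := by
    linear_combination h4
  rcases mul_eq_zero.1 h7 with h8 | h8
  · exact hs h8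
  · have h9 : ((((s - Finsupp.single 0 1 : Fin 2 →₀ ℕ) 0 + 1 : ℕ)) : K) = 0 := by exact_mod_cast h8
    exact Nat.cast_ne_zero.2 (Nat.succ_ne_zero _) h9

theorem coeff_scale (P : MvPolynomial (Fin 2) K) (a : K) (s : Fin 2 →₀ ℕ) :
    coeff s (aeval (![X 0, C a * X 1] : Fin 2 → MvPolynomial (Fin 2) K) P) =
      a ^ (s 1) * coeff s P := by
  classical
  induction P using MvPolynomial.induction_on' with
  | monomial u b =>
    rw [aeval_monomial, Finsupp.prod_fintype _ _ (fun i => pow_zero _), Fin.prod_univ_two,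
      coeff_monomial]
    have h1 : ((![X 0, C a * X 1] : Fin 2 → MvPolynomial (Fin 2) K) 0 ^ u 0 *
        (![X 0, C a * X 1] : Fin 2 → MvPolynomial (Fin 2) K) 1 ^ u 1 : MvPolynomial (Fin 2) K) =
        C (a ^ (u 1)) * monomial u 1 := by
      have h2 : (monomial u (1 : K) : MvPolynomial (Fin 2) K) = X 0 ^ u 0 * X 1 ^ u 1 := by
        rw [monomial_eq, Finsupp.prod_fintype _ _ (fun i => pow_zero _), Fin.prod_univ_two, C_1,
          one_mul]
      rw [h2]
      simp only [Matrix.cons_val_zero, Matrix.cons_val_one, mul_pow, C_pow]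
      ring
    rw [h1, algebraMap_eq, C_mul_monomial, C_mul_monomial, coeff_monomial]
    split_ifs with h2
    · rw [h2]
      ring
    · rw [mul_zero]
  | add p q hp hq =>
    rw [map_add, coeff_add, coeff_add, hp, hq, mul_add]

/-- the scaling of the second variable -/
theorem scale {P : MvPolynomial (Fin 2) K} (hP : P ≠ 0) (a : K)
    (hdvd : P ∣ aeval (![X 0, C a * X 1] : Fin 2 → MvPolynomial (Fin 2) K) P) :
    ∃ κ : K, ∀ s, P.coeff s ≠ 0 → a ^ (s 1) = κ := by
  obtain ⟨κ, hκ⟩ := const_of_dvd hP (fun i => by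
    rw [degreeOf_le_iff]
    intro s hs
    rw [MvPolynomial.mem_support_iff, coeff_scale] at hs
    exact (degreeOf_le_iff (n := i) (f := P) (d := P.degreeOf i)).1 le_rfl _
      (MvPolynomial.mem_support_iff.2 (right_ne_zero_of_mul hs))) hdvd
  refine ⟨κ, fun s hs => ?_⟩
  have h1 := congrArg (coeff s) hκ
  rw [coeff_scale, coeff_C_mul] at h1
  exact mul_right_cancel₀ hs h1

theorem pderiv_not_dvd {p : MvPolynomial (Fin 2) K} (hp : 0 < p.degreeOf 1) :
    ¬ p ∣ pderiv 1 p := by
  classical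
  intro hdvd
  have hp0 : p ≠ 0 := by
    rintro rfl
    simp at hp
  obtain ⟨κ, hκ⟩ := const_of_dvd hp0 (fun i => degreeOf_pderiv_le p i 1) hdvd
  have hco2 : ∀ s, coeff (s + Finsupp.single 1 1) p * ((s 1 : K) + 1) = κ * coeff s p := by
    intro s
    rw [← coeff_pderiv, hκ, coeff_C_mul]
  obtain ⟨s, hs, hs0⟩ : ∃ s ∈ p.support, s 1 = p.degreeOf 1 := by
    rw [degreeOf_eq_sup]
    obtain ⟨s, hs, h⟩ := Finset.exists_mem_eq_sup p.support (by
      rw [Finset.nonempty_iff_ne_empty, Ne, support_eq_empty]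
      exact hp0) (fun s => s 1)
    exact ⟨s, hs, h.symm⟩
  rw [MvPolynomial.mem_support_iff] at hs
  have h1 : p.coeff (s + Finsupp.single 1 1) = 0 := by
    by_contra h2
    have h3 := (degreeOf_le_iff (n := 1) (f := p) (d := p.degreeOf 1)).1 le_rfl _
      (MvPolynomial.mem_support_iff.2 h2)
    have h4 : s 1 + 1 ≤ (s + Finsupp.single 1 1 : Fin 2 →₀ ℕ) 1 := by simp
    omega
  have h2 := hco2 s
  rw [h1, zero_mul] at h2
  have h3 : κ = 0 := (mul_eq_zero.1 h2.symm).resolve_right hs
  have h4 := hco2 (s - Finsupp.single 1 1)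
  have h5 : s - Finsupp.single 1 1 + Finsupp.single 1 1 = s := by
    ext j
    by_cases hj : j = 1
    · subst hj
      simp
      omega
    · simp [Ne.symm hj]
  rw [h5, h3, zero_mul] at h4
  rcases mul_eq_zero.1 h4 with h8 | h8
  · exact hs h8
  · have h9 : ((((s - Finsupp.single 1 1 : Fin 2 →₀ ℕ) 1 + 1 : ℕ)) : K) = 0 := by exact_mod_cast h8
    exact Nat.cast_ne_zero.2 (Nat.succ_ne_zero _) h9

end poly

end Pool.Agent.Helper78.EC.Mar
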