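import Mathlib
import Pool.Agent.Helper78.EC.Mar

/-!
# Zeros of polynomials in `z` and `e^z`: the derivations
-/

set_option autoImplicit false

namespace Pool.Agent.Helper78.EC.Mar

open Set MvPolynomial
open Pool.Agent.Helper78.SC Pool.Agent.Helper78.SC.Ax
open Pool.Agent.Helper78.EC.Closure Pool.Agent.Helper78.EC.Generic Pool.Agent.Helper78.EC.Use
open Pool.Agent.Helper78.EC.Disj Pool.Agent.Helper78.EC.Str Pool.Agent.Helper78.EC.Curve
open Pool.Agent.W252 Pool.Agent.W669.Gel Pool.Agent.TH813.Core Pool.Agent.TH813.Rank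

variable {K : IntermediateField ℚ ℂ}

/-- `u` depends on `x` over `K` -/
def Dep (K : IntermediateField ℚ ℂ) (x u : ℂ) : Prop :=
  ∀ D : Derivation ℚ ℂ ℂ, (∀ w ∈ K, D w = 0) → D x = 0 → D u = 0

theorem chain {D : Derivation ℚ ℂ ℂ} (hD : ∀ w ∈ K, D w = 0) (x y : ℂ)
    (p : MvPolynomial (Fin 2) K) :
    D (aeval ![x, y] p) =
      D x * aeval ![x, y] (pderiv 0 p) + D y * aeval ![x, y] (pderiv 1 p) := by
  rw [Closure.der_aeval D _ p (fun m => hD _ (p.coeff m).2)]
  unfold Ext.dv
  rw [Fin.sum_univ_two]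
  rfl

theorem exch {x u : ℂ} (hux : Dep K x u) {D : Derivation ℚ ℂ ℂ} (hD : ∀ w ∈ K, D w = 0)
    (hDu : D u = 0) (hDx : D x ≠ 0) : IsAlgebraic K u := by
  by_contra hcon
  have h1 : AlgebraicIndependent K (fun _ : Unit => u) :=
    algebraicIndependent_unique_type_iff.2 hcon
  obtain ⟨D', hD', hD'u⟩ := exists_der h1 (fun _ => 1)
  have h2 := hux (D' - (D' x / D x) • D) (fun w hw => by
    rw [Derivation.sub_apply, Derivation.smul_apply, hD w hw, hD' w hw, smul_zero, sub_zero]) (by
    rw [Derivation.sub_apply, Derivation.smul_apply, smul_eq_mul, div_mul_cancel₀ _ hDx, sub_self])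
  rw [Derivation.sub_apply, Derivation.smul_apply, hDu, smul_zero, sub_zero, hD'u ()] at h2
  exact one_ne_zero h2

/-- a zero which is transcendental over `K` -/
structure Zer (K : IntermediateField ℚ ℂ) (p : MvPolynomial (Fin 2) K) (z : ℂ) : Prop where
  irr : Irreducible p
  d0 : 0 < p.degreeOf 0
  d1 : 0 < p.degreeOf 1
  zero : aeval ![z, Complex.exp z] p = 0
  tr : Transcendental K z

variable {p : MvPolynomial (Fin 2) K} {z z' : ℂ}

theorem Zer.dvd (h : Zer K p z) {q : MvPolynomial (Fin 2) K}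
    (hq : aeval ![z, Complex.exp z] q = 0) : p ∣ q :=
  irr_dvd2 (x := ![z, Complex.exp z]) ⟨0, h.tr⟩ h.irr h.zero hq

theorem Zer.py (h : Zer K p z) : aeval ![z, Complex.exp z] (pderiv 1 p) ≠ 0 := fun h1 =>
  pderiv_not_dvd h.d1 (h.dvd h1)

/-- the logarithmic derivative -/
noncomputable def lam (p : MvPolynomial (Fin 2) K) (z : ℂ) : ℂ :=
  - aeval ![z, Complex.exp z] (pderiv 0 p) /
    (Complex.exp z * aeval ![z, Complex.exp z] (pderiv 1 p))

theorem Zer.dlog_eq (h : Zer K p z) {D : Derivation ℚ ℂ ℂ} (hD : ∀ w ∈ K, D w = 0) :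
    dlog D z = lam p z * D z := by
  have h1 := chain hD z (Complex.exp z) p
  rw [h.zero, map_zero] at h1
  have h2 := h.py
  have h3 := Complex.exp_ne_zero z
  unfold dlog lam
  field_simp
  linear_combination -h1

theorem Zer.dep_exp (h : Zer K p z) : Dep K z (Complex.exp z) := by
  intro D hD hDz
  have h1 := h.dlog_eq hD
  rw [hDz, mul_zero, dlog_eq_zero] at h1
  exact h1

theorem Zer.dep_aeval (h : Zer K p z) (q : MvPolynomial (Fin 2) K) :
    Dep K z (aeval ![z, Complex.exp z] q) := by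
  intro D hD hDz
  rw [chain hD, hDz, h.dep_exp D hD hDz, zero_mul, zero_mul, add_zero]

theorem Zer.dep_lam (h : Zer K p z) : Dep K z (lam p z) := by
  intro D hD hDz
  have h1 := h.dep_aeval (pderiv 0 p) D hD hDz
  have h2 := h.dep_aeval (pderiv 1 p) D hD hDz
  have h3 := h.dep_exp D hD hDz
  have h4 : lam p z * (Complex.exp z * aeval ![z, Complex.exp z] (pderiv 1 p)) =
      - aeval ![z, Complex.exp z] (pderiv 0 p) := by
    unfold lam
    rw [div_mul_cancel₀]
    exact mul_ne_zero (Complex.exp_ne_zero z) h.py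
  have h5 := congrArg D h4
  rw [Derivation.leibniz, Derivation.leibniz, h2, h3, map_neg, h1] at h5
  simp only [neg_zero, smul_eq_mul, mul_zero, add_zero, zero_add] at h5
  exact (mul_eq_zero.1 h5).resolve_left (mul_ne_zero (Complex.exp_ne_zero z) h.py)

theorem Zer.lam_not_mem (h : Zer K p z) : lam p z ∉ K := by
  intro h1
  apply noInv h.d0 (⟨lam p z, h1⟩ : K)
  apply h.dvd
  rw [map_add, map_mul, map_mul, aeval_C, aeval_X]
  change _ + lam p z * (Complex.exp z * _) = 0
  have h4 : lam p z * (Complex.exp z * aeval ![z, Complex.exp z] (pderiv 1 p)) =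
      - aeval ![z, Complex.exp z] (pderiv 0 p) := by
    unfold lam
    rw [div_mul_cancel₀]
    exact mul_ne_zero (Complex.exp_ne_zero z) h.py
  rw [h4]
  ring

/-- the numerator of a composition with a fraction -/
noncomputable def clr (P A B : MvPolynomial (Fin 2) K) : MvPolynomial (Fin 2) K :=
  ∑ s ∈ P.support, C (P.coeff s) * (A ^ (s 0) * B ^ (P.degreeOf 0 - s 0) * X 0 ^ (s 1))

theorem aeval_clr (P A B : MvPolynomial (Fin 2) K) (x y : ℂ) (hB : aeval ![x, y] B ≠ 0) :
    aeval ![x, y] (clr P A B) = (aeval ![x, y] B) ^ (P.degreeOf 0) *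
      aeval ![aeval ![x, y] A / aeval ![x, y] B, x] P := by
  unfold clr
  rw [map_sum, aeval_def ![aeval ![x, y] A / aeval ![x, y] B, x], eval₂_eq', Finset.mul_sum]
  refine Finset.sum_congr rfl (fun s hs => ?_)
  rw [map_mul, map_mul, map_mul, map_pow, map_pow, map_pow, aeval_C, aeval_X, Fin.prod_univ_two]
  have h1 : s 0 ≤ P.degreeOf 0 :=
    (degreeOf_le_iff (n := 0) (f := P) (d := P.degreeOf 0)).1 le_rfl _ hs
  obtain ⟨e, he⟩ := Nat.exists_eq_add_of_le h1
  rw [he, Nat.add_sub_cancel_left, pow_add]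
  simp only [Matrix.cons_val_zero, Matrix.cons_val_one, div_pow]
  field_simp

/-- relations between `λ` and `z` -/
theorem Zer.clear (h : Zer K p z) (h' : Zer K p z') {P : MvPolynomial (Fin 2) K}
    (hP : aeval ![lam p z, z] P = 0) : aeval ![lam p z', z'] P = 0 := by
  have hB : ∀ {u : ℂ}, Zer K p u → aeval ![u, Complex.exp u] (X 1 * pderiv 1 p) ≠ 0 := by
    intro u hu
    rw [map_mul, aeval_X]
    exact mul_ne_zero (Complex.exp_ne_zero u) hu.py
  have hl : ∀ u : ℂ, lam p u = aeval ![u, Complex.exp u] (-pderiv 0 p) /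
      aeval ![u, Complex.exp u] (X 1 * pderiv 1 p) := by
    intro u
    rw [map_neg, map_mul, aeval_X]
    rfl
  have h1 := aeval_clr P (-pderiv 0 p) (X 1 * pderiv 1 p) z (Complex.exp z) (hB h)
  rw [← hl, hP, mul_zero] at h1
  obtain ⟨q, hq⟩ := h.dvd h1
  have h2 := aeval_clr P (-pderiv 0 p) (X 1 * pderiv 1 p) z' (Complex.exp z') (hB h')
  rw [← hl, hq, map_mul, h'.zero, zero_mul] at h2
  exact (mul_eq_zero.1 h2.symm).resolve_left (pow_ne_zero _ (hB h'))

theorem exists_factor' {x : Fin 2 → ℂ} {g : MvPolynomial (Fin 2) K} (hg : g ≠ 0)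
    (hx : aeval x g = 0) : ∃ p : MvPolynomial (Fin 2) K, Irreducible p ∧ aeval x p = 0 := by
  obtain ⟨S, hS, u, hu⟩ := UniqueFactorizationMonoid.exists_prime_factors g hg
  have h1 : aeval x (S.prod) = 0 := by
    have h2 : aeval x (S.prod * (u : MvPolynomial (Fin 2) K)) = 0 := by rw [hu, hx]
    rw [map_mul, mul_eq_zero] at h2
    rcases h2 with h2 | h2
    · exact h2
    · exfalso
      have h3 : IsUnit (aeval x (u : MvPolynomial (Fin 2) K)) := u.isUnit.map _
      rw [h2] at h3
      exact not_isUnit_zero h3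
  rw [map_multiset_prod, Multiset.prod_eq_zero_iff, Multiset.mem_map] at h1
  obtain ⟨p, hp, hpx⟩ := h1
  exact ⟨p, (hS p hp).irreducible, hpx⟩

/-- an irreducible relation between `λ` and `z` -/
theorem Zer.exists_rel (h : Zer K p z) : ∃ P : MvPolynomial (Fin 2) K, Irreducible P ∧
    aeval ![lam p z, z] P = 0 := by
  have h1 : ¬ AlgebraicIndependent K ![lam p z, z] := by
    intro hai
    obtain ⟨D, hD, hDx⟩ := exists_der hai ![1, 0]
    have h2 := h.dep_lam D hD (hDx 1)
    have h3 : D (lam p z) = 1 := hDx 0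
    rw [h2] at h3
    exact zero_ne_one h3
  rw [AlgebraicIndependent, injective_iff_map_eq_zero] at h1
  push Not at h1
  obtain ⟨g, hg, hg0⟩ := h1
  exact exists_factor' hg0 hg

theorem pow_rat {a : ℚ} (ha : a ≠ 0) {m n : ℕ} (hmn : m < n) (h : a ^ m = a ^ n) :
    a = 1 ∨ a = -1 := by
  obtain ⟨k, rfl⟩ := Nat.exists_eq_add_of_lt hmn
  have h1 : a ^ (k + 1) = 1 := by
    have h2 : a ^ m * a ^ (k + 1) = a ^ m * 1 := by
      rw [← pow_add, mul_one, h]
      congr 1
    exact mul_left_cancel₀ (pow_ne_zero m ha) h2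
  have h2 : |a| ^ (k + 1) = 1 := by rw [← abs_pow, h1, abs_one]
  have h3 : |a| = 1 := (pow_eq_one_iff_of_nonneg (abs_nonneg a) (Nat.succ_ne_zero k)).1 h2
  exact eq_or_eq_neg_of_abs_eq h3

/-- the last step -/
theorem Zer.pm (hK : ∀ w : ℂ, IsAlgebraic K w → w ∈ K) (h : Zer K p z) (h' : Zer K p z')
    (hl : lam p z = lam p z') {a : ℚ} (ha : z' = a * z) : z' = z ∨ z' = -z := by
  classical
  have htr : Transcendental K (lam p z) := fun h1 => h.lam_not_mem (hK _ h1)
  obtain ⟨P, hP, hPz⟩ := h.exists_rel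
  have h1 := h.clear h' hPz
  rw [← hl, ha] at h1
  have h2 : aeval ![lam p z, z] (aeval (![X 0, C (a : K) * X 1] : Fin 2 → MvPolynomial (Fin 2) K) P)
      = 0 := by
    rw [← h1]
    have h3 : ((aeval ![lam p z, z] : MvPolynomial (Fin 2) K →ₐ[K] ℂ).comp
        (aeval (![X 0, C (a : K) * X 1] : Fin 2 → MvPolynomial (Fin 2) K))) =
        aeval ![lam p z, (a : ℂ) * z] := by
      apply MvPolynomial.algHom_ext
      intro i
      rw [AlgHom.comp_apply, aeval_X, aeval_X]
      fin_cases i
      · change aeval ![lam p z, z] (X 0 : MvPolynomial (Fin 2) K) = lam p z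
        rw [aeval_X]
        rfl
      · change aeval ![lam p z, z] (C (a : K) * X 1 : MvPolynomial (Fin 2) K) = a * z
        rw [map_mul, aeval_C, aeval_X]
        congr 1
    exact DFunLike.congr_fun h3 P
  have h4 : P ∣ aeval (![X 0, C (a : K) * X 1] : Fin 2 → MvPolynomial (Fin 2) K) P :=
    irr_dvd2 (x := ![lam p z, z]) ⟨0, htr⟩ hP hPz h2
  obtain ⟨κ, hκ⟩ := scale hP.ne_zero (a : K) h4
  by_cases hsame : ∃ e, ∀ s ∈ P.support, s 1 = e
  · exfalso
    obtain ⟨e, he⟩ := hsame
    let g : Polynomial K := ∑ s ∈ P.support, Polynomial.monomial (s 0) (P.coeff s)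
    have hg : g ≠ 0 := by
      obtain ⟨s, hs⟩ : P.support.Nonempty := by
        rw [Finset.nonempty_iff_ne_empty, Ne, support_eq_empty]
        exact hP.ne_zero
      intro h0
      have h5 := congrArg (fun q => Polynomial.coeff q (s 0)) h0
      simp only [g, Polynomial.finsetSum_coeff, Polynomial.coeff_monomial,
        Polynomial.coeff_zero] at h5
      rw [Finset.sum_eq_single s] at h5
      · rw [if_pos rfl] at h5
        exact (MvPolynomial.mem_support_iff.1 hs) h5
      · intro u hu hus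
        rw [if_neg]
        intro h6
        apply hus
        ext i
        fin_cases i
        · exact h6
        · exact (he u hu).trans (he s hs).symm
      · exact fun h6 => absurd hs h6
    apply htr
    refine ⟨g, hg, ?_⟩
    have h5 : z ^ e * Polynomial.aeval (lam p z) g = 0 := by
      rw [← hPz, aeval_def ![lam p z, z], eval₂_eq', map_sum, Finset.mul_sum]
      refine Finset.sum_congr rfl (fun s hs => ?_)
      rw [Polynomial.aeval_monomial, Fin.prod_univ_two]
      simp only [Matrix.cons_val_zero, Matrix.cons_val_one]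
      rw [he s hs]
      ring
    refine (mul_eq_zero.1 h5).resolve_left (pow_ne_zero _ ?_)
    rintro rfl
    exact h.tr isAlgebraic_zero
  · push Not at hsame
    obtain ⟨s, hs⟩ : P.support.Nonempty := by
      rw [Finset.nonempty_iff_ne_empty, Ne, support_eq_empty]
      exact hP.ne_zero
    obtain ⟨u, hu, hus⟩ := hsame (s 1)
    have ha0 : a ≠ 0 := by
      rintro rfl
      apply h'.tr
      rw [ha, Rat.cast_zero, zero_mul]
      exact isAlgebraic_zero
    have h5 : a ^ (u 1) = a ^ (s 1) := by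
      have h6 := (hκ u (MvPolynomial.mem_support_iff.1 hu)).trans
        (hκ s (MvPolynomial.mem_support_iff.1 hs)).symm
      exact_mod_cast h6
    have h7 : a = 1 ∨ a = -1 := by
      rcases lt_or_gt_of_ne hus with h8 | h8
      · exact pow_rat ha0 h8 h5
      · exact pow_rat ha0 h8 h5.symm
    rcases h7 with rfl | rfl
    · left
      rw [ha, Rat.cast_one, one_mul]
    · right
      rw [ha]
      push_cast
      ring

end Pool.Agent.Helper78.EC.Mar
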