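import Mathlib
import Pool.Graph.R_seed8.W337.EC.Exp

/-!
# Polynomials in `z` and `e^z` have infinitely many zeros
-/

set_option autoImplicit false

namespace Pool.Agent.Helper78.EC.Zeros

open Polynomial Filter Topology Set Pool.Agent.W337.EC

/-- an entire function with finitely many zeros is a polynomial times a function without zeros -/
theorem factor (Z : Finset ℂ) : ∀ f : ℂ → ℂ, Differentiable ℂ f → (∃ z, f z ≠ 0) →
    (∀ z, f z = 0 → z ∈ Z) →
    ∃ (W : ℂ[X]) (R : ℝ) (h : ℂ → ℂ), (∀ z, f z = W.eval z * h z) ∧ Differentiable ℂ h ∧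
      (∀ z, h z ≠ 0) ∧ ∀ z, R ≤ ‖z‖ → 1 ≤ ‖W.eval z‖ := by
  classical
  induction Z using Finset.induction_on with
  | empty =>
    intro f hf _ hz
    exact ⟨1, 0, f, fun z => by simp, hf, fun z h => by simpa using hz z h, fun z _ => by simp⟩
  | insert a Z ha ih =>
    intro f hf hne hz
    have hfa : AnalyticAt ℂ f a := hf.analyticAt a
    have hnz : ¬ ∀ᶠ z in 𝓝 a, f z = 0 := by
      intro h
      obtain ⟨z, hz⟩ := hne
      have hA : AnalyticOnNhd ℂ f univ := fun w _ => hf.analyticAt w
      exact hz (hA.eqOn_zero_of_preconnected_of_eventuallyEq_zero isPreconnected_univ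
        (mem_univ a) h (mem_univ z))
    obtain ⟨n, g, hg, hg0, hfg⟩ := (hfa.exists_eventuallyEq_pow_smul_nonzero_iff).2 hnz
    let G : ℂ → ℂ := Function.update (fun z => f z / (z - a) ^ n) a (g a)
    have hGa : G a = g a := Function.update_self _ _ _
    have hGz : ∀ z, z ≠ a → G z = f z / (z - a) ^ n := fun z hz => Function.update_of_ne hz _ _
    have hGg : G =ᶠ[𝓝 a] g := by
      filter_upwards [hfg] with z hz
      by_cases hza : z = a
      · rw [hza, hGa]
      · rw [hGz z hza, hz, smul_eq_mul, mul_div_cancel_left₀ _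
          (pow_ne_zero n (sub_ne_zero.2 hza))]
    have hfG : ∀ z, f z = (z - a) ^ n * G z := by
      intro z
      by_cases hza : z = a
      · rw [hza, hGa]
        exact hfg.self_of_nhds
      · rw [hGz z hza, mul_div_cancel₀ _ (pow_ne_zero n (sub_ne_zero.2 hza))]
    have hGd : Differentiable ℂ G := by
      intro z
      by_cases hza : z = a
      · rw [hza]
        exact (hg.congr hGg.symm).differentiableAt
      · have h1 : G =ᶠ[𝓝 z] fun z => f z / (z - a) ^ n := by
          filter_upwards [isOpen_ne.mem_nhds hza] with w hw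
          exact hGz w hw
        refine DifferentiableAt.congr_of_eventuallyEq ?_ h1
        exact (hf z).div (by fun_prop) (pow_ne_zero n (sub_ne_zero.2 hza))
    have hGne : ∃ z, G z ≠ 0 := ⟨a, by rw [hGa]; exact hg0⟩
    have hGZ : ∀ z, G z = 0 → z ∈ Z := by
      intro z h
      have hza : z ≠ a := by
        rintro rfl
        rw [hGa] at h
        exact hg0 h
      have h2 := hz z (by rw [hfG, h, mul_zero])
      exact (Finset.mem_insert.1 h2).resolve_left hza
    obtain ⟨W, R, h, h1, h2, h3, h4⟩ := ih G hGd hGne hGZ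
    refine ⟨(X - C a) ^ n * W, max R (1 + ‖a‖), h, fun z => ?_, h2, h3, fun z hz => ?_⟩
    · rw [hfG, h1, eval_mul, eval_pow, eval_sub, eval_X, eval_C, mul_assoc]
    · rw [eval_mul, eval_pow, eval_sub, eval_X, eval_C, norm_mul, norm_pow]
      have h5 : 1 ≤ ‖z - a‖ := by
        have := norm_sub_norm_le z a
        have := (le_max_right R (1 + ‖a‖)).trans hz
        linarith
      exact one_le_mul_of_one_le_of_one_le (one_le_pow₀ h5) (h4 z ((le_max_left _ _).trans hz))

/-- **Infinitely many zeros.** -/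
theorem infinite (S : Finset ℤ) (Q : ℤ → ℂ[X]) (k k' : ℤ) (hk : k ∈ S) (hk' : k' ∈ S)
    (hne : k ≠ k') (hQ : Q k ≠ 0) (hQ' : Q k' ≠ 0) : {v : ℂ | Psi S Q v = 0}.Infinite := by
  intro hfin
  obtain ⟨A, B, hA, hB, hgr⟩ := Psi_growth S Q
  have hex : ∃ z, Psi S Q z ≠ 0 := by
    by_contra hcon
    push Not at hcon
    exact hQ (poly_exp_indep S Q hcon k hk)
  obtain ⟨W, R, h, h1, h2, h3, h4⟩ := factor hfin.toFinset (Psi S Q) (Psi_diff S Q) hex
    (fun z hz => by simpa using hz)
  -- the growth
  obtain ⟨M, hM⟩ : ∃ M : ℝ, ∀ z ∈ Metric.closedBall (0 : ℂ) R, ‖h z‖ ≤ M :=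
    (isCompact_closedBall (0 : ℂ) R).exists_bound_of_continuousOn h2.continuous.continuousOn
  have hgr' : ∀ z, ‖h z‖ ≤ (A + |M|) * Real.exp (B * ‖z‖) := by
    intro z
    have he : 1 ≤ Real.exp (B * ‖z‖) := Real.one_le_exp (by positivity)
    by_cases hz : R ≤ ‖z‖
    · have h5 := hgr z
      rw [h1, norm_mul] at h5
      have h6 : ‖h z‖ ≤ ‖W.eval z‖ * ‖h z‖ := le_mul_of_one_le_left (norm_nonneg _) (h4 z hz)
      have h7 : 0 ≤ |M| * Real.exp (B * ‖z‖) := by positivity
      nlinarith
    · have h5 := hM z (by simpa using (not_le.1 hz).le)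
      have h6 : |M| ≤ |M| * Real.exp (B * ‖z‖) := le_mul_of_one_le_right (abs_nonneg M) he
      have h7 : 0 ≤ A * Real.exp (B * ‖z‖) := by positivity
      have h8 := le_abs_self M
      nlinarith
  obtain ⟨α, hα⟩ := logderiv_const h h2 h3 (A + |M|) B (by positivity) hB hgr'
  have hWd : ∀ v, HasDerivAt (fun z => W.eval z * h z)
      ((derivative W).eval v * h v + W.eval v * (α * h v)) v := by
    intro v
    have h5 := (W.hasDerivAt v).mul (h2 v).hasDerivAt
    rw [hα v] at h5
    exact h5
  have hfun : Psi S Q = fun z => W.eval z * h z := funext h1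
  have h5 : ∀ v, Psi S (fun j => derivative (Q j) + C (j : ℂ) * Q j) v =
      (derivative W).eval v * h v + W.eval v * (α * h v) := by
    intro v
    have h6 := Psi_hasDeriv S Q v
    have h7 := hWd v
    rw [← hfun] at h7
    exact h6.unique h7
  have h6 : ∀ v : ℂ, ∑ j ∈ S, (W * (derivative (Q j) + C (j : ℂ) * Q j) -
      (derivative W + C α * W) * Q j).eval v * Complex.exp ((j : ℂ) * v) = 0 := by
    intro v
    have h7 : W.eval v * Psi S (fun j => derivative (Q j) + C (j : ℂ) * Q j) v -
        ((derivative W).eval v + α * W.eval v) * Psi S Q v = 0 := by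
      rw [h5, h1]
      ring
    rw [← h7]
    unfold Psi
    rw [Finset.mul_sum, Finset.mul_sum, ← Finset.sum_sub_distrib]
    refine Finset.sum_congr rfl fun j _ => ?_
    simp only [eval_add, eval_mul, eval_C, eval_sub]
    ring
  have h7 := poly_exp_indep S _ h6
  have hW : W ≠ 0 := by
    rintro rfl
    obtain ⟨z, hz⟩ := hex
    apply hz
    rw [h1, eval_zero, zero_mul]
  have h8 : ∀ j ∈ S, Q j ≠ 0 → (j : ℂ) = α := by
    intro j hj hQj
    by_contra hja
    have h9 := h7 j hj
    have h10 : (j : ℂ) - α ≠ 0 := sub_ne_zero.2 hja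
    have h11 : C ((j : ℂ) - α) * (W * Q j) = derivative W * Q j - W * derivative (Q j) := by
      rw [C_sub]
      linear_combination h9
    have h12 : (C ((j : ℂ) - α) * (W * Q j)).degree = W.degree + (Q j).degree := by
      rw [degree_C_mul h10, degree_mul]
    have h13 : (derivative W * Q j - W * derivative (Q j)).degree < W.degree + (Q j).degree := by
      refine lt_of_le_of_lt (degree_sub_le _ _) (max_lt ?_ ?_)
      · rw [degree_mul]
        have h14 := degree_derivative_lt hW
        rcases eq_or_ne (derivative W) 0 with h15 | h15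
        · rw [h15, degree_zero, WithBot.bot_add]
          rw [bot_lt_iff_ne_bot, ← degree_mul, Ne, degree_eq_bot]
          exact mul_ne_zero hW hQj
        · rw [degree_eq_natDegree h15, degree_eq_natDegree hW, degree_eq_natDegree hQj]
          rw [degree_eq_natDegree h15, degree_eq_natDegree hW] at h14
          have h16 : (derivative W).natDegree < W.natDegree := by exact_mod_cast h14
          exact_mod_cast Nat.add_lt_add_right h16 _
      · rw [degree_mul]
        have h14 := degree_derivative_lt hQj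
        rcases eq_or_ne (derivative (Q j)) 0 with h15 | h15
        · rw [h15, degree_zero, WithBot.add_bot]
          rw [bot_lt_iff_ne_bot, ← degree_mul, Ne, degree_eq_bot]
          exact mul_ne_zero hW hQj
        · rw [degree_eq_natDegree h15, degree_eq_natDegree hW, degree_eq_natDegree hQj]
          rw [degree_eq_natDegree h15, degree_eq_natDegree hQj] at h14
          have h16 : (derivative (Q j)).natDegree < (Q j).natDegree := by exact_mod_cast h14
          exact_mod_cast Nat.add_lt_add_left h16 _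
    rw [← h11, h12] at h13
    exact lt_irrefl _ h13
  apply hne
  have h9 : (k : ℂ) = (k' : ℂ) := (h8 k hk hQ).trans (h8 k' hk' hQ').symm
  exact_mod_cast h9

section two

variable {K : Type} [Field K] [Algebra K ℂ]

open MvPolynomial in
/-- the coefficients of the powers of `e^z` -/
noncomputable def Qc (p : MvPolynomial (Fin 2) K) (j : ℤ) : ℂ[X] :=
  ∑ s ∈ p.support with ((s 1 : ℕ) : ℤ) = j, Polynomial.monomial (s 0) (algebraMap K ℂ (p.coeff s))

theorem Psi_eq (p : MvPolynomial (Fin 2) K) (z : ℂ) :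
    Psi (p.support.image fun s => ((s 1 : ℕ) : ℤ)) (Qc p) z =
      MvPolynomial.aeval ![z, Complex.exp z] p := by
  classical
  unfold Psi Qc
  rw [MvPolynomial.aeval_def, MvPolynomial.eval₂_eq',
    ← Finset.sum_fiberwise_of_maps_to (s := p.support)
      (t := p.support.image fun s => ((s 1 : ℕ) : ℤ)) (g := fun s => ((s 1 : ℕ) : ℤ))
      (fun s hs => Finset.mem_image_of_mem _ hs)]
  refine Finset.sum_congr rfl (fun j _ => ?_)
  rw [eval_finsetSum, Finset.sum_mul]
  refine Finset.sum_congr rfl (fun s hs => ?_)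
  rw [Finset.mem_filter] at hs
  rw [eval_monomial, Fin.prod_univ_two, ← hs.2]
  simp only [Matrix.cons_val_zero, Matrix.cons_val_one]
  rw [← Complex.exp_nat_mul]
  push_cast
  ring

theorem Qc_ne_zero {p : MvPolynomial (Fin 2) K} {s : Fin 2 →₀ ℕ} (hs : s ∈ p.support) :
    Qc p ((s 1 : ℕ) : ℤ) ≠ 0 := by
  classical
  intro h0
  have h1 := congrArg (fun q => Polynomial.coeff q (s 0)) h0
  simp only [Qc, Polynomial.finsetSum_coeff, Polynomial.coeff_monomial, Polynomial.coeff_zero] at h1
  rw [Finset.sum_eq_single s] at h1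
  · rw [if_pos rfl] at h1
    have h2 : p.coeff s = 0 := (map_eq_zero _).1 h1
    exact (MvPolynomial.mem_support_iff.1 hs) h2
  · intro u hu hus
    rw [if_neg]
    intro h6
    apply hus
    ext i
    rw [Finset.mem_filter] at hu
    fin_cases i
    · exact h6
    · exact_mod_cast hu.2
  · intro h6
    exact (h6 (Finset.mem_filter.2 ⟨hs, rfl⟩)).elim

/-- an irreducible polynomial which depends on both variables contains two powers of `Y` -/
theorem two_powers {p : MvPolynomial (Fin 2) K} (hp : Irreducible p) (h0 : 0 < p.degreeOf 0)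
    (h1 : 0 < p.degreeOf 1) : ∃ s ∈ p.support, ∃ u ∈ p.support, s 1 ≠ u 1 := by
  classical
  by_contra hcon
  push Not at hcon
  obtain ⟨s, hs, hs0⟩ : ∃ s ∈ p.support, s 1 = p.degreeOf 1 := by
    rw [MvPolynomial.degreeOf_eq_sup]
    obtain ⟨s, hs, h⟩ := Finset.exists_mem_eq_sup p.support (by
      rw [Finset.nonempty_iff_ne_empty, Ne, MvPolynomial.support_eq_empty]
      exact hp.ne_zero) (fun s => s 1)
    exact ⟨s, hs, h.symm⟩
  have hX : (MvPolynomial.X 1 : MvPolynomial (Fin 2) K) ∣ p := by
    rw [MvPolynomial.X_dvd_iff_modMonomial_eq_zero]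
    ext u
    by_cases hu : Finsupp.single 1 1 ≤ u
    · rw [MvPolynomial.coeff_modMonomial_of_le _ hu, MvPolynomial.coeff_zero]
    · rw [MvPolynomial.coeff_modMonomial_of_not_le _ hu, MvPolynomial.coeff_zero]
      by_contra h2
      apply hu
      have h3 := hcon u (MvPolynomial.mem_support_iff.2 h2) s hs
      rw [Finsupp.single_le_iff]
      omega
  obtain ⟨h, hh⟩ := hX
  rcases hp.isUnit_or_isUnit hh with h2 | h2
  · obtain ⟨c, -, hc⟩ := (MvPolynomial.isUnit_iff_eq_C_of_isReduced).1 h2
    have h3 := congrArg (MvPolynomial.degreeOf 1) hc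
    rw [MvPolynomial.degreeOf_X_self, MvPolynomial.degreeOf_C] at h3
    exact one_ne_zero h3
  · obtain ⟨c, -, hc⟩ := (MvPolynomial.isUnit_iff_eq_C_of_isReduced).1 h2
    rw [hh, hc] at h0
    have h3 := MvPolynomial.degreeOf_mul_le 0 (MvPolynomial.X 1 : MvPolynomial (Fin 2) K)
      (MvPolynomial.C c)
    rw [MvPolynomial.degreeOf_X_of_ne (by decide), MvPolynomial.degreeOf_C] at h3
    omega

/-- **A polynomial in `z` and `e^z` has infinitely many zeros.** -/
theorem infinite_zeros {p : MvPolynomial (Fin 2) K} (hp : Irreducible p) (h0 : 0 < p.degreeOf 0)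
    (h1 : 0 < p.degreeOf 1) :
    {z : ℂ | MvPolynomial.aeval ![z, Complex.exp z] p = 0}.Infinite := by
  obtain ⟨s, hs, u, hu, hne⟩ := two_powers hp h0 h1
  have h2 := infinite (p.support.image fun s => ((s 1 : ℕ) : ℤ)) (Qc p) ((s 1 : ℕ) : ℤ)
    ((u 1 : ℕ) : ℤ) (Finset.mem_image_of_mem _ hs) (Finset.mem_image_of_mem _ hu)
    (by exact_mod_cast hne) (Qc_ne_zero hs) (Qc_ne_zero hu)
  simpa only [Psi_eq] using h2

end two

end Pool.Agent.Helper78.EC.Zeros
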