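import Mathlib
import Pool.Agent.Helper78.EC.Zeros
import Pool.Agent.Helper78.EC.Mar2

/-!
# Automorphisms of the complex field, common zeros of two polynomials
-/

set_option autoImplicit false

namespace Pool.Agent.Helper78.EC.Qm

open Set MvPolynomial Module Cardinal
open Pool.Agent.Helper78.SC Pool.Agent.Helper78.SC.Ax
open Pool.Agent.Helper78.EC.Closure Pool.Agent.Helper78.EC.Generic Pool.Agent.Helper78.EC.Use
open Pool.Agent.Helper78.EC.Disj Pool.Agent.Helper78.EC.Str Pool.Agent.Helper78.EC.Curve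
open Pool.Agent.Helper78.EC.Mar
open Pool.Agent.W252 Pool.Agent.TH813.Core Pool.Agent.TH813.Rank

/-- isomorphisms of uncountable algebraically closed fields over a countable domain -/
theorem exists_equiv {R K L : Type} [CommRing R] [Nontrivial R] [Countable R] [Field K] [Field L]
    [IsAlgClosed K] [IsAlgClosed L] (f : R →+* K) (g : R →+* L) (hf : Function.Injective f)
    (hg : Function.Injective g) (hK : ℵ₀ < #K) (hKL : #K = #L) :
    ∃ σ : K ≃+* L, ∀ r, σ (f r) = g r := by
  let _ := f.toAlgebra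
  let _ := g.toAlgebra
  have : FaithfulSMul R K := (faithfulSMul_iff_algebraMap_injective R K).2 hf
  have : FaithfulSMul R L := (faithfulSMul_iff_algebraMap_injective R L).2 hg
  obtain ⟨s, hs⟩ := exists_isTranscendenceBasis R K
  obtain ⟨t, ht⟩ := exists_isTranscendenceBasis R L
  have hL : ℵ₀ < #L := hKL ▸ hK
  have hR : #R ≤ ℵ₀ := mk_le_aleph0
  have h1 : #K = #s := by
    simpa using IsAlgClosed.cardinal_eq_cardinal_transcendence_basis_of_aleph0_lt _ hs hR hK
  have h2 : #L = #t := by
    simpa using IsAlgClosed.cardinal_eq_cardinal_transcendence_basis_of_aleph0_lt _ ht hR hL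
  obtain ⟨e⟩ := Cardinal.eq.1 (h1.symm.trans (hKL.trans h2))
  let i1 := IsAlgClosed.isAlgClosure_of_transcendence_basis _ hs
  let i2 := IsAlgClosed.isAlgClosure_of_transcendence_basis _ ht
  let e' : Algebra.adjoin R (Set.range ((↑) : s → K)) ≃ₐ[R]
      Algebra.adjoin R (Set.range ((↑) : t → L)) :=
    hs.1.aevalEquiv.symm.trans ((MvPolynomial.renameEquiv R e).trans ht.1.aevalEquiv)
  refine ⟨IsAlgClosure.equivOfEquiv K L e'.toRingEquiv, fun r => ?_⟩
  have h3 := IsAlgClosure.equivOfEquiv_algebraMap K L e'.toRingEquiv (algebraMap R _ r)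
  have h4 : e'.toRingEquiv (algebraMap R _ r) = algebraMap R _ r := e'.commutes r
  rw [h4] at h3
  exact h3

/-- the ring homomorphism fixes a field -/
def Fix (F : IntermediateField ℚ ℂ) (σ : ℂ ≃+* ℂ) : Prop := ∀ w ∈ F, σ w = w

theorem map_aeval' {F : IntermediateField ℚ ℂ} {σ : ℂ ≃+* ℂ} (hσ : Fix F σ) {ι : Type*}
    (x : ι → ℂ) (P : MvPolynomial ι F) : σ (aeval x P) = aeval (fun i => σ (x i)) P := by
  induction P using MvPolynomial.induction_on with
  | C a => rw [aeval_C, aeval_C]; exact hσ _ a.2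
  | add p q hp hq => rw [map_add, map_add, map_add, hp, hq]
  | mul_X p j hp => rw [map_mul, map_mul, map_mul, hp, aeval_X, aeval_X]

/-- **points with the same relations are conjugate** -/
theorem exists_aut {F : IntermediateField ℚ ℂ} (hF : Countable F) {ι : Type} [Countable ι]
    (x y : ι → ℂ) (h : ∀ P : MvPolynomial ι F, aeval x P = 0 ↔ aeval y P = 0) :
    ∃ σ : ℂ ≃+* ℂ, Fix F σ ∧ ∀ i, σ (x i) = y i := by
  let I : Ideal (MvPolynomial ι F) := RingHom.ker (aeval x : MvPolynomial ι F →ₐ[F] ℂ).toRingHom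
  have hI : I ≠ ⊤ := RingHom.ker_ne_top _
  have : Nontrivial (MvPolynomial ι F ⧸ I) := Ideal.Quotient.nontrivial_iff.2 hI
  have hcF : Countable (MvPolynomial ι F) := by
    rw [← mk_le_aleph0_iff]
    refine (MvPolynomial.cardinalMk_le_max (σ := ι) (R := F)).trans ?_
    exact max_le (max_le mk_le_aleph0 mk_le_aleph0) le_rfl
  have : Countable (MvPolynomial ι F ⧸ I) := Quotient.countable
  let f : (MvPolynomial ι F ⧸ I) →+* ℂ :=
    Ideal.Quotient.lift I (aeval x : MvPolynomial ι F →ₐ[F] ℂ).toRingHom (fun a ha => ha)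
  let g : (MvPolynomial ι F ⧸ I) →+* ℂ :=
    Ideal.Quotient.lift I (aeval y : MvPolynomial ι F →ₐ[F] ℂ).toRingHom (fun a ha => (h a).1 ha)
  have hf : Function.Injective f := by
    rw [injective_iff_map_eq_zero]
    intro a ha
    obtain ⟨a, rfl⟩ := Ideal.Quotient.mk_surjective a
    rw [Ideal.Quotient.eq_zero_iff_mem]
    exact ha
  have hg : Function.Injective g := by
    rw [injective_iff_map_eq_zero]
    intro a ha
    obtain ⟨a, rfl⟩ := Ideal.Quotient.mk_surjective a
    rw [Ideal.Quotient.eq_zero_iff_mem]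
    exact (h a).2 ha
  have hc : ℵ₀ < #ℂ := by rw [Cardinal.mk_complex]; exact Cardinal.aleph0_lt_continuum
  obtain ⟨σ, hσ⟩ := exists_equiv (R := MvPolynomial ι F ⧸ I) (K := ℂ) (L := ℂ) f g hf hg hc rfl
  refine ⟨σ, fun w hw => ?_, fun i => ?_⟩
  · have h1 := hσ (Ideal.Quotient.mk I (C (⟨w, hw⟩ : F)))
    have h2 : f (Ideal.Quotient.mk I (C (⟨w, hw⟩ : F))) = w := by
      change aeval x (C (⟨w, hw⟩ : F)) = w
      rw [aeval_C]
      rfl
    have h3 : g (Ideal.Quotient.mk I (C (⟨w, hw⟩ : F))) = w := by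
      change aeval y (C (⟨w, hw⟩ : F)) = w
      rw [aeval_C]
      rfl
    rw [h2, h3] at h1
    exact h1
  · have h1 := hσ (Ideal.Quotient.mk I (X i))
    have h2 : f (Ideal.Quotient.mk I (X i)) = x i := aeval_X x i
    have h3 : g (Ideal.Quotient.mk I (X i)) = y i := aeval_X y i
    rw [h2, h3] at h1
    exact h1

section bez

variable {K : Type} [Field K] [Algebra K ℂ]

open Polynomial in
/-- **Common zeros.** -/
theorem bez0 {p q : K[X][X]} (hp : Irreducible p) {S : Set ℂ} (hS : S.Infinite)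
    (h : ∀ x ∈ S, ∃ y, aevalAeval x y p = 0 ∧ aevalAeval x y q = 0) : p ∣ q := by
  classical
  have hfin : ∀ r : K[X], (∀ x ∈ S, aeval x r = 0) → r = 0 := by
    intro r hr
    by_contra hr0
    apply hS
    have h1 : (r.map (algebraMap K ℂ)) ≠ 0 := by
      rw [Ne, Polynomial.map_eq_zero_iff (algebraMap K ℂ).injective]
      exact hr0
    refine ((r.map (algebraMap K ℂ)).roots.toFinset.finite_toSet).subset (fun x hx => ?_)
    rw [Finset.mem_coe, Multiset.mem_toFinset, mem_roots h1, IsRoot.def, Polynomial.eval_map]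
    exact hr x hx
  have hdeg : p.natDegree ≠ 0 := by
    intro h0
    apply hp.ne_zero
    rw [eq_C_of_natDegree_eq_zero h0]
    rw [eq_C_of_natDegree_eq_zero h0] at h
    rw [hfin (p.coeff 0) (fun x hx => ?_), Polynomial.C_0]
    obtain ⟨y, hy, -⟩ := h x hx
    rwa [aevalAeval_C] at hy
  let F := FractionRing K[X]
  have hprim : p.IsPrimitive := hp.isPrimitive hdeg
  have hirr : Irreducible (p.map (algebraMap K[X] F)) :=
    hprim.irreducible_iff_irreducible_map_fraction_map.1 hp
  apply hprim.dvd_of_fraction_map_dvd_fraction_map (K := F)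
  by_contra hcon
  have hcop : IsCoprime (p.map (algebraMap K[X] F)) (q.map (algebraMap K[X] F)) :=
    (hirr.coprime_iff_not_dvd).2 hcon
  have hinj : Function.Injective (algebraMap K[X] F) := IsFractionRing.injective _ _
  have hres : resultant p q ≠ 0 := by
    intro h0
    have h1 : resultant (p.map (algebraMap K[X] F)) (q.map (algebraMap K[X] F)) = 0 := by
      rw [natDegree_map_eq_of_injective hinj, natDegree_map_eq_of_injective hinj,
        resultant_map_map, h0, map_zero]
    rw [resultant_eq_zero_iff] at h1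
    exact h1.2 hcop
  obtain ⟨a, b, -, -, hab⟩ := exists_mul_add_mul_eq_C_resultant p q le_rfl le_rfl (Or.inl hdeg)
  apply hres
  apply hfin
  intro x hx
  obtain ⟨y, hy1, hy2⟩ := h x hx
  have h1 := congrArg (aevalAeval (R := K) x y) hab
  rw [map_add, map_mul, map_mul, hy1, hy2, zero_mul, zero_mul, add_zero, aevalAeval_C] at h1
  exact h1.symm

theorem bez {p q : MvPolynomial (Fin 2) K} (hp : Irreducible p) {S : Set ℂ} (hS : S.Infinite)
    (h : ∀ x ∈ S, ∃ y, aeval ![x, y] p = 0 ∧ aeval ![x, y] q = 0) : p ∣ q := by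
  let e := Polynomial.Bivariate.equivMvPolynomial K
  have hev : ∀ (x y : ℂ) (r : MvPolynomial (Fin 2) K), Polynomial.aevalAeval x y (e.symm r) =
      aeval ![x, y] r := by
    intro x y r
    have h1 : (Polynomial.aevalAeval (R := K) x y).comp (e.symm : _ →ₐ[K] _) = aeval ![x, y] := by
      apply MvPolynomial.algHom_ext
      intro i
      rw [aeval_X, AlgHom.comp_apply]
      change Polynomial.aevalAeval x y (e.symm (X i)) = _
      fin_cases i
      · change Polynomial.aevalAeval x y (e.symm (X 0)) = x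
        rw [Polynomial.Bivariate.equivMvPolynomial_symm_X_0, Polynomial.aevalAeval_X]
      · change Polynomial.aevalAeval x y (e.symm (X 1)) = y
        rw [Polynomial.Bivariate.equivMvPolynomial_symm_X_1, Polynomial.aevalAeval_Y]
    exact DFunLike.congr_fun h1 r
  have h1 := bez0 (p := e.symm p) (q := e.symm q) ((MulEquiv.irreducible_iff e.symm).2 hp) hS
    (fun x hx => by
      obtain ⟨y, hy1, hy2⟩ := h x hx
      exact ⟨y, by rw [hev, hy1], by rw [hev, hy2]⟩)
  have h2 := map_dvd e h1
  rwa [AlgEquiv.apply_symm_apply, AlgEquiv.apply_symm_apply] at h2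

end bez

end Pool.Agent.Helper78.EC.Qm
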