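import Mathlib
import Pool.Agent.Helper78.EC.Zeros

/-!
# Zeros of a polynomial in `z`, `e^z` in a finite dimensional rational space: valuations
-/

set_option autoImplicit false

namespace Pool.Agent.Helper78.EC.Qm

open Set Module
open Pool.Agent.W337.EC

section vals

variable {Γ : Type*} [LinearOrderedCommGroupWithZero Γ] (v : Valuation ℂ Γ)

theorem sum_ne {ι : Type*} (J : Finset ι) (a : ι → ℂ)
    (h : ∀ j ∈ J, ∀ k ∈ J, a j ≠ 0 → a k ≠ 0 → v (a j) = v (a k) → j = k)
    (hex : ∃ j ∈ J, a j ≠ 0) : ∑ j ∈ J, a j ≠ 0 := by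
  classical
  obtain ⟨j₁, hj₁, hj₁'⟩ := hex
  obtain ⟨j₀, hj₀, hmax⟩ := J.exists_max_image (fun j => v (a j)) ⟨j₁, hj₁⟩
  have h0 : v (a j₀) ≠ 0 := by
    have h1 : 0 < v (a j₁) := zero_lt_iff.2 ((Valuation.ne_zero_iff v).2 hj₁')
    exact (h1.trans_le (hmax j₁ hj₁)).ne'
  have h1 : v (∑ j ∈ J, a j) = v (a j₀) := by
    apply Valuation.map_sum_eq_of_lt v hj₀
    intro i hi
    rw [Finset.mem_sdiff, Finset.mem_singleton] at hi
    refine lt_of_le_of_ne (hmax i hi.1) (fun h2 => hi.2 ?_)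
    refine h i hi.1 j₀ hj₀ ?_ ((Valuation.ne_zero_iff v).1 h0) h2
    rw [← Valuation.ne_zero_iff v, h2]
    exact h0
  intro h2
  rw [h2, map_zero] at h1
  exact h0 h1.symm

theorem fin_values {E : IntermediateField ℚ ℂ} (hv : ∀ e ∈ E, e ≠ 0 → v e = 1)
    (V : Submodule E ℂ) (hV : V.FG) : (v '' (V : Set ℂ)).Finite := by
  classical
  by_contra hcon
  have hinf : (v '' (V : Set ℂ) \ {0}).Infinite := by
    intro h
    apply hcon
    exact (h.union (finite_singleton 0)).subset (fun x hx => by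
      by_cases h0 : x = 0
      · exact Or.inr h0
      · exact Or.inl ⟨hx, h0⟩)
  have : Module.Finite E V := Module.Finite.iff_fg.2 hV
  obtain ⟨T, hT, hTc⟩ := hinf.exists_subset_card_eq (finrank E V + 1)
  have hx : ∀ g : T, ∃ x : V, v (x : ℂ) = g.1 := by
    rintro ⟨g, hg⟩
    obtain ⟨⟨x, hx, hxg⟩, -⟩ := hT hg
    exact ⟨⟨x, hx⟩, hxg⟩
  choose x hx using hx
  have hx0 : ∀ g : T, (x g : ℂ) ≠ 0 := by
    intro g h0
    have h1 := (hT g.2).2
    rw [← hx g, h0, map_zero] at h1
    exact h1 rfl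
  have hli : LinearIndependent E x := by
    rw [linearIndependent_iff']
    intro s c hc i hi
    by_contra hci
    have h1 : ∑ g ∈ s, ((c g : E) : ℂ) * (x g : ℂ) = 0 := by
      have h2 := congrArg (Subtype.val) hc
      rw [Submodule.coe_sum] at h2
      exact h2
    have hvc : ∀ g : T, ((c g : E) : ℂ) * (x g : ℂ) ≠ 0 →
        v (((c g : E) : ℂ) * (x g : ℂ)) = g.1 := by
      intro g hg
      rw [map_mul, hv _ (c g).2 (left_ne_zero_of_mul hg), one_mul, hx]
    refine sum_ne v s (fun g => ((c g : E) : ℂ) * (x g : ℂ)) ?_ ⟨i, hi, ?_⟩ h1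
    · intro j _ k _ hj hk hjk
      rw [hvc j hj, hvc k hk] at hjk
      exact Subtype.ext hjk
    · exact mul_ne_zero (fun h => hci (Subtype.ext h)) (hx0 i)
  have h1 := hli.fintype_card_le_finrank
  rw [Fintype.card_coe, hTc] at h1
  omega

end vals

/-- a valuation with `v x < 1` -/
theorem exists_val {E : IntermediateField ℚ ℂ} {x : ℂ} (hx : Transcendental E x) :
    ∃ B : ValuationSubring ℂ, (∀ e ∈ E, e ∈ B) ∧ B.valuation x < 1 := by
  let A : Subring ℂ := (Algebra.adjoin E {x}).toSubring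
  have hxA : x ∈ A := Algebra.self_mem_adjoin_singleton E x
  let I : Ideal A := Ideal.span {⟨x, hxA⟩}
  have hI : I ≠ ⊤ := by
    intro h
    have h1 : (1 : A) ∈ I := by rw [h]; trivial
    obtain ⟨a, ha⟩ := Ideal.mem_span_singleton'.1 h1
    have h2 : (a : ℂ) ∈ Algebra.adjoin E {x} := a.2
    rw [Algebra.adjoin_singleton_eq_range_aeval] at h2
    obtain ⟨p, hp⟩ := h2
    have h3 : (a : ℂ) * x = 1 := congrArg Subtype.val ha
    have h4 : Polynomial.aeval x (p * Polynomial.X - 1) = 0 := by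
      rw [map_sub, map_mul, Polynomial.aeval_X, map_one]
      have h5 : (Polynomial.aeval x p : ℂ) = a := hp
      rw [h5, h3, sub_self]
    have h5 : p * Polynomial.X - 1 = 0 := by
      by_contra h6
      exact hx ⟨_, h6, h4⟩
    have h6 := congrArg (Polynomial.eval 0) h5
    simp at h6
  obtain ⟨B, hB1, hB2⟩ := Ideal.image_subset_nonunits_valuationSubring I hI
  refine ⟨B, fun e he => hB1 ?_, ?_⟩
  · exact (Algebra.adjoin E {x}).algebraMap_mem (⟨e, he⟩ : E)
  · rw [← ValuationSubring.mem_nonunits_iff]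
    exact hB2 ⟨⟨x, hxA⟩, Ideal.subset_span rfl, rfl⟩

theorem val_eq_one {E : IntermediateField ℚ ℂ} {B : ValuationSubring ℂ} (hB : ∀ e ∈ E, e ∈ B) :
    ∀ e ∈ E, e ≠ 0 → B.valuation e = 1 := by
  intro e he h0
  apply le_antisymm ((B.valuation_le_one_iff e).2 (hB e he))
  have h1 := (B.valuation_le_one_iff e⁻¹).2 (hB _ (E.inv_mem he))
  rw [map_inv₀] at h1
  have h2 : 0 < B.valuation e := zero_lt_iff.2 ((Valuation.ne_zero_iff _).2 h0)
  exact (inv_le_one₀ h2).1 h1

/-- the combination with rational coefficients -/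
noncomputable def cb {m : ℕ} (s : Fin m → ℂ) (q : Fin m → ℚ) : ℂ := ∑ i, (q i : ℂ) * s i

theorem cb_add {m : ℕ} (s : Fin m → ℂ) (q r : Fin m → ℚ) : cb s (q + r) = cb s q + cb s r := by
  unfold cb
  rw [← Finset.sum_add_distrib]
  refine Finset.sum_congr rfl (fun i _ => ?_)
  rw [Pi.add_apply]
  push_cast
  ring

theorem cb_smul {m : ℕ} (s : Fin m → ℂ) (a : ℚ) (q : Fin m → ℚ) : cb s (a • q) = a * cb s q := by
  unfold cb
  rw [Finset.mul_sum]
  refine Finset.sum_congr rfl (fun i _ => ?_)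
  rw [Pi.smul_apply, smul_eq_mul]
  push_cast
  ring

theorem cb_sub {m : ℕ} (s : Fin m → ℂ) (q r : Fin m → ℚ) : cb s (q - r) = cb s q - cb s r := by
  unfold cb
  rw [← Finset.sum_sub_distrib]
  refine Finset.sum_congr rfl (fun i _ => ?_)
  rw [Pi.sub_apply]
  push_cast
  ring

theorem cb_zero {m : ℕ} (s : Fin m → ℂ) : cb s 0 = 0 := by
  unfold cb
  exact Finset.sum_eq_zero (fun i _ => by simp)

/-- the rational vectors with trivial value of the exponential -/
noncomputable def G {m : ℕ} (s : Fin m → ℂ) (B : ValuationSubring ℂ) : Submodule ℚ (Fin m → ℚ) where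
  carrier := {q | B.valuation (Complex.exp (cb s q)) = 1}
  add_mem' := by
    intro a b ha hb
    change B.valuation (Complex.exp (cb s (a + b))) = 1
    have ha' : B.valuation (Complex.exp (cb s a)) = 1 := ha
    have hb' : B.valuation (Complex.exp (cb s b)) = 1 := hb
    rw [cb_add, Complex.exp_add, map_mul, ha', hb', one_mul]
  zero_mem' := by
    change B.valuation (Complex.exp (cb s 0)) = 1
    rw [cb_zero, Complex.exp_zero, map_one]
  smul_mem' := by
    intro a q hq
    have hq' : B.valuation (Complex.exp (cb s q)) = 1 := hq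
    change B.valuation (Complex.exp (cb s (a • q))) = 1
    have h1 : Complex.exp (cb s (a • q)) ^ (a.den : ℤ) = Complex.exp (cb s q) ^ a.num := by
      rw [← Complex.exp_int_mul, ← Complex.exp_int_mul, cb_smul, ← mul_assoc]
      congr 2
      have h2 : ((a.den : ℚ) : ℂ) * (a : ℂ) = ((a.num : ℚ) : ℂ) := by
        exact_mod_cast (by rw [Rat.den_mul_eq_num] : (a.den : ℚ) * a = a.num)
      simpa using h2
    have h2 := congrArg B.valuation h1
    rw [map_zpow₀, map_zpow₀, hq', one_zpow] at h2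
    have h3 : (B.valuation (Complex.exp (cb s (a • q)))) ^ (a.den : ℤ) = 1 ^ (a.den : ℤ) := by
      rw [h2, one_zpow]
    exact (zpow_left_inj₀ zero_le zero_le (by exact_mod_cast a.den_ne_zero)).1 h3

/-- **Descent through the subspaces.** -/
theorem finite_of_values {E : IntermediateField ℚ ℂ} (hlog : ∀ z, Complex.exp z ∈ E → z ∈ E)
    (halg : ∀ x : ℂ, IsAlgebraic E x → x ∈ E) {m : ℕ} (s : Fin m → ℂ)
    (hs : ∀ q : Fin m → ℚ, cb s q ∈ E → q = 0) (T : Set (Fin m → ℚ))
    (hT : ∀ B : ValuationSubring ℂ, (∀ e ∈ E, e ∈ B) →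
      ((fun q => B.valuation (Complex.exp (cb s q))) '' T).Finite) : T.Finite := by
  classical
  by_contra hcon
  have hTi : T.Infinite := hcon
  let D : Set (Fin m → ℚ) → Submodule ℚ (Fin m → ℚ) := fun S =>
    Submodule.span ℚ {u | ∃ q ∈ S, ∃ r ∈ S, u = q - r}
  let P : ℕ → Prop := fun d => ∃ S ⊆ T, S.Infinite ∧ finrank ℚ (D S) = d
  have hP : ∃ d, P d := ⟨_, T, Subset.rfl, hTi, rfl⟩
  obtain ⟨S, hST, hSi, hSd⟩ := Nat.find_spec hP
  obtain ⟨q, hq, r, hr, hqr⟩ := hSi.nontrivial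
  have hu : q - r ≠ 0 := sub_ne_zero.2 hqr
  have hx : Transcendental E (Complex.exp (cb s (q - r))) := by
    intro h
    exact hu (hs _ (hlog _ (halg _ h)))
  obtain ⟨B, hB1, hB2⟩ := exists_val hx
  have hfin := (hT B hB1).subset (image_mono hST)
  have : Infinite S := hSi.to_subtype
  have : Finite ((fun q => B.valuation (Complex.exp (cb s q))) '' S) := hfin.to_subtype
  obtain ⟨⟨y, hy⟩, hyi⟩ := Finite.exists_infinite_fiber
    (fun q : S => (⟨B.valuation (Complex.exp (cb s q.1)), ⟨q.1, q.2, rfl⟩⟩ :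
      (fun q => B.valuation (Complex.exp (cb s q))) '' S))
  let S' : Set (Fin m → ℚ) := {q | q ∈ S ∧ B.valuation (Complex.exp (cb s q)) = y}
  have hS'i : S'.Infinite := by
    intro hf
    have : Finite S' := hf.to_subtype
    apply hyi.not_finite
    refine Finite.of_injective (fun q => (⟨q.1.1, q.1.2, congrArg Subtype.val q.2⟩ : S')) ?_
    intro a b hab
    exact Subtype.ext (Subtype.ext (congrArg (fun w : S' => w.1) hab))
  have h1 : D S' ≤ D S := by
    apply Submodule.span_mono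
    rintro u ⟨a, ha, b, hb, rfl⟩
    exact ⟨a, ha.1, b, hb.1, rfl⟩
  have h2 : D S' ≤ G s B := by
    apply Submodule.span_le.2
    rintro u ⟨a, ha, b, hb, rfl⟩
    change B.valuation (Complex.exp (cb s (a - b))) = 1
    rw [cb_sub, Complex.exp_sub, map_div₀, ha.2, hb.2]
    apply div_self
    rw [← hb.2, Valuation.ne_zero_iff]
    exact Complex.exp_ne_zero _
  have h3 : D S' < D S := by
    refine lt_of_le_of_ne h1 (fun h4 => ?_)
    have h5 : q - r ∈ D S' := by
      rw [h4]
      exact Submodule.subset_span ⟨q, hq, r, hr, rfl⟩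
    have h6 : B.valuation (Complex.exp (cb s (q - r))) = 1 := h2 h5
    rw [h6] at hB2
    exact lt_irrefl _ hB2
  have h4 := Submodule.finrank_lt_finrank_of_lt h3
  rw [hSd] at h4
  exact Nat.find_min hP h4 ⟨S', fun w hw => hST hw.1, hS'i, rfl⟩

/-- the values of a polynomial on a finitely generated space -/
theorem poly_space {E : IntermediateField ℚ ℂ} (W : Submodule E ℂ) (hW : W.FG) (Q : Polynomial ℂ) :
    ∃ V : Submodule E ℂ, V.FG ∧ ∀ z ∈ W, Q.eval z ∈ V := by
  induction Q using Polynomial.induction_on' with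
  | add p q hp hq =>
    obtain ⟨V, hV, h1⟩ := hp
    obtain ⟨V', hV', h2⟩ := hq
    refine ⟨V ⊔ V', hV.sup hV', fun z hz => ?_⟩
    rw [Polynomial.eval_add]
    exact Submodule.add_mem_sup (h1 z hz) (h2 z hz)
  | monomial n a =>
    refine ⟨Submodule.span E {a} * W ^ n, (Submodule.fg_span_singleton a).mul (hW.pow n),
      fun z hz => ?_⟩
    rw [Polynomial.eval_monomial]
    exact Submodule.mul_mem_mul (Submodule.mem_span_singleton_self a) (Submodule.pow_mem_pow W hz n)

open Zeros in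
/-- **The zeros in a finite dimensional rational space modulo `E`.** -/
theorem finite_directions {E : IntermediateField ℚ ℂ} (hlog : ∀ z, Complex.exp z ∈ E → z ∈ E)
    (halg : ∀ x : ℂ, IsAlgebraic E x → x ∈ E) (hexp : ∀ z ∈ E, Complex.exp z ∈ E)
    {m : ℕ} (s : Fin m → ℂ) (hs : ∀ q : Fin m → ℚ, cb s q ∈ E → q = 0) (S : Finset ℤ)
    (Q : ℤ → Polynomial ℂ) (j₀ : ℤ) (hj₀ : j₀ ∈ S) :
    {q : Fin m → ℚ | ∃ c ∈ E, Psi S Q (cb s q + c) = 0 ∧ (Q j₀).eval (cb s q + c) ≠ 0}.Finite := by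
  classical
  apply finite_of_values hlog halg s hs
  intro B hB
  let W : Submodule E ℂ := Submodule.span E (insert 1 (range s))
  have hW : W.FG := Submodule.fg_span ((finite_range s).insert 1)
  have hmem : ∀ (q : Fin m → ℚ), ∀ c ∈ E, cb s q + c ∈ W := by
    intro q c hc
    apply W.add_mem
    · unfold cb
      apply W.sum_mem
      intro i _
      have h1 : (q i : ℂ) * s i = ((q i : ℚ) : E) • s i := by
        rw [Algebra.smul_def]
        congr 1
      rw [h1]
      exact W.smul_mem _ (Submodule.subset_span (Or.inr ⟨i, rfl⟩))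
    · have h1 : c = (⟨c, hc⟩ : E) • (1 : ℂ) := by
        rw [Algebra.smul_def, mul_one]
        rfl
      rw [h1]
      exact W.smul_mem _ (Submodule.subset_span (Or.inl rfl))
  choose V hV hVm using fun j => poly_space W hW (Q j)
  have hfin : ∀ j, (B.valuation '' (V j : Set ℂ)).Finite := fun j =>
    fin_values B.valuation (val_eq_one hB) (V j) (hV j)
  let U : ℤ → ℤ → Set B.ValueGroup := fun j k =>
    {g | g ^ (j - k) ∈ image2 (fun a b => a / b) (B.valuation '' (V k : Set ℂ))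
      (B.valuation '' (V j : Set ℂ))}
  have hU : ∀ j ∈ S, ∀ k ∈ S, j ≠ k → (U j k).Finite := by
    intro j _ k _ hjk
    apply Set.Finite.preimage _ ((hfin k).image2 _ (hfin j))
    intro a _ b _ hab
    exact (zpow_left_inj₀ zero_le zero_le (sub_ne_zero.2 hjk)).1 hab
  have hUn : (⋃ j ∈ S, ⋃ k ∈ S, ⋃ _ : j ≠ k, U j k).Finite := by
    apply Set.Finite.biUnion S.finite_toSet
    intro j hj
    apply Set.Finite.biUnion S.finite_toSet
    intro k hk
    apply Set.finite_iUnion
    intro h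
    exact hU j hj k hk h
  refine hUn.subset ?_
  rintro _ ⟨q, ⟨c, hc, hz, hq⟩, rfl⟩
  set z := cb s q + c with hzdef
  have hzv : B.valuation (Complex.exp (cb s q)) = B.valuation (Complex.exp z) := by
    rw [hzdef, Complex.exp_add, map_mul, val_eq_one hB _ (hexp c hc) (Complex.exp_ne_zero c), mul_one]
  have hex : ∃ j ∈ S, ∃ k ∈ S, j ≠ k ∧ (Q j).eval z * Complex.exp (j * z) ≠ 0 ∧
      (Q k).eval z * Complex.exp (k * z) ≠ 0 ∧
      B.valuation ((Q j).eval z * Complex.exp (j * z)) =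
        B.valuation ((Q k).eval z * Complex.exp (k * z)) := by
    by_contra hcon
    push Not at hcon
    refine sum_ne B.valuation S (fun j => (Q j).eval z * Complex.exp (j * z)) ?_ ⟨j₀, hj₀, ?_⟩ hz
    · intro j hj k hk h1 h2 h3
      by_contra hjk
      exact hcon j hj k hk hjk h1 h2 h3
    · exact mul_ne_zero hq (Complex.exp_ne_zero _)
  obtain ⟨j, hj, k, hk, hjk, h1, h2, h3⟩ := hex
  simp only [mem_iUnion]
  refine ⟨j, hj, k, hk, hjk, ?_⟩
  change B.valuation (Complex.exp (cb s q)) ^ (j - k) ∈ image2 (fun a b => a / b)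
    (B.valuation '' (V k : Set ℂ)) (B.valuation '' (V j : Set ℂ))
  rw [hzv]
  refine ⟨B.valuation ((Q k).eval z), ⟨_, hVm k z (hmem q c hc), rfl⟩,
    B.valuation ((Q j).eval z), ⟨_, hVm j z (hmem q c hc), rfl⟩, ?_⟩
  have h4 : B.valuation ((Q j).eval z) ≠ 0 :=
    (Valuation.ne_zero_iff _).2 (left_ne_zero_of_mul h1)
  have h5 : B.valuation (Complex.exp z) ≠ 0 := (Valuation.ne_zero_iff _).2 (Complex.exp_ne_zero z)
  rw [map_mul, map_mul, Complex.exp_int_mul, Complex.exp_int_mul, map_zpow₀, map_zpow₀] at h3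
  change B.valuation ((Q k).eval z) / B.valuation ((Q j).eval z) = _
  rw [div_eq_iff h4, zpow_sub₀ h5, div_mul_eq_mul_div, eq_div_iff (zpow_ne_zero _ h5),
    mul_comm _ (B.valuation ((Q j).eval z)), h3]

end Pool.Agent.Helper78.EC.Qm
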