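import Mathlib
import Pool.Agent.Helper78.EC.QmA
import Pool.Agent.Helper78.EC.QmV

/-!
# The algebraic closures of the fields `E(s, e^s)`, tight tuples
-/

set_option autoImplicit false

namespace Pool.Agent.Helper78.EC.Qm

open Set MvPolynomial Module Cardinal
open Pool.Agent.Helper78.SC Pool.Agent.Helper78.SC.Ax Pool.Agent.Helper78.SC.Cov
open Pool.Agent.Helper78.EC.Closure Pool.Agent.Helper78.EC.Generic Pool.Agent.Helper78.EC.Use
open Pool.Agent.Helper78.EC.Disj Pool.Agent.Helper78.EC.Str Pool.Agent.Helper78.EC.Curve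
open Pool.Agent.Helper78.EC.Mar
open Pool.Agent.W252 Pool.Agent.TH813.Core Pool.Agent.TH813.Rank

/-- the field is algebraically closed -/
def Cl (G : IntermediateField ℚ ℂ) : Prop := ∀ w : ℂ, IsAlgebraic G w → w ∈ G

theorem cl_ecl (K : IntermediateField ℚ ℂ) : Cl (ecl K) := fun _ h => alg_mem h

/-- the algebraic closure of the field generated by `E`, `s` and `e^s` -/
noncomputable def Fs (E : IntermediateField ℚ ℂ) {m : ℕ} (s : Fin m → ℂ) : IntermediateField ℚ ℂ :=
  (algebraicClosure (IntermediateField.adjoin ℚ ((E : Set ℂ) ∪ range (pt s))) ℂ).restrictScalars ℚ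

variable {E : IntermediateField ℚ ℂ} {m : ℕ} {s s' : Fin m → ℂ}

theorem mem_Fs {w : ℂ} : w ∈ Fs E s ↔
    IsAlgebraic (IntermediateField.adjoin ℚ ((E : Set ℂ) ∪ range (pt s))) w := by
  unfold Fs
  rw [IntermediateField.mem_restrictScalars, mem_algebraicClosure_iff]

theorem adj_le_Fs : IntermediateField.adjoin ℚ ((E : Set ℂ) ∪ range (pt s)) ≤ Fs E s := fun w hw =>
  mem_Fs.2 (isAlgebraic_algebraMap (⟨w, hw⟩ : IntermediateField.adjoin ℚ _))

theorem le_Fs : E ≤ Fs E s := fun _ hw =>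
  adj_le_Fs (IntermediateField.subset_adjoin _ _ (Or.inl hw))

theorem pt_mem (i : Fin m ⊕ Fin m) : pt s i ∈ Fs E s :=
  adj_le_Fs (IntermediateField.subset_adjoin _ _ (Or.inr ⟨i, rfl⟩))

theorem cl_Fs : Cl (Fs E s) := by
  intro w hw
  have h1 : IsAlgebraic (algebraicClosure
    (IntermediateField.adjoin ℚ ((E : Set ℂ) ∪ range (pt s))) ℂ) w := hw
  have : Algebra.IsAlgebraic (IntermediateField.adjoin ℚ ((E : Set ℂ) ∪ range (pt s)))
      (algebraicClosure (IntermediateField.adjoin ℚ ((E : Set ℂ) ∪ range (pt s))) ℂ) :=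
    algebraicClosure.isAlgebraic _ _
  exact mem_Fs.2 (h1.restrictScalars _)

theorem Fs_le {G : IntermediateField ℚ ℂ} (hG : Cl G) (hE : E ≤ G) (hs : ∀ i, pt s i ∈ G) :
    Fs E s ≤ G := by
  intro w hw
  rw [mem_Fs] at hw
  apply hG
  have h1 : IntermediateField.adjoin ℚ ((E : Set ℂ) ∪ range (pt s)) ≤ G := by
    rw [IntermediateField.adjoin_le_iff]
    rintro w (hw | ⟨i, rfl⟩)
    · exact hE hw
    · exact hs i
  refine hw.ringHom_of_comp_eq (IntermediateField.inclusion h1).toRingHom (RingHom.id ℂ)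
    (IntermediateField.inclusion h1).toRingHom.injective ?_
  rfl

theorem countable_Fs (hE : Countable E) : Countable (Fs E s) := by
  have h0 : Countable ((E : Set ℂ) ∪ range (pt s) : Set ℂ) :=
    ((Set.countable_coe_iff.1 hE).union (countable_range _)).to_subtype
  have h1 : Countable (IntermediateField.adjoin ℚ ((E : Set ℂ) ∪ range (pt s))) := by
    rw [← mk_le_aleph0_iff]
    refine (IntermediateField.cardinalMk_adjoin_le ℚ _).trans ?_
    exact max_le (max_le mk_le_aleph0 mk_le_aleph0) le_rfl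
  have : Algebra.IsAlgebraic (IntermediateField.adjoin ℚ ((E : Set ℂ) ∪ range (pt s)))
      (algebraicClosure (IntermediateField.adjoin ℚ ((E : Set ℂ) ∪ range (pt s))) ℂ) :=
    algebraicClosure.isAlgebraic _ _
  have h2 : Countable
      (algebraicClosure (IntermediateField.adjoin ℚ ((E : Set ℂ) ∪ range (pt s))) ℂ) := by
    rw [← mk_le_aleph0_iff]
    refine (Algebra.IsAlgebraic.cardinalMk_le_max
      (IntermediateField.adjoin ℚ ((E : Set ℂ) ∪ range (pt s))) _).trans ?_
    exact max_le mk_le_aleph0 le_rfl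
  exact h2

theorem kills_Fs {D : Derivation ℚ ℂ ℂ} (hE : ∀ w ∈ E, D w = 0) (hs : ∀ i, D (pt s i) = 0) :
    ∀ w ∈ Fs E s, D w = 0 := by
  intro w hw
  refine kills_alg (kills_adjoin ?_) (mem_Fs.1 hw)
  rintro w (hw | ⟨i, rfl⟩)
  · exact hE w hw
  · exact hs i

/-- the preimage of a field -/
noncomputable def pre (σ : ℂ ≃+* ℂ) (G : IntermediateField ℚ ℂ) : IntermediateField ℚ ℂ where
  carrier := {w | σ w ∈ G}
  mul_mem' := fun {a b} ha hb => by
    have h : σ (a * b) ∈ G := by rw [map_mul]; exact G.mul_mem ha hb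
    exact h
  add_mem' := fun {a b} ha hb => by
    have h : σ (a + b) ∈ G := by rw [map_add]; exact G.add_mem ha hb
    exact h
  algebraMap_mem' := fun r => by
    have h : σ (algebraMap ℚ ℂ r) ∈ G := by
      rw [show σ (algebraMap ℚ ℂ r) = algebraMap ℚ ℂ r from map_ratCast σ r]
      exact G.algebraMap_mem r
    exact h
  inv_mem' := fun a ha => by
    have h : σ a⁻¹ ∈ G := by rw [map_inv₀]; exact G.inv_mem ha
    exact h

theorem cl_pre {σ : ℂ ≃+* ℂ} {G : IntermediateField ℚ ℂ} (hG : Cl G) : Cl (pre σ G) := by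
  intro w hw
  apply hG
  let f : pre σ G →+* G :=
    (σ.toRingHom.comp (pre σ G).val.toRingHom).codRestrict G (fun x => x.2)
  exact hw.ringHom_of_comp_eq f σ.toRingHom f.injective rfl

theorem map_mem_Fs {σ : ℂ ≃+* ℂ} (hσ : Fix E σ) (hs : ∀ i, σ (pt s i) = pt s' i) {w : ℂ}
    (hw : w ∈ Fs E s) : σ w ∈ Fs E s' := by
  have h1 : Fs E s ≤ pre σ (Fs E s') := by
    apply Fs_le (cl_pre cl_Fs)
    · intro w hw
      have h : σ w ∈ Fs E s' := by
        rw [hσ w hw]
        exact le_Fs hw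
      exact h
    · intro i
      have h : σ (pt s i) ∈ Fs E s' := by
        rw [hs]
        exact pt_mem i
      exact h
  exact h1 hw

theorem Fix.symm {F : IntermediateField ℚ ℂ} {σ : ℂ ≃+* ℂ} (h : Fix F σ) : Fix F σ.symm := by
  intro w hw
  rw [RingEquiv.symm_apply_eq, h w hw]

theorem inv_mem_Fs {σ : ℂ ≃+* ℂ} (hσ : Fix E σ) (hs : ∀ i, σ (pt s i) = pt s' i) {w : ℂ}
    (hw : σ w ∈ Fs E s') : w ∈ Fs E s := by
  have h1 := map_mem_Fs (s := s') (s' := s) hσ.symm (fun i => by
    rw [RingEquiv.symm_apply_eq, hs]) hw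
  rwa [RingEquiv.symm_apply_apply] at h1

theorem cb_mem (q : Fin m → ℚ) : cb s q ∈ Fs E s := by
  unfold cb
  apply sum_mem
  intro i _
  exact mul_mem ((Fs E s).algebraMap_mem (q i)) (pt_mem (Sum.inl i))

/-- numbers which are algebraically dependent on their exponentials -/
theorem mem_ecl_of_rel {K : IntermediateField ℚ ℂ} (hK : Cl K) {y : ℂ}
    (h : ¬ AlgebraicIndependent K ![y, Complex.exp y]) : y ∈ ecl K := by
  refine ⟨1, fun _ => y, fun D hD => ?_⟩
  by_contra hDy
  have h0 : ∀ w ∈ K, D w = 0 := hD.1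
  have h2 : D (Complex.exp y) = Complex.exp y * D y := by
    have h3 := hD.2 0
    unfold dlog at h3
    have h4 := Complex.exp_ne_zero y
    field_simp at h3
    linear_combination h3
  have hy : Transcendental K y := fun h3 => hDy (h0 _ (hK _ h3))
  have hey : Transcendental K (Complex.exp y) := by
    intro h3
    have h4 := h0 _ (hK _ h3)
    rw [h2] at h4
    exact hDy ((mul_eq_zero.1 h4).resolve_left (Complex.exp_ne_zero y))
  rw [AlgebraicIndependent, injective_iff_map_eq_zero] at h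
  push Not at h
  obtain ⟨g, hg, hg0⟩ := h
  obtain ⟨p, hp, hpy⟩ := exists_factor' hg0 hg
  have h1 := chain h0 y (Complex.exp y) p
  rw [hpy, map_zero, h2] at h1
  have h3 : aeval ![y, Complex.exp y] (pderiv 0 p + C 1 * (X 1 * pderiv 1 p)) = 0 := by
    rw [map_add, map_mul, map_mul, aeval_C, aeval_X, map_one, one_mul]
    have h4 : D y * (aeval ![y, Complex.exp y] (pderiv 0 p) +
        Complex.exp y * aeval ![y, Complex.exp y] (pderiv 1 p)) = 0 := by
      linear_combination -h1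
    exact (mul_eq_zero.1 h4).resolve_left hDy
  have h5 : p ∣ pderiv 0 p + C 1 * (X 1 * pderiv 1 p) :=
    irr_dvd2 (x := ![y, Complex.exp y]) ⟨0, hy⟩ hp hpy h3
  by_cases hd : 0 < p.degreeOf 0
  · exact noInv hd 1 h5
  · have hd0 : p.degreeOf 0 = 0 := by omega
    have hsub : (p.vars : Set (Fin 2)) ⊆ range (fun _ : Unit => (1 : Fin 2)) := by
      intro i hi
      have h6 : p.degreeOf i ≠ 0 := (mem_vars_iff_degreeOf_ne_zero).1 hi
      fin_cases i
      · exact absurd hd0 h6
      · exact ⟨(), rfl⟩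
    obtain ⟨q, hq⟩ := exists_rename_eq_of_vars_subset_range p (fun _ : Unit => (1 : Fin 2))
      (fun _ _ _ => rfl) hsub
    have h6 : aeval (fun _ : Unit => Complex.exp y) q = 0 := by
      rw [← hpy, ← hq, aeval_rename]
      rfl
    have h7 : AlgebraicIndependent K (fun _ : Unit => Complex.exp y) :=
      algebraicIndependent_unique_type_iff.2 hey
    have h8 : q = 0 := (injective_iff_map_eq_zero _).1 h7 q h6
    rw [h8, map_zero] at hq
    exact hp.ne_zero hq.symm

/-- the degree of a relation -/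
theorem degreeOf_pos {K : IntermediateField ℚ ℂ} {x : Fin 2 → ℂ} {p : MvPolynomial (Fin 2) K}
    (hp : p ≠ 0) (hpx : aeval x p = 0) {i j : Fin 2} (hij : i ≠ j) (hj : Transcendental K (x j)) :
    0 < p.degreeOf i := by
  by_contra hcon
  have hd0 : p.degreeOf i = 0 := by omega
  have hsub : (p.vars : Set (Fin 2)) ⊆ range (fun _ : Unit => j) := by
    intro k hk
    have h6 : p.degreeOf k ≠ 0 := (mem_vars_iff_degreeOf_ne_zero).1 hk
    have h7 : k ≠ i := by
      rintro rfl
      exact h6 hd0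
    refine ⟨(), ?_⟩
    change j = k
    omega
  obtain ⟨q, hq⟩ := exists_rename_eq_of_vars_subset_range p (fun _ : Unit => j)
    (fun _ _ _ => rfl) hsub
  have h6 : aeval (fun _ : Unit => x j) q = 0 := by
    rw [← hpx, ← hq, aeval_rename]
    rfl
  have h7 : AlgebraicIndependent K (fun _ : Unit => x j) :=
    algebraicIndependent_unique_type_iff.2 hj
  have h8 : q = 0 := (injective_iff_map_eq_zero _).1 h7 q h6
  rw [h8, map_zero] at hq
  exact hp hq.symm

/-- dependent pairs -/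
theorem dep_cases {F : IntermediateField ℚ ℂ} (hF : Cl F) {x y : ℂ}
    (h : ¬ AlgebraicIndependent F ![x, y]) :
    x ∈ F ∨ ∀ D : Derivation ℚ ℂ ℂ, (∀ w ∈ F, D w = 0) → D x = 0 → D y = 0 := by
  by_contra hcon
  push Not at hcon
  obtain ⟨hx, D₂, hD₂, hD₂x, hD₂y⟩ := hcon
  have h1 : AlgebraicIndependent F (fun _ : Unit => x) :=
    algebraicIndependent_unique_type_iff.2 (fun h2 => hx (hF _ h2))
  obtain ⟨D₁, hD₁, hD₁x⟩ := exists_der h1 (fun _ => (1 : ℂ))
  have hD₁x' : D₁ x = 1 := hD₁x ()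
  apply h
  apply algInd_of_der
  intro v
  refine ⟨v 0 • D₁ + ((v 1 - v 0 * D₁ y) / D₂ y) • D₂, fun w hw => ?_, fun i => ?_⟩
  · rw [Derivation.add_apply, Derivation.smul_apply, Derivation.smul_apply, hD₁ w hw, hD₂ w hw,
      smul_zero, smul_zero, add_zero]
  · fin_cases i
    · change (v 0 • D₁ + ((v 1 - v 0 * D₁ y) / D₂ y) • D₂) x = v 0
      rw [Derivation.add_apply, Derivation.smul_apply, Derivation.smul_apply, hD₁x', hD₂x,
        smul_zero, add_zero, smul_eq_mul, mul_one]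
    · change (v 0 • D₁ + ((v 1 - v 0 * D₁ y) / D₂ y) • D₂) y = v 1
      rw [Derivation.add_apply, Derivation.smul_apply, Derivation.smul_apply, smul_eq_mul,
        smul_eq_mul, div_mul_cancel₀ _ hD₂y]
      ring

/-- invariance of the rank under automorphisms -/
theorem R_map {σ : ℂ ≃+* ℂ} (hσ : Fix E σ) {ι : Type} [Fintype ι] (x : ι → ℂ) :
    Low.R E (fun i => σ (x i)) = Low.R E x := by
  have : CharZero E := charZero_of_injective_algebraMap (algebraMap ℚ E).injective
  have h1 := Trd.trdeg_eq (K := E) (L := ℂ) x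
  have h2 := Trd.trdeg_eq (K := E) (L := ℂ) (fun i => σ (x i))
  let e : ℂ ≃ₐ[E] ℂ := AlgEquiv.ofRingEquiv (f := σ) (fun r => hσ _ r.2)
  have h3 : (IntermediateField.adjoin E (range x)).map (e : ℂ →ₐ[E] ℂ) =
      IntermediateField.adjoin E (range fun i => σ (x i)) := by
    rw [IntermediateField.adjoin_map, ← range_comp]
    rfl
  have h4 := (IntermediateField.equivMap (IntermediateField.adjoin E (range x))
    (e : ℂ →ₐ[E] ℂ)).trdeg_eq
  rw [h3, h1, h2] at h4
  exact_mod_cast h4.symm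

/-- tight tuples -/
structure Tight (K : IntermediateField ℚ ℂ) {n m : ℕ} (t : Fin n → ℂ) (s : Fin m → ℂ) : Prop where
  ind : ∀ q : Fin m → ℚ, cb s q ∈ ecl K → q = 0
  le : Low.R (ecl K) (pt s) ≤ n + m
  mem : ∀ j, t j ∈ Fs (ecl K) s

variable {K : IntermediateField ℚ ℂ} {n : ℕ} {t t' : Fin n → ℂ}

theorem cb_snoc (s : Fin m → ℂ) (z : ℂ) (q : Fin (m + 1) → ℚ) :
    cb (Fin.snoc s z : Fin (m + 1) → ℂ) q = cb s (fun i => q i.castSucc) + q (Fin.last m) * z := by
  unfold cb
  rw [Fin.sum_univ_castSucc]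
  simp

theorem ind_snoc (hs : ∀ q : Fin m → ℚ, cb s q ∈ ecl K → q = 0) {z : ℂ}
    (hz : ∀ q, z - cb s q ∉ ecl K) (q : Fin (m + 1) → ℚ)
    (hq : cb (Fin.snoc s z : Fin (m + 1) → ℂ) q ∈ ecl K) : q = 0 := by
  rw [cb_snoc] at hq
  by_cases h0 : q (Fin.last m) = 0
  · rw [h0, Rat.cast_zero, zero_mul, add_zero] at hq
    have h1 := hs _ hq
    funext i
    refine Fin.lastCases ?_ (fun j => ?_) i
    · exact h0
    · exact congrFun h1 j
  · exfalso
    apply hz (-(q (Fin.last m))⁻¹ • fun i => q i.castSucc)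
    have h1 : z - cb s (-(q (Fin.last m))⁻¹ • fun i => q i.castSucc) =
        ((q (Fin.last m))⁻¹ : ℚ) * (cb s (fun i => q i.castSucc) + q (Fin.last m) * z) := by
      rw [cb_smul]
      have h2 : ((q (Fin.last m) : ℚ) : ℂ) ≠ 0 := by exact_mod_cast h0
      push_cast
      field_simp
      ring
    rw [h1]
    exact mul_mem ((ecl K).algebraMap_mem _) hq

/-- **Numbers of `Fs` with exponential in `Fs`.** -/
theorem closed (ht : Gen K t) (hs : Tight K t s) {z : ℂ} (h1 : z ∈ Fs (ecl K) s)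
    (h2 : Complex.exp z ∈ Fs (ecl K) s) : ∃ q, z - cb s q ∈ ecl K := by
  by_contra hcon
  push Not at hcon
  have h3 := key t ht (Fin.snoc s z : Fin (m + 1) → ℂ) (fun q hq => ind_snoc hs.ind hcon q hq)
  have h4 : Low.R (ecl K) (Sum.elim t (pt (Fin.snoc s z : Fin (m + 1) → ℂ))) ≤
      Low.R (ecl K) (pt s) := by
    apply Low.R_mono
    intro D hD
    have hk := kills_Fs (E := ecl K) (s := s) (D := D.restrictScalars ℚ)
      (fun w hw => D.map_algebraMap (⟨w, hw⟩ : ecl K)) hD
    rintro (j | (i | i))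
    · exact hk _ (hs.mem j)
    · refine Fin.lastCases ?_ (fun j => ?_) i
      · change D ((Fin.snoc s z : Fin (m + 1) → ℂ) (Fin.last m)) = 0
        rw [Fin.snoc_last]
        exact hk _ h1
      · change D ((Fin.snoc s z : Fin (m + 1) → ℂ) j.castSucc) = 0
        rw [Fin.snoc_castSucc]
        exact hD (Sum.inl j)
    · refine Fin.lastCases ?_ (fun j => ?_) i
      · change D (Complex.exp ((Fin.snoc s z : Fin (m + 1) → ℂ) (Fin.last m))) = 0
        rw [Fin.snoc_last]
        exact hk _ h2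
      · change D (Complex.exp ((Fin.snoc s z : Fin (m + 1) → ℂ) j.castSucc)) = 0
        rw [Fin.snoc_castSucc]
        exact hD (Sum.inr j)
  have h5 := hs.le
  omega

theorem Fs_snoc_le (s : Fin m → ℂ) (z : ℂ) : Fs E s ≤ Fs E (Fin.snoc s z : Fin (m + 1) → ℂ) := by
  apply Fs_le cl_Fs le_Fs
  rintro (i | i)
  · have h := pt_mem (E := E) (s := (Fin.snoc s z : Fin (m + 1) → ℂ)) (Sum.inl i.castSucc)
    change (Fin.snoc s z : Fin (m + 1) → ℂ) i.castSucc ∈ _ at h
    rw [Fin.snoc_castSucc] at h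
    exact h
  · have h := pt_mem (E := E) (s := (Fin.snoc s z : Fin (m + 1) → ℂ)) (Sum.inr i.castSucc)
    change Complex.exp ((Fin.snoc s z : Fin (m + 1) → ℂ) i.castSucc) ∈ _ at h
    rw [Fin.snoc_castSucc] at h
    exact h

/-- **Extension of tight tuples.** -/
theorem Tight.snoc (hs : Tight K t s) {z : ℂ} (hz : ∀ q, z - cb s q ∉ ecl K)
    (hdep : ¬ AlgebraicIndependent (Fs (ecl K) s) ![z, Complex.exp z]) :
    Tight K t (Fin.snoc s z : Fin (m + 1) → ℂ) := by
  refine ⟨ind_snoc hs.ind hz, ?_, fun j => Fs_snoc_le s z (hs.mem j)⟩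
  have hgen : ∀ (y : ℂ), (∀ D : Derivation ℚ ℂ ℂ, (∀ w ∈ Fs (ecl K) s, D w = 0) → D y = 0 →
      D z = 0 ∧ D (Complex.exp z) = 0) →
      Low.R (ecl K) (pt (Fin.snoc s z : Fin (m + 1) → ℂ)) ≤ n + (m + 1) := by
    intro y hy
    have h1 : Low.R (ecl K) (pt (Fin.snoc s z : Fin (m + 1) → ℂ)) ≤
        Low.R (ecl K) (Sum.elim (pt s) (fun _ : Unit => y)) := by
      apply Low.R_mono
      intro D hD
      have hk := kills_Fs (E := ecl K) (s := s) (D := D.restrictScalars ℚ)
        (fun w hw => D.map_algebraMap (⟨w, hw⟩ : ecl K)) (fun i => hD (Sum.inl i))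
      obtain ⟨hz1, hz2⟩ := hy (D.restrictScalars ℚ) hk (hD (Sum.inr ()))
      rintro (i | i)
      · refine Fin.lastCases ?_ (fun j => ?_) i
        · change D ((Fin.snoc s z : Fin (m + 1) → ℂ) (Fin.last m)) = 0
          rw [Fin.snoc_last]
          exact hz1
        · change D ((Fin.snoc s z : Fin (m + 1) → ℂ) j.castSucc) = 0
          rw [Fin.snoc_castSucc]
          exact hD (Sum.inl (Sum.inl j))
      · refine Fin.lastCases ?_ (fun j => ?_) i
        · change D (Complex.exp ((Fin.snoc s z : Fin (m + 1) → ℂ) (Fin.last m))) = 0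
          rw [Fin.snoc_last]
          exact hz2
        · change D (Complex.exp ((Fin.snoc s z : Fin (m + 1) → ℂ) j.castSucc)) = 0
          rw [Fin.snoc_castSucc]
          exact hD (Sum.inl (Sum.inr j))
    have h2 := Low.R_sum (ecl K) (pt s) (fun _ : Unit => y)
    have h3 := hs.le
    have h4 : Fintype.card Unit = 1 := rfl
    omega
  rcases dep_cases cl_Fs hdep with h | h
  · exact hgen (Complex.exp z) (fun D hD hDy => ⟨hD _ h, hDy⟩)
  · exact hgen z (fun D hD hDy => ⟨hDy, h D hD hDy⟩)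

theorem Tight.map (hs : Tight K t s) {σ : ℂ ≃+* ℂ} (hσ : Fix (ecl K) σ)
    (hst : ∀ i, σ (pt s i) = pt s' i) (htt : ∀ j, σ (t j) = t' j) : Tight K t' s' := by
  have hcb : ∀ q, σ (cb s q) = cb s' q := by
    intro q
    unfold cb
    rw [map_sum]
    refine Finset.sum_congr rfl (fun i _ => ?_)
    rw [map_mul, map_ratCast]
    congr 1
    exact hst (Sum.inl i)
  refine ⟨fun q hq => hs.ind q ?_, ?_, fun j => ?_⟩
  · have h1 := hσ.symm _ hq
    rw [← hcb, RingEquiv.symm_apply_apply] at h1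
    rw [h1, hcb]
    exact hq
  · have h1 : pt s' = fun i => σ (pt s i) := funext fun i => (hst i).symm
    rw [h1, R_map hσ]
    exact hs.le
  · rw [← htt]
    exact map_mem_Fs hσ hst (hs.mem j)

end Pool.Agent.Helper78.EC.Qm
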