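import Mathlib
import Pool.Agent.Helper78.EC.QmF

/-!
# Roots of the exponentials in finitely generated fields: bounded denominators
-/

set_option autoImplicit false

namespace Pool.Agent.Helper78.EC.Qm

open Set Module
open Pool.Agent.Helper78.SC Pool.Agent.Helper78.SC.Ax Pool.Agent.Helper78.SC.Cov
open Pool.Agent.Helper78.EC.Closure Pool.Agent.Helper78.EC.Generic Pool.Agent.Helper78.EC.Use

/-- the relative algebraic closure of the field generated by a set -/
noncomputable def ac (S : Set ℂ) : IntermediateField ℚ ℂ :=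
  (algebraicClosure (IntermediateField.adjoin ℚ S) ℂ).restrictScalars ℚ

theorem mem_ac {S : Set ℂ} {w : ℂ} : w ∈ ac S ↔ IsAlgebraic (IntermediateField.adjoin ℚ S) w := by
  unfold ac
  rw [IntermediateField.mem_restrictScalars, mem_algebraicClosure_iff]

theorem subset_ac (S : Set ℂ) : S ⊆ ac S := fun w hw =>
  mem_ac.2 (isAlgebraic_algebraMap
    (⟨w, IntermediateField.subset_adjoin _ _ hw⟩ : IntermediateField.adjoin ℚ S))

theorem cl_ac (S : Set ℂ) : Cl (ac S) := by
  intro w hw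
  have h1 : IsAlgebraic (algebraicClosure (IntermediateField.adjoin ℚ S) ℂ) w := hw
  have : Algebra.IsAlgebraic (IntermediateField.adjoin ℚ S)
      (algebraicClosure (IntermediateField.adjoin ℚ S) ℂ) := algebraicClosure.isAlgebraic _ _
  exact mem_ac.2 (h1.restrictScalars _)

theorem ac_le {S : Set ℂ} {G : IntermediateField ℚ ℂ} (hG : Cl G) (hS : S ⊆ G) : ac S ≤ G := by
  intro w hw
  rw [mem_ac] at hw
  apply hG
  have h1 : IntermediateField.adjoin ℚ S ≤ G := IntermediateField.adjoin_le_iff.2 hS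
  exact hw.ringHom_of_comp_eq (IntermediateField.inclusion h1).toRingHom (RingHom.id ℂ)
    (IntermediateField.inclusion h1).toRingHom.injective rfl

theorem kills_ac {S : Set ℂ} {D : Derivation ℚ ℂ ℂ} (hD : ∀ w ∈ S, D w = 0) :
    ∀ w ∈ ac S, D w = 0 := fun _ hw => kills_alg (kills_adjoin hD) (mem_ac.1 hw)

/-- the exchange property -/
theorem exchange {F : IntermediateField ℚ ℂ} (hF : Cl F) {w g : ℂ} (hw : w ∉ F)
    (h : w ∈ ac ((F : Set ℂ) ∪ {g})) : g ∈ ac ((F : Set ℂ) ∪ {w}) := by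
  rw [mem_ac]
  by_contra hcon
  have h1 : AlgebraicIndependent (IntermediateField.adjoin ℚ ((F : Set ℂ) ∪ {w}))
      (fun _ : Unit => g) := algebraicIndependent_unique_type_iff.2 hcon
  obtain ⟨D, hD, hDg⟩ := exists_der h1 (fun _ => (1 : ℂ))
  have hDg' : D g = 1 := hDg ()
  have h2 : AlgebraicIndependent F (fun _ : Unit => w) :=
    algebraicIndependent_unique_type_iff.2 (fun h2 => hw (hF _ h2))
  obtain ⟨D₁, hD₁, hD₁w⟩ := exists_der h2 (fun _ => (1 : ℂ))
  have hD₁w' : D₁ w = 1 := hD₁w ()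
  have h3 := kills_ac (S := (F : Set ℂ) ∪ {g}) (D := D₁ - (D₁ g) • D) (by
    rintro u (hu | hu)
    · rw [Derivation.sub_apply, Derivation.smul_apply, hD₁ u hu,
        hD u (IntermediateField.subset_adjoin _ _ (Or.inl hu)), smul_zero, sub_zero]
    · rw [Set.mem_singleton_iff] at hu
      rw [hu, Derivation.sub_apply, Derivation.smul_apply, hDg', smul_eq_mul, mul_one, sub_self]) w h
  rw [Derivation.sub_apply, Derivation.smul_apply, hD₁w',
    hD w (IntermediateField.subset_adjoin _ _ (Or.inr rfl)), smul_zero, sub_zero] at h3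
  exact one_ne_zero h3

/-- a large field which does not contain `w` -/
theorem exists_field {E : IntermediateField ℚ ℂ} (hE : Cl E) {w : ℂ} (hw : w ∉ E) (G : Finset ℂ) :
    ∃ F : IntermediateField ℚ ℂ, E ≤ F ∧ Cl F ∧ w ∉ F ∧ ∀ g ∈ G, g ∈ ac ((F : Set ℂ) ∪ {w}) := by
  classical
  induction G using Finset.induction_on with
  | empty => exact ⟨E, le_rfl, hE, hw, by simp⟩
  | insert a G ha ih =>
    obtain ⟨F, h1, h2, h3, h4⟩ := ih
    by_cases h5 : w ∈ ac ((F : Set ℂ) ∪ {a})
    · refine ⟨F, h1, h2, h3, fun g hg => ?_⟩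
      rcases Finset.mem_insert.1 hg with rfl | hg
      · exact exchange h2 h3 h5
      · exact h4 g hg
    · refine ⟨ac ((F : Set ℂ) ∪ {a}), fun x hx => subset_ac _ (Or.inl (h1 hx)), cl_ac _, h5,
        fun g hg => ?_⟩
      rcases Finset.mem_insert.1 hg with rfl | hg
      · exact subset_ac _ (Or.inl (subset_ac _ (Or.inr rfl)))
      · refine ac_le (cl_ac _) ?_ (h4 g hg)
        rintro u (hu | hu)
        · exact subset_ac _ (Or.inl (subset_ac _ (Or.inl hu)))
        · exact subset_ac _ (Or.inr hu)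

section vals

variable {F : IntermediateField ℚ ℂ} {B : ValuationSubring ℂ} {w : ℂ}

theorem val_le_one (hB : ∀ e ∈ F, e ∈ B) (hw : B.valuation w < 1) (a : Polynomial F) :
    B.valuation (Polynomial.aeval w a) ≤ 1 := by
  rw [B.valuation_le_one_iff]
  have hwB : w ∈ B := (B.valuation_le_one_iff w).1 hw.le
  induction a using Polynomial.induction_on' with
  | add p q hp hq => rw [map_add]; exact add_mem hp hq
  | monomial n a =>
    rw [Polynomial.aeval_monomial]
    exact mul_mem (hB _ a.2) (pow_mem hwB n)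

theorem val_poly (hB : ∀ e ∈ F, e ∈ B) (hw : B.valuation w < 1) (a : Polynomial F) (ha : a ≠ 0) :
    ∃ n : ℕ, B.valuation (Polynomial.aeval w a) = B.valuation w ^ n := by
  induction h : a.natDegree using Nat.strong_induction_on generalizing a with
  | _ d ih =>
    have h1 := Polynomial.divX_mul_X_add a
    by_cases h0 : a.coeff 0 = 0
    · rw [h0, Polynomial.C_0, add_zero] at h1
      have h2 : a.divX ≠ 0 := by
        intro h3
        rw [h3, zero_mul] at h1
        exact ha h1.symm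
      have h3 : a.natDegree ≠ 0 := by
        intro h4
        rw [Polynomial.eq_C_of_natDegree_eq_zero h4, h0, Polynomial.C_0] at ha
        exact ha rfl
      obtain ⟨n, hn⟩ := ih a.divX.natDegree (by
        rw [Polynomial.natDegree_divX_eq_natDegree_tsub_one]
        omega) a.divX h2 rfl
      refine ⟨n + 1, ?_⟩
      rw [← h1, map_mul, Polynomial.aeval_X, map_mul, hn, pow_succ]
    · refine ⟨0, ?_⟩
      rw [← h1, map_add, map_mul, Polynomial.aeval_X, Polynomial.aeval_C, pow_zero]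
      have h2 : B.valuation (algebraMap F ℂ (a.coeff 0)) = 1 :=
        val_eq_one hB _ (a.coeff 0).2 (fun h3 => h0 (Subtype.ext h3))
      rw [Valuation.map_add_eq_of_lt_right, h2]
      rw [h2, map_mul]
      exact lt_of_le_of_lt (mul_le_mul' (val_le_one hB hw _) le_rfl) (by rwa [one_mul])

theorem val_adj (hB : ∀ e ∈ F, e ∈ B) (hw : B.valuation w < 1) (hw0 : w ≠ 0) {x : ℂ}
    (hx : x ∈ IntermediateField.adjoin F {w}) (hx0 : x ≠ 0) :
    ∃ n : ℤ, B.valuation x = B.valuation w ^ n := by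
  obtain ⟨r, s, hrs⟩ := (IntermediateField.mem_adjoin_simple_iff F x).1 hx
  have hr : r ≠ 0 := by
    rintro rfl
    apply hx0
    rw [hrs, map_zero, zero_div]
  have hs : s ≠ 0 := by
    rintro rfl
    apply hx0
    rw [hrs, map_zero, div_zero]
  obtain ⟨n, hn⟩ := val_poly hB hw r hr
  obtain ⟨k, hk⟩ := val_poly hB hw s hs
  have hwne : B.valuation w ≠ 0 := (Valuation.ne_zero_iff _).2 hw0
  refine ⟨(n : ℤ) - k, ?_⟩
  rw [hrs, map_div₀, hn, hk, zpow_sub₀ hwne, zpow_natCast, zpow_natCast]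

theorem val_fin (hB : ∀ e ∈ F, e ∈ B) (hw : B.valuation w < 1) (hw0 : w ≠ 0)
    (L : IntermediateField (IntermediateField.adjoin F {w}) ℂ)
    [FiniteDimensional (IntermediateField.adjoin F {w}) L] {x : ℂ} (hx : x ∈ L) (hx0 : x ≠ 0) :
    ∃ k : ℕ, 0 < k ∧ k ≤ finrank (IntermediateField.adjoin F {w}) L ∧
      ∃ n : ℤ, B.valuation x ^ k = B.valuation w ^ n := by
  classical
  set D := finrank (IntermediateField.adjoin F {w}) L with hD
  have hwne : B.valuation w ≠ 0 := (Valuation.ne_zero_iff _).2 hw0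
  have hxne : B.valuation x ≠ 0 := (Valuation.ne_zero_iff _).2 hx0
  have h1 : ¬ LinearIndependent (IntermediateField.adjoin F {w})
      (fun i : Fin (D + 1) => (⟨x, hx⟩ : L) ^ (i : ℕ)) := by
    intro h
    have h2 := h.fintype_card_le_finrank
    rw [Fintype.card_fin] at h2
    omega
  obtain ⟨g, hg, i₀, hi₀⟩ := Fintype.not_linearIndependent_iff.1 h1
  have hg' : ∑ i, ((g i : IntermediateField.adjoin F {w}) : ℂ) * x ^ (i : ℕ) = 0 := by
    have h2 := congrArg (Subtype.val) hg
    rw [IntermediateField.coe_sum] at h2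
    exact h2
  have hex : ∃ i j : Fin (D + 1), i < j ∧ g i ≠ 0 ∧ g j ≠ 0 ∧
      B.valuation (((g i : IntermediateField.adjoin F {w}) : ℂ) * x ^ (i : ℕ)) =
        B.valuation (((g j : IntermediateField.adjoin F {w}) : ℂ) * x ^ (j : ℕ)) := by
    by_contra hcon
    push Not at hcon
    refine sum_ne B.valuation Finset.univ
      (fun i : Fin (D + 1) => ((g i : IntermediateField.adjoin F {w}) : ℂ) * x ^ (i : ℕ)) ?_
      ⟨i₀, Finset.mem_univ _, mul_ne_zero (fun h => hi₀ (Subtype.ext h)) (pow_ne_zero _ hx0)⟩ hg'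
    intro i _ j _ hi hj hij
    have hgi : g i ≠ 0 := by
      rintro h
      rw [h] at hi
      exact hi (by simp)
    have hgj : g j ≠ 0 := by
      rintro h
      rw [h] at hj
      exact hj (by simp)
    rcases lt_trichotomy i j with h | h | h
    · exact absurd hij (hcon i j h hgi hgj)
    · exact h
    · exact absurd hij.symm (hcon j i h hgj hgi)
  obtain ⟨i, j, hij, hgi, hgj, hval⟩ := hex
  obtain ⟨a, ha⟩ := val_adj hB hw hw0 (g i).2 (fun h => hgi (Subtype.ext h))
  obtain ⟨b, hb⟩ := val_adj hB hw hw0 (g j).2 (fun h => hgj (Subtype.ext h))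
  have hij' : (i : ℕ) < j := hij
  refine ⟨(j : ℕ) - i, by omega, by omega, a - b, ?_⟩
  rw [map_mul, map_mul, ha, hb, map_pow, map_pow] at hval
  obtain ⟨k, hk⟩ := Nat.exists_eq_add_of_lt hij'
  rw [hk] at hval ⊢
  have h2 : (i : ℕ) + k + 1 - i = k + 1 := by omega
  rw [h2, zpow_sub₀ hwne, eq_div_iff (zpow_ne_zero _ hwne)]
  have h3 : B.valuation x ^ (i : ℕ) ≠ 0 := pow_ne_zero _ hxne
  apply mul_right_cancel₀ h3
  rw [hval, show (i : ℕ) + k + 1 = (k + 1) + i by ring, pow_add (B.valuation x) (k + 1),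
    mul_comm (B.valuation x ^ (k + 1)) (B.valuation w ^ b), mul_assoc]

end vals

theorem zpow_inj {B : ValuationSubring ℂ} {w : ℂ} (hw : B.valuation w < 1) (hw0 : w ≠ 0) {a b : ℤ}
    (h : B.valuation w ^ a = B.valuation w ^ b) : a = b := by
  have h1 : 0 < B.valuation w := zero_lt_iff.2 ((Valuation.ne_zero_iff _).2 hw0)
  exact (zpow_right_injective₀ h1 hw.ne) h

theorem alg_of_range {K : Type} [Field K] [Algebra K ℂ] {G : IntermediateField ℚ ℂ}
    (h : ∀ u ∈ G, ∃ k : K, algebraMap K ℂ k = u) {x : ℂ} (hx : IsAlgebraic G x) :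
    IsAlgebraic K x := by
  obtain ⟨p, hp, hp0⟩ := hx
  let q : Polynomial ℂ := p.map (algebraMap G ℂ)
  have hq : q ∈ Polynomial.lifts (algebraMap K ℂ) := by
    rw [Polynomial.lifts_iff_coeff_lifts]
    intro s
    rw [Polynomial.coeff_map]
    obtain ⟨k, hk⟩ := h _ (p.coeff s).2
    exact ⟨k, hk⟩
  obtain ⟨r, hr⟩ := (Polynomial.mem_lifts _).1 hq
  refine ⟨r, ?_, ?_⟩
  · rintro rfl
    rw [Polynomial.map_zero] at hr
    exact hp ((Polynomial.map_eq_zero_iff (algebraMap G ℂ).injective).1 hr.symm)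
  · rw [Polynomial.aeval_def, ← Polynomial.eval_map, hr, Polynomial.eval_map, ← Polynomial.aeval_def]
    exact hp0

theorem adj_sub {F : IntermediateField ℚ ℂ} {w u : ℂ}
    (hu : u ∈ IntermediateField.adjoin ℚ ((F : Set ℂ) ∪ {w})) : u ∈ IntermediateField.adjoin F {w} := by
  induction hu using IntermediateField.adjoin_induction with
  | mem a ha =>
    rcases ha with ha | ha
    · exact (IntermediateField.adjoin F {w}).algebraMap_mem (⟨a, ha⟩ : F)
    · exact IntermediateField.subset_adjoin _ _ ha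
  | algebraMap r => exact (IntermediateField.adjoin F {w}).algebraMap_mem (r : F)
  | add a b _ _ ha hb => exact add_mem ha hb
  | inv a _ ha => exact inv_mem ha
  | mul a b _ _ ha hb => exact mul_mem ha hb

/-- a homomorphism into the integers -/
theorem exists_ord {E : IntermediateField ℚ ℂ} (hE : Cl E) {ι : Type} [Finite ι] (g : ι → ℂ)
    {w : ℂ} (hw : w ∈ IntermediateField.adjoin ℚ ((E : Set ℂ) ∪ range g)) (hwE : w ∉ E) :
    ∃ (B : ValuationSubring ℂ) (D : ℕ), 0 < D ∧ B.valuation w < 1 ∧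
      ∀ x ∈ IntermediateField.adjoin ℚ ((E : Set ℂ) ∪ range g), x ≠ 0 →
        ∃ n : ℤ, B.valuation x ^ D = B.valuation w ^ n := by
  classical
  have := Fintype.ofFinite ι
  have hw0 : w ≠ 0 := by
    rintro rfl
    exact hwE (zero_mem E)
  obtain ⟨F, hEF, hF, hwF, hG⟩ := exists_field hE hwE (Finset.univ.image g)
  have htr : Transcendental F w := fun h => hwF (hF _ h)
  obtain ⟨B, hB, hBw⟩ := exists_val htr
  have hint : ∀ x ∈ range g, IsIntegral (IntermediateField.adjoin F {w}) x := by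
    rintro _ ⟨i, rfl⟩
    rw [← isAlgebraic_iff_isIntegral]
    have h1 := mem_ac.1 (hG (g i) (Finset.mem_image_of_mem _ (Finset.mem_univ _)))
    exact alg_of_range (fun u hu => ⟨⟨u, adj_sub hu⟩, rfl⟩) h1
  let L : IntermediateField (IntermediateField.adjoin F {w}) ℂ :=
    IntermediateField.adjoin (IntermediateField.adjoin F {w}) (range g)
  have : FiniteDimensional (IntermediateField.adjoin F {w}) L :=
    IntermediateField.finiteDimensional_adjoin hint
  have hL : ∀ x ∈ IntermediateField.adjoin ℚ ((E : Set ℂ) ∪ range g), x ∈ L := by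
    intro x hx
    induction hx using IntermediateField.adjoin_induction with
    | mem a ha =>
      rcases ha with ha | ha
      · exact L.algebraMap_mem (⟨a, (IntermediateField.adjoin F {w}).algebraMap_mem
          (⟨a, hEF ha⟩ : F)⟩ : IntermediateField.adjoin F {w})
      · exact IntermediateField.subset_adjoin _ _ ha
    | algebraMap r => exact L.algebraMap_mem (r : IntermediateField.adjoin F {w})
    | add a b _ _ ha hb => exact add_mem ha hb
    | inv a _ ha => exact inv_mem ha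
    | mul a b _ _ ha hb => exact mul_mem ha hb
  refine ⟨B, (finrank (IntermediateField.adjoin F {w}) L).factorial, Nat.factorial_pos _, hBw,
    fun x hx hx0 => ?_⟩
  obtain ⟨k, hk0, hk, n, hn⟩ := val_fin hB hBw hw0 L (hL x hx) hx0
  obtain ⟨c, hc⟩ := Nat.dvd_factorial hk0 hk
  refine ⟨n * c, ?_⟩
  rw [hc, pow_mul, hn, zpow_mul, zpow_natCast]

variable {m : ℕ} {s : Fin m → ℂ}

/-- the field generated by `E`, `s` and `e^s` -/
noncomputable def M0 (E : IntermediateField ℚ ℂ) {m : ℕ} (s : Fin m → ℂ) : IntermediateField ℚ ℂ :=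
  IntermediateField.adjoin ℚ ((E : Set ℂ) ∪ range (pt s))

theorem exp_int_mem {E : IntermediateField ℚ ℂ} (k : Fin m → ℤ) :
    Complex.exp (cb s (fun i => (k i : ℚ))) ∈ M0 E s := by
  unfold cb
  rw [Complex.exp_sum]
  apply prod_mem
  intro i _
  have h4 : Complex.exp ((((k i : ℤ) : ℚ) : ℂ) * s i) = Complex.exp (s i) ^ (k i) := by
    rw [← Complex.exp_int_mul]
    congr 2
  rw [h4]
  have h5 : Complex.exp (s i) ∈ M0 E s :=
    IntermediateField.subset_adjoin ℚ _ (Or.inr ⟨Sum.inr i, rfl⟩)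
  exact zpow_mem h5 _

/-- common denominators -/
theorem exists_den' (q : Fin m → ℚ) : ∃ (N : ℕ) (k : Fin m → ℤ), 0 < N ∧
    (N : ℚ) • q = fun i => (k i : ℚ) := by
  refine ⟨∏ i, (q i).den, fun i => (q i).num * ∏ j ∈ Finset.univ.erase i, ((q j).den : ℤ),
    Finset.prod_pos (fun i _ => (q i).den_pos), ?_⟩
  funext i
  rw [Pi.smul_apply, smul_eq_mul]
  push_cast
  rw [← Finset.mul_prod_erase Finset.univ _ (Finset.mem_univ i)]
  have h1 : ((q i).den : ℚ) * q i = (q i).num := Rat.den_mul_eq_num (q i)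
  linear_combination (∏ x ∈ Finset.univ.erase i, ((q x).den : ℚ)) * h1

/-- **The linear forms.** -/
theorem exists_form {E : IntermediateField ℚ ℂ} (hE : Cl E)
    (hlog : ∀ z, Complex.exp z ∈ E → z ∈ E)
    (hs : ∀ q : Fin m → ℚ, cb s q ∈ E → q = 0) {q₀ : Fin m → ℚ} (hq₀ : q₀ ≠ 0) :
    ∃ l : Module.Dual ℚ (Fin m → ℚ), l q₀ ≠ 0 ∧
      ∀ q, Complex.exp (cb s q) ∈ M0 E s → ∃ k : ℤ, l q = k := by
  classical
  obtain ⟨N₀, k₀, hN₀, hk₀⟩ := exists_den' q₀
  have hNQ : (N₀ : ℚ) ≠ 0 := by exact_mod_cast hN₀.ne'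
  set w := Complex.exp (cb s ((N₀ : ℚ) • q₀)) with hw
  have hwM : w ∈ M0 E s := by
    rw [hw, hk₀]
    exact exp_int_mem k₀
  have hwE : w ∉ E := by
    intro h
    have h1 := hs _ (hlog _ h)
    exact hq₀ ((smul_eq_zero.1 h1).resolve_left hNQ)
  have hw0 : w ≠ 0 := Complex.exp_ne_zero _
  obtain ⟨B, D, hD, hBw, hord⟩ := exists_ord hE (pt s) hwM hwE
  have hs' : ∀ i, ∃ a : ℤ, B.valuation (Complex.exp (s i)) ^ D = B.valuation w ^ a := fun i =>
    hord _ (IntermediateField.subset_adjoin ℚ _ (Or.inr ⟨Sum.inr i, rfl⟩)) (Complex.exp_ne_zero _)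
  choose a ha using hs'
  have hint : ∀ k : Fin m → ℤ, B.valuation (Complex.exp (cb s (fun i => (k i : ℚ)))) ^ D =
      B.valuation w ^ (∑ i, k i * a i) := by
    intro k
    unfold cb
    have hwne : B.valuation w ≠ 0 := (Valuation.ne_zero_iff _).2 hw0
    rw [Complex.exp_sum, map_prod, ← Finset.prod_pow]
    have h2 : ∀ i, B.valuation (Complex.exp ((((k i : ℤ) : ℚ) : ℂ) * s i)) ^ D =
        B.valuation w ^ (k i * a i) := by
      intro i
      have h4 : Complex.exp ((((k i : ℤ) : ℚ) : ℂ) * s i) = Complex.exp (s i) ^ (k i) := by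
        rw [← Complex.exp_int_mul]
        congr 2
      rw [h4, map_zpow₀, ← zpow_natCast, ← zpow_mul, mul_comm (k i), zpow_mul, zpow_natCast, ha,
        ← zpow_mul, mul_comm (a i)]
    rw [Finset.prod_congr rfl (fun i _ => h2 i)]
    induction (Finset.univ : Finset (Fin m)) using Finset.induction_on with
    | empty => simp
    | insert i S hi ih => rw [Finset.prod_insert hi, Finset.sum_insert hi, zpow_add₀ hwne, ih]
  let l : Module.Dual ℚ (Fin m → ℚ) := ∑ i, (a i : ℚ) • (LinearMap.proj i : (Fin m → ℚ) →ₗ[ℚ] ℚ)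
  have hl : ∀ q, l q = ∑ i, (a i : ℚ) * q i := by
    intro q
    rw [LinearMap.sum_apply]
    rfl
  refine ⟨l, ?_, ?_⟩
  · intro h0
    have h1 : (∑ i, k₀ i * a i : ℤ) = 0 := by
      have h2 : l ((N₀ : ℚ) • q₀) = 0 := by
        rw [map_smul, h0, smul_zero]
      rw [hk₀, hl] at h2
      have h3 : ((∑ i, k₀ i * a i : ℤ) : ℚ) = 0 := by
        rw [← h2]
        push_cast
        refine Finset.sum_congr rfl (fun i _ => ?_)
        ring
      exact_mod_cast h3
    have h2 := hint k₀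
    rw [← hk₀, ← hw, h1, ← zpow_natCast] at h2
    have h3 := zpow_inj hBw hw0 h2
    omega
  · intro q hq
    obtain ⟨b, hb⟩ := hord _ hq (Complex.exp_ne_zero _)
    refine ⟨b, ?_⟩
    obtain ⟨N, k, hN, hk⟩ := exists_den' q
    have hNQ' : (N : ℚ) ≠ 0 := by exact_mod_cast hN.ne'
    have h2 := hint k
    rw [← hk, cb_smul] at h2
    have h3 : Complex.exp (((N : ℚ) : ℂ) * cb s q) = Complex.exp (cb s q) ^ N := by
      rw [← Complex.exp_nat_mul]
      congr 2
    rw [h3, map_pow, ← pow_mul, mul_comm N D, pow_mul, hb, ← zpow_natCast, ← zpow_mul] at h2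
    have h4 := zpow_inj hBw hw0 h2
    have h5 : (N : ℚ) * l q = (∑ i, k i * a i : ℤ) := by
      rw [← smul_eq_mul, ← map_smul, hk, hl]
      push_cast
      refine Finset.sum_congr rfl (fun i _ => ?_)
      ring
    rw [← h4] at h5
    push_cast at h5
    apply mul_left_cancel₀ hNQ'
    rw [h5]
    ring

/-- **Bounded denominators.** -/
theorem bounded {E : IntermediateField ℚ ℂ} (hE : Cl E) (hlog : ∀ z, Complex.exp z ∈ E → z ∈ E)
    (hs : ∀ q : Fin m → ℚ, cb s q ∈ E → q = 0) :
    ∃ N : ℕ, 0 < N ∧ ∀ q, Complex.exp (cb s q) ∈ M0 E s →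
      ∃ k : Fin m → ℤ, (N : ℚ) • q = fun i => (k i : ℚ) := by
  classical
  let U : Submodule ℚ (Module.Dual ℚ (Fin m → ℚ)) :=
    { carrier := {l | ∃ N : ℕ, 0 < N ∧ ∀ q, Complex.exp (cb s q) ∈ M0 E s →
        ∃ k : ℤ, (N : ℚ) * l q = k}
      add_mem' := by
        rintro l l' ⟨N, hN, h⟩ ⟨N', hN', h'⟩
        refine ⟨N * N', Nat.mul_pos hN hN', fun q hq => ?_⟩
        obtain ⟨k, hk⟩ := h q hq
        obtain ⟨k', hk'⟩ := h' q hq
        refine ⟨N' * k + N * k', ?_⟩
        rw [LinearMap.add_apply]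
        push_cast
        rw [← hk, ← hk']
        ring
      zero_mem' := ⟨1, one_pos, fun q _ => ⟨0, by simp⟩⟩
      smul_mem' := by
        rintro c l ⟨N, hN, h⟩
        refine ⟨c.den * N, Nat.mul_pos c.den_pos hN, fun q hq => ?_⟩
        obtain ⟨k, hk⟩ := h q hq
        refine ⟨c.num * k, ?_⟩
        rw [LinearMap.smul_apply, smul_eq_mul]
        push_cast
        rw [← hk]
        have h1 : (c.den : ℚ) * c = c.num := Rat.den_mul_eq_num c
        linear_combination (N : ℚ) * l q * h1 }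
  have hU : U = ⊤ := by
    have h1 : U.dualCoannihilator = ⊥ := by
      rw [Submodule.eq_bot_iff]
      intro q hq
      by_contra hq0
      obtain ⟨l, hl, hl'⟩ := exists_form hE hlog hs hq0
      apply hl
      rw [Submodule.mem_dualCoannihilator] at hq
      apply hq
      refine ⟨1, one_pos, fun r hr => ?_⟩
      obtain ⟨k, hk⟩ := hl' r hr
      exact ⟨k, by rw [hk]; simp⟩
    rw [← Subspace.dualCoannihilator_dualAnnihilator_eq (W := U), h1]
    exact Submodule.dualAnnihilator_bot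
  have h2 : ∀ i : Fin m, (LinearMap.proj i : Module.Dual ℚ (Fin m → ℚ)) ∈ U := fun i => by
    rw [hU]
    trivial
  choose N hN h using h2
  refine ⟨∏ i, N i, Finset.prod_pos (fun i _ => hN i), fun q hq => ?_⟩
  choose k hk using fun i => h i q hq
  refine ⟨fun i => (∏ j ∈ Finset.univ.erase i, (N j : ℤ)) * k i, ?_⟩
  funext i
  rw [Pi.smul_apply, smul_eq_mul]
  push_cast
  rw [← hk i, ← Finset.mul_prod_erase Finset.univ _ (Finset.mem_univ i), LinearMap.proj_apply]
  ring

end Pool.Agent.Helper78.EC.Qm
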