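import Mathlib
import Pool.Agent.Helper78.EC.QmF

/-!
# The step: extension of partial isomorphisms by one element
-/

set_option autoImplicit false

namespace Pool.Agent.Helper78.EC.Qm

open Set MvPolynomial Module Cardinal
open Pool.Agent.Helper78.SC Pool.Agent.Helper78.SC.Ax Pool.Agent.Helper78.SC.Cov
open Pool.Agent.Helper78.EC.Closure Pool.Agent.Helper78.EC.Generic Pool.Agent.Helper78.EC.Use
open Pool.Agent.Helper78.EC.Disj Pool.Agent.Helper78.EC.Str Pool.Agent.Helper78.EC.Curve
open Pool.Agent.Helper78.EC.Mar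
open Pool.Agent.W252 Pool.Agent.TH813.Core Pool.Agent.TH813.Rank

/-- polynomials of which the coefficients are transformed by a linear form -/
noncomputable def lf {E F : IntermediateField ℚ ℂ} (l : ℂ →ₗ[E] E) (f : MvPolynomial (Fin 2) F) :
    MvPolynomial (Fin 2) E :=
  ∑ u ∈ f.support, monomial u (l ((f.coeff u : F) : ℂ))

theorem aeval_lf {E F : IntermediateField ℚ ℂ} (l : ℂ →ₗ[E] E) (f : MvPolynomial (Fin 2) F)
    (c d : E) : aeval ![(c : ℂ), (d : ℂ)] (lf l f) = l (aeval ![(c : ℂ), (d : ℂ)] f) := by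
  unfold lf
  rw [map_sum, aeval_def ![(c : ℂ), (d : ℂ)] f, eval₂_eq', map_sum]
  rw [AddSubmonoidClass.coe_finsetSum]
  refine Finset.sum_congr rfl (fun u _ => ?_)
  rw [aeval_monomial, Finsupp.prod_fintype _ _ (fun i => pow_zero _), Fin.prod_univ_two]
  simp only [Matrix.cons_val_zero, Matrix.cons_val_one]
  have h1 : (algebraMap F ℂ (f.coeff u)) * ((c : ℂ) ^ u 0 * (d : ℂ) ^ u 1) =
      (c ^ u 0 * d ^ u 1 : E) • ((f.coeff u : F) : ℂ) := by
    rw [Algebra.smul_def]
    change ((f.coeff u : F) : ℂ) * _ = ((c ^ u 0 * d ^ u 1 : E) : ℂ) * _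
    push_cast
    ring
  rw [h1, map_smul, smul_eq_mul]
  change ((l ((f.coeff u : F) : ℂ) : E) : ℂ) * _ = _
  push_cast
  ring

theorem lf_ne_zero {E F : IntermediateField ℚ ℂ} {l : ℂ →ₗ[E] E} {f : MvPolynomial (Fin 2) F}
    {u : Fin 2 →₀ ℕ} (h : l ((f.coeff u : F) : ℂ) ≠ 0) : lf l f ≠ 0 := by
  classical
  intro h0
  apply h
  have h1 := congrArg (coeff u) h0
  unfold lf at h1
  rw [coeff_sum, coeff_zero, Finset.sum_eq_single u, coeff_monomial, if_pos rfl] at h1
  · exact h1
  · intro b _ hb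
    rw [coeff_monomial, if_neg hb]
  · intro hu
    rw [notMem_support_iff.1 hu, coeff_monomial, if_pos rfl]
    change l ((0 : ℂ)) = 0
    exact map_zero l

/-- substitutions -/
noncomputable def sb {F : IntermediateField ℚ ℂ} (a b : F) :
    MvPolynomial (Fin 2) F →ₐ[F] MvPolynomial (Fin 2) F := aeval ![X 0 + C a, C b * X 1]

theorem aeval_sb {F : IntermediateField ℚ ℂ} (a b : F) (x y : ℂ) (f : MvPolynomial (Fin 2) F) :
    aeval ![x, y] (sb a b f) = aeval ![x + a, b * y] f := by
  have h1 : ((aeval ![x, y] : MvPolynomial (Fin 2) F →ₐ[F] ℂ).comp (sb a b)) =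
      aeval ![x + a, b * y] := by
    apply MvPolynomial.algHom_ext
    intro i
    rw [AlgHom.comp_apply]
    unfold sb
    rw [aeval_X, aeval_X]
    fin_cases i
    · change aeval ![x, y] (X 0 + C a) = x + a
      rw [map_add, aeval_X, aeval_C]
      rfl
    · change aeval ![x, y] (C b * X 1) = b * y
      rw [map_mul, aeval_X, aeval_C]
      rfl
  exact DFunLike.congr_fun h1 f

theorem sb_sb {F : IntermediateField ℚ ℂ} (a b : F) (hb : b ≠ 0) (f : MvPolynomial (Fin 2) F) :
    sb (-a) b⁻¹ (sb a b f) = f := by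
  have h1 : (sb (-a) b⁻¹).comp (sb a b) = AlgHom.id F _ := by
    apply MvPolynomial.algHom_ext
    intro i
    rw [AlgHom.comp_apply]
    unfold sb
    rw [aeval_X, AlgHom.id_apply]
    fin_cases i
    · change aeval ![X 0 + C (-a), C b⁻¹ * X 1] (X 0 + C a) = (X 0 : MvPolynomial (Fin 2) F)
      rw [map_add, aeval_X, aeval_C]
      change X 0 + C (-a) + C a = (X 0 : MvPolynomial (Fin 2) F)
      rw [map_neg]
      ring
    · change aeval ![X 0 + C (-a), C b⁻¹ * X 1] (C b * X 1) = (X 1 : MvPolynomial (Fin 2) F)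
      rw [map_mul, aeval_X, aeval_C]
      change C b * (C b⁻¹ * X 1) = (X 1 : MvPolynomial (Fin 2) F)
      rw [← mul_assoc, ← C_mul, mul_inv_cancel₀ hb, C_1, one_mul]
  exact DFunLike.congr_fun h1 f

theorem sb_ne_zero {F : IntermediateField ℚ ℂ} (a b : F) (hb : b ≠ 0) {f : MvPolynomial (Fin 2) F}
    (hf : f ≠ 0) : sb a b f ≠ 0 := by
  intro h0
  apply hf
  rw [← sb_sb a b hb f, h0, map_zero]

/-- **Infinitely many zeros in a translate of `E`.** -/
theorem caseI {E F : IntermediateField ℚ ℂ} (hEF : E ≤ F) (hexp : ∀ c ∈ E, Complex.exp c ∈ E)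
    {a b : ℂ} (ha : a ∈ F) (hb : b ∈ F) (hb0 : b ≠ 0) {p : MvPolynomial (Fin 2) F}
    (hp : Irreducible p)
    (hC : {c : ℂ | c ∈ E ∧ aeval ![a + c, b * Complex.exp c] p = 0}.Infinite) :
    ∃ g : MvPolynomial (Fin 2) E, g ≠ 0 ∧ ∀ x y : ℂ, aeval ![x, y] p = 0 →
      aeval ![x - a, b⁻¹ * y] g = 0 := by
  classical
  let a' : F := ⟨a, ha⟩
  let b' : F := ⟨b, hb⟩
  have hb' : b' ≠ 0 := fun h => hb0 (congrArg Subtype.val h)
  have hf : sb a' b' p ≠ 0 := sb_ne_zero a' b' hb' hp.ne_zero
  obtain ⟨u, hu⟩ : (sb a' b' p).support.Nonempty := by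
    rw [Finset.nonempty_iff_ne_empty, Ne, MvPolynomial.support_eq_empty]
    exact hf
  have hu0 : (((sb a' b' p).coeff u : F) : ℂ) ≠ 0 := fun h =>
    (MvPolynomial.mem_support_iff.1 hu) (Subtype.ext h)
  obtain ⟨l, hl⟩ : ∃ l : ℂ →ₗ[E] E, l (((sb a' b' p).coeff u : F) : ℂ) ≠ 0 := by
    by_contra hcon
    push Not at hcon
    exact hu0 ((Module.forall_dual_apply_eq_zero_iff E _).1 hcon)
  let j : E →+* F := (IntermediateField.inclusion hEF).toRingHom
  have hj : ∀ (x y : ℂ) (g : MvPolynomial (Fin 2) E), aeval ![x, y] (map j g) = aeval ![x, y] g := by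
    intro x y g
    rw [aeval_def, aeval_def, eval₂_map]
    rfl
  refine ⟨lf l (sb a' b' p), lf_ne_zero hl, ?_⟩
  have hdvd : p ∣ sb (-a') b'⁻¹ (map j (lf l (sb a' b' p))) := by
    refine bez hp (S := (fun c => a + c) '' {c : ℂ | c ∈ E ∧ aeval ![a + c, b * Complex.exp c] p = 0})
      (hC.image (add_right_injective a).injOn) ?_
    rintro _ ⟨c, ⟨hc, hpc⟩, rfl⟩
    refine ⟨b * Complex.exp c, hpc, ?_⟩
    rw [aeval_sb]
    have h1 : (a + c + ((-a' : F) : ℂ)) = ((⟨c, hc⟩ : E) : ℂ) := by
      change a + c + (-a) = c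
      ring
    have h2 : ((b'⁻¹ : F) : ℂ) * (b * Complex.exp c) =
        ((⟨Complex.exp c, hexp c hc⟩ : E) : ℂ) := by
      change b⁻¹ * (b * Complex.exp c) = Complex.exp c
      rw [← mul_assoc, inv_mul_cancel₀ hb0, one_mul]
    rw [h1, h2, hj, aeval_lf, aeval_sb]
    have h3 : aeval ![((⟨c, hc⟩ : E) : ℂ) + (a' : F),
        ((b' : F) : ℂ) * ((⟨Complex.exp c, hexp c hc⟩ : E) : ℂ)] p = 0 := by
      change aeval ![c + a, b * Complex.exp c] p = 0
      rw [add_comm c a]
      exact hpc
    rw [h3, map_zero]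
    rfl
  intro x y hxy
  obtain ⟨q, hq⟩ := hdvd
  have h1 := congrArg (aeval ![x, y]) hq
  rw [map_mul, hxy, zero_mul, aeval_sb, hj] at h1
  have h2 : x + ((-a' : F) : ℂ) = x - a := by
    change x + (-a) = x - a
    ring
  rw [h2] at h1
  exact h1

variable {K : IntermediateField ℚ ℂ} {n m : ℕ} {t t' : Fin n → ℂ} {s s' : Fin m → ℂ}

open Zeros in
/-- **Zeros outside of the rational space, or infinitely many zeros in a translate of `E`.** -/
theorem zero_or (hs : ∀ q : Fin m → ℚ, cb s q ∈ ecl K → q = 0) {F : IntermediateField ℚ ℂ}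
    {p : MvPolynomial (Fin 2) F} (hp : Irreducible p) (h0 : 0 < p.degreeOf 0)
    (h1 : 0 < p.degreeOf 1) :
    (∃ z, aeval ![z, Complex.exp z] p = 0 ∧ ∀ q, z - cb s q ∉ ecl K) ∨
    ∃ q, {c : ℂ | c ∈ ecl K ∧
      aeval ![cb s q + c, Complex.exp (cb s q) * Complex.exp c] p = 0}.Infinite := by
  classical
  by_contra hcon
  push Not at hcon
  obtain ⟨hc1, hc2⟩ := hcon
  have hinf := infinite_zeros hp h0 h1
  obtain ⟨u, hu, v, hv, huv⟩ := two_powers hp h0 h1
  set j₀ : ℤ := ((u 1 : ℕ) : ℤ) with hj₀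
  have hQ : Qc p j₀ ≠ 0 := Qc_ne_zero hu
  have hT := finite_directions (E := ecl K) (fun z hz => log_mem hz) (fun x hx => alg_mem hx)
    (fun z hz => exp_mem hz) s hs (p.support.image fun s => ((s 1 : ℕ) : ℤ)) (Qc p) j₀
    (Finset.mem_image_of_mem _ hu)
  apply hinf
  refine (((Qc p j₀).roots.toFinset.finite_toSet).union (hT.biUnion (t := fun q =>
    (fun c => cb s q + c) '' {c : ℂ | c ∈ ecl K ∧
      aeval ![cb s q + c, Complex.exp (cb s q) * Complex.exp c] p = 0})
      (fun q _ => (hc2 q).image _))).subset ?_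
  intro z hz
  by_cases hr : (Qc p j₀).eval z = 0
  · left
    rw [Finset.mem_coe, Multiset.mem_toFinset, Polynomial.mem_roots hQ]
    exact hr
  · right
    obtain ⟨q, hq⟩ := hc1 z hz
    have h2 : cb s q + (z - cb s q) = z := by ring
    refine Set.mem_biUnion (x := q) ⟨z - cb s q, hq, ?_, ?_⟩ ⟨z - cb s q, ⟨hq, ?_⟩, h2⟩
    · rw [h2, Psi_eq]
      exact hz
    · rw [h2]
      exact hr
    · rw [← Complex.exp_add, h2]
      exact hz

theorem sig_cb {σ : ℂ ≃+* ℂ} (hst : ∀ i, σ (pt s i) = pt s' i) (q : Fin m → ℚ) :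
    σ (cb s q) = cb s' q := by
  unfold cb
  rw [map_sum]
  refine Finset.sum_congr rfl (fun i _ => ?_)
  rw [map_mul, map_ratCast]
  congr 1
  exact hst (Sum.inl i)

theorem sig_exp {σ : ℂ ≃+* ℂ} (hst : ∀ i, σ (pt s i) = pt s' i) (k : Fin m → ℤ) :
    σ (Complex.exp (cb s (fun i => (k i : ℚ)))) = Complex.exp (cb s' (fun i => (k i : ℚ))) := by
  unfold cb
  rw [Complex.exp_sum, Complex.exp_sum, map_prod]
  refine Finset.prod_congr rfl (fun i _ => ?_)
  have h1 : ∀ w : ℂ, Complex.exp ((((k i : ℤ) : ℚ) : ℂ) * w) = Complex.exp w ^ (k i) := by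
    intro w
    rw [← Complex.exp_int_mul]
    congr 2
  rw [h1, h1, map_zpow₀]
  congr 1
  exact hst (Sum.inr i)

/-- common denominators -/
theorem exists_den (q : Fin m → ℚ) : ∃ (N : ℕ) (k : Fin m → ℤ), 0 < N ∧
    (N : ℚ) • q = fun i => (k i : ℚ) := by
  refine ⟨∏ i, (q i).den, fun i => (q i).num * ∏ j ∈ Finset.univ.erase i, ((q j).den : ℤ),
    Finset.prod_pos (fun i _ => (q i).den_pos), ?_⟩
  funext i
  rw [Pi.smul_apply, smul_eq_mul]
  push_cast
  rw [← Finset.mul_prod_erase Finset.univ _ (Finset.mem_univ i)]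
  have h1 : ((q i).den : ℚ) * q i = (q i).num := Rat.den_mul_eq_num (q i)
  linear_combination (∏ x ∈ Finset.univ.erase i, ((q x).den : ℚ)) * h1

theorem root {σ : ℂ ≃+* ℂ} (hst : ∀ i, σ (pt s i) = pt s' i) (q : Fin m → ℚ) :
    ∃ ζ ∈ ecl K, ζ ≠ 0 ∧ σ (Complex.exp (cb s q)) = ζ * Complex.exp (cb s' q) := by
  obtain ⟨N, k, hN, hk⟩ := exists_den q
  have h1 : (σ (Complex.exp (cb s q))) ^ N = (Complex.exp (cb s' q)) ^ N := by
    rw [← map_pow, ← Complex.exp_nat_mul, ← Complex.exp_nat_mul]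
    have h2 : ∀ r : Fin m → ℂ, (N : ℂ) * cb r q = cb r (fun i => (k i : ℚ)) := by
      intro r
      rw [← hk, cb_smul]
      push_cast
      rfl
    rw [h2, h2, sig_exp hst]
  refine ⟨σ (Complex.exp (cb s q)) / Complex.exp (cb s' q), ?_, ?_, ?_⟩
  · apply alg_mem
    apply IsAlgebraic.of_pow hN
    rw [div_pow, h1, div_self (pow_ne_zero _ (Complex.exp_ne_zero _))]
    exact isAlgebraic_one
  · refine div_ne_zero ?_ (Complex.exp_ne_zero _)
    rw [Ne, map_eq_zero_iff σ σ.injective]
    exact Complex.exp_ne_zero _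
  · rw [div_mul_cancel₀ _ (Complex.exp_ne_zero _)]

theorem Fix.mono {F G : IntermediateField ℚ ℂ} {σ : ℂ ≃+* ℂ} (h : Fix G σ) (hFG : F ≤ G) :
    Fix F σ := fun w hw => h w (hFG hw)

/-- automorphisms from transcendental numbers -/
theorem aut_of_tr {F : IntermediateField ℚ ℂ} (hF : Countable F) {x y : ℂ}
    (hx : Transcendental F x) (hy : Transcendental F y) : ∃ ρ : ℂ ≃+* ℂ, Fix F ρ ∧ ρ x = y := by
  obtain ⟨ρ, h1, h2⟩ := exists_aut hF (fun _ : Unit => x) (fun _ => y) (fun P => by
    have h1 : AlgebraicIndependent F (fun _ : Unit => x) :=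
      algebraicIndependent_unique_type_iff.2 hx
    have h2 : AlgebraicIndependent F (fun _ : Unit => y) :=
      algebraicIndependent_unique_type_iff.2 hy
    constructor
    · intro h
      rw [(injective_iff_map_eq_zero _).1 h1 P h, map_zero]
    · intro h
      rw [(injective_iff_map_eq_zero _).1 h2 P h, map_zero])
  exact ⟨ρ, h1, h2 ()⟩

/-- **The image of a pair.** -/
theorem image_pair (hK : Countable K) (ht' : Gen K t') (hs : Tight K t s) (hs' : Tight K t' s')
    {σ : ℂ ≃+* ℂ} (hσ : Fix (ecl K) σ) (hst : ∀ i, σ (pt s i) = pt s' i) {z : ℂ}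
    (hz : ∀ q, z - cb s q ∉ ecl K) (hzF : ¬ (z ∈ Fs (ecl K) s ∧ Complex.exp z ∈ Fs (ecl K) s)) :
    ∃ (z' : ℂ) (ρ : ℂ ≃+* ℂ), Fix (Fs (ecl K) s') ρ ∧ ρ (σ z) = z' ∧
      ρ (σ (Complex.exp z)) = Complex.exp z' := by
  classical
  have hcE : Countable (ecl K) := Closure.countable hK
  have hcF : Countable (Fs (ecl K) s') := countable_Fs hcE
  set F := Fs (ecl K) s' with hFdef
  have hclF : Cl F := cl_Fs
  set x := σ z with hx
  set y := σ (Complex.exp z) with hy
  have hy0 : y ≠ 0 := by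
    rw [hy, Ne, map_eq_zero_iff σ σ.injective]
    exact Complex.exp_ne_zero z
  have hxy : ¬ (x ∈ F ∧ y ∈ F) := fun h => hzF ⟨inv_mem_Fs hσ hst h.1, inv_mem_Fs hσ hst h.2⟩
  by_cases hai : AlgebraicIndependent F ![x, y]
  · obtain ⟨z', hz'⟩ : ∃ z', z' ∉ ecl F := by
      by_contra hcon
      push Not at hcon
      have h1 : ((ecl F : IntermediateField ℚ ℂ) : Set ℂ) = Set.univ := by
        rw [Set.eq_univ_iff_forall]
        exact hcon
      have h2 : ((ecl F : IntermediateField ℚ ℂ) : Set ℂ).Countable :=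
        Set.countable_coe_iff.1 (Closure.countable hcF)
      rw [h1] at h2
      exact not_countable_complex h2
    have hai' : AlgebraicIndependent F ![z', Complex.exp z'] := by
      by_contra h
      exact hz' (mem_ecl_of_rel hclF h)
    obtain ⟨ρ, h1, h2⟩ := exists_aut hcF ![x, y] ![z', Complex.exp z'] (fun P => by
      constructor
      · intro h
        rw [(injective_iff_map_eq_zero _).1 hai P h, map_zero]
      · intro h
        rw [(injective_iff_map_eq_zero _).1 hai' P h, map_zero])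
    exact ⟨z', ρ, h1, h2 0, h2 1⟩
  by_cases hyF : y ∈ F
  · have hxF : x ∉ F := fun h => hxy ⟨h, hyF⟩
    have hexp : Complex.exp (Complex.log y) = y := Complex.exp_log hy0
    have hlF : Complex.log y ∉ F := by
      intro h
      obtain ⟨q, hq⟩ := closed ht' hs' h (by rw [hexp]; exact hyF)
      obtain ⟨ζ, hζ, hζ0, hζq⟩ := root (K := K) hst q
      apply hz q
      apply log_mem
      have h1 : Complex.exp (z - cb s q) =
          ζ⁻¹ * Complex.exp (Complex.log y - cb s' q) := by
        apply σ.injective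
        rw [Complex.exp_sub, Complex.exp_sub, hexp, map_div₀, hζq, map_mul, map_inv₀, hσ ζ hζ]
        have h2 := Complex.exp_ne_zero (cb s' q)
        have h3 : σ (y / Complex.exp (cb s' q)) = y / Complex.exp (cb s' q) := by
          apply hσ
          rw [← hexp, ← Complex.exp_sub]
          exact exp_mem hq
        rw [h3]
        field_simp
        rfl
      rw [h1]
      exact mul_mem (inv_mem hζ) (exp_mem hq)
    obtain ⟨ρ, h1, h2⟩ := aut_of_tr hcF (x := x) (y := Complex.log y)
      (fun h => hxF (hclF _ h)) (fun h => hlF (hclF _ h))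
    exact ⟨Complex.log y, ρ, h1, h2, by rw [hexp]; exact h1 y hyF⟩
  by_cases hxF : x ∈ F
  · have heF : Complex.exp x ∉ F := by
      intro h
      obtain ⟨q, hq⟩ := closed ht' hs' hxF h
      apply hz q
      have h1 : z - cb s q = x - cb s' q := by
        apply σ.injective
        rw [map_sub, sig_cb hst, hσ _ hq]
      rw [h1]
      exact hq
    obtain ⟨ρ, h1, h2⟩ := aut_of_tr hcF (x := y) (y := Complex.exp x)
      (fun h => hyF (hclF _ h)) (fun h => heF (hclF _ h))
    exact ⟨x, ρ, h1, h1 x hxF, h2⟩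
  · have hxt : Transcendental F x := fun h => hxF (hclF _ h)
    have hyt : Transcendental F y := fun h => hyF (hclF _ h)
    rw [AlgebraicIndependent, injective_iff_map_eq_zero] at hai
    push Not at hai
    obtain ⟨g, hg, hg0⟩ := hai
    obtain ⟨p, hp, hpx⟩ := exists_factor' hg0 hg
    have hd0 : 0 < p.degreeOf 0 :=
      degreeOf_pos (i := 0) (j := 1) hp.ne_zero hpx (by decide) hyt
    have hd1 : 0 < p.degreeOf 1 :=
      degreeOf_pos (i := 1) (j := 0) hp.ne_zero hpx (by decide) hxt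
    have hmain : ∃ z', aeval ![z', Complex.exp z'] p = 0 ∧ ∀ q, z' - cb s' q ∉ ecl K := by
      rcases zero_or hs'.ind hp hd0 hd1 with h | ⟨q, hq⟩
      · exact h
      · exfalso
        obtain ⟨ζ, hζ, hζ0, hζq⟩ := root (K := K) hst q
        have hbF : Complex.exp (cb s' q) ∈ F := by
          have h1 : Complex.exp (cb s' q) = ζ⁻¹ * σ (Complex.exp (cb s q)) := by
            rw [hζq, ← mul_assoc, inv_mul_cancel₀ hζ0, one_mul]
          rw [h1]
          refine mul_mem (inv_mem (le_Fs hζ)) (map_mem_Fs hσ hst ?_)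
          obtain ⟨N, k, hN, hk⟩ := exists_den q
          apply cl_Fs
          apply IsAlgebraic.of_pow hN
          rw [← Complex.exp_nat_mul]
          have h2 : (N : ℂ) * cb s q = cb s (fun i => (k i : ℚ)) := by
            rw [← hk, cb_smul]
            push_cast
            rfl
          rw [h2]
          have h3 : Complex.exp (cb s (fun i => (k i : ℚ))) ∈ Fs (ecl K) s := by
            unfold cb
            rw [Complex.exp_sum]
            apply prod_mem
            intro i _
            have h4 : Complex.exp ((((k i : ℤ) : ℚ) : ℂ) * s i) = Complex.exp (s i) ^ (k i) := by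
              rw [← Complex.exp_int_mul]
              congr 2
            rw [h4]
            exact zpow_mem (pt_mem (s := s) (Sum.inr i)) _
          exact isAlgebraic_algebraMap (⟨_, h3⟩ : Fs (ecl K) s)
        obtain ⟨g, hg, hgz⟩ := caseI (E := ecl K) (F := F) le_Fs (fun c hc => exp_mem hc)
          (cb_mem q) hbF (Complex.exp_ne_zero _) hp hq
        have h1 := hgz x y hpx
        have h2 : aeval ![z - cb s q, ζ * Complex.exp (z - cb s q)] g = 0 := by
          apply σ.injective
          rw [map_aeval' hσ, map_zero, ← h1]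
          congr 2
          funext i
          fin_cases i
          · change σ (z - cb s q) = x - cb s' q
            rw [map_sub, sig_cb hst]
          · change σ (ζ * Complex.exp (z - cb s q)) = (Complex.exp (cb s' q))⁻¹ * y
            rw [Complex.exp_sub, map_mul, map_div₀, hζq, hσ ζ hζ]
            have h3 := Complex.exp_ne_zero (cb s' q)
            field_simp
            rfl
        apply hz q
        have h3 : z - cb s q ∈ ecl (ecl K) := by
          apply mem_ecl_of_rel (cl_ecl K)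
          intro hai
          have h4 : AlgebraicIndependent (ecl K) ![z - cb s q, ζ * Complex.exp (z - cb s q)] := by
            apply algInd_of_der
            intro v
            obtain ⟨D, hD1, hD2⟩ := exists_der hai ![v 0, ζ⁻¹ * v 1]
            refine ⟨D, hD1, fun i => ?_⟩
            fin_cases i
            · exact hD2 0
            · change D (ζ * Complex.exp (z - cb s q)) = v 1
              have h5 : D (Complex.exp (z - cb s q)) = ζ⁻¹ * v 1 := hD2 1
              rw [Derivation.leibniz, h5, hD1 ζ hζ, smul_zero, add_zero, smul_eq_mul, ← mul_assoc,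
                mul_inv_cancel₀ hζ0, one_mul]
          exact hg ((injective_iff_map_eq_zero _).1 h4 g h2)
        exact ecl_ecl_le h3
    obtain ⟨z', hz'p, hz'⟩ := hmain
    have htr : ∃ i, Transcendental F (![z', Complex.exp z'] i) := by
      by_contra hcon
      push Not at hcon
      have h1 : z' ∈ F := hclF _ (by
        have := hcon 0
        unfold Transcendental at this
        push Not at this
        exact this)
      have h2 : Complex.exp z' ∈ F := hclF _ (by
        have := hcon 1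
        unfold Transcendental at this
        push Not at this
        exact this)
      obtain ⟨q, hq⟩ := closed ht' hs' h1 h2
      exact hz' q hq
    obtain ⟨ρ, h1, h2⟩ := exists_aut hcF ![x, y] ![z', Complex.exp z'] (fun P => by
      constructor
      · intro h
        obtain ⟨r, rfl⟩ := irr_dvd2 (x := ![x, y]) ⟨0, hxt⟩ hp hpx h
        rw [map_mul, hz'p, zero_mul]
      · intro h
        obtain ⟨r, rfl⟩ := irr_dvd2 htr hp hz'p h
        rw [map_mul, hpx, zero_mul])
    exact ⟨z', ρ, h1, h2 0, h2 1⟩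

/-- **The step.** -/
theorem step (hK : Countable K) (ht : Gen K t) (ht' : Gen K t') (hs : Tight K t s)
    {σ : ℂ ≃+* ℂ} (hσ : Fix (ecl K) σ) (hst : ∀ i, σ (Complex.exp (s i)) = Complex.exp (σ (s i)))
    (htt : ∀ j, σ (t j) = t' j) {z : ℂ} (hz : ∀ q, z - cb s q ∉ ecl K) :
    ∃ τ : ℂ ≃+* ℂ, (∀ w ∈ Fs (ecl K) s, τ w = σ w) ∧ τ (Complex.exp z) = Complex.exp (τ z) := by
  have hst' : ∀ i, σ (pt s i) = pt (fun i => σ (s i)) i := by
    rintro (i | i)
    · rfl
    · exact hst i
  have hs' : Tight K t' (fun i => σ (s i)) := hs.map hσ hst' htt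
  obtain ⟨z', ρ, h1, h2, h3⟩ := image_pair hK ht' hs hs' hσ hst' hz (fun h => by
    obtain ⟨q, hq⟩ := closed ht hs h.1 h.2
    exact hz q hq)
  refine ⟨σ.trans ρ, fun w hw => ?_, ?_⟩
  · change ρ (σ w) = σ w
    exact h1 _ (map_mem_Fs hσ hst' hw)
  · change ρ (σ (Complex.exp z)) = Complex.exp (ρ (σ z))
    rw [h3, h2]

end Pool.Agent.Helper78.EC.Qm
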