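import Mathlib
import Pool.Agent.Helper78.EC.QmK
import Pool.Agent.Helper78.EC.QmS

/-!
# Compatible roots: the automorphisms which respect all rational multiples
-/

set_option autoImplicit false

namespace Pool.Agent.Helper78.EC.Qm

open Set Module Cardinal
open Pool.Agent.Helper78.SC Pool.Agent.Helper78.SC.Ax Pool.Agent.Helper78.SC.Cov
open Pool.Agent.Helper78.EC.Closure Pool.Agent.Helper78.EC.Generic Pool.Agent.Helper78.EC.Use

/-- ring homomorphisms with the same kernel -/
theorem exists_aut' {R : Type} [CommRing R] [Countable R] (Φ Ψ : R →+* ℂ)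
    (h : ∀ r, Φ r = 0 ↔ Ψ r = 0) : ∃ σ : ℂ ≃+* ℂ, ∀ r, σ (Φ r) = Ψ r := by
  let I : Ideal R := RingHom.ker Φ
  have hI : I ≠ ⊤ := RingHom.ker_ne_top _
  have : Nontrivial (R ⧸ I) := Ideal.Quotient.nontrivial_iff.2 hI
  have : Countable (R ⧸ I) := Quotient.countable
  let f : (R ⧸ I) →+* ℂ := Ideal.Quotient.lift I Φ (fun a ha => ha)
  let g : (R ⧸ I) →+* ℂ := Ideal.Quotient.lift I Ψ (fun a ha => (h a).1 ha)
  have hf : Function.Injective f := by
    rw [injective_iff_map_eq_zero]
    intro a ha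
    obtain ⟨a, rfl⟩ := Ideal.Quotient.mk_surjective a
    rw [Ideal.Quotient.eq_zero_iff_mem]
    exact ha
  have hg : Function.Injective g := by
    rw [injective_iff_map_eq_zero]
    intro a ha
    obtain ⟨a, rfl⟩ := Ideal.Quotient.mk_surjective a
    rw [Ideal.Quotient.eq_zero_iff_mem]
    exact (h a).2 ha
  have hc : ℵ₀ < #ℂ := by rw [Cardinal.mk_complex]; exact Cardinal.aleph0_lt_continuum
  obtain ⟨σ, hσ⟩ := exists_equiv (R := R ⧸ I) (K := ℂ) (L := ℂ) f g hf hg hc rfl
  exact ⟨σ, fun r => hσ (Ideal.Quotient.mk I r)⟩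

/-- automorphisms which move an algebraic number -/
theorem exists_move {F : IntermediateField ℚ ℂ} (hF : Countable F) {x : ℂ} (hx : x ∉ F)
    (halg : IsAlgebraic F x) : ∃ ρ : ℂ ≃+* ℂ, Fix F ρ ∧ ρ x ≠ x := by
  classical
  have hint : IsIntegral F x := halg.isIntegral
  have hd : 1 < (minpoly F x).natDegree := by
    rcases lt_trichotomy 1 (minpoly F x).natDegree with h | h | h
    · exact h
    · exfalso
      apply hx
      obtain ⟨r, hr⟩ := minpoly.natDegree_eq_one_iff.1 h.symm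
      rw [← hr]
      exact r.2
    · exfalso
      have := minpoly.natDegree_pos hint
      omega
  have : CharZero F := charZero_of_injective_algebraMap (algebraMap ℚ F).injective
  have hcard := Polynomial.card_rootSet_eq_natDegree (F := F) (K := ℂ)
    (minpoly.irreducible hint).separable (IsAlgClosed.splits _)
  have hxr : x ∈ (minpoly F x).rootSet ℂ := by
    rw [Polynomial.mem_rootSet]
    exact ⟨minpoly.ne_zero hint, minpoly.aeval F x⟩
  rw [← hcard] at hd
  obtain ⟨⟨y, hy⟩, hyx⟩ := Fintype.exists_ne_of_one_lt_card hd ⟨x, hxr⟩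
  have hy0 : Polynomial.aeval y (minpoly F x) = 0 := (Polynomial.mem_rootSet.1 hy).2
  have hmin : minpoly F x = minpoly F y :=
    minpoly.eq_of_irreducible_of_monic (minpoly.irreducible hint) hy0 (minpoly.monic hint)
  have : Countable (Polynomial F) := by
    rw [← mk_le_aleph0_iff]
    exact Polynomial.cardinalMk_le_max.trans (max_le mk_le_aleph0 le_rfl)
  obtain ⟨ρ, hρ⟩ := exists_aut' (R := Polynomial F) (Polynomial.aeval x : Polynomial F →ₐ[F] ℂ).toRingHom
    (Polynomial.aeval y : Polynomial F →ₐ[F] ℂ).toRingHom (fun r => by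
      change Polynomial.aeval x r = 0 ↔ Polynomial.aeval y r = 0
      rw [← minpoly.dvd_iff, hmin, minpoly.dvd_iff])
  refine ⟨ρ, fun w hw => ?_, ?_⟩
  · have h1 := hρ (Polynomial.C (⟨w, hw⟩ : F))
    change ρ (Polynomial.aeval x (Polynomial.C (⟨w, hw⟩ : F))) =
      Polynomial.aeval y (Polynomial.C (⟨w, hw⟩ : F)) at h1
    rw [Polynomial.aeval_C, Polynomial.aeval_C] at h1
    exact h1
  · have h1 := hρ Polynomial.X
    change ρ (Polynomial.aeval x (Polynomial.X : Polynomial F)) = Polynomial.aeval y Polynomial.X at h1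
    rw [Polynomial.aeval_X, Polynomial.aeval_X] at h1
    rw [h1]
    intro h2
    exact hyx (Subtype.ext h2)

variable {K : IntermediateField ℚ ℂ} {m : ℕ} {s s' : Fin m → ℂ}

theorem ecl_le_M0 : ecl K ≤ M0 (ecl K) s := fun _ hw =>
  IntermediateField.subset_adjoin ℚ _ (Or.inl hw)

theorem pt_mem_M0 (i : Fin m ⊕ Fin m) : pt s i ∈ M0 (ecl K) s :=
  IntermediateField.subset_adjoin ℚ _ (Or.inr ⟨i, rfl⟩)

theorem countable_M0 (hE : Countable (ecl K)) : Countable (M0 (ecl K) s) := by
  have h0 : Countable ((ecl K : Set ℂ) ∪ range (pt s) : Set ℂ) :=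
    ((Set.countable_coe_iff.1 hE).union (countable_range _)).to_subtype
  rw [← mk_le_aleph0_iff]
  refine (IntermediateField.cardinalMk_adjoin_le ℚ _).trans ?_
  exact max_le (max_le mk_le_aleph0 mk_le_aleph0) le_rfl

theorem map_M0 {σ : ℂ ≃+* ℂ} (hσ : Fix (ecl K) σ) (hst : ∀ i, σ (pt s i) = pt s' i) {w : ℂ}
    (hw : w ∈ M0 (ecl K) s) : σ w ∈ M0 (ecl K) s' := by
  have h1 : M0 (ecl K) s ≤ pre σ (M0 (ecl K) s') := by
    unfold M0
    rw [IntermediateField.adjoin_le_iff]
    rintro w (hw | ⟨i, rfl⟩)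
    · have h : σ w ∈ M0 (ecl K) s' := by
        rw [hσ w hw]
        exact ecl_le_M0 hw
      exact h
    · have h : σ (pt s i) ∈ M0 (ecl K) s' := by
        rw [hst]
        exact pt_mem_M0 i
      exact h
  exact h1 hw

/-- abbreviation for the exponential of a rational combination -/
noncomputable def ex (s : Fin m → ℂ) (q : Fin m → ℚ) : ℂ := Complex.exp (cb s q)

theorem ex_ne (s : Fin m → ℂ) (q : Fin m → ℚ) : ex s q ≠ 0 := Complex.exp_ne_zero _

theorem ex_add (s : Fin m → ℂ) (q r : Fin m → ℚ) : ex s (q + r) = ex s q * ex s r := by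
  unfold ex
  rw [cb_add, Complex.exp_add]

theorem ex_sub (s : Fin m → ℂ) (q r : Fin m → ℚ) : ex s (q - r) = ex s q / ex s r := by
  unfold ex
  rw [cb_sub, Complex.exp_sub]

theorem ex_alg (q : Fin m → ℚ) : IsAlgebraic (M0 (ecl K) s) (ex s q) := by
  obtain ⟨N, k, hN, hk⟩ := exists_den q
  apply IsAlgebraic.of_pow hN
  unfold ex
  rw [← Complex.exp_nat_mul]
  have h2 : (N : ℂ) * cb s q = cb s (fun i => (k i : ℚ)) := by
    rw [← hk, cb_smul]
    push_cast
    rfl
  rw [h2]
  exact isAlgebraic_algebraMap (⟨_, exp_int_mem (E := ecl K) k⟩ : M0 (ecl K) s)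

/-- **The relations between the exponentials of rational combinations.** -/
theorem transfer_sum (hK : Countable K) {σ : ℂ ≃+* ℂ} (hσ : Fix (ecl K) σ)
    (hex : ∀ q, ex s q ∈ M0 (ecl K) s → σ (ex s q) = ex s' q) (n : ℕ) :
    ∀ S : Finset (Fin m → ℚ), S.card = n → ∀ c : (Fin m → ℚ) → ℂ,
      (∀ q ∈ S, c q ∈ M0 (ecl K) s) → ∑ q ∈ S, c q * ex s q = 0 →
        ∑ q ∈ S, σ (c q) * ex s' q = 0 := by
  classical
  induction n using Nat.strong_induction_on with
  | _ n ih =>
    intro S hS c hc h0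
    by_cases hcase : ∀ q₁ ∈ S, ∀ q₂ ∈ S, ex s (q₁ - q₂) ∈ M0 (ecl K) s
    · rcases S.eq_empty_or_nonempty with rfl | ⟨q₀, hq₀⟩
      · simp
      · have h1 : ∑ q ∈ S, c q * ex s (q - q₀) = 0 := by
          have h2 : ex s q₀ * ∑ q ∈ S, c q * ex s (q - q₀) = 0 := by
            rw [← h0, Finset.mul_sum]
            refine Finset.sum_congr rfl (fun q _ => ?_)
            rw [ex_sub]
            have := ex_ne s q₀
            field_simp
          exact (mul_eq_zero.1 h2).resolve_left (ex_ne s q₀)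
        have h2 : ∑ q ∈ S, σ (c q) * ex s' (q - q₀) = 0 := by
          have h3 := congrArg σ h1
          rw [map_sum, map_zero] at h3
          rw [← h3]
          refine Finset.sum_congr rfl (fun q hq => ?_)
          rw [map_mul, hex _ (hcase q hq q₀ hq₀)]
        have h3 : ∑ q ∈ S, σ (c q) * ex s' q = ex s' q₀ * ∑ q ∈ S, σ (c q) * ex s' (q - q₀) := by
          rw [Finset.mul_sum]
          refine Finset.sum_congr rfl (fun q _ => ?_)
          rw [ex_sub]
          have := ex_ne s' q₀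
          field_simp
        rw [h3, h2, mul_zero]
    · push Not at hcase
      obtain ⟨q₁, hq₁, q₂, hq₂, hx⟩ := hcase
      obtain ⟨ρ, hρ, hρx⟩ := exists_move (countable_M0 (Closure.countable hK)) hx (ex_alg _)
      have hρE : Fix (ecl K) ρ := hρ.mono ecl_le_M0
      have hchi : ∀ q, ∃ ζ ∈ ecl K, ρ (ex s q) = ζ * ex s q := by
        intro q
        obtain ⟨ζ, hζ, -, h⟩ := root (K := K) (σ := ρ) (s := s) (s' := s)
          (fun i => hρ _ (pt_mem_M0 i)) q
        exact ⟨ζ, hζ, h⟩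
      choose χ hχ hχe using hchi
      have hne : χ q₂ - χ q₁ ≠ 0 := by
        intro h
        apply hρx
        have h1 : χ q₂ = χ q₁ := sub_eq_zero.1 h
        have h2 : χ q₁ ≠ 0 := by
          intro h3
          have h4 := hχe q₁
          rw [h3, zero_mul, map_eq_zero_iff ρ ρ.injective] at h4
          exact ex_ne s q₁ h4
        rw [ex_sub, map_div₀, hχe, hχe, h1]
        have := ex_ne s q₂
        field_simp
      have hρ0 : ∑ q ∈ S, c q * (χ q * ex s q) = 0 := by
        have h1 := congrArg ρ h0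
        rw [map_sum, map_zero] at h1
        rw [← h1]
        refine Finset.sum_congr rfl (fun q hq => ?_)
        rw [map_mul, hχe, hρ _ (hc q hq)]
      have hstep : ∀ p ∈ S, ∑ q ∈ S, σ ((χ q - χ p) * c q) * ex s' q = 0 := by
        intro p hp
        have h1 := ih (S.erase p).card (by
          rw [Finset.card_erase_of_mem hp, ← hS]
          have := Finset.card_pos.2 ⟨p, hp⟩
          omega) (S.erase p) rfl (fun q => (χ q - χ p) * c q) (fun q hq =>
            mul_mem (sub_mem (ecl_le_M0 (hχ q)) (ecl_le_M0 (hχ p))) (hc q (Finset.mem_of_mem_erase hq)))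
          (by
            have h2 : ∑ q ∈ S, (χ q - χ p) * c q * ex s q = 0 := by
              have h3 : ∑ q ∈ S, (χ q - χ p) * c q * ex s q =
                  ∑ q ∈ S, c q * (χ q * ex s q) - χ p * ∑ q ∈ S, c q * ex s q := by
                rw [Finset.mul_sum, ← Finset.sum_sub_distrib]
                refine Finset.sum_congr rfl (fun q _ => ?_)
                ring
              rw [h3, hρ0, h0, mul_zero, sub_zero]
            rw [← Finset.add_sum_erase _ _ hp, sub_self, zero_mul, zero_mul, zero_add] at h2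
            exact h2)
        rw [← Finset.add_sum_erase _ _ hp, sub_self, zero_mul, map_zero, zero_mul, zero_add]
        exact h1
      have h1 := hstep q₁ hq₁
      have h2 := hstep q₂ hq₂
      have h3 : (χ q₂ - χ q₁) * ∑ q ∈ S, σ (c q) * ex s' q = 0 := by
        have h4 : (χ q₂ - χ q₁) * ∑ q ∈ S, σ (c q) * ex s' q =
            ∑ q ∈ S, σ ((χ q - χ q₁) * c q) * ex s' q -
              ∑ q ∈ S, σ ((χ q - χ q₂) * c q) * ex s' q := by
          rw [Finset.mul_sum, ← Finset.sum_sub_distrib]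
          refine Finset.sum_congr rfl (fun q _ => ?_)
          rw [map_mul, map_mul, hσ _ (sub_mem (hχ q) (hχ q₁)), hσ _ (sub_mem (hχ q) (hχ q₂))]
          ring
        rw [h4, h1, h2, sub_zero]
      exact (mul_eq_zero.1 h3).resolve_left hne

open AddMonoidAlgebra in
/-- the homomorphism from the group algebra -/
noncomputable def ghom (s s' : Fin m → ℂ) (σ : ℂ ≃+* ℂ) :
    AddMonoidAlgebra (M0 (ecl K) s) (Fin m → ℚ) →+* ℂ :=
  AddMonoidAlgebra.liftNCRingHom (σ.toRingHom.comp (M0 (ecl K) s).val.toRingHom)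
    { toFun := fun q => ex s' q.toAdd
      map_one' := by
        change ex s' 0 = 1
        unfold ex
        rw [cb_zero, Complex.exp_zero]
      map_mul' := fun q r => ex_add s' q.toAdd r.toAdd }
    (fun _ _ => Commute.all _ _)

theorem ghom_single (s s' : Fin m → ℂ) (σ : ℂ ≃+* ℂ) (q : Fin m → ℚ) (c : M0 (ecl K) s) :
    ghom s s' σ (AddMonoidAlgebra.single q c) = σ (c : ℂ) * ex s' q := by
  unfold ghom
  rw [AddMonoidAlgebra.liftNCRingHom_single]
  rfl

theorem ghom_apply (s s' : Fin m → ℂ) (σ : ℂ ≃+* ℂ)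
    (r : AddMonoidAlgebra (M0 (ecl K) s) (Fin m → ℚ)) :
    ghom s s' σ r = ∑ q ∈ r.coeff.support, σ ((r.coeff q : M0 (ecl K) s) : ℂ) * ex s' q := by
  conv_lhs => rw [← AddMonoidAlgebra.sum_coeff_single r]
  rw [Finsupp.sum, map_sum]
  exact Finset.sum_congr rfl (fun q _ => ghom_single s s' σ q _)

/-- **The thumbtack lemma.** -/
theorem thumb (hK : Countable K) {σ : ℂ ≃+* ℂ} (hσ : Fix (ecl K) σ)
    (hst : ∀ i, σ (pt s i) = pt s' i)
    (hex : ∀ q, ex s q ∈ M0 (ecl K) s → σ (ex s q) = ex s' q) :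
    ∃ τ : ℂ ≃+* ℂ, (∀ w ∈ M0 (ecl K) s, τ w = σ w) ∧ ∀ q, τ (ex s q) = ex s' q := by
  classical
  have hcM : Countable (M0 (ecl K) s) := countable_M0 (Closure.countable hK)
  have hc : Countable (AddMonoidAlgebra (M0 (ecl K) s) (Fin m → ℚ)) :=
    AddMonoidAlgebra.coeff_injective.countable
  have hst' : ∀ i, σ.symm (pt s' i) = pt s i := fun i => by
    rw [RingEquiv.symm_apply_eq, hst]
  have hex' : ∀ q, ex s' q ∈ M0 (ecl K) s' → σ.symm (ex s' q) = ex s q := by
    intro q hq
    obtain ⟨ζ, hζ, hζ0, h⟩ := root (K := K) hst' q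
    have h1 := map_M0 hσ.symm hst' hq
    have h2 : ex s q ∈ M0 (ecl K) s := by
      have h3 : ex s q = ζ⁻¹ * σ.symm (ex s' q) := by
        unfold ex
        rw [h, ← mul_assoc, inv_mul_cancel₀ hζ0, one_mul]
      rw [h3]
      exact mul_mem (inv_mem (ecl_le_M0 hζ)) h1
    rw [RingEquiv.symm_apply_eq, hex q h2]
  obtain ⟨τ, hτ⟩ := exists_aut' (ghom (K := K) s s (RingEquiv.refl ℂ)) (ghom (K := K) s s' σ)
    (fun r => by
      rw [ghom_apply, ghom_apply]
      constructor
      · intro h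
        exact transfer_sum hK hσ hex _ r.coeff.support rfl
          (fun q => ((r.coeff q : M0 (ecl K) s) : ℂ)) (fun q _ => (r.coeff q).2) h
      · intro h
        have h1 := transfer_sum hK hσ.symm hex' _ r.coeff.support rfl
          (fun q => σ ((r.coeff q : M0 (ecl K) s) : ℂ)) (fun q _ => map_M0 hσ hst (r.coeff q).2) h
        rw [← h1]
        refine Finset.sum_congr rfl (fun q _ => ?_)
        rw [RingEquiv.symm_apply_apply]
        rfl)
  refine ⟨τ, fun w hw => ?_, fun q => ?_⟩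
  · have h1 := hτ (AddMonoidAlgebra.single 0 (⟨w, hw⟩ : M0 (ecl K) s))
    rw [ghom_single, ghom_single] at h1
    have h2 : ∀ r : Fin m → ℂ, ex r 0 = 1 := fun r => by
      unfold ex
      rw [cb_zero, Complex.exp_zero]
    rw [h2, h2, mul_one, mul_one] at h1
    exact h1
  · have h1 := hτ (AddMonoidAlgebra.single q (1 : M0 (ecl K) s))
    rw [ghom_single, ghom_single] at h1
    change τ ((1 : ℂ) * ex s q) = σ (1 : ℂ) * ex s' q at h1
    rw [map_one, one_mul, one_mul] at h1
    exact h1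

/-- respects all rational multiples -/
def Full (σ : ℂ ≃+* ℂ) (s : Fin m → ℂ) : Prop :=
  ∀ q, σ (Complex.exp (cb s q)) = Complex.exp (σ (cb s q))

theorem cb_div (s : Fin m → ℂ) {N : ℕ} (hN : 0 < N) {q : Fin m → ℚ} {k : Fin m → ℤ}
    (hk : (N : ℚ) • q = fun i => (k i : ℚ)) :
    cb s q = cb (fun i => s i / N) (fun i => (k i : ℚ)) := by
  have hNC : (N : ℂ) ≠ 0 := by exact_mod_cast hN.ne'
  apply mul_left_cancel₀ hNC
  have h1 : (N : ℂ) * cb s q = cb s (fun i => (k i : ℚ)) := by
    rw [← hk, cb_smul]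
    push_cast
    rfl
  rw [h1]
  unfold cb
  rw [Finset.mul_sum]
  refine Finset.sum_congr rfl (fun i _ => ?_)
  field_simp

/-- **The finite level.** -/
theorem exists_level (hK : Countable K) (hs : ∀ q : Fin m → ℚ, cb s q ∈ ecl K → q = 0) :
    ∃ N : ℕ, 0 < N ∧ ∀ σ : ℂ ≃+* ℂ, Fix (ecl K) σ →
      (∀ i, σ (Complex.exp (s i / N)) = Complex.exp (σ (s i) / N)) →
        ∃ τ : ℂ ≃+* ℂ, Fix (ecl K) τ ∧ (∀ i, τ (s i) = σ (s i)) ∧ Full τ s := by
  obtain ⟨N, hN, hb⟩ := bounded (cl_ecl K) (fun z hz => log_mem hz) hs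
  have hNC : (N : ℂ) ≠ 0 := by exact_mod_cast hN.ne'
  refine ⟨N, hN, fun σ hσ hσN => ?_⟩
  have h1 : ∀ i, σ (pt (fun i => s i / N) i) = pt (fun i => σ (s i) / N) i := by
    rintro (i | i)
    · change σ (s i / N) = σ (s i) / N
      rw [map_div₀, map_natCast]
    · exact hσN i
  have h2 : ∀ i, σ (pt s i) = pt (fun i => σ (s i)) i := by
    rintro (i | i)
    · rfl
    · change σ (Complex.exp (s i)) = Complex.exp (σ (s i))
      have h3 : ∀ x : ℂ, Complex.exp x = Complex.exp (x / N) ^ N := by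
        intro x
        rw [← Complex.exp_nat_mul, mul_div_cancel₀ x hNC]
      rw [h3 (s i), map_pow, hσN i, ← h3]
  obtain ⟨τ, hτ1, hτ2⟩ := thumb (s := s) (s' := fun i => σ (s i)) hK hσ h2 (fun q hq => by
    obtain ⟨k, hk⟩ := hb q hq
    unfold ex
    rw [cb_div s hN hk, sig_exp h1, ← cb_div (fun i => σ (s i)) hN hk])
  have hτs : ∀ i, τ (s i) = σ (s i) := fun i => hτ1 _ (pt_mem_M0 (Sum.inl i))
  refine ⟨τ, fun w hw => by rw [hτ1 w (ecl_le_M0 hw), hσ w hw], hτs, fun q => ?_⟩
  have h3 : τ (cb s q) = cb (fun i => σ (s i)) q := by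
    unfold cb
    rw [map_sum]
    refine Finset.sum_congr rfl (fun i _ => ?_)
    rw [map_mul, map_ratCast, hτs]
  rw [h3]
  exact hτ2 q

end Pool.Agent.Helper78.EC.Qm
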