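import Mathlib
import Pool.Agent.Helper78.EC.QmB

/-!
# Generic points
-/

set_option autoImplicit false

namespace Pool.Agent.Helper78.EC.Qm

open Set Module Cardinal
open Pool.Agent.Helper78.SC Pool.Agent.Helper78.SC.Ax Pool.Agent.Helper78.SC.Cov
open Pool.Agent.Helper78.EC.Closure Pool.Agent.Helper78.EC.Generic Pool.Agent.Helper78.EC.Use

variable {K : IntermediateField ℚ ℂ} {n : ℕ} {t t' : Fin n → ℂ}

theorem gen_ind (ht : Gen K t) (q : Fin n → ℚ) (hq : cb t q ∈ ecl K) : q = 0 := by
  classical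
  funext j
  obtain ⟨D, hD1, hD2⟩ := exists_der (gen_algInd ht) (Pi.single j (1 : ℂ))
  have h1 : D (cb t q) = q j := by
    unfold cb
    rw [map_sum, Finset.sum_eq_single j]
    · have h2 : D (((q j : ℚ) : ℂ) * t j) = (q j : ℂ) * D (t j) := by
        rw [Derivation.leibniz, show D ((q j : ℚ) : ℂ) = 0 from D.map_algebraMap (q j)]
        simp
      rw [h2, hD2, Pi.single_eq_same, mul_one]
    · intro i _ hi
      have h2 : D (((q i : ℚ) : ℂ) * t i) = (q i : ℂ) * D (t i) := by
        rw [Derivation.leibniz, show D ((q i : ℚ) : ℂ) = 0 from D.map_algebraMap (q i)]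
        simp
      rw [h2, hD2, Pi.single_eq_of_ne hi, mul_zero]
    · intro h
      exact absurd (Finset.mem_univ j) h
  rw [hD1 _ hq] at h1
  have h2 : ((q j : ℚ) : ℂ) = 0 := h1.symm
  rw [Pi.zero_apply]
  exact_mod_cast h2

theorem algInd_level (ht : Gen K t) {N : ℕ} (hN : 0 < N) :
    AlgebraicIndependent (ecl K) (Sum.elim t (fun i => Complex.exp (t i / N))) := by
  have hNC : (N : ℂ) ≠ 0 := by exact_mod_cast hN.ne'
  have hNQ : (N : ℚ) ≠ 0 := by exact_mod_cast hN.ne'
  apply algInd_of_R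
  have h1 := key t ht (fun i => t i / N) (fun q hq => by
    have h2 : ((N : ℚ)⁻¹ • q) = 0 := by
      apply gen_ind ht
      rw [cb_smul]
      unfold cb
      rw [Finset.mul_sum]
      have h3 : ∑ i, (((N : ℚ)⁻¹ : ℚ) : ℂ) * ((q i : ℂ) * t i) = ∑ i, (q i : ℂ) * (t i / N) := by
        refine Finset.sum_congr rfl (fun i _ => ?_)
        push_cast
        field_simp
      rw [h3]
      exact hq
    exact (smul_eq_zero.1 h2).resolve_left (inv_ne_zero hNQ))
  have h2 : Low.R (ecl K) (Sum.elim t (pt (fun i => t i / (N : ℂ)))) ≤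
      Low.R (ecl K) (Sum.elim t (fun i => Complex.exp (t i / N))) := by
    apply Low.R_mono
    intro D hD
    rintro (i | (i | i))
    · exact hD (Sum.inl i)
    · change D (t i / N) = 0
      have h1 : D (t i) = 0 := hD (Sum.inl i)
      have h2 : (N : ℂ) * D (t i / N) = 0 := by
        rw [← nsmul_eq_mul, ← map_nsmul, nsmul_eq_mul, mul_div_cancel₀ _ hNC, h1]
      exact (mul_eq_zero.1 h2).resolve_left hNC
    · exact hD (Sum.inr i)
  rw [Fintype.card_sum, Fintype.card_fin]
  exact h1.trans h2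

end Pool.Agent.Helper78.EC.Qm
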