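import Mathlib
import Pool.Agent.Helper78.EC.QmK
import Pool.Agent.Helper78.EC.QmS

/-!
# Self-sufficient tuples over closed fields, and the step
-/

set_option autoImplicit false

namespace Pool.Agent.Helper78.EC.Qn

open Set MvPolynomial Module Cardinal
open Pool.Agent.Helper78.SC Pool.Agent.Helper78.SC.Ax Pool.Agent.Helper78.SC.Cov
open Pool.Agent.Helper78.EC.Closure Pool.Agent.Helper78.EC.Generic Pool.Agent.Helper78.EC.Use
open Pool.Agent.Helper78.EC.Disj Pool.Agent.Helper78.EC.Str Pool.Agent.Helper78.EC.Curve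
open Pool.Agent.Helper78.EC.Mar Pool.Agent.Helper78.EC.Qm
open Pool.Agent.W252 Pool.Agent.TH813.Core Pool.Agent.TH813.Rank

/-- fields closed under the exponential function and under exponential equations in one variable -/
structure HC (G : IntermediateField ℚ ℂ) : Prop where
  exp_mem : ∀ z ∈ G, Complex.exp z ∈ G
  rel_mem : ∀ z : ℂ, ¬ AlgebraicIndependent G ![z, Complex.exp z] → z ∈ G

/-- independence over smaller fields -/
theorem algInd_mono {F G : IntermediateField ℚ ℂ} (hFG : F ≤ G) {x y : ℂ}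
    (h : AlgebraicIndependent G ![x, y]) : AlgebraicIndependent F ![x, y] := by
  apply algInd_of_der
  intro v
  obtain ⟨D, hD1, hD2⟩ := exists_der h v
  exact ⟨D, fun w hw => hD1 w (hFG hw), hD2⟩

/-- pairs with an algebraic element -/
theorem not_algInd_left {F : IntermediateField ℚ ℂ} {x y : ℂ} (hx : x ∈ F) :
    ¬ AlgebraicIndependent F ![x, y] := by
  intro h
  obtain ⟨D, hD1, hD2⟩ := exists_der h ![1, 0]
  have h1 : D x = 1 := hD2 0
  rw [hD1 x hx] at h1
  exact zero_ne_one h1

theorem not_algInd_right {F : IntermediateField ℚ ℂ} {x y : ℂ} (hy : y ∈ F) :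
    ¬ AlgebraicIndependent F ![x, y] := by
  intro h
  obtain ⟨D, hD1, hD2⟩ := exists_der h ![0, 1]
  have h1 : D y = 1 := hD2 1
  rw [hD1 y hy] at h1
  exact zero_ne_one h1

theorem HC.cl {G : IntermediateField ℚ ℂ} (hG : HC G) : Cl G := by
  intro w hw
  apply hG.rel_mem
  intro h
  have h1 := (algebraicIndependent_unique_type_iff (R := G) (x := fun _ : Unit => w)).1
    (by
      have h2 := h.comp (fun _ : Unit => (0 : Fin 2)) (fun _ _ _ => rfl)
      exact h2)
  exact h1 hw

theorem HC.log_mem {G : IntermediateField ℚ ℂ} (hG : HC G) {z : ℂ} (hz : Complex.exp z ∈ G) :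
    z ∈ G := hG.rel_mem z (not_algInd_right hz)

variable {E : IntermediateField ℚ ℂ} {n m : ℕ} {a a' : Fin n → ℂ} {s s' : Fin m → ℂ}

/-- the space generated by `s` modulo `E` -/
def LL (E : IntermediateField ℚ ℂ) {m : ℕ} (s : Fin m → ℂ) : Set ℂ := {x | ∃ q, x - cb s q ∈ E}

/-- independence modulo `E` -/
def Ind (E : IntermediateField ℚ ℂ) {m : ℕ} (s : Fin m → ℂ) : Prop :=
  ∀ q : Fin m → ℚ, cb s q ∈ E → q = 0

/-- self-sufficient tuples -/
def SS (E : IntermediateField ℚ ℂ) {n : ℕ} (a : Fin n → ℂ) : Prop :=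
  ∀ (k : ℕ) (z : Fin k → ℂ), Ind E z → (∀ j, a j ∈ LL E z) →
    Low.R E (pt a) + k ≤ Low.R E (pt z) + n

/-- tuples which are tight over `a` -/
structure Tight (E : IntermediateField ℚ ℂ) {n m : ℕ} (a : Fin n → ℂ) (s : Fin m → ℂ) : Prop where
  ind : Ind E s
  le : Low.R E (pt s) + n ≤ Low.R E (pt a) + m
  mem : ∀ j, a j ∈ LL E s

theorem LL_Fs {x : ℂ} (hx : x ∈ LL E s) : x ∈ Fs E s := by
  obtain ⟨q, hq⟩ := hx
  have h1 := add_mem (le_Fs (s := s) hq) (cb_mem (E := E) (s := s) q)
  rwa [sub_add_cancel] at h1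

theorem mem_LL {x : ℂ} (hx : x ∈ E) : x ∈ LL E s :=
  ⟨0, by rw [cb_zero, sub_zero]; exact hx⟩

theorem LL_snoc {z x : ℂ} (hx : x ∈ LL E s) : x ∈ LL E (Fin.snoc s z : Fin (m + 1) → ℂ) := by
  obtain ⟨q, hq⟩ := hx
  refine ⟨Fin.snoc q 0, ?_⟩
  rw [cb_snoc]
  simpa using hq

theorem last_LL {z : ℂ} : z ∈ LL E (Fin.snoc s z : Fin (m + 1) → ℂ) := by
  refine ⟨Fin.snoc 0 1, ?_⟩
  rw [cb_snoc]
  have h1 : (fun i : Fin m => (Fin.snoc (0 : Fin m → ℚ) 1 : Fin (m + 1) → ℚ) i.castSucc) = 0 := by
    funext i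
    simp
  rw [h1, cb_zero]
  simp

theorem ind_snoc (hs : Ind E s) {z : ℂ}
    (hz : ∀ q, z - cb s q ∉ E) (q : Fin (m + 1) → ℚ)
    (hq : cb (Fin.snoc s z : Fin (m + 1) → ℂ) q ∈ E) : q = 0 := by
  rw [cb_snoc] at hq
  by_cases h0 : q (Fin.last m) = 0
  · rw [h0, Rat.cast_zero, zero_mul, add_zero] at hq
    have h1 := hs _ hq
    funext i
    refine Fin.lastCases ?_ (fun j => ?_) i
    · exact h0
    · exact congrFun h1 j
  · exfalso
    apply hz (-(q (Fin.last m))⁻¹ • fun i => q i.castSucc)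
    have h1 : z - cb s (-(q (Fin.last m))⁻¹ • fun i => q i.castSucc) =
        ((q (Fin.last m))⁻¹ : ℚ) * (cb s (fun i => q i.castSucc) + q (Fin.last m) * z) := by
      rw [cb_smul]
      have h2 : ((q (Fin.last m) : ℚ) : ℂ) ≠ 0 := by exact_mod_cast h0
      push_cast
      field_simp
      ring
    rw [h1]
    exact mul_mem (E.algebraMap_mem _) hq

/-- **Numbers of `Fs` with exponential in `Fs`.** -/
theorem closed (ha : SS E a) (hs : Tight E a s) {z : ℂ} (h1 : z ∈ Fs E s)
    (h2 : Complex.exp z ∈ Fs E s) : ∃ q, z - cb s q ∈ E := by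
  by_contra hcon
  push Not at hcon
  have h3 := ha (m + 1) (Fin.snoc s z) (fun q hq => ind_snoc hs.ind hcon q hq)
    (fun j => LL_snoc (hs.mem j))
  have h4 : Low.R E (pt (Fin.snoc s z : Fin (m + 1) → ℂ)) ≤ Low.R E (pt s) := by
    apply Low.R_mono
    intro D hD
    have hk := kills_Fs (E := E) (s := s) (D := D.restrictScalars ℚ)
      (fun w hw => D.map_algebraMap (⟨w, hw⟩ : E)) hD
    rintro (i | i)
    · refine Fin.lastCases ?_ (fun j => ?_) i
      · change D ((Fin.snoc s z : Fin (m + 1) → ℂ) (Fin.last m)) = 0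
        rw [Fin.snoc_last]
        exact hk _ h1
      · change D ((Fin.snoc s z : Fin (m + 1) → ℂ) j.castSucc) = 0
        rw [Fin.snoc_castSucc]
        exact hD (Sum.inl j)
    · refine Fin.lastCases ?_ (fun j => ?_) i
      · change D (Complex.exp ((Fin.snoc s z : Fin (m + 1) → ℂ) (Fin.last m))) = 0
        rw [Fin.snoc_last]
        exact hk _ h2
      · change D (Complex.exp ((Fin.snoc s z : Fin (m + 1) → ℂ) j.castSucc)) = 0
        rw [Fin.snoc_castSucc]
        exact hD (Sum.inr j)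
  have h5 := hs.le
  omega

/-- **Extension of tight tuples.** -/
theorem Tight.snoc (hs : Tight E a s) {z : ℂ} (hz : ∀ q, z - cb s q ∉ E)
    (hdep : ¬ AlgebraicIndependent (Fs E s) ![z, Complex.exp z]) :
    Tight E a (Fin.snoc s z : Fin (m + 1) → ℂ) := by
  refine ⟨ind_snoc hs.ind hz, ?_, fun j => LL_snoc (hs.mem j)⟩
  have hgen : ∀ (y : ℂ), (∀ D : Derivation ℚ ℂ ℂ, (∀ w ∈ Fs E s, D w = 0) → D y = 0 →
      D z = 0 ∧ D (Complex.exp z) = 0) →
      Low.R E (pt (Fin.snoc s z : Fin (m + 1) → ℂ)) + n ≤ Low.R E (pt a) + (m + 1) := by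
    intro y hy
    have h1 : Low.R E (pt (Fin.snoc s z : Fin (m + 1) → ℂ)) ≤
        Low.R E (Sum.elim (pt s) (fun _ : Unit => y)) := by
      apply Low.R_mono
      intro D hD
      have hk := kills_Fs (E := E) (s := s) (D := D.restrictScalars ℚ)
        (fun w hw => D.map_algebraMap (⟨w, hw⟩ : E)) (fun i => hD (Sum.inl i))
      obtain ⟨hz1, hz2⟩ := hy (D.restrictScalars ℚ) hk (hD (Sum.inr ()))
      rintro (i | i)
      · refine Fin.lastCases ?_ (fun j => ?_) i
        · change D ((Fin.snoc s z : Fin (m + 1) → ℂ) (Fin.last m)) = 0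
          rw [Fin.snoc_last]
          exact hz1
        · change D ((Fin.snoc s z : Fin (m + 1) → ℂ) j.castSucc) = 0
          rw [Fin.snoc_castSucc]
          exact hD (Sum.inl (Sum.inl j))
      · refine Fin.lastCases ?_ (fun j => ?_) i
        · change D (Complex.exp ((Fin.snoc s z : Fin (m + 1) → ℂ) (Fin.last m))) = 0
          rw [Fin.snoc_last]
          exact hz2
        · change D (Complex.exp ((Fin.snoc s z : Fin (m + 1) → ℂ) j.castSucc)) = 0
          rw [Fin.snoc_castSucc]
          exact hD (Sum.inl (Sum.inr j))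
    have h2 := Low.R_sum E (pt s) (fun _ : Unit => y)
    have h3 := hs.le
    have h4 : Fintype.card Unit = 1 := rfl
    omega
  rcases dep_cases cl_Fs hdep with h | h
  · exact hgen (Complex.exp z) (fun D hD hDy => ⟨hD _ h, hDy⟩)
  · exact hgen z (fun D hD hDy => ⟨hDy, h D hD hDy⟩)

theorem Tight.map (hs : Tight E a s) {σ : ℂ ≃+* ℂ} (hσ : Fix E σ)
    (hst : ∀ i, σ (pt s i) = pt s' i) (haa : ∀ j, σ (a j) = a' j)
    (hR : Low.R E (pt a') = Low.R E (pt a)) : Tight E a' s' := by
  refine ⟨fun q hq => hs.ind q ?_, ?_, fun j => ?_⟩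
  · have h1 := hσ.symm _ hq
    rw [← sig_cb hst, RingEquiv.symm_apply_apply] at h1
    rw [h1, sig_cb hst]
    exact hq
  · have h1 : pt s' = fun i => σ (pt s i) := funext fun i => (hst i).symm
    rw [h1, R_map hσ, hR]
    exact hs.le
  · obtain ⟨q, hq⟩ := hs.mem j
    refine ⟨q, ?_⟩
    rw [← haa, ← sig_cb hst, ← map_sub, hσ _ hq]
    exact hq

open Pool.Agent.Helper78.EC.Zeros in
/-- **Zeros outside of the rational space, or infinitely many zeros in a translate of `E`.** -/
theorem zero_or (hE : HC E) (hs : Ind E s) {F : IntermediateField ℚ ℂ}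
    {p : MvPolynomial (Fin 2) F} (hp : Irreducible p) (h0 : 0 < p.degreeOf 0)
    (h1 : 0 < p.degreeOf 1) :
    (∃ z, aeval ![z, Complex.exp z] p = 0 ∧ ∀ q, z - cb s q ∉ E) ∨
    ∃ q, {c : ℂ | c ∈ E ∧
      aeval ![cb s q + c, Complex.exp (cb s q) * Complex.exp c] p = 0}.Infinite := by
  classical
  by_contra hcon
  push Not at hcon
  obtain ⟨hc1, hc2⟩ := hcon
  have hinf := infinite_zeros hp h0 h1
  obtain ⟨u, hu, v, hv, huv⟩ := two_powers hp h0 h1
  set j₀ : ℤ := ((u 1 : ℕ) : ℤ) with hj₀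
  have hQ : Qc p j₀ ≠ 0 := Qc_ne_zero hu
  have hT := finite_directions (E := E) (fun z hz => hE.log_mem hz) (fun x hx => hE.cl x hx)
    (fun z hz => hE.exp_mem z hz) s hs (p.support.image fun s => ((s 1 : ℕ) : ℤ)) (Qc p) j₀
    (Finset.mem_image_of_mem _ hu)
  apply hinf
  refine (((Qc p j₀).roots.toFinset.finite_toSet).union (hT.biUnion (t := fun q =>
    (fun c => cb s q + c) '' {c : ℂ | c ∈ E ∧
      aeval ![cb s q + c, Complex.exp (cb s q) * Complex.exp c] p = 0})
      (fun q _ => (hc2 q).image _))).subset ?_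
  intro z hz
  by_cases hr : (Qc p j₀).eval z = 0
  · left
    rw [Finset.mem_coe, Multiset.mem_toFinset, Polynomial.mem_roots hQ]
    exact hr
  · right
    obtain ⟨q, hq⟩ := hc1 z hz
    have h2 : cb s q + (z - cb s q) = z := by ring
    refine Set.mem_biUnion (x := q) ⟨z - cb s q, hq, ?_, ?_⟩ ⟨z - cb s q, ⟨hq, ?_⟩, h2⟩
    · rw [h2, Psi_eq]
      exact hz
    · rw [h2]
      exact hr
    · rw [← Complex.exp_add, h2]
      exact hz

theorem root (hE : Cl E) {σ : ℂ ≃+* ℂ} (hst : ∀ i, σ (pt s i) = pt s' i) (q : Fin m → ℚ) :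
    ∃ ζ ∈ E, ζ ≠ 0 ∧ σ (Complex.exp (cb s q)) = ζ * Complex.exp (cb s' q) := by
  obtain ⟨N, k, hN, hk⟩ := exists_den q
  have h1 : (σ (Complex.exp (cb s q))) ^ N = (Complex.exp (cb s' q)) ^ N := by
    rw [← map_pow, ← Complex.exp_nat_mul, ← Complex.exp_nat_mul]
    have h2 : ∀ r : Fin m → ℂ, (N : ℂ) * cb r q = cb r (fun i => (k i : ℚ)) := by
      intro r
      rw [← hk, cb_smul]
      push_cast
      rfl
    rw [h2, h2, sig_exp hst]
  refine ⟨σ (Complex.exp (cb s q)) / Complex.exp (cb s' q), ?_, ?_, ?_⟩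
  · apply hE
    apply IsAlgebraic.of_pow hN
    rw [div_pow, h1, div_self (pow_ne_zero _ (Complex.exp_ne_zero _))]
    exact isAlgebraic_one
  · refine div_ne_zero ?_ (Complex.exp_ne_zero _)
    rw [Ne, map_eq_zero_iff σ σ.injective]
    exact Complex.exp_ne_zero _
  · rw [div_mul_cancel₀ _ (Complex.exp_ne_zero _)]

/-- **The image of a pair.** -/
theorem image_pair (hc : Countable E) (hE : HC E) (ha' : SS E a') (hs' : Tight E a' s')
    {σ : ℂ ≃+* ℂ} (hσ : Fix E σ) (hst : ∀ i, σ (pt s i) = pt s' i) {z : ℂ}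
    (hz : ∀ q, z - cb s q ∉ E) (hzF : ¬ (z ∈ Fs E s ∧ Complex.exp z ∈ Fs E s)) :
    ∃ (z' : ℂ) (ρ : ℂ ≃+* ℂ), Fix (Fs E s') ρ ∧ ρ (σ z) = z' ∧
      ρ (σ (Complex.exp z)) = Complex.exp z' := by
  classical
  have hcF : Countable (Fs E s') := countable_Fs hc
  set F := Fs E s' with hFdef
  have hclF : Cl F := cl_Fs
  set x := σ z with hx
  set y := σ (Complex.exp z) with hy
  have hy0 : y ≠ 0 := by
    rw [hy, Ne, map_eq_zero_iff σ σ.injective]
    exact Complex.exp_ne_zero z
  have hxy : ¬ (x ∈ F ∧ y ∈ F) := fun h => hzF ⟨inv_mem_Fs hσ hst h.1, inv_mem_Fs hσ hst h.2⟩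
  by_cases hai : AlgebraicIndependent F ![x, y]
  · obtain ⟨z', hz'⟩ : ∃ z', z' ∉ ecl F := by
      by_contra hcon
      push Not at hcon
      have h1 : ((ecl F : IntermediateField ℚ ℂ) : Set ℂ) = Set.univ := by
        rw [Set.eq_univ_iff_forall]
        exact hcon
      have h2 : ((ecl F : IntermediateField ℚ ℂ) : Set ℂ).Countable :=
        Set.countable_coe_iff.1 (Closure.countable hcF)
      rw [h1] at h2
      exact not_countable_complex h2
    have hai' : AlgebraicIndependent F ![z', Complex.exp z'] := by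
      by_contra h
      exact hz' (mem_ecl_of_rel hclF h)
    obtain ⟨ρ, h1, h2⟩ := exists_aut hcF ![x, y] ![z', Complex.exp z'] (fun P => by
      constructor
      · intro h
        rw [(injective_iff_map_eq_zero _).1 hai P h, map_zero]
      · intro h
        rw [(injective_iff_map_eq_zero _).1 hai' P h, map_zero])
    exact ⟨z', ρ, h1, h2 0, h2 1⟩
  by_cases hyF : y ∈ F
  · have hxF : x ∉ F := fun h => hxy ⟨h, hyF⟩
    have hexp : Complex.exp (Complex.log y) = y := Complex.exp_log hy0
    have hlF : Complex.log y ∉ F := by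
      intro h
      obtain ⟨q, hq⟩ := closed ha' hs' h (by rw [hexp]; exact hyF)
      obtain ⟨ζ, hζ, hζ0, hζq⟩ := root hE.cl hst q
      apply hz q
      apply hE.log_mem
      have h1 : Complex.exp (z - cb s q) =
          ζ⁻¹ * Complex.exp (Complex.log y - cb s' q) := by
        apply σ.injective
        rw [Complex.exp_sub, Complex.exp_sub, hexp, map_div₀, hζq, map_mul, map_inv₀, hσ ζ hζ]
        have h2 := Complex.exp_ne_zero (cb s' q)
        have h3 : σ (y / Complex.exp (cb s' q)) = y / Complex.exp (cb s' q) := by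
          apply hσ
          rw [← hexp, ← Complex.exp_sub]
          exact hE.exp_mem _ hq
        rw [h3]
        field_simp
        rfl
      rw [h1]
      exact mul_mem (inv_mem hζ) (hE.exp_mem _ hq)
    obtain ⟨ρ, h1, h2⟩ := aut_of_tr hcF (x := x) (y := Complex.log y)
      (fun h => hxF (hclF _ h)) (fun h => hlF (hclF _ h))
    exact ⟨Complex.log y, ρ, h1, h2, by rw [hexp]; exact h1 y hyF⟩
  by_cases hxF : x ∈ F
  · have heF : Complex.exp x ∉ F := by
      intro h
      obtain ⟨q, hq⟩ := closed ha' hs' hxF h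
      apply hz q
      have h1 : z - cb s q = x - cb s' q := by
        apply σ.injective
        rw [map_sub, sig_cb hst, hσ _ hq]
      rw [h1]
      exact hq
    obtain ⟨ρ, h1, h2⟩ := aut_of_tr hcF (x := y) (y := Complex.exp x)
      (fun h => hyF (hclF _ h)) (fun h => heF (hclF _ h))
    exact ⟨x, ρ, h1, h1 x hxF, h2⟩
  · have hxt : Transcendental F x := fun h => hxF (hclF _ h)
    have hyt : Transcendental F y := fun h => hyF (hclF _ h)
    rw [AlgebraicIndependent, injective_iff_map_eq_zero] at hai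
    push Not at hai
    obtain ⟨g, hg, hg0⟩ := hai
    obtain ⟨p, hp, hpx⟩ := exists_factor' hg0 hg
    have hd0 : 0 < p.degreeOf 0 :=
      degreeOf_pos (i := 0) (j := 1) hp.ne_zero hpx (by decide) hyt
    have hd1 : 0 < p.degreeOf 1 :=
      degreeOf_pos (i := 1) (j := 0) hp.ne_zero hpx (by decide) hxt
    have hmain : ∃ z', aeval ![z', Complex.exp z'] p = 0 ∧ ∀ q, z' - cb s' q ∉ E := by
      rcases zero_or hE hs'.ind hp hd0 hd1 with h | ⟨q, hq⟩
      · exact h
      · exfalso
        obtain ⟨ζ, hζ, hζ0, hζq⟩ := root hE.cl hst q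
        have hbF : Complex.exp (cb s' q) ∈ F := by
          have h1 : Complex.exp (cb s' q) = ζ⁻¹ * σ (Complex.exp (cb s q)) := by
            rw [hζq, ← mul_assoc, inv_mul_cancel₀ hζ0, one_mul]
          rw [h1]
          refine mul_mem (inv_mem (le_Fs hζ)) (map_mem_Fs hσ hst ?_)
          obtain ⟨N, k, hN, hk⟩ := exists_den q
          apply cl_Fs
          apply IsAlgebraic.of_pow hN
          rw [← Complex.exp_nat_mul]
          have h2 : (N : ℂ) * cb s q = cb s (fun i => (k i : ℚ)) := by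
            rw [← hk, cb_smul]
            push_cast
            rfl
          rw [h2]
          have h3 : Complex.exp (cb s (fun i => (k i : ℚ))) ∈ Fs E s := by
            unfold cb
            rw [Complex.exp_sum]
            apply prod_mem
            intro i _
            have h4 : Complex.exp ((((k i : ℤ) : ℚ) : ℂ) * s i) = Complex.exp (s i) ^ (k i) := by
              rw [← Complex.exp_int_mul]
              congr 2
            rw [h4]
            exact zpow_mem (pt_mem (s := s) (Sum.inr i)) _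
          exact isAlgebraic_algebraMap (⟨_, h3⟩ : Fs E s)
        obtain ⟨g, hg, hgz⟩ := caseI (E := E) (F := F) le_Fs (fun c hc => hE.exp_mem c hc)
          (cb_mem q) hbF (Complex.exp_ne_zero _) hp hq
        have h1 := hgz x y hpx
        have h2 : aeval ![z - cb s q, ζ * Complex.exp (z - cb s q)] g = 0 := by
          apply σ.injective
          rw [map_aeval' hσ, map_zero, ← h1]
          congr 2
          funext i
          fin_cases i
          · change σ (z - cb s q) = x - cb s' q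
            rw [map_sub, sig_cb hst]
          · change σ (ζ * Complex.exp (z - cb s q)) = (Complex.exp (cb s' q))⁻¹ * y
            rw [Complex.exp_sub, map_mul, map_div₀, hζq, hσ ζ hζ]
            have h3 := Complex.exp_ne_zero (cb s' q)
            field_simp
            rfl
        apply hz q
        have h3 : z - cb s q ∈ E := by
          apply hE.rel_mem
          intro hai
          have h4 : AlgebraicIndependent E ![z - cb s q, ζ * Complex.exp (z - cb s q)] := by
            apply algInd_of_der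
            intro v
            obtain ⟨D, hD1, hD2⟩ := exists_der hai ![v 0, ζ⁻¹ * v 1]
            refine ⟨D, hD1, fun i => ?_⟩
            fin_cases i
            · exact hD2 0
            · change D (ζ * Complex.exp (z - cb s q)) = v 1
              have h5 : D (Complex.exp (z - cb s q)) = ζ⁻¹ * v 1 := hD2 1
              rw [Derivation.leibniz, h5, hD1 ζ hζ, smul_zero, add_zero, smul_eq_mul, ← mul_assoc,
                mul_inv_cancel₀ hζ0, one_mul]
          exact hg ((injective_iff_map_eq_zero _).1 h4 g h2)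
        exact h3
    obtain ⟨z', hz'p, hz'⟩ := hmain
    have htr : ∃ i, Transcendental F (![z', Complex.exp z'] i) := by
      by_contra hcon
      push Not at hcon
      have h1 : z' ∈ F := hclF _ (by
        have := hcon 0
        unfold Transcendental at this
        push Not at this
        exact this)
      have h2 : Complex.exp z' ∈ F := hclF _ (by
        have := hcon 1
        unfold Transcendental at this
        push Not at this
        exact this)
      obtain ⟨q, hq⟩ := closed ha' hs' h1 h2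
      exact hz' q hq
    obtain ⟨ρ, h1, h2⟩ := exists_aut hcF ![x, y] ![z', Complex.exp z'] (fun P => by
      constructor
      · intro h
        obtain ⟨r, rfl⟩ := irr_dvd2 (x := ![x, y]) ⟨0, hxt⟩ hp hpx h
        rw [map_mul, hz'p, zero_mul]
      · intro h
        obtain ⟨r, rfl⟩ := irr_dvd2 htr hp hz'p h
        rw [map_mul, hpx, zero_mul])
    exact ⟨z', ρ, h1, h2 0, h2 1⟩

/-- **The step.** -/
theorem step (hc : Countable E) (hE : HC E) (ha : SS E a) (ha' : SS E a') (hs : Tight E a s)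
    (hR : Low.R E (pt a') = Low.R E (pt a))
    {σ : ℂ ≃+* ℂ} (hσ : Fix E σ) (hst : ∀ i, σ (Complex.exp (s i)) = Complex.exp (σ (s i)))
    (haa : ∀ j, σ (a j) = a' j) {z : ℂ} (hz : ∀ q, z - cb s q ∉ E) :
    ∃ τ : ℂ ≃+* ℂ, (∀ w ∈ Fs E s, τ w = σ w) ∧ τ (Complex.exp z) = Complex.exp (τ z) := by
  have hst' : ∀ i, σ (pt s i) = pt (fun i => σ (s i)) i := by
    rintro (i | i)
    · rfl
    · exact hst i
  have hs' : Tight E a' (fun i => σ (s i)) := hs.map hσ hst' haa hR
  obtain ⟨z', ρ, h1, h2, h3⟩ := image_pair hc hE ha' hs' hσ hst' hz (fun h => by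
    obtain ⟨q, hq⟩ := closed ha hs h.1 h.2
    exact hz q hq)
  refine ⟨σ.trans ρ, fun w hw => ?_, ?_⟩
  · change ρ (σ w) = σ w
    exact h1 _ (map_mem_Fs hσ hst' hw)
  · change ρ (σ (Complex.exp z)) = Complex.exp (ρ (σ z))
    rw [h3, h2]

end Pool.Agent.Helper78.EC.Qn
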