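import Mathlib
import Pool.Agent.Helper78.EC.QmT
import Pool.Agent.Helper78.EC.QnF

/-!
# Compatible roots: the automorphisms which respect all rational multiples
-/

set_option autoImplicit false

namespace Pool.Agent.Helper78.EC.Qn

open Set Module Cardinal
open Pool.Agent.Helper78.SC Pool.Agent.Helper78.SC.Ax Pool.Agent.Helper78.SC.Cov
open Pool.Agent.Helper78.EC.Closure Pool.Agent.Helper78.EC.Generic Pool.Agent.Helper78.EC.Use
open Pool.Agent.Helper78.EC.Qm (Fix Cl Fs cb cb_add cb_sub cb_smul cb_zero cb_mem M0 exp_int_mem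
  exists_aut' exists_move exists_den pre sig_cb sig_exp bounded le_Fs pt_mem cl_Fs
  Fs_le adj_le_Fs alg_of_range map_mem_Fs cb_snoc)

variable {E : IntermediateField ℚ ℂ} {m : ℕ} {s s' : Fin m → ℂ}

theorem E_le_M0 : E ≤ M0 E s := fun _ hw =>
  IntermediateField.subset_adjoin ℚ _ (Or.inl hw)

theorem pt_mem_M0 (i : Fin m ⊕ Fin m) : pt s i ∈ M0 E s :=
  IntermediateField.subset_adjoin ℚ _ (Or.inr ⟨i, rfl⟩)

theorem countable_M0 (hE : Countable E) : Countable (M0 E s) := by
  have h0 : Countable ((E : Set ℂ) ∪ range (pt s) : Set ℂ) :=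
    ((Set.countable_coe_iff.1 hE).union (countable_range _)).to_subtype
  rw [← mk_le_aleph0_iff]
  refine (IntermediateField.cardinalMk_adjoin_le ℚ _).trans ?_
  exact max_le (max_le mk_le_aleph0 mk_le_aleph0) le_rfl

theorem map_M0 {σ : ℂ ≃+* ℂ} (hσ : Fix E σ) (hst : ∀ i, σ (pt s i) = pt s' i) {w : ℂ}
    (hw : w ∈ M0 E s) : σ w ∈ M0 E s' := by
  have h1 : M0 E s ≤ pre σ (M0 E s') := by
    unfold M0
    rw [IntermediateField.adjoin_le_iff]
    rintro w (hw | ⟨i, rfl⟩)
    · have h : σ w ∈ M0 E s' := by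
        rw [hσ w hw]
        exact E_le_M0 hw
      exact h
    · have h : σ (pt s i) ∈ M0 E s' := by
        rw [hst]
        exact pt_mem_M0 i
      exact h
  exact h1 hw

/-- abbreviation for the exponential of a rational combination -/
noncomputable def ex (s : Fin m → ℂ) (q : Fin m → ℚ) : ℂ := Complex.exp (cb s q)

theorem ex_ne (s : Fin m → ℂ) (q : Fin m → ℚ) : ex s q ≠ 0 := Complex.exp_ne_zero _

theorem ex_add (s : Fin m → ℂ) (q r : Fin m → ℚ) : ex s (q + r) = ex s q * ex s r := by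
  unfold ex
  rw [cb_add, Complex.exp_add]

theorem ex_sub (s : Fin m → ℂ) (q r : Fin m → ℚ) : ex s (q - r) = ex s q / ex s r := by
  unfold ex
  rw [cb_sub, Complex.exp_sub]

theorem ex_alg (q : Fin m → ℚ) : IsAlgebraic (M0 E s) (ex s q) := by
  obtain ⟨N, k, hN, hk⟩ := exists_den q
  apply IsAlgebraic.of_pow hN
  unfold ex
  rw [← Complex.exp_nat_mul]
  have h2 : (N : ℂ) * cb s q = cb s (fun i => (k i : ℚ)) := by
    rw [← hk, cb_smul]
    push_cast
    rfl
  rw [h2]
  exact isAlgebraic_algebraMap (⟨_, exp_int_mem (E := E) k⟩ : M0 E s)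

/-- **The relations between the exponentials of rational combinations.** -/
theorem transfer_sum (hc : Countable E) (hE : Cl E) {σ : ℂ ≃+* ℂ} (hσ : Fix E σ)
    (hex : ∀ q, ex s q ∈ M0 E s → σ (ex s q) = ex s' q) (n : ℕ) :
    ∀ S : Finset (Fin m → ℚ), S.card = n → ∀ c : (Fin m → ℚ) → ℂ,
      (∀ q ∈ S, c q ∈ M0 E s) → ∑ q ∈ S, c q * ex s q = 0 →
        ∑ q ∈ S, σ (c q) * ex s' q = 0 := by
  classical
  induction n using Nat.strong_induction_on with
  | _ n ih =>
    intro S hS c hcS h0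
    by_cases hcase : ∀ q₁ ∈ S, ∀ q₂ ∈ S, ex s (q₁ - q₂) ∈ M0 E s
    · rcases S.eq_empty_or_nonempty with rfl | ⟨q₀, hq₀⟩
      · simp
      · have h1 : ∑ q ∈ S, c q * ex s (q - q₀) = 0 := by
          have h2 : ex s q₀ * ∑ q ∈ S, c q * ex s (q - q₀) = 0 := by
            rw [← h0, Finset.mul_sum]
            refine Finset.sum_congr rfl (fun q _ => ?_)
            rw [ex_sub]
            have := ex_ne s q₀
            field_simp
          exact (mul_eq_zero.1 h2).resolve_left (ex_ne s q₀)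
        have h2 : ∑ q ∈ S, σ (c q) * ex s' (q - q₀) = 0 := by
          have h3 := congrArg σ h1
          rw [map_sum, map_zero] at h3
          rw [← h3]
          refine Finset.sum_congr rfl (fun q hq => ?_)
          rw [map_mul, hex _ (hcase q hq q₀ hq₀)]
        have h3 : ∑ q ∈ S, σ (c q) * ex s' q = ex s' q₀ * ∑ q ∈ S, σ (c q) * ex s' (q - q₀) := by
          rw [Finset.mul_sum]
          refine Finset.sum_congr rfl (fun q _ => ?_)
          rw [ex_sub]
          have := ex_ne s' q₀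
          field_simp
        rw [h3, h2, mul_zero]
    · push Not at hcase
      obtain ⟨q₁, hq₁, q₂, hq₂, hx⟩ := hcase
      obtain ⟨ρ, hρ, hρx⟩ := exists_move (countable_M0 hc) hx (ex_alg _)
      have hρE : Fix E ρ := hρ.mono E_le_M0
      have hchi : ∀ q, ∃ ζ ∈ E, ρ (ex s q) = ζ * ex s q := by
        intro q
        obtain ⟨ζ, hζ, -, h⟩ := root (E := E) hE (σ := ρ) (s := s) (s' := s)
          (fun i => hρ _ (pt_mem_M0 i)) q
        exact ⟨ζ, hζ, h⟩
      choose χ hχ hχe using hchi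
      have hne : χ q₂ - χ q₁ ≠ 0 := by
        intro h
        apply hρx
        have h1 : χ q₂ = χ q₁ := sub_eq_zero.1 h
        have h2 : χ q₁ ≠ 0 := by
          intro h3
          have h4 := hχe q₁
          rw [h3, zero_mul, map_eq_zero_iff ρ ρ.injective] at h4
          exact ex_ne s q₁ h4
        rw [ex_sub, map_div₀, hχe, hχe, h1]
        have := ex_ne s q₂
        field_simp
      have hρ0 : ∑ q ∈ S, c q * (χ q * ex s q) = 0 := by
        have h1 := congrArg ρ h0
        rw [map_sum, map_zero] at h1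
        rw [← h1]
        refine Finset.sum_congr rfl (fun q hq => ?_)
        rw [map_mul, hχe, hρ _ (hcS q hq)]
      have hstep : ∀ p ∈ S, ∑ q ∈ S, σ ((χ q - χ p) * c q) * ex s' q = 0 := by
        intro p hp
        have h1 := ih (S.erase p).card (by
          rw [Finset.card_erase_of_mem hp, ← hS]
          have := Finset.card_pos.2 ⟨p, hp⟩
          omega) (S.erase p) rfl (fun q => (χ q - χ p) * c q) (fun q hq =>
            mul_mem (sub_mem (E_le_M0 (hχ q)) (E_le_M0 (hχ p))) (hcS q (Finset.mem_of_mem_erase hq)))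
          (by
            have h2 : ∑ q ∈ S, (χ q - χ p) * c q * ex s q = 0 := by
              have h3 : ∑ q ∈ S, (χ q - χ p) * c q * ex s q =
                  ∑ q ∈ S, c q * (χ q * ex s q) - χ p * ∑ q ∈ S, c q * ex s q := by
                rw [Finset.mul_sum, ← Finset.sum_sub_distrib]
                refine Finset.sum_congr rfl (fun q _ => ?_)
                ring
              rw [h3, hρ0, h0, mul_zero, sub_zero]
            rw [← Finset.add_sum_erase _ _ hp, sub_self, zero_mul, zero_mul, zero_add] at h2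
            exact h2)
        rw [← Finset.add_sum_erase _ _ hp, sub_self, zero_mul, map_zero, zero_mul, zero_add]
        exact h1
      have h1 := hstep q₁ hq₁
      have h2 := hstep q₂ hq₂
      have h3 : (χ q₂ - χ q₁) * ∑ q ∈ S, σ (c q) * ex s' q = 0 := by
        have h4 : (χ q₂ - χ q₁) * ∑ q ∈ S, σ (c q) * ex s' q =
            ∑ q ∈ S, σ ((χ q - χ q₁) * c q) * ex s' q -
              ∑ q ∈ S, σ ((χ q - χ q₂) * c q) * ex s' q := by
          rw [Finset.mul_sum, ← Finset.sum_sub_distrib]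
          refine Finset.sum_congr rfl (fun q _ => ?_)
          rw [map_mul, map_mul, hσ _ (sub_mem (hχ q) (hχ q₁)), hσ _ (sub_mem (hχ q) (hχ q₂))]
          ring
        rw [h4, h1, h2, sub_zero]
      exact (mul_eq_zero.1 h3).resolve_left hne

open AddMonoidAlgebra in
/-- the homomorphism from the group algebra -/
noncomputable def ghom (s s' : Fin m → ℂ) (σ : ℂ ≃+* ℂ) :
    AddMonoidAlgebra (M0 E s) (Fin m → ℚ) →+* ℂ :=
  AddMonoidAlgebra.liftNCRingHom (σ.toRingHom.comp (M0 E s).val.toRingHom)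
    { toFun := fun q => ex s' q.toAdd
      map_one' := by
        change ex s' 0 = 1
        unfold ex
        rw [cb_zero, Complex.exp_zero]
      map_mul' := fun q r => ex_add s' q.toAdd r.toAdd }
    (fun _ _ => Commute.all _ _)

theorem ghom_single (s s' : Fin m → ℂ) (σ : ℂ ≃+* ℂ) (q : Fin m → ℚ) (c : M0 E s) :
    ghom s s' σ (AddMonoidAlgebra.single q c) = σ (c : ℂ) * ex s' q := by
  unfold ghom
  rw [AddMonoidAlgebra.liftNCRingHom_single]
  rfl

theorem ghom_apply (s s' : Fin m → ℂ) (σ : ℂ ≃+* ℂ)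
    (r : AddMonoidAlgebra (M0 E s) (Fin m → ℚ)) :
    ghom s s' σ r = ∑ q ∈ r.coeff.support, σ ((r.coeff q : M0 E s) : ℂ) * ex s' q := by
  conv_lhs => rw [← AddMonoidAlgebra.sum_coeff_single r]
  rw [Finsupp.sum, map_sum]
  exact Finset.sum_congr rfl (fun q _ => ghom_single s s' σ q _)

/-- **The thumbtack lemma.** -/
theorem thumb (hc : Countable E) (hE : Cl E) {σ : ℂ ≃+* ℂ} (hσ : Fix E σ)
    (hst : ∀ i, σ (pt s i) = pt s' i)
    (hex : ∀ q, ex s q ∈ M0 E s → σ (ex s q) = ex s' q) :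
    ∃ τ : ℂ ≃+* ℂ, (∀ w ∈ M0 E s, τ w = σ w) ∧ ∀ q, τ (ex s q) = ex s' q := by
  classical
  have hcM : Countable (M0 E s) := countable_M0 hc
  have hcA : Countable (AddMonoidAlgebra (M0 E s) (Fin m → ℚ)) :=
    AddMonoidAlgebra.coeff_injective.countable
  have hst' : ∀ i, σ.symm (pt s' i) = pt s i := fun i => by
    rw [RingEquiv.symm_apply_eq, hst]
  have hex' : ∀ q, ex s' q ∈ M0 E s' → σ.symm (ex s' q) = ex s q := by
    intro q hq
    obtain ⟨ζ, hζ, hζ0, h⟩ := root (E := E) hE hst' q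
    have h1 := map_M0 hσ.symm hst' hq
    have h2 : ex s q ∈ M0 E s := by
      have h3 : ex s q = ζ⁻¹ * σ.symm (ex s' q) := by
        unfold ex
        rw [h, ← mul_assoc, inv_mul_cancel₀ hζ0, one_mul]
      rw [h3]
      exact mul_mem (inv_mem (E_le_M0 hζ)) h1
    rw [RingEquiv.symm_apply_eq, hex q h2]
  obtain ⟨τ, hτ⟩ := exists_aut' (ghom (E := E) s s (RingEquiv.refl ℂ)) (ghom (E := E) s s' σ)
    (fun r => by
      rw [ghom_apply, ghom_apply]
      constructor
      · intro h
        exact transfer_sum hc hE hσ hex _ r.coeff.support rfl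
          (fun q => ((r.coeff q : M0 E s) : ℂ)) (fun q _ => (r.coeff q).2) h
      · intro h
        have h1 := transfer_sum hc hE hσ.symm hex' _ r.coeff.support rfl
          (fun q => σ ((r.coeff q : M0 E s) : ℂ)) (fun q _ => map_M0 hσ hst (r.coeff q).2) h
        rw [← h1]
        refine Finset.sum_congr rfl (fun q _ => ?_)
        rw [RingEquiv.symm_apply_apply]
        rfl)
  refine ⟨τ, fun w hw => ?_, fun q => ?_⟩
  · have h1 := hτ (AddMonoidAlgebra.single 0 (⟨w, hw⟩ : M0 E s))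
    rw [ghom_single, ghom_single] at h1
    have h2 : ∀ r : Fin m → ℂ, ex r 0 = 1 := fun r => by
      unfold ex
      rw [cb_zero, Complex.exp_zero]
    rw [h2, h2, mul_one, mul_one] at h1
    exact h1
  · have h1 := hτ (AddMonoidAlgebra.single q (1 : M0 E s))
    rw [ghom_single, ghom_single] at h1
    change τ ((1 : ℂ) * ex s q) = σ (1 : ℂ) * ex s' q at h1
    rw [map_one, one_mul, one_mul] at h1
    exact h1

/-- respects all rational multiples -/
def Full (σ : ℂ ≃+* ℂ) (s : Fin m → ℂ) : Prop :=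
  ∀ q, σ (Complex.exp (cb s q)) = Complex.exp (σ (cb s q))

theorem cb_div (s : Fin m → ℂ) {N : ℕ} (hN : 0 < N) {q : Fin m → ℚ} {k : Fin m → ℤ}
    (hk : (N : ℚ) • q = fun i => (k i : ℚ)) :
    cb s q = cb (fun i => s i / N) (fun i => (k i : ℚ)) := by
  have hNC : (N : ℂ) ≠ 0 := by exact_mod_cast hN.ne'
  apply mul_left_cancel₀ hNC
  have h1 : (N : ℂ) * cb s q = cb s (fun i => (k i : ℚ)) := by
    rw [← hk, cb_smul]
    push_cast
    rfl
  rw [h1]
  unfold cb
  rw [Finset.mul_sum]
  refine Finset.sum_congr rfl (fun i _ => ?_)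
  field_simp

/-- **The finite level.** -/
theorem exists_level (hc : Countable E) (hE : HC E) (hs : Ind E s) :
    ∃ N : ℕ, 0 < N ∧ ∀ σ : ℂ ≃+* ℂ, Fix E σ →
      (∀ i, σ (Complex.exp (s i / N)) = Complex.exp (σ (s i) / N)) →
        ∃ τ : ℂ ≃+* ℂ, Fix E τ ∧ (∀ i, τ (s i) = σ (s i)) ∧ Full τ s := by
  obtain ⟨N, hN, hb⟩ := bounded hE.cl (fun z hz => hE.log_mem hz) hs
  have hNC : (N : ℂ) ≠ 0 := by exact_mod_cast hN.ne'
  refine ⟨N, hN, fun σ hσ hσN => ?_⟩
  have h1 : ∀ i, σ (pt (fun i => s i / N) i) = pt (fun i => σ (s i) / N) i := by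
    rintro (i | i)
    · change σ (s i / N) = σ (s i) / N
      rw [map_div₀, map_natCast]
    · exact hσN i
  have h2 : ∀ i, σ (pt s i) = pt (fun i => σ (s i)) i := by
    rintro (i | i)
    · rfl
    · change σ (Complex.exp (s i)) = Complex.exp (σ (s i))
      have h3 : ∀ x : ℂ, Complex.exp x = Complex.exp (x / N) ^ N := by
        intro x
        rw [← Complex.exp_nat_mul, mul_div_cancel₀ x hNC]
      rw [h3 (s i), map_pow, hσN i, ← h3]
  obtain ⟨τ, hτ1, hτ2⟩ := thumb (s := s) (s' := fun i => σ (s i)) hc hE.cl hσ h2 (fun q hq => by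
    obtain ⟨k, hk⟩ := hb q hq
    unfold ex
    rw [cb_div s hN hk, sig_exp h1, ← cb_div (fun i => σ (s i)) hN hk])
  have hτs : ∀ i, τ (s i) = σ (s i) := fun i => hτ1 _ (pt_mem_M0 (Sum.inl i))
  refine ⟨τ, fun w hw => by rw [hτ1 w (E_le_M0 hw), hσ w hw], hτs, fun q => ?_⟩
  have h3 : τ (cb s q) = cb (fun i => σ (s i)) q := by
    unfold cb
    rw [map_sum]
    refine Finset.sum_congr rfl (fun i _ => ?_)
    rw [map_mul, map_ratCast, hτs]
  rw [h3]
  exact hτ2 q

end Pool.Agent.Helper78.EC.Qn
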