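import Mathlib
import Pool.Agent.Helper78.EC.QnT
import Pool.Agent.Helper78.EC.QmB

/-!
# Back and forth over self-sufficient tuples
-/

set_option autoImplicit false

namespace Pool.Agent.Helper78.EC.Qn

open Set Module Cardinal
open Pool.Agent.Helper78.SC Pool.Agent.Helper78.SC.Ax Pool.Agent.Helper78.SC.Cov
open Pool.Agent.Helper78.EC.Closure Pool.Agent.Helper78.EC.Generic Pool.Agent.Helper78.EC.Use
open Pool.Agent.Helper78.EC.Qm (Fix Cl Fs cb cb_add cb_sub cb_smul cb_zero cb_mem M0 exp_int_mem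
  exists_aut' exists_move exists_den pre sig_cb sig_exp bounded le_Fs pt_mem cl_Fs R_map
  Fs_le adj_le_Fs alg_of_range map_mem_Fs cb_snoc dep_map)

/-- the smallest such field which contains a set -/
noncomputable def hull (A : Set ℂ) : IntermediateField ℚ ℂ := sInf {G | HC G ∧ A ⊆ G}

theorem hull_le {A : Set ℂ} {G : IntermediateField ℚ ℂ} (hG : HC G) (hA : A ⊆ G) : hull A ≤ G :=
  sInf_le ⟨hG, hA⟩

theorem subset_hull (A : Set ℂ) : A ⊆ hull A := by
  intro x hx
  change x ∈ sInf {G | HC G ∧ A ⊆ G}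
  rw [IntermediateField.mem_sInf]
  exact fun G hG => hG.2 hx

theorem hc_hull (A : Set ℂ) : HC (hull A) := by
  constructor
  · intro z hz
    change Complex.exp z ∈ sInf {G | HC G ∧ A ⊆ G}
    rw [IntermediateField.mem_sInf]
    exact fun G hG => hG.1.exp_mem z (hull_le hG.1 hG.2 hz)
  · intro z hz
    change z ∈ sInf {G | HC G ∧ A ⊆ G}
    rw [IntermediateField.mem_sInf]
    exact fun G hG => hG.1.rel_mem z (fun h => hz (algInd_mono (hull_le hG.1 hG.2) h))

theorem Fs_le_hull {G : IntermediateField ℚ ℂ} (hG : HC G) {E : IntermediateField ℚ ℂ} {m : ℕ}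
    {s : Fin m → ℂ} (hE : E ≤ G) (hs : ∀ i, s i ∈ G) : Fs E s ≤ G := by
  apply Fs_le hG.cl hE
  rintro (i | i)
  · exact hs i
  · exact hG.exp_mem _ (hs i)

variable {E : IntermediateField ℚ ℂ} {n : ℕ} {a a' : Fin n → ℂ}

/-- partial isomorphisms -/
structure PI (E : IntermediateField ℚ ℂ) {n : ℕ} (a a' : Fin n → ℂ) where
  m : ℕ
  s : Fin m → ℂ
  σ : ℂ ≃+* ℂ
  fix : Fix E σ
  tight : Tight E a s
  full : Full σ s
  st : ∀ j, σ (a j) = a' j
  req : Low.R E (pt a') = Low.R E (pt a)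
  mem : ∀ i, s i ∈ hull ((E : Set ℂ) ∪ range a)
  mem' : ∀ i, σ (s i) ∈ hull ((E : Set ℂ) ∪ range a')

instance : Preorder (PI E a a') where
  le p p' := ∀ x ∈ LL E p.s, x ∈ LL E p'.s ∧ p'.σ x = p.σ x
  le_refl p := fun _ hx => ⟨hx, rfl⟩
  le_trans p p' p'' h h' := fun x hx =>
    ⟨(h' x (h x hx).1).1, (h' x (h x hx).1).2.trans (h x hx).2⟩

theorem PI.hst (p : PI E a a') : ∀ i, p.σ (pt p.s i) = pt (fun i => p.σ (p.s i)) i := by
  rintro (i | i)
  · rfl
  · have h := p.full (Pi.single i 1)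
    have h1 : cb p.s (Pi.single i 1) = p.s i := by
      unfold cb
      rw [Finset.sum_eq_single i]
      · rw [Pi.single_eq_same, Rat.cast_one, one_mul]
      · intro j _ hj
        rw [Pi.single_eq_of_ne hj, Rat.cast_zero, zero_mul]
      · intro h
        exact absurd (Finset.mem_univ i) h
    rw [h1] at h
    exact h

theorem PI.exp_LL (hE : HC E) (p : PI E a a') {x : ℂ} (hx : x ∈ LL E p.s) :
    p.σ (Complex.exp x) = Complex.exp (p.σ x) := by
  obtain ⟨q, hq⟩ := hx
  have h1 : x = cb p.s q + (x - cb p.s q) := by ring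
  rw [h1, Complex.exp_add, map_mul, p.full, map_add, Complex.exp_add, p.fix _ (hE.exp_mem _ hq),
    p.fix _ hq]

theorem PI.map_LL (p : PI E a a') {x : ℂ} (hx : x ∈ LL E p.s) :
    p.σ x ∈ LL E (fun i => p.σ (p.s i)) := by
  obtain ⟨q, hq⟩ := hx
  refine ⟨q, ?_⟩
  rw [← sig_cb p.hst, ← map_sub, p.fix _ hq]
  exact hq

theorem PI.mem_hull (p : PI E a a') {x : ℂ} (hx : x ∈ LL E p.s) :
    x ∈ hull ((E : Set ℂ) ∪ range a) :=
  Fs_le_hull (hc_hull _) (fun _ hw => subset_hull _ (Or.inl hw)) p.mem (LL_Fs hx)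

theorem PI.mem_hull' (p : PI E a a') {x : ℂ} (hx : x ∈ LL E p.s) :
    p.σ x ∈ hull ((E : Set ℂ) ∪ range a') :=
  Fs_le_hull (hc_hull _) (fun _ hw => subset_hull _ (Or.inl hw)) p.mem' (LL_Fs (p.map_LL hx))

/-- the inverse partial isomorphism -/
noncomputable def PI.inv (p : PI E a a') : PI E a' a where
  m := p.m
  s := fun i => p.σ (p.s i)
  σ := p.σ.symm
  fix := p.fix.symm
  tight := p.tight.map p.fix p.hst p.st p.req
  full := fun q => by
    rw [← sig_cb p.hst, ← p.full, RingEquiv.symm_apply_apply, RingEquiv.symm_apply_apply]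
  st := fun j => by rw [RingEquiv.symm_apply_eq, p.st]
  req := p.req.symm
  mem := p.mem'
  mem' := fun i => by
    rw [RingEquiv.symm_apply_apply]
    exact p.mem i

theorem Tight.div {m : ℕ} {s : Fin m → ℂ} (hs : Tight E a s) {N : ℕ} (hN : 0 < N) :
    Tight E a (fun i => s i / N) := by
  have hNC : (N : ℂ) ≠ 0 := by exact_mod_cast hN.ne'
  have hNQ : (N : ℚ) ≠ 0 := by exact_mod_cast hN.ne'
  have hcb : ∀ q, cb (fun i => s i / (N : ℂ)) q = cb s ((N : ℚ)⁻¹ • q) := by
    intro q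
    rw [cb_smul]
    unfold cb
    rw [Finset.mul_sum]
    refine Finset.sum_congr rfl (fun i _ => ?_)
    push_cast
    field_simp
  have hexp : ∀ i, Complex.exp (s i) = Complex.exp (s i / N) ^ N := by
    intro i
    rw [← Complex.exp_nat_mul, mul_div_cancel₀ _ hNC]
  have hpt : ∀ i, pt s i ∈ Fs E (fun i => s i / (N : ℂ)) := by
    rintro (i | i)
    · change s i ∈ _
      have h1 : s i = (N : ℂ) * (s i / N) := by field_simp
      rw [h1]
      exact mul_mem (natCast_mem _ N) (pt_mem (s := fun i => s i / (N : ℂ)) (Sum.inl i))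
    · change Complex.exp (s i) ∈ _
      rw [hexp]
      exact pow_mem (pt_mem (s := fun i => s i / (N : ℂ)) (Sum.inr i)) N
  refine ⟨fun q hq => ?_, ?_, fun j => ?_⟩
  · rw [hcb] at hq
    have h1 := hs.ind _ hq
    exact (smul_eq_zero.1 h1).resolve_left (inv_ne_zero hNQ)
  · refine le_trans (Nat.add_le_add_right (Low.R_mono _ _ _ ?_) n) hs.le
    intro D hD
    rintro (i | i)
    · change D (s i / N) = 0
      have h1 : D (s i) = 0 := hD (Sum.inl i)
      have h2 : (N : ℂ) * D (s i / N) = 0 := by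
        rw [← nsmul_eq_mul, ← map_nsmul, nsmul_eq_mul, mul_div_cancel₀ _ hNC, h1]
      exact (mul_eq_zero.1 h2).resolve_left hNC
    · change D (Complex.exp (s i / N)) = 0
      have h1 : D (Complex.exp (s i)) = 0 := hD (Sum.inr i)
      rw [hexp, Derivation.leibniz_pow] at h1
      simp only [nsmul_eq_mul, smul_eq_mul] at h1
      have h2 : (N : ℂ) * Complex.exp (s i / N) ^ (N - 1) ≠ 0 :=
        mul_ne_zero hNC (pow_ne_zero _ (Complex.exp_ne_zero _))
      rw [← mul_assoc] at h1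
      exact (mul_eq_zero.1 h1).resolve_left h2
  · obtain ⟨q, hq⟩ := hs.mem j
    refine ⟨(N : ℚ) • q, ?_⟩
    rw [hcb, smul_smul, inv_mul_cancel₀ hNQ, one_smul]
    exact hq

/-- **Forth.** -/
theorem forth (hc : Countable E) (hE : HC E) (ha : SS E a) (ha' : SS E a') (p : PI E a a') {z : ℂ}
    (hz : ¬ AlgebraicIndependent (Fs E p.s) ![z, Complex.exp z]) :
    ∃ p' : PI E a a', p ≤ p' ∧ z ∈ LL E p'.s := by
  by_cases hzL : z ∈ LL E p.s
  · exact ⟨p, le_rfl, hzL⟩
  have hz' : ∀ q, z - cb p.s q ∉ E := fun q hq => hzL ⟨q, hq⟩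
  have htight := p.tight.snoc hz' hz
  obtain ⟨N, hN, hlev⟩ := exists_level hc hE htight.ind
  have hNC : (N : ℂ) ≠ 0 := by exact_mod_cast hN.ne'
  have hNQ : (N : ℚ) ≠ 0 := by exact_mod_cast hN.ne'
  have hsN : ∀ i, p.s i / (N : ℂ) ∈ LL E p.s := by
    intro i
    refine ⟨Pi.single i (N : ℚ)⁻¹, ?_⟩
    have h1 : cb p.s (Pi.single i (N : ℚ)⁻¹) = p.s i / N := by
      unfold cb
      rw [Finset.sum_eq_single i]
      · rw [Pi.single_eq_same]
        push_cast
        field_simp
      · intro j _ hj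
        rw [Pi.single_eq_of_ne hj, Rat.cast_zero, zero_mul]
      · intro h
        exact absurd (Finset.mem_univ i) h
    rw [h1, sub_self]
    exact zero_mem _
  obtain ⟨τ₁, h1, h2⟩ := step (s := fun i => p.s i / (N : ℂ)) (z := z / N) hc hE ha ha'
    (p.tight.div hN) p.req p.fix (fun i => p.exp_LL hE (hsN i)) p.st (fun q hq => by
      apply hz' q
      have h3 : z - cb p.s q = (N : ℂ) * (z / N - cb (fun i => p.s i / (N : ℂ)) q) := by
        unfold cb
        rw [mul_sub, mul_div_cancel₀ _ hNC, Finset.mul_sum]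
        congr 1
        refine Finset.sum_congr rfl (fun i _ => ?_)
        field_simp
      rw [h3]
      exact mul_mem (natCast_mem _ N) hq)
  have hFix : Fix E τ₁ := fun w hw => by rw [h1 w (le_Fs hw), p.fix w hw]
  have hτs : ∀ i, τ₁ (p.s i) = p.σ (p.s i) := by
    intro i
    apply h1
    have h3 : p.s i = (N : ℂ) * (p.s i / N) := by field_simp
    rw [h3]
    exact mul_mem (natCast_mem _ N) (pt_mem (s := fun i => p.s i / (N : ℂ)) (Sum.inl i))
  obtain ⟨τ, hτ1, hτ2, hτ3⟩ := hlev τ₁ hFix (fun i => by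
    refine Fin.lastCases ?_ (fun j => ?_) i
    · rw [Fin.snoc_last, h2, map_div₀, map_natCast]
    · have h4 := h1 _ (pt_mem (E := E) (s := fun i => p.s i / (N : ℂ)) (Sum.inr j))
      change τ₁ (Complex.exp (p.s j / (N : ℂ))) = p.σ (Complex.exp (p.s j / (N : ℂ))) at h4
      rw [Fin.snoc_castSucc, h4, p.exp_LL hE (hsN j), hτs, map_div₀, map_natCast])
  have hτs' : ∀ i, τ (p.s i) = p.σ (p.s i) := by
    intro i
    have h3 := hτ2 i.castSucc
    rw [Fin.snoc_castSucc] at h3
    rw [h3, hτs]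
  have hτL : ∀ x ∈ LL E p.s, τ x = p.σ x := by
    rintro x ⟨q, hq⟩
    have h3 : x = cb p.s q + (x - cb p.s q) := by ring
    rw [h3, map_add, map_add, hτ1 _ hq, p.fix _ hq]
    congr 1
    unfold cb
    rw [map_sum, map_sum]
    refine Finset.sum_congr rfl (fun i _ => ?_)
    rw [map_mul, map_mul, map_ratCast, map_ratCast, hτs']
  have hH := Fs_le_hull (hc_hull ((E : Set ℂ) ∪ range a))
    (fun _ hw => subset_hull _ (Or.inl hw)) p.mem
  have hH' := Fs_le_hull (hc_hull ((E : Set ℂ) ∪ range a'))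
    (fun _ hw => subset_hull _ (Or.inl hw)) p.mem'
  have hzH : z ∈ hull ((E : Set ℂ) ∪ range a) :=
    (hc_hull _).rel_mem z (fun h => hz (algInd_mono hH h))
  have hexpz : τ (Complex.exp z) = Complex.exp (τ z) := by
    have h3 := hτ3 (Fin.snoc 0 1)
    rw [cb_snoc] at h3
    have h4 : (fun i : Fin p.m => (Fin.snoc (0 : Fin p.m → ℚ) 1 : Fin (p.m + 1) → ℚ) i.castSucc) =
        0 := by
      funext i
      simp
    rw [h4, cb_zero] at h3
    simpa using h3
  have hpt : ∀ i, τ (pt p.s i) = pt (fun i => p.σ (p.s i)) i := by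
    intro i
    rw [← p.hst]
    rcases i with i | i
    · exact hτs' i
    · change τ (Complex.exp (p.s i)) = p.σ (Complex.exp (p.s i))
      have h3 := hτ3 (Fin.snoc (Pi.single i 1) 0)
      rw [cb_snoc] at h3
      have h4 : (fun j : Fin p.m => (Fin.snoc (Pi.single i 1 : Fin p.m → ℚ) 0 :
          Fin (p.m + 1) → ℚ) j.castSucc) = Pi.single i 1 := by
        funext j
        simp
      have h5 : cb p.s (Pi.single i 1) = p.s i := by
        unfold cb
        rw [Finset.sum_eq_single i]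
        · rw [Pi.single_eq_same, Rat.cast_one, one_mul]
        · intro j _ hj
          rw [Pi.single_eq_of_ne hj, Rat.cast_zero, zero_mul]
        · intro h
          exact absurd (Finset.mem_univ i) h
      rw [h4, h5] at h3
      simp only [Fin.snoc_last, Rat.cast_zero, zero_mul, add_zero] at h3
      rw [h3, hτs' i]
      exact (p.hst (Sum.inr i)).symm
  have hzH' : τ z ∈ hull ((E : Set ℂ) ∪ range a') := by
    apply (hc_hull _).rel_mem
    rw [← hexpz]
    intro h
    exact dep_map (σ := τ) (fun w hw => map_mem_Fs hτ1 hpt hw) hz (algInd_mono hH' h)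
  refine ⟨⟨p.m + 1, Fin.snoc p.s z, τ, hτ1, htight, hτ3, fun j => ?_, p.req, ?_, ?_⟩, fun x hx => ⟨LL_snoc hx, hτL x hx⟩, last_LL⟩
  · rw [hτL _ (p.tight.mem j), p.st]
  · intro i
    refine Fin.lastCases ?_ (fun j => ?_) i
    · rw [Fin.snoc_last]
      exact hzH
    · rw [Fin.snoc_castSucc]
      exact p.mem j
  · intro i
    refine Fin.lastCases ?_ (fun j => ?_) i
    · rw [Fin.snoc_last]
      exact hzH'
    · rw [Fin.snoc_castSucc, hτs']
      exact p.mem' j

theorem forth_Fs (hc : Countable E) (hE : HC E) (ha : SS E a) (ha' : SS E a') (p : PI E a a') {z : ℂ}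
    (hz : z ∈ Fs E p.s) : ∃ p' : PI E a a', p ≤ p' ∧ z ∈ LL E p'.s :=
  forth hc hE ha ha' p (not_algInd_left hz)

/-- reachable elements -/
def Reach (E : IntermediateField ℚ ℂ) {n : ℕ} (a a' : Fin n → ℂ) (z : ℂ) : Prop :=
  ∀ p : PI E a a', ∃ p' : PI E a a', p ≤ p' ∧ z ∈ LL E p'.s

theorem reach_finset (S : Finset ℂ) (hS : ∀ z ∈ S, Reach E a a' z) (p : PI E a a') :
    ∃ p' : PI E a a', p ≤ p' ∧ ∀ z ∈ S, z ∈ LL E p'.s := by
  classical
  induction S using Finset.induction_on with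
  | empty => exact ⟨p, le_rfl, by simp⟩
  | insert a S ha ih =>
    obtain ⟨p₁, h1, h2⟩ := ih (fun z hz => hS z (Finset.mem_insert_of_mem hz))
    obtain ⟨p₂, h3, h4⟩ := hS a (Finset.mem_insert_self _ _) p₁
    refine ⟨p₂, h1.trans h3, fun z hz => ?_⟩
    rcases Finset.mem_insert.1 hz with rfl | hz
    · exact h4
    · exact (h3 z (h2 z hz)).1

/-- the field of the reachable elements -/
noncomputable def RF (hc : Countable E) (hE : HC E) (ha : SS E a) (ha' : SS E a') :
    IntermediateField ℚ ℂ where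
  carrier := {z | Reach E a a' z}
  mul_mem' := fun {x y} hx hy p => by
    classical
    obtain ⟨p₁, h1, h2⟩ := reach_finset {x, y} (by
      intro z hz
      rcases Finset.mem_insert.1 hz with rfl | hz
      · exact hx
      · rw [Finset.mem_singleton.1 hz]
        exact hy) p
    obtain ⟨p₂, h3, h4⟩ := forth_Fs hc hE ha ha' p₁ (mul_mem (LL_Fs (h2 x (by simp)))
      (LL_Fs (h2 y (by simp))))
    exact ⟨p₂, h1.trans h3, h4⟩
  add_mem' := fun {x y} hx hy p => by
    classical
    obtain ⟨p₁, h1, h2⟩ := reach_finset {x, y} (by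
      intro z hz
      rcases Finset.mem_insert.1 hz with rfl | hz
      · exact hx
      · rw [Finset.mem_singleton.1 hz]
        exact hy) p
    obtain ⟨p₂, h3, h4⟩ := forth_Fs hc hE ha ha' p₁ (add_mem (LL_Fs (h2 x (by simp)))
      (LL_Fs (h2 y (by simp))))
    exact ⟨p₂, h1.trans h3, h4⟩
  algebraMap_mem' := fun r p => ⟨p, le_rfl, mem_LL (E.algebraMap_mem r)⟩
  inv_mem' := fun x hx p => by
    obtain ⟨p₁, h1, h2⟩ := hx p
    obtain ⟨p₂, h3, h4⟩ := forth_Fs hc hE ha ha' p₁ (inv_mem (LL_Fs h2))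
    exact ⟨p₂, h1.trans h3, h4⟩

theorem mem_RF {hc : Countable E} {hE : HC E} {ha : SS E a} {ha' : SS E a'} {z : ℂ} :
    z ∈ RF hc hE ha ha' ↔ Reach E a a' z := Iff.rfl

theorem hc_RF (hc : Countable E) (hE : HC E) (ha : SS E a) (ha' : SS E a') : HC (RF hc hE ha ha') := by
  classical
  constructor
  · intro z hz p
    obtain ⟨p₁, h1, h2⟩ := hz p
    have h5 : Complex.exp z ∈ Fs E p₁.s := by
      obtain ⟨q, hq⟩ := h2
      have h3 : z = cb p₁.s q + (z - cb p₁.s q) := by ring
      rw [h3, Complex.exp_add]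
      refine mul_mem ?_ (le_Fs (hE.exp_mem _ hq))
      have h4 : ex p₁.s q ∈ Fs E p₁.s := by
        apply cl_Fs
        exact alg_of_range (fun u hu => ⟨⟨u, adj_le_Fs hu⟩, rfl⟩) (ex_alg (E := E) (s := p₁.s) q)
      exact h4
    obtain ⟨p₂, h3, h4⟩ := forth_Fs hc hE ha ha' p₁ h5
    exact ⟨p₂, h1.trans h3, h4⟩
  · intro z hz p
    rw [AlgebraicIndependent, injective_iff_map_eq_zero] at hz
    push Not at hz
    obtain ⟨P, hP, hP0⟩ := hz
    obtain ⟨p₁, h1, h2⟩ := reach_finset (E := E) (a := a) (a' := a')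
      (P.support.image fun u => ((P.coeff u : RF hc hE ha ha') : ℂ)) (by
        intro w hw
        obtain ⟨u, -, rfl⟩ := Finset.mem_image.1 hw
        exact (P.coeff u).2) p
    have h3 : ¬ AlgebraicIndependent (Fs E p₁.s) ![z, Complex.exp z] := by
      intro hai
      have hco : ∀ u, ((P.coeff u : RF hc hE ha ha') : ℂ) ∈ Fs E p₁.s := by
        intro u
        by_cases hu : u ∈ P.support
        · exact LL_Fs (h2 _ (Finset.mem_image_of_mem _ hu))
        · rw [MvPolynomial.notMem_support_iff.1 hu]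
          exact zero_mem _
      let Q : MvPolynomial (Fin 2) (Fs E p₁.s) :=
        ∑ u ∈ P.support, MvPolynomial.monomial u ⟨_, hco u⟩
      have hQ : MvPolynomial.aeval ![z, Complex.exp z] Q = 0 := by
        rw [← hP, MvPolynomial.aeval_def _ P, MvPolynomial.eval₂_eq', map_sum]
        refine Finset.sum_congr rfl (fun u _ => ?_)
        rw [MvPolynomial.aeval_monomial, Finsupp.prod_fintype _ _ (fun i => pow_zero _)]
        rfl
      have hQ0 := (injective_iff_map_eq_zero _).1 hai Q hQ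
      apply hP0
      ext u
      by_cases hu : u ∈ P.support
      · have h4 := congrArg (MvPolynomial.coeff u) hQ0
        rw [MvPolynomial.coeff_sum, Finset.sum_eq_single u, MvPolynomial.coeff_monomial, if_pos rfl,
          MvPolynomial.coeff_zero] at h4
        · rw [MvPolynomial.coeff_zero]
          have h5 := congrArg Subtype.val h4
          exact h5
        · intro b _ hb
          rw [MvPolynomial.coeff_monomial, if_neg hb]
        · exact fun h => absurd hu h
      · rw [MvPolynomial.notMem_support_iff.1 hu, MvPolynomial.coeff_zero]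
    obtain ⟨p₂, h4, h5⟩ := forth hc hE ha ha' p₁ h3
    exact ⟨p₂, h1.trans h4, h5⟩

theorem reach (hc : Countable E) (hE : HC E) (ha : SS E a) (ha' : SS E a') {z : ℂ}
    (hz : z ∈ hull ((E : Set ℂ) ∪ range a)) : Reach E a a' z := by
  have h1 : hull ((E : Set ℂ) ∪ range a) ≤ RF hc hE ha ha' := by
    apply hull_le (hc_RF hc hE ha ha')
    rintro w (hw | ⟨j, rfl⟩)
    · exact fun p => ⟨p, le_rfl, mem_LL hw⟩
    · exact fun p => ⟨p, le_rfl, p.tight.mem j⟩
  exact h1 hz

/-- **Back.** -/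
theorem back (hc : Countable E) (hE : HC E) (ha : SS E a) (ha' : SS E a') {z : ℂ}
    (hz : z ∈ hull ((E : Set ℂ) ∪ range a')) (p : PI E a a') :
    ∃ p' : PI E a a', p ≤ p' ∧ ∃ x ∈ LL E p'.s, p'.σ x = z := by
  obtain ⟨r, h1, h2⟩ := reach hc hE ha' ha hz p.inv
  refine ⟨r.inv, fun x hx => ?_, r.σ z, r.map_LL h2, ?_⟩
  · obtain ⟨h3, h4⟩ := h1 _ (p.map_LL hx)
    have h5 : p.inv.σ (p.σ x) = x := p.σ.symm_apply_apply x
    rw [h5] at h4
    have h6 := r.map_LL h3
    rw [h4] at h6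
    refine ⟨h6, ?_⟩
    change r.σ.symm x = p.σ x
    rw [RingEquiv.symm_apply_eq, h4]
  · exact r.σ.symm_apply_apply z

end Pool.Agent.Helper78.EC.Qn
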