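import Mathlib
import Pool.Agent.Helper78.EC.QnB
import Pool.Agent.Helper78.EC.QmG

/-!
# The isomorphism theorem for self-sufficient tuples
-/

set_option autoImplicit false

namespace Pool.Agent.Helper78.EC.Qn

open Set Module Cardinal
open Pool.Agent.Helper78.SC Pool.Agent.Helper78.SC.Ax Pool.Agent.Helper78.SC.Cov
open Pool.Agent.Helper78.EC.Closure Pool.Agent.Helper78.EC.Generic Pool.Agent.Helper78.EC.Use
open Pool.Agent.Helper78.EC.Qm (Fix Cl Fs cb cb_add cb_sub cb_smul cb_zero cb_mem M0 exp_int_mem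
  exists_aut exists_aut' exists_move exists_den pre sig_cb sig_exp bounded le_Fs pt_mem cl_Fs R_map
  Fs_le adj_le_Fs alg_of_range map_mem_Fs cb_snoc dep_map mem_ecl_of_rel cl_ecl)

variable {E : IntermediateField ℚ ℂ} {n : ℕ} {a a' : Fin n → ℂ}

/-- the same relations over `E` -/
def Same (E : IntermediateField ℚ ℂ) {n : ℕ} (a a' : Fin n → ℂ) : Prop :=
  ∀ N : ℕ, 0 < N → ∀ P : MvPolynomial (Fin n ⊕ Fin n) E,
    MvPolynomial.aeval (Sum.elim a (fun i => Complex.exp (a i / N))) P = 0 ↔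
      MvPolynomial.aeval (Sum.elim a' (fun i => Complex.exp (a' i / N))) P = 0

theorem cb_single (s : Fin n → ℂ) (i : Fin n) (c : ℚ) : cb s (Pi.single i c) = c * s i := by
  unfold cb
  rw [Finset.sum_eq_single i]
  · rw [Pi.single_eq_same]
  · intro j _ hj
    rw [Pi.single_eq_of_ne hj, Rat.cast_zero, zero_mul]
  · intro h
    exact absurd (Finset.mem_univ i) h

theorem self_LL (j : Fin n) : a j ∈ LL E a := by
  refine ⟨Pi.single j 1, ?_⟩
  rw [cb_single, Rat.cast_one, one_mul, sub_self]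
  exact zero_mem _

theorem tight_self (ha : Ind E a) : Tight E a a := ⟨ha, le_rfl, self_LL⟩

/-- **The first partial isomorphism.** -/
theorem exists_PI (hc : Countable E) (hE : HC E) (ha : Ind E a) (h : Same E a a') :
    Nonempty (PI E a a') := by
  obtain ⟨N, hN, hlev⟩ := exists_level hc hE ha
  obtain ⟨σ, hσ, hσx⟩ := exists_aut hc _ _ (h N hN)
  have hσt : ∀ j, σ (a j) = a' j := fun j => hσx (Sum.inl j)
  obtain ⟨τ, hτ1, hτ2, hτ3⟩ := hlev σ hσ (fun i => by
    rw [hσt]
    exact hσx (Sum.inr i))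
  have hτt : ∀ j, τ (a j) = a' j := fun j => by rw [hτ2, hσt]
  refine ⟨⟨n, a, τ, hτ1, tight_self ha, hτ3, hτt, ?_,
    fun i => subset_hull _ (Or.inr ⟨i, rfl⟩), fun i => ?_⟩⟩
  · have h1 : pt a' = fun i => τ (pt a i) := by
      funext i
      rcases i with i | i
      · exact (hτt i).symm
      · change Complex.exp (a' i) = τ (Complex.exp (a i))
        have h2 := hτ3 (Pi.single i 1)
        rw [cb_single, Rat.cast_one, one_mul] at h2
        rw [h2, hτt]
    rw [h1, R_map hτ1]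
  · rw [hτt]
    exact subset_hull _ (Or.inr ⟨i, rfl⟩)

theorem countable_hull {A : Set ℂ} (hA : A.Countable) : Countable (hull A) := by
  have h0 : Countable A := hA.to_subtype
  have h1 : Countable (IntermediateField.adjoin ℚ A) := by
    rw [← mk_le_aleph0_iff]
    refine (IntermediateField.cardinalMk_adjoin_le ℚ _).trans ?_
    exact max_le (max_le mk_le_aleph0 mk_le_aleph0) le_rfl
  have h2 := Closure.countable h1
  have h3 : hull A ≤ ecl (IntermediateField.adjoin ℚ A) :=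
    hull_le ⟨fun _ hz => exp_mem hz, fun _ hz => ecl_ecl_le (mem_ecl_of_rel (cl_ecl _) hz)⟩
      (fun x hx => le_ecl (IntermediateField.subset_adjoin _ _ hx))
  exact (Set.countable_coe_iff.2 ((Set.countable_coe_iff.1 h2).mono h3))

/-- isomorphisms of exponential fields over `E` which send `a` to `a'` -/
def Iso (E F F' : IntermediateField ℚ ℂ) {n : ℕ} (a a' : Fin n → ℂ) : Prop :=
  ∃ φ : F ≃+* F', (∀ z : F, (z : ℂ) ∈ E → (φ z : ℂ) = z) ∧
    (∀ (z : F) (j : Fin n), (z : ℂ) = a j → (φ z : ℂ) = a' j) ∧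
    ∀ z w : F, (w : ℂ) = Complex.exp z → (φ w : ℂ) = Complex.exp (φ z)

/-- **The isomorphism theorem.** -/
theorem iso (hc : Countable E) (hE : HC E) (hi : Ind E a) (ha : SS E a) (ha' : SS E a')
    (h : Same E a a') :
    Iso E (hull ((E : Set ℂ) ∪ range a)) (hull ((E : Set ℂ) ∪ range a')) a a' := by
  classical
  obtain ⟨p₀⟩ := exists_PI hc hE hi h
  unfold Iso
  set H := hull ((E : Set ℂ) ∪ range a) with hH
  set H' := hull ((E : Set ℂ) ∪ range a') with hH'
  have hcE : (E : Set ℂ).Countable := Set.countable_coe_iff.1 hc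
  have hcH : Countable H := countable_hull (hcE.union (countable_range _))
  have hcH' : Countable H' := countable_hull (hcE.union (countable_range _))
  let _ : Encodable (H ⊕ H') := Encodable.ofCountable _
  let 𝒟 : H ⊕ H' → Order.Cofinal (PI E a a') := fun i => match i with
    | Sum.inl z => ⟨{p | (z : ℂ) ∈ LL E p.s}, fun p => by
        obtain ⟨p', h1, h2⟩ := reach hc hE ha ha' z.2 p
        exact ⟨p', h2, h1⟩⟩
    | Sum.inr z => ⟨{p | ∃ x ∈ LL E p.s, p.σ x = z}, fun p => by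
        obtain ⟨p', h1, h2⟩ := back hc hE ha ha' z.2 p
        exact ⟨p', h2, h1⟩⟩
  let I := Order.idealOfCofinals p₀ 𝒟
  have hmeet1 : ∀ z : H, ∃ p ∈ I, (z : ℂ) ∈ LL E p.s := by
    intro z
    obtain ⟨p, h1, h2⟩ := Order.cofinal_meets_idealOfCofinals p₀ 𝒟 (Sum.inl z)
    exact ⟨p, h2, h1⟩
  have hmeet2 : ∀ z : H', ∃ p ∈ I, ∃ x ∈ LL E p.s, p.σ x = z := by
    intro z
    obtain ⟨p, h1, h2⟩ := Order.cofinal_meets_idealOfCofinals p₀ 𝒟 (Sum.inr z)
    exact ⟨p, h2, h1⟩
  have hcons : ∀ p ∈ I, ∀ p' ∈ I, ∀ x, x ∈ LL E p.s → x ∈ LL E p'.s → p.σ x = p'.σ x := by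
    intro p hp p' hp' x hx hx'
    obtain ⟨r, -, h1, h2⟩ := I.directed p hp p' hp'
    rw [← (h1 x hx).2, ← (h2 x hx').2]
  have hfin : ∀ S : Finset H, ∃ p ∈ I, ∀ z ∈ S, (z : ℂ) ∈ LL E p.s := by
    intro S
    induction S using Finset.induction_on with
    | empty =>
      obtain ⟨p, hp⟩ := I.nonempty
      exact ⟨p, hp, by simp⟩
    | insert x S hx ih =>
      obtain ⟨p, hp, h1⟩ := ih
      obtain ⟨p', hp', h2⟩ := hmeet1 x
      obtain ⟨r, hr, h3, h4⟩ := I.directed p hp p' hp'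
      refine ⟨r, hr, fun z hz => ?_⟩
      rcases Finset.mem_insert.1 hz with rfl | hz
      · exact (h4 _ h2).1
      · exact (h3 _ (h1 z hz)).1
  choose P hPI hPz using hmeet1
  let f : H → H' := fun z => ⟨(P z).σ z, (P z).mem_hull' (hPz z)⟩
  have hf : ∀ p ∈ I, ∀ z : H, (z : ℂ) ∈ LL E p.s → (f z : ℂ) = p.σ z := fun p hp z hz =>
    hcons (P z) (hPI z) p hp z (hPz z) hz
  have hmul : ∀ x y, f (x * y) = f x * f y := by
    intro x y
    obtain ⟨p, hp, h⟩ := hfin {x, y, x * y}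
    apply Subtype.ext
    change (f (x * y) : ℂ) = (f x : ℂ) * (f y : ℂ)
    rw [hf p hp _ (h _ (by simp)), hf p hp _ (h x (by simp)), hf p hp _ (h y (by simp)), ← map_mul]
    rfl
  have hadd : ∀ x y, f (x + y) = f x + f y := by
    intro x y
    obtain ⟨p, hp, h⟩ := hfin {x, y, x + y}
    apply Subtype.ext
    change (f (x + y) : ℂ) = (f x : ℂ) + (f y : ℂ)
    rw [hf p hp _ (h _ (by simp)), hf p hp _ (h x (by simp)), hf p hp _ (h y (by simp)), ← map_add]
    rfl
  have hbij : Function.Bijective f := by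
    constructor
    · intro x y hxy
      obtain ⟨p, hp, h⟩ := hfin {x, y}
      have h1 : (f x : ℂ) = f y := congrArg Subtype.val hxy
      rw [hf p hp _ (h x (by simp)), hf p hp _ (h y (by simp))] at h1
      exact Subtype.ext (p.σ.injective h1)
    · intro y
      obtain ⟨p, hp, x, hx, hxy⟩ := hmeet2 y
      refine ⟨⟨x, p.mem_hull hx⟩, Subtype.ext ?_⟩
      rw [hf p hp _ hx]
      exact hxy
  let e : H ≃ H' := Equiv.ofBijective f hbij
  refine ⟨{ e with map_mul' := hmul, map_add' := hadd }, fun z hz => ?_, fun z j hz => ?_,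
    fun z w hw => ?_⟩
  · obtain ⟨p, hp, h⟩ := hfin {z}
    change (f z : ℂ) = z
    rw [hf p hp _ (h z (by simp)), p.fix _ hz]
  · obtain ⟨p, hp, h⟩ := hfin {z}
    change (f z : ℂ) = a' j
    rw [hf p hp _ (h z (by simp)), hz, p.st]
  · obtain ⟨p, hp, h⟩ := hfin {z, w}
    change (f w : ℂ) = Complex.exp (f z)
    rw [hf p hp _ (h z (by simp)), hf p hp _ (h w (by simp)), hw, p.exp_LL hE (h z (by simp))]

/-- **The converse.** -/
theorem same_of_iso {F F' : IntermediateField ℚ ℂ} (hF : HC F) (hEF : E ≤ F) (haF : ∀ j, a j ∈ F)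
    (h : Iso E F F' a a') : Same E a a' := by
  obtain ⟨φ, h1, h2, h3⟩ := h
  intro N hN P
  have hNC : (N : ℂ) ≠ 0 := by exact_mod_cast hN.ne'
  have hdF : ∀ j, a j / N ∈ F := fun j => div_mem (haF j) (natCast_mem _ N)
  let x : Fin n ⊕ Fin n → F := Sum.elim (fun j => ⟨a j, haF j⟩)
    (fun j => ⟨Complex.exp (a j / N), hF.exp_mem _ (hdF j)⟩)
  have hx : ∀ i, (x i : ℂ) = Sum.elim a (fun i => Complex.exp (a i / N)) i := by
    rintro (i | i) <;> rfl
  have hφx : ∀ i, (φ (x i) : ℂ) = Sum.elim a' (fun i => Complex.exp (a' i / N)) i := by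
    rintro (i | i)
    · exact h2 _ i rfl
    · have h4 := h3 ⟨a i / N, hdF i⟩ (x (Sum.inr i)) rfl
      rw [h4]
      change Complex.exp _ = Complex.exp (a' i / N)
      congr 1
      rw [eq_div_iff hNC]
      have h5 : φ (⟨a i / N, hdF i⟩ * (N : F)) = φ ⟨a i / N, hdF i⟩ * (N : F') := by
        rw [map_mul, map_natCast]
      have h6 : (⟨a i / N, hdF i⟩ * (N : F) : F) = ⟨a i, haF i⟩ := by
        apply Subtype.ext
        change a i / N * (N : ℂ) = a i
        exact div_mul_cancel₀ _ hNC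
      rw [h6] at h5
      have h7 := congrArg Subtype.val h5
      rw [h2 ⟨a i, haF i⟩ i rfl] at h7
      exact h7.symm
  let j : E →+* F := (IntermediateField.inclusion hEF).toRingHom
  have hev : ((MvPolynomial.eval₂ j x P : F) : ℂ) =
      MvPolynomial.aeval (Sum.elim a (fun i => Complex.exp (a i / N))) P := by
    have h4 := MvPolynomial.hom_eval₂ P j F.val.toRingHom x
    change ((MvPolynomial.eval₂ j x P : F) : ℂ) = _ at h4
    rw [h4, MvPolynomial.aeval_def]
    congr 1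
    funext i
    exact hx i
  have hev' : ((φ (MvPolynomial.eval₂ j x P) : F') : ℂ) =
      MvPolynomial.aeval (Sum.elim a' (fun i => Complex.exp (a' i / N))) P := by
    have h4 := MvPolynomial.hom_eval₂ P j (F'.val.toRingHom.comp φ.toRingHom) x
    change ((φ (MvPolynomial.eval₂ j x P) : F') : ℂ) = _ at h4
    rw [h4, MvPolynomial.aeval_def]
    congr 1
    · ext e
      exact h1 (j e) e.2
    · funext i
      exact hφx i
  rw [← hev, ← hev']
  constructor
  · intro h4
    have h5 : MvPolynomial.eval₂ j x P = 0 := Subtype.ext h4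
    rw [h5, map_zero]
    rfl
  · intro h4
    have h5 : φ (MvPolynomial.eval₂ j x P) = 0 := Subtype.ext h4
    rw [map_eq_zero_iff φ φ.injective] at h5
    rw [h5]
    rfl

/-- **Isomorphism and relations.** -/
theorem iso_iff (hc : Countable E) (hE : HC E) (hi : Ind E a) (ha : SS E a) (ha' : SS E a') :
    Iso E (hull ((E : Set ℂ) ∪ range a)) (hull ((E : Set ℂ) ∪ range a')) a a' ↔ Same E a a' :=
  ⟨same_of_iso (hc_hull _) (fun _ hx => subset_hull _ (Or.inl hx))
    (fun j => subset_hull _ (Or.inr ⟨j, rfl⟩)), iso hc hE hi ha ha'⟩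

/-! ### Existence of self-sufficient tuples -/

theorem LL_trans {m k : ℕ} {s : Fin m → ℂ} {z : Fin k → ℂ} (h : ∀ j, s j ∈ LL E z) {x : ℂ}
    (hx : x ∈ LL E s) : x ∈ LL E z := by
  obtain ⟨q, hq⟩ := hx
  choose r hr using h
  refine ⟨∑ j, q j • r j, ?_⟩
  have h1 : cb z (∑ j, q j • r j) = ∑ j, (q j : ℂ) * cb z (r j) := by
    have h2 : ∀ S : Finset (Fin m), cb z (∑ j ∈ S, q j • r j) = ∑ j ∈ S, (q j : ℂ) * cb z (r j) := by
      classical
      intro S
      induction S using Finset.induction_on with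
      | empty => simp [cb_zero]
      | insert j S hj ih => rw [Finset.sum_insert hj, Finset.sum_insert hj, cb_add, cb_smul, ih]
    exact h2 _
  have h2 : x - cb z (∑ j, q j • r j) = (x - cb s q) + ∑ j, (q j : ℂ) * (s j - cb z (r j)) := by
    rw [h1]
    have h3 : cb s q = ∑ j, (q j : ℂ) * s j := rfl
    rw [h3]
    simp only [mul_sub, Finset.sum_sub_distrib]
    ring
  rw [h2]
  refine add_mem hq (sum_mem fun j _ => mul_mem ?_ (hr j))
  exact E.algebraMap_mem (q j)

theorem exists_ind {m : ℕ} (b : Fin m → ℂ) :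
    ∃ (k : ℕ) (s : Fin k → ℂ), Ind E s ∧ ∀ j, b j ∈ LL E s := by
  induction m with
  | zero => exact ⟨0, Fin.elim0, fun q _ => funext fun i => i.elim0, fun j => j.elim0⟩
  | succ m ih =>
    obtain ⟨k, s, h1, h2⟩ := ih (fun i => b i.castSucc)
    by_cases h : b (Fin.last m) ∈ LL E s
    · refine ⟨k, s, h1, fun j => ?_⟩
      refine Fin.lastCases h (fun i => h2 i) j
    · refine ⟨k + 1, Fin.snoc s (b (Fin.last m)), ind_snoc h1 (fun q hq => h ⟨q, hq⟩), fun j => ?_⟩
      refine Fin.lastCases last_LL (fun i => LL_snoc (h2 i)) j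

/-- **Every tuple is contained in a self-sufficient one.** -/
theorem exists_SS (hsch : ∀ (k : ℕ) (z : Fin k → ℂ), Ind E z → k ≤ Low.R E (pt z)) {m : ℕ}
    (b : Fin m → ℂ) :
    ∃ (k : ℕ) (s : Fin k → ℂ), Ind E s ∧ SS E s ∧ ∀ j, b j ∈ LL E s := by
  classical
  let P : ℕ → Prop := fun d => ∃ (k : ℕ) (s : Fin k → ℂ), Ind E s ∧ (∀ j, b j ∈ LL E s) ∧
    Low.R E (pt s) = k + d
  have hP : ∃ d, P d := by
    obtain ⟨k, s, h1, h2⟩ := exists_ind (E := E) b
    obtain ⟨d, hd⟩ := Nat.exists_eq_add_of_le (hsch k s h1)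
    exact ⟨d, k, s, h1, h2, hd⟩
  obtain ⟨k, s, h1, h2, h3⟩ := Nat.find_spec hP
  refine ⟨k, s, h1, fun l z hz hsz => ?_, h2⟩
  obtain ⟨d, hd⟩ := Nat.exists_eq_add_of_le (hsch l z hz)
  have h4 := Nat.find_min' hP ⟨l, z, hz, fun j => LL_trans hsz (h2 j), hd⟩
  omega

/-! ### Generic points -/

variable {K : IntermediateField ℚ ℂ} {t t' : Fin n → ℂ}

theorem hc_ecl (K : IntermediateField ℚ ℂ) : HC (ecl K) :=
  ⟨fun _ hz => exp_mem hz, fun _ hz => ecl_ecl_le (mem_ecl_of_rel (cl_ecl K) hz)⟩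

theorem schanuel (k : ℕ) (z : Fin k → ℂ) (hz : Ind (ecl K) z) : k ≤ Low.R (ecl K) (pt z) := by
  have hgen : Gen K (Fin.elim0 : Fin 0 → ℂ) := by
    intro l y
    rw [eq_top_iff]
    intro v _
    have h : v = 0 := funext fun i => i.elim0
    rw [h]
    exact zero_mem _
  have h1 := key (Fin.elim0 : Fin 0 → ℂ) hgen z hz
  refine le_trans (by omega) (h1.trans (Low.R_mono _ _ _ ?_))
  intro D hD
  rintro (i | i)
  · exact i.elim0
  · exact hD i

theorem gen_ind (ht : Gen K t) : Ind (ecl K) t := Qm.gen_ind ht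

theorem ss_gen (ht : Gen K t) : SS (ecl K) t := by
  intro k z hz htz
  have h1 := key t ht z hz
  have h2 : Low.R (ecl K) (Sum.elim t (pt z)) ≤ Low.R (ecl K) (pt z) := by
    apply Low.R_mono
    intro D hD
    have hk := Qm.kills_Fs (E := ecl K) (s := z) (D := D.restrictScalars ℚ)
      (fun w hw => D.map_algebraMap (⟨w, hw⟩ : ecl K)) hD
    rintro (i | i)
    · exact hk _ (LL_Fs (htz i))
    · exact hD i
  have h3 : Low.R (ecl K) (pt t) ≤ n + n := by
    unfold Low.R
    refine (Submodule.finrank_le _).trans ?_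
    rw [finrank_fintype_fun_eq_card, Fintype.card_sum, Fintype.card_fin]
  omega

theorem same_gen (ht : Gen K t) (ht' : Gen K t') : Same (ecl K) t t' := by
  intro N hN P
  have h1 := Qm.algInd_level ht hN
  have h2 := Qm.algInd_level ht' hN
  constructor
  · intro h
    rw [(injective_iff_map_eq_zero _).1 h1 P h, map_zero]
  · intro h
    rw [(injective_iff_map_eq_zero _).1 h2 P h, map_zero]

/-- **Generic points.** -/
theorem iso_gen (hK : Countable K) (ht : Gen K t) (ht' : Gen K t') :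
    Iso (ecl K) (hull ((ecl K : Set ℂ) ∪ range t)) (hull ((ecl K : Set ℂ) ∪ range t')) t t' :=
  iso (Closure.countable hK) (hc_ecl K) (gen_ind ht) (ss_gen ht) (ss_gen ht') (same_gen ht ht')

end Pool.Agent.Helper78.EC.Qn
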