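import Mathlib
import Pool.Agent.Helper78.EC.QnE

/-!
# Restriction of the isomorphisms, countably many types, one unbounded quantifier
-/

set_option autoImplicit false

namespace Pool.Agent.Helper78.EC.Qn

open Set Module Cardinal
open Pool.Agent.Helper78.SC Pool.Agent.Helper78.SC.Ax Pool.Agent.Helper78.SC.Cov
open Pool.Agent.Helper78.EC.Closure Pool.Agent.Helper78.EC.Generic Pool.Agent.Helper78.EC.Use
open Pool.Agent.Helper78.EC.Qm (Fix Cl Fs cb cb_add cb_sub cb_smul cb_zero cb_mem M0 exp_int_mem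
  exists_aut exists_aut' exists_move exists_den pre sig_cb sig_exp bounded le_Fs pt_mem cl_Fs R_map
  Fs_le adj_le_Fs alg_of_range map_mem_Fs cb_snoc dep_map mem_ecl_of_rel cl_ecl)

variable {E : IntermediateField ℚ ℂ} {n : ℕ} {a a' : Fin n → ℂ}

/-- isomorphisms of exponential fields over a set -/
def IsoS (A : Set ℂ) (F F' : IntermediateField ℚ ℂ) {n : ℕ} (a a' : Fin n → ℂ) : Prop :=
  ∃ φ : F ≃+* F', (∀ z : F, (z : ℂ) ∈ A → (φ z : ℂ) = z) ∧
    (∀ (z : F) (j : Fin n), (z : ℂ) = a j → (φ z : ℂ) = a' j) ∧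
    ∀ z w : F, (w : ℂ) = Complex.exp z → (φ w : ℂ) = Complex.exp (φ z)

/-- the preimage of a closed field under an isomorphism of closed fields -/
noncomputable def prm {F F' : IntermediateField ℚ ℂ} (φ : F ≃+* F') (G : IntermediateField ℚ ℂ) :
    IntermediateField ℚ ℂ where
  carrier := {w | ∃ h : w ∈ F, ((φ ⟨w, h⟩ : F') : ℂ) ∈ G}
  mul_mem' := by
    rintro x y ⟨hx, hx'⟩ ⟨hy, hy'⟩
    refine ⟨mul_mem hx hy, ?_⟩
    have h : φ ⟨x * y, mul_mem hx hy⟩ = φ ⟨x, hx⟩ * φ ⟨y, hy⟩ := by rw [← map_mul]; rfl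
    rw [h]
    exact mul_mem hx' hy'
  add_mem' := by
    rintro x y ⟨hx, hx'⟩ ⟨hy, hy'⟩
    refine ⟨add_mem hx hy, ?_⟩
    have h : φ ⟨x + y, add_mem hx hy⟩ = φ ⟨x, hx⟩ + φ ⟨y, hy⟩ := by rw [← map_add]; rfl
    rw [h]
    exact add_mem hx' hy'
  algebraMap_mem' := fun r => by
    refine ⟨F.algebraMap_mem r, ?_⟩
    have h : φ ⟨algebraMap ℚ ℂ r, F.algebraMap_mem r⟩ = (r : F') := by
      have h1 : (⟨algebraMap ℚ ℂ r, F.algebraMap_mem r⟩ : F) = (r : F) := rfl
      rw [h1, map_ratCast]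
    rw [h]
    exact G.algebraMap_mem r
  inv_mem' := by
    rintro x ⟨hx, hx'⟩
    refine ⟨inv_mem hx, ?_⟩
    have h : φ ⟨x⁻¹, inv_mem hx⟩ = (φ ⟨x, hx⟩)⁻¹ := by rw [← map_inv₀]; rfl
    rw [h]
    exact inv_mem hx'

theorem hc_prm {F F' : IntermediateField ℚ ℂ} (hF : HC F) (φ : F ≃+* F')
    (hφ : ∀ z w : F, (w : ℂ) = Complex.exp z → (φ w : ℂ) = Complex.exp (φ z))
    {G : IntermediateField ℚ ℂ} (hG : HC G) : HC (prm φ G) := by
  constructor
  · rintro z ⟨hz, hz'⟩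
    refine ⟨hF.exp_mem z hz, ?_⟩
    rw [hφ ⟨z, hz⟩ ⟨Complex.exp z, hF.exp_mem z hz⟩ rfl]
    exact hG.exp_mem _ hz'
  · intro z hz
    have hle : prm φ G ≤ F := fun w hw => hw.1
    have hzF : z ∈ F := hF.rel_mem z (fun h => hz (algInd_mono hle h))
    refine ⟨hzF, hG.rel_mem _ ?_⟩
    intro hai
    apply hz
    let f : prm φ G →+* G :=
      (F'.val.toRingHom.comp (φ.toRingHom.comp (IntermediateField.inclusion hle).toRingHom)).codRestrict
        G (fun x => x.2.2)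
    rw [AlgebraicIndependent, injective_iff_map_eq_zero]
    intro P hP
    have h1 : MvPolynomial.aeval ![((φ ⟨z, hzF⟩ : F') : ℂ), Complex.exp (φ ⟨z, hzF⟩)]
        (MvPolynomial.map f P) = ((φ (MvPolynomial.eval₂ (IntermediateField.inclusion hle).toRingHom
          ![⟨z, hzF⟩, ⟨Complex.exp z, hF.exp_mem z hzF⟩] P) : F') : ℂ) := by
      rw [MvPolynomial.aeval_def, MvPolynomial.eval₂_map]
      have h4 := MvPolynomial.hom_eval₂ P (IntermediateField.inclusion hle).toRingHom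
        (F'.val.toRingHom.comp φ.toRingHom) ![⟨z, hzF⟩, ⟨Complex.exp z, hF.exp_mem z hzF⟩]
      change ((φ (MvPolynomial.eval₂ (IntermediateField.inclusion hle).toRingHom
          ![⟨z, hzF⟩, ⟨Complex.exp z, hF.exp_mem z hzF⟩] P) : F') : ℂ) = _ at h4
      rw [h4]
      congr 1
      funext i
      fin_cases i
      · rfl
      · exact (hφ ⟨z, hzF⟩ ⟨Complex.exp z, hF.exp_mem z hzF⟩ rfl).symm
    have h2 : ((MvPolynomial.eval₂ (IntermediateField.inclusion hle).toRingHom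
        ![⟨z, hzF⟩, ⟨Complex.exp z, hF.exp_mem z hzF⟩] P : F) : ℂ) = 0 := by
      have h4 := MvPolynomial.hom_eval₂ P (IntermediateField.inclusion hle).toRingHom
        F.val.toRingHom ![⟨z, hzF⟩, ⟨Complex.exp z, hF.exp_mem z hzF⟩]
      change ((MvPolynomial.eval₂ (IntermediateField.inclusion hle).toRingHom
        ![⟨z, hzF⟩, ⟨Complex.exp z, hF.exp_mem z hzF⟩] P : F) : ℂ) = _ at h4
      rw [h4, ← hP, MvPolynomial.aeval_def]
      congr 1
      funext i
      fin_cases i <;> rfl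
    have h3 : MvPolynomial.eval₂ (IntermediateField.inclusion hle).toRingHom
        ![⟨z, hzF⟩, ⟨Complex.exp z, hF.exp_mem z hzF⟩] P = 0 := Subtype.ext h2
    rw [h3, map_zero] at h1
    have h4 := (injective_iff_map_eq_zero _).1 hai _ h1
    exact (map_eq_zero_iff _ (MvPolynomial.map_injective f f.injective)).1 h4

/-- **Restriction of isomorphisms.** -/
theorem restrict' {A : Set ℂ} (hA : A ⊆ E) {F F' : IntermediateField ℚ ℂ} (hFc : HC F)
    (hF'c : HC F') (hEF : E ≤ F) (hEF' : E ≤ F') (haF : ∀ j, a j ∈ F) (haF' : ∀ j, a' j ∈ F')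
    (h : Iso E F F' a a') : IsoS A (hull (A ∪ range a)) (hull (A ∪ range a')) a a' := by
  obtain ⟨φ, h1, h2, h3⟩ := h
  have hle : hull (A ∪ range a) ≤ F := hull_le hFc (by
    rintro x (hx | ⟨j, rfl⟩)
    · exact hEF (hA hx)
    · exact haF j)
  have hle' : hull (A ∪ range a') ≤ F' := hull_le hF'c (by
    rintro x (hx | ⟨j, rfl⟩)
    · exact hEF' (hA hx)
    · exact haF' j)
  have h1' : ∀ z : F', (z : ℂ) ∈ E → (φ.symm z : ℂ) = z := by
    intro z hz
    have hzF : (z : ℂ) ∈ F := hEF hz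
    have h4 : φ ⟨z, hzF⟩ = z := Subtype.ext (h1 ⟨z, hzF⟩ hz)
    rw [← h4, RingEquiv.symm_apply_apply]
    exact (h1 ⟨z, hzF⟩ hz).symm
  have h2' : ∀ (z : F') (j : Fin n), (z : ℂ) = a' j → (φ.symm z : ℂ) = a j := by
    intro z j hz
    have h4 : φ ⟨a j, haF j⟩ = z := Subtype.ext ((h2 ⟨a j, haF j⟩ j rfl).trans hz.symm)
    rw [← h4, RingEquiv.symm_apply_apply]
  have h3' : ∀ z w : F', (w : ℂ) = Complex.exp z → (φ.symm w : ℂ) = Complex.exp (φ.symm z) := by
    intro z w hw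
    have h4 := h3 (φ.symm z) ⟨Complex.exp (φ.symm z), hFc.exp_mem _ (φ.symm z).2⟩ rfl
    rw [RingEquiv.apply_symm_apply] at h4
    have h5 : φ ⟨Complex.exp (φ.symm z), hFc.exp_mem _ (φ.symm z).2⟩ = w :=
      Subtype.ext (h4.trans hw.symm)
    rw [← h5, RingEquiv.symm_apply_apply]
  have hmap : ∀ z : F, (z : ℂ) ∈ hull (A ∪ range a) → (φ z : ℂ) ∈ hull (A ∪ range a') := by
    intro z hz
    have h4 : hull (A ∪ range a) ≤ prm φ (hull (A ∪ range a')) := by
      apply hull_le (hc_prm hFc φ h3 (hc_hull _))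
      rintro x (hx | ⟨j, rfl⟩)
      · refine ⟨hEF (hA hx), ?_⟩
        rw [h1 _ (hA hx)]
        exact subset_hull _ (Or.inl hx)
      · refine ⟨haF j, ?_⟩
        rw [h2 _ j rfl]
        exact subset_hull _ (Or.inr ⟨j, rfl⟩)
    exact (h4 hz).2
  have hmap' : ∀ z : F', (z : ℂ) ∈ hull (A ∪ range a') → (φ.symm z : ℂ) ∈ hull (A ∪ range a) := by
    intro z hz
    have h4 : hull (A ∪ range a') ≤ prm φ.symm (hull (A ∪ range a)) := by
      apply hull_le (hc_prm hF'c φ.symm h3' (hc_hull _))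
      rintro x (hx | ⟨j, rfl⟩)
      · refine ⟨hEF' (hA hx), ?_⟩
        rw [h1' _ (hA hx)]
        exact subset_hull _ (Or.inl hx)
      · refine ⟨haF' j, ?_⟩
        rw [h2' _ j rfl]
        exact subset_hull _ (Or.inr ⟨j, rfl⟩)
    exact (h4 hz).2
  let ψ : hull (A ∪ range a) ≃+* hull (A ∪ range a') :=
    { toFun := fun z => ⟨φ ⟨z, hle z.2⟩, hmap _ z.2⟩
      invFun := fun z => ⟨φ.symm ⟨z, hle' z.2⟩, hmap' _ z.2⟩
      left_inv := fun z => by
        apply Subtype.ext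
        change ((φ.symm ⟨φ ⟨z, hle z.2⟩, _⟩ : F) : ℂ) = z
        rw [show (⟨((φ ⟨z, hle z.2⟩ : F') : ℂ), hle' (hmap _ z.2)⟩ : F') = φ ⟨z, hle z.2⟩ from rfl,
          RingEquiv.symm_apply_apply]
      right_inv := fun z => by
        apply Subtype.ext
        change ((φ ⟨φ.symm ⟨z, hle' z.2⟩, _⟩ : F') : ℂ) = z
        rw [show (⟨((φ.symm ⟨z, hle' z.2⟩ : F) : ℂ), hle (hmap' _ z.2)⟩ : F) =
          φ.symm ⟨z, hle' z.2⟩ from rfl, RingEquiv.apply_symm_apply]
      map_mul' := fun x y => by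
        apply Subtype.ext
        change ((φ (⟨x, hle x.2⟩ * ⟨y, hle y.2⟩) : F') : ℂ) = _
        rw [map_mul]
        rfl
      map_add' := fun x y => by
        apply Subtype.ext
        change ((φ (⟨x, hle x.2⟩ + ⟨y, hle y.2⟩) : F') : ℂ) = _
        rw [map_add]
        rfl }
  exact ⟨ψ, fun z hz => h1 _ (hA hz), fun z j hz => h2 _ j hz, fun z w hw => h3 _ _ hw⟩

theorem restrict {A : Set ℂ} (hA : A ⊆ E)
    (h : Iso E (hull ((E : Set ℂ) ∪ range a)) (hull ((E : Set ℂ) ∪ range a')) a a') :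
    IsoS A (hull (A ∪ range a)) (hull (A ∪ range a')) a a' :=
  restrict' hA (hc_hull _) (hc_hull _) (fun _ hx => subset_hull _ (Or.inl hx))
    (fun _ hx => subset_hull _ (Or.inl hx)) (fun j => subset_hull _ (Or.inr ⟨j, rfl⟩))
    (fun j => subset_hull _ (Or.inr ⟨j, rfl⟩)) h

/-- full automorphisms preserve all relations -/
theorem same_of_full {τ : ℂ ≃+* ℂ} (hτ : Fix E τ) (ha : ∀ i, τ (a i) = a' i) (hf : Full τ a) :
    Same E a a' := by
  intro N hN P
  have hNC : (N : ℂ) ≠ 0 := by exact_mod_cast hN.ne'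
  have h1 : ∀ i, τ (Sum.elim a (fun i => Complex.exp (a i / N)) i) =
      Sum.elim a' (fun i => Complex.exp (a' i / N)) i := by
    rintro (i | i)
    · exact ha i
    · change τ (Complex.exp (a i / N)) = Complex.exp (a' i / N)
      have h2 := hf (Pi.single i (N : ℚ)⁻¹)
      have h3 : cb a (Pi.single i (N : ℚ)⁻¹) = a i / N := by
        rw [cb_single]
        push_cast
        field_simp
      rw [h3] at h2
      rw [h2, map_div₀, ha, map_natCast]
  have h2 := Qm.map_aeval' hτ (Sum.elim a (fun i => Complex.exp (a i / N))) P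
  have h3 : (fun i => τ (Sum.elim a (fun i => Complex.exp (a i / N)) i)) =
      Sum.elim a' (fun i => Complex.exp (a' i / N)) := funext h1
  rw [h3] at h2
  rw [← h2, map_eq_zero_iff τ τ.injective]

/-- **Countably many types.** -/
theorem countable_types (hc : Countable E) (hE : HC E) (n : ℕ) :
    ∃ C : Set (Fin n → ℂ), C.Countable ∧ (∀ a ∈ C, Ind E a ∧ SS E a) ∧
      ∀ a : Fin n → ℂ, Ind E a → SS E a → ∃ a' ∈ C, Same E a a' := by
  classical
  let S := {a : Fin n → ℂ // Ind E a ∧ SS E a}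
  have hcP : Countable (MvPolynomial (Fin n ⊕ Fin n) E) := by
    rw [← mk_le_aleph0_iff]
    refine (MvPolynomial.cardinalMk_le_max (σ := Fin n ⊕ Fin n) (R := E)).trans ?_
    exact max_le (max_le mk_le_aleph0 mk_le_aleph0) le_rfl
  choose N hN hlev using fun a : S => exists_level hc hE a.2.1
  let x : S → Fin n ⊕ Fin n → ℂ := fun a => Sum.elim a.1 (fun i => Complex.exp (a.1 i / N a))
  let I : S → Ideal (MvPolynomial (Fin n ⊕ Fin n) E) := fun a =>
    RingHom.ker (MvPolynomial.aeval (x a) : MvPolynomial (Fin n ⊕ Fin n) E →ₐ[E] ℂ).toRingHom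
  have hfg : ∀ a, ∃ G : Finset (MvPolynomial (Fin n ⊕ Fin n) E), Ideal.span (G : Set _) = I a :=
    fun a => (isNoetherianRing_iff_ideal_fg _).1 inferInstance (I a)
  choose G hG using hfg
  let κ : S → ℕ × Finset (MvPolynomial (Fin n ⊕ Fin n) E) := fun a => (N a, G a)
  have hkey : ∀ a b : S, κ a = κ b → Same E a.1 b.1 := by
    intro a b hab
    have h1 : N a = N b := congrArg Prod.fst hab
    have h2 : I a = I b := by
      rw [← hG a, ← hG b, show G a = G b from congrArg Prod.snd hab]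
    obtain ⟨σ, hσ, hσx⟩ := exists_aut hc (x a) (x b) (fun P => by
      have h3 : ∀ c : S, MvPolynomial.aeval (x c) P = 0 ↔ P ∈ I c := fun c => Iff.rfl
      rw [h3, h3, h2])
    have hσa : ∀ i, σ (a.1 i) = b.1 i := fun i => hσx (Sum.inl i)
    obtain ⟨τ, hτ1, hτ2, hτ3⟩ := hlev a σ hσ (fun i => by
      have h3 : σ (Complex.exp (a.1 i / N a)) = Complex.exp (b.1 i / N b) := hσx (Sum.inr i)
      rw [h3, hσa, h1])
    exact same_of_full hτ1 (fun i => by rw [hτ2, hσa]) hτ3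
  have hcr : (range κ).Countable := Set.to_countable _
  let rep : range κ → S := fun k => k.2.choose
  have hrep : ∀ k : range κ, κ (rep k) = k := fun k => k.2.choose_spec
  have : Countable (range κ) := hcr.to_subtype
  refine ⟨range (fun k => (rep k).1), countable_range _, ?_, ?_⟩
  · rintro _ ⟨k, rfl⟩
    exact (rep k).2
  · intro a ha ha'
    refine ⟨_, ⟨⟨κ ⟨a, ha, ha'⟩, ⟨⟨a, ha, ha'⟩, rfl⟩⟩, rfl⟩, ?_⟩
    exact hkey ⟨a, ha, ha'⟩ _ (hrep ⟨κ ⟨a, ha, ha'⟩, ⟨⟨a, ha, ha'⟩, rfl⟩⟩).symm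

end Pool.Agent.Helper78.EC.Qn
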