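import Mathlib
import Pool.Agent.Helper78.EC.QnC

/-!
# Types of arbitrary tuples, and one generic number
-/

set_option autoImplicit false

namespace Pool.Agent.Helper78.EC.Qn

open Set Module Cardinal
open Pool.Agent.Helper78.SC Pool.Agent.Helper78.SC.Ax Pool.Agent.Helper78.SC.Cov
open Pool.Agent.Helper78.EC.Closure Pool.Agent.Helper78.EC.Generic Pool.Agent.Helper78.EC.Use
open Pool.Agent.Helper78.EC.Qm (Fix Cl Fs cb cb_add cb_sub cb_smul cb_zero cb_mem M0 exp_int_mem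
  exists_aut exists_aut' exists_move exists_den pre sig_cb sig_exp bounded le_Fs pt_mem cl_Fs R_map
  Fs_le adj_le_Fs alg_of_range map_mem_Fs cb_snoc dep_map mem_ecl_of_rel cl_ecl)

/-- one number is generic if it is not in the closure -/
theorem gen_one {K : IntermediateField ℚ ℂ} {x : ℂ} (hx : x ∉ ecl K) :
    Gen K (fun _ : Fin 1 => x) := by
  intro n y
  rw [eq_top_iff]
  intro v _
  have h1 : x ∉ CC K (Fin.append (fun _ : Fin 1 => x) y) := fun h => hx ⟨_, _, h⟩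
  have h2 : ∃ D ∈ Dl K (Fin.append (fun _ : Fin 1 => x) y), D x ≠ 0 := by
    by_contra hcon
    push Not at hcon
    exact h1 hcon
  obtain ⟨D, hD, hDx⟩ := h2
  refine ⟨(v 0 / D x) • D, (Dl K _).smul_mem _ hD, ?_⟩
  funext i
  have hi : i = 0 := Subsingleton.elim _ _
  rw [hi]
  change ((v 0 / D x) • D) x = v 0
  rw [Derivation.smul_apply, smul_eq_mul, div_mul_cancel₀ _ hDx]

variable {E : IntermediateField ℚ ℂ}

/-- the isomorphism follows combinations -/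
theorem iso_comb {n m : ℕ} {a a' : Fin n → ℂ} (hE : HC E)
    (h : Iso E (hull ((E : Set ℂ) ∪ range a)) (hull ((E : Set ℂ) ∪ range a')) a a')
    (q : Fin m → Fin n → ℚ) (e : Fin m → E) :
    IsoS (E : Set ℂ) (hull ((E : Set ℂ) ∪ range (fun j => cb a (q j) + e j)))
      (hull ((E : Set ℂ) ∪ range (fun j => cb a' (q j) + e j)))
      (fun j => cb a (q j) + e j) (fun j => cb a' (q j) + e j) := by
  have ha : ∀ j, a j ∈ hull ((E : Set ℂ) ∪ range a) := fun j => subset_hull _ (Or.inr ⟨j, rfl⟩)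
  have ha' : ∀ j, a' j ∈ hull ((E : Set ℂ) ∪ range a') := fun j => subset_hull _ (Or.inr ⟨j, rfl⟩)
  have he : ∀ x ∈ E, x ∈ hull ((E : Set ℂ) ∪ range a) := fun _ hx => subset_hull _ (Or.inl hx)
  have he' : ∀ x ∈ E, x ∈ hull ((E : Set ℂ) ∪ range a') := fun _ hx => subset_hull _ (Or.inl hx)
  have hq : ∀ (G : IntermediateField ℚ ℂ) (b : Fin n → ℂ), (∀ j, b j ∈ G) → ∀ r, cb b r ∈ G := by
    intro G b hb r
    unfold cb
    exact sum_mem fun i _ => mul_mem (G.algebraMap_mem (r i)) (hb i)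
  refine restrict' (E := E) (A := (E : Set ℂ)) subset_rfl (hc_hull _) (hc_hull _) he he'
    (fun j => add_mem (hq _ _ ha _) (he _ (e j).2))
    (fun j => add_mem (hq _ _ ha' _) (he' _ (e j).2)) ?_
  obtain ⟨φ, h1, h2, h3⟩ := h
  refine ⟨φ, h1, fun z j hz => ?_, h3⟩
  have h4 : z = (∑ i, ((q j i : ℚ) : hull ((E : Set ℂ) ∪ range a)) * ⟨a i, ha i⟩) +
      ⟨e j, he _ (e j).2⟩ := by
    apply Subtype.ext
    rw [hz]
    unfold cb
    push_cast
    rfl
  rw [h4, map_add, map_sum]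
  have h5 : (φ ⟨e j, he _ (e j).2⟩ : ℂ) = e j := h1 _ (e j).2
  have h6 : ∀ i, (φ (((q j i : ℚ) : hull ((E : Set ℂ) ∪ range a)) * ⟨a i, ha i⟩) : ℂ) =
      (q j i : ℂ) * a' i := by
    intro i
    rw [map_mul, map_ratCast]
    have h7 : (φ ⟨a i, ha i⟩ : ℂ) = a' i := h2 _ i rfl
    push_cast
    rw [h7]
  unfold cb
  push_cast
  rw [h5]
  congr 1
  exact Finset.sum_congr rfl (fun i _ => h6 i)

/-- **Countably many types of tuples.** -/
theorem countable_types' (hc : Countable E) (hE : HC E)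
    (hsch : ∀ (k : ℕ) (z : Fin k → ℂ), Ind E z → k ≤ Low.R E (pt z)) (m : ℕ) :
    ∃ T : Set (Fin m → ℂ), T.Countable ∧ ∀ b : Fin m → ℂ, ∃ b' ∈ T,
      IsoS (E : Set ℂ) (hull ((E : Set ℂ) ∪ range b)) (hull ((E : Set ℂ) ∪ range b')) b b' := by
  choose C hC1 hC2 hC3 using fun n => countable_types hc hE n
  have hCc : ∀ n, Countable (C n) := fun n => (hC1 n).to_subtype
  let P := Σ n : ℕ, C n × (Fin m → Fin n → ℚ) × (Fin m → E)
  let g : P → (Fin m → ℂ) := fun p j => cb (p.2.1 : Fin p.1 → ℂ) (p.2.2.1 j) + p.2.2.2 j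
  refine ⟨range g, countable_range g, fun b => ?_⟩
  obtain ⟨n, a, ha1, ha2, ha3⟩ := exists_SS hsch b
  obtain ⟨a', ha', hs⟩ := hC3 n a ha1 ha2
  choose q hq using ha3
  have h1 := iso_comb hE (iso hc hE ha1 ha2 (hC2 n a' ha').2 hs) q (fun j => ⟨_, hq j⟩)
  have h2 : (fun j => cb a (q j) + ((⟨b j - cb a (q j), hq j⟩ : E) : ℂ)) = b := by
    funext j
    change cb a (q j) + (b j - cb a (q j)) = b j
    ring
  rw [h2] at h1
  exact ⟨_, ⟨⟨n, ⟨a', ha'⟩, q, fun j => ⟨_, hq j⟩⟩, rfl⟩, h1⟩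

end Pool.Agent.Helper78.EC.Qn
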