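import Mathlib
import Pool.Agent.Helper78.EC.QnE

/-!
# Extensions of self-sufficient tuples
-/

set_option autoImplicit false

namespace Pool.Agent.Helper78.EC.Qn

open Set MvPolynomial Module Cardinal
open Pool.Agent.Helper78.SC Pool.Agent.Helper78.SC.Ax Pool.Agent.Helper78.SC.Cov
open Pool.Agent.Helper78.EC.Closure Pool.Agent.Helper78.EC.Generic Pool.Agent.Helper78.EC.Use
open Pool.Agent.Helper78.EC.Disj Pool.Agent.Helper78.EC.Str Pool.Agent.Helper78.EC.Curve
open Pool.Agent.Helper78.EC.Mar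
open Pool.Agent.Helper78.EC.Qm (Fix Cl Fs cb cb_add cb_sub cb_smul cb_zero cb_mem M0 exp_int_mem
  exists_aut exists_aut' exists_move exists_den pre sig_cb sig_exp bounded le_Fs pt_mem cl_Fs R_map
  Fs_le adj_le_Fs alg_of_range map_mem_Fs cb_snoc dep_map mem_ecl_of_rel cl_ecl kills_Fs
  countable_Fs aut_of_tr degreeOf_pos map_aeval' caseI)

variable {E : IntermediateField ℚ ℂ} {n m : ℕ} {a : Fin n → ℂ} {s : Fin m → ℂ}

/-- additivity of the ranks, lower bound -/
theorem R_add_ge {E F : IntermediateField ℚ ℂ} (hEF : E ≤ F) {σ τ : Type} [Finite σ] [Finite τ]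
    (x : σ → ℂ) (y : τ → ℂ) (hx : ∀ s, x s ∈ F) : Low.R E x + Low.R F y ≤ Low.R E (Sum.elim x y) := by
  let V : Submodule ℂ (σ ⊕ τ → ℂ) :=
    LinearMap.range (Trd.vl (Sum.elim x y) : Derivation E ℂ ℂ →ₗ[ℂ] (σ ⊕ τ → ℂ))
  let f : V →ₗ[ℂ] (σ → ℂ) := LinearMap.funLeft ℂ ℂ (Sum.inl : σ → σ ⊕ τ) ∘ₗ V.subtype
  have h1 := f.finrank_range_add_finrank_ker
  have h2 : Low.R E x ≤ finrank ℂ (LinearMap.range f) := by
    apply Submodule.finrank_mono
    rintro _ ⟨D, rfl⟩
    exact ⟨⟨_, D, rfl⟩, rfl⟩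
  have h3 : Low.R F y ≤ finrank ℂ (LinearMap.ker f) := by
    let g : LinearMap.ker f →ₗ[ℂ] (τ → ℂ) :=
      LinearMap.funLeft ℂ ℂ (Sum.inr : τ → σ ⊕ τ) ∘ₗ V.subtype ∘ₗ (LinearMap.ker f).subtype
    have h4 : LinearMap.range (Trd.vl y : Derivation F ℂ ℂ →ₗ[ℂ] (τ → ℂ)) ≤ LinearMap.range g := by
      rintro _ ⟨D, rfl⟩
      let D' : Derivation E ℂ ℂ :=
        Td.up E (D.restrictScalars ℚ) (fun u hu => D.map_algebraMap (⟨u, hEF hu⟩ : F))
      have h5 : (⟨Trd.vl (Sum.elim x y) D', D', rfl⟩ : V) ∈ LinearMap.ker f := by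
        rw [LinearMap.mem_ker]
        funext s
        change D (x s) = 0
        exact D.map_algebraMap (⟨x s, hx s⟩ : F)
      exact ⟨⟨_, h5⟩, rfl⟩
    exact (Submodule.finrank_mono h4).trans (LinearMap.finrank_range_le g)
  have h4 : Low.R E (Sum.elim x y) = finrank ℂ V := rfl
  omega

/-- additivity of the ranks, upper bound -/
theorem R_add_le {E F : IntermediateField ℚ ℂ} {σ τ : Type} [Finite σ] [Finite τ]
    (x : σ → ℂ) (y : τ → ℂ) (hF : ∀ D : Derivation E ℂ ℂ, (∀ s, D (x s) = 0) → ∀ w ∈ F, D w = 0) :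
    Low.R E (Sum.elim x y) ≤ Low.R E x + Low.R F y := by
  let V : Submodule ℂ (σ ⊕ τ → ℂ) :=
    LinearMap.range (Trd.vl (Sum.elim x y) : Derivation E ℂ ℂ →ₗ[ℂ] (σ ⊕ τ → ℂ))
  let f : V →ₗ[ℂ] (σ → ℂ) := LinearMap.funLeft ℂ ℂ (Sum.inl : σ → σ ⊕ τ) ∘ₗ V.subtype
  have h1 := f.finrank_range_add_finrank_ker
  have h2 : finrank ℂ (LinearMap.range f) ≤ Low.R E x := by
    apply Submodule.finrank_mono
    rintro _ ⟨⟨_, D, rfl⟩, rfl⟩
    exact ⟨D, rfl⟩
  have h3 : finrank ℂ (LinearMap.ker f) ≤ Low.R F y := by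
    let g : LinearMap.ker f →ₗ[ℂ] (τ → ℂ) :=
      LinearMap.funLeft ℂ ℂ (Sum.inr : τ → σ ⊕ τ) ∘ₗ V.subtype ∘ₗ (LinearMap.ker f).subtype
    have hg1 : Function.Injective g := by
      rintro ⟨⟨u, hu⟩, hu0⟩ ⟨⟨v, hv⟩, hv0⟩ huv
      apply Subtype.ext
      apply Subtype.ext
      funext i
      rcases i with i | i
      · exact (congrFun (LinearMap.mem_ker.1 hu0) i).trans (congrFun (LinearMap.mem_ker.1 hv0) i).symm
      · exact congrFun huv i
    have hg2 : LinearMap.range g ≤
        LinearMap.range (Trd.vl y : Derivation F ℂ ℂ →ₗ[ℂ] (τ → ℂ)) := by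
      rintro _ ⟨⟨⟨_, D, rfl⟩, hD0⟩, rfl⟩
      have hD1 : ∀ s, D (x s) = 0 := fun s => congrFun (LinearMap.mem_ker.1 hD0) s
      exact ⟨Td.up F (D.restrictScalars ℚ) (hF D hD1), rfl⟩
    rw [← LinearMap.finrank_range_of_inj hg1]
    exact Submodule.finrank_mono hg2
  have h4 : Low.R E (Sum.elim x y) = finrank ℂ V := rfl
  omega

/-- tight extensions of self-sufficient tuples are self-sufficient -/
theorem ss_of_tight (ha : SS E a) (hs : Tight E a s) : SS E s := by
  intro k z hz hsz
  have h1 := ha k z hz (fun j => LL_trans hsz (hs.mem j))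
  have h2 := hs.le
  omega

/-- exponentials of combinations -/
theorem exp_cb_mem (q : Fin m → ℚ) : Complex.exp (cb s q) ∈ Fs E s := by
  apply cl_Fs
  exact alg_of_range (fun u hu => ⟨⟨u, adj_le_Fs hu⟩, rfl⟩) (ex_alg (E := E) (s := s) q)

theorem exp_LL_mem (hE : HC E) {x : ℂ} (hx : x ∈ LL E s) : Complex.exp x ∈ Fs E s := by
  obtain ⟨q, hq⟩ := hx
  have h1 : x = (x - cb s q) + cb s q := by ring
  rw [h1, Complex.exp_add]
  exact mul_mem (le_Fs (hE.exp_mem _ hq)) (exp_cb_mem q)

/-- **generic extensions of self-sufficient tuples are self-sufficient** -/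
theorem ss_snoc_gen (hE : HC E) (hs : SS E s) {w : ℂ} (hw : w ∉ ecl (Fs E s)) :
    SS E (Fin.snoc s w : Fin (m + 1) → ℂ) := by
  classical
  intro k y hy hsy
  set F := Fs E s with hF
  have hEF : E ≤ F := le_Fs
  have hsy' : ∀ j, s j ∈ LL E y := fun j => by
    have h := hsy j.castSucc
    rwa [Fin.snoc_castSucc] at h
  have hwy : w ∈ LL E y := by
    have h := hsy (Fin.last m)
    rwa [Fin.snoc_last] at h
  set h := finrank ℚ (Q F y) with hh
  have hax : Low.R F (pt (cz F y)) + wd F y + k ≤ Low.R F (pt y) + h := by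
    have h1 := Ax.main (K := F) (z := y)
    rwa [rk_eq_R, rk_eq_R] at h1
  -- there is a derivation
  have hwd : 1 ≤ wd F y := by
    rw [Nat.one_le_iff_ne_zero]
    intro h0
    have h4 : (Dl F y).map (zv y) = ⊥ := Submodule.finrank_eq_zero.1 h0
    apply hw
    refine ⟨_, y, fun D hD => ?_⟩
    have h6 : zv y D ∈ (Dl F y).map (zv y) := ⟨D, hD, rfl⟩
    rw [h4, Submodule.mem_bot] at h6
    obtain ⟨q, hq⟩ := hwy
    have h7 : D (w - cb y q) = 0 := hD.1 _ (hEF hq)
    have h8 : D (cb y q) = 0 := by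
      unfold cb
      rw [map_sum]
      refine Finset.sum_eq_zero (fun i _ => ?_)
      rw [Ax.rat_mul, show D (y i) = 0 from congrFun h6 i, mul_zero]
    rw [map_sub, h8, sub_zero] at h7
    exact h7
  -- the combinations
  have hcz : ∀ l, cz F y l = cb y (AA F y l) := fun l => rfl
  have hcomb : ∀ g : Fin h → ℚ, cb (cz F y) g = cb y (∑ l, g l • AA F y l) := by
    intro g
    unfold cb
    simp only [hcz]
    unfold cb
    simp only [Finset.mul_sum]
    rw [Finset.sum_comm]
    refine Finset.sum_congr rfl (fun i _ => ?_)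
    rw [Finset.sum_apply]
    push_cast
    rw [Finset.sum_mul]
    refine Finset.sum_congr rfl (fun l _ => ?_)
    rw [Pi.smul_apply, smul_eq_mul]
    push_cast
    ring
  have hind : Ind E (cz F y) := by
    intro g hg
    rw [hcomb] at hg
    have h1 := hy _ hg
    funext l
    exact Fintype.linearIndependent_iff.1 (AA_indep (K := F) (z := y)) g h1 l
  have hmem : ∀ j, s j ∈ LL E (cz F y) := by
    intro j
    obtain ⟨q, hq⟩ := hsy' j
    have h1 : q ∈ Q F y := by
      rw [mem_Q]
      have h2 : ∑ i, (q i : ℂ) * y i = s j - (s j - cb y q) := by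
        unfold cb
        ring
      rw [h2]
      apply le_CC
      exact sub_mem (pt_mem (s := s) (Sum.inl j)) (hEF hq)
    let g : Fin h → ℚ := fun l => (finBasis ℚ (Q F y)).repr ⟨q, h1⟩ l
    refine ⟨g, ?_⟩
    rw [hcomb]
    have h2 : ∑ l, g l • AA F y l = q := by
      have h3 := (finBasis ℚ (Q F y)).sum_repr ⟨q, h1⟩
      have h4 := congrArg (fun v : Q F y => (v : Fin k → ℚ)) h3
      rw [Submodule.coe_sum] at h4
      exact h4
    rw [h2]
    exact hq
  have h1 := hs h (cz F y) hind hmem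
  have hkill : ∀ D : Derivation E ℂ ℂ, (∀ i, D (pt s i) = 0) → ∀ w ∈ F, D w = 0 := fun D hD =>
    kills_Fs (E := E) (s := s) (D := D.restrictScalars ℚ)
      (fun w hw => D.map_algebraMap (⟨w, hw⟩ : E)) hD
  have h2 : Low.R E (pt (cz F y)) ≤ Low.R E (pt s) + Low.R F (pt (cz F y)) := by
    refine le_trans (Low.R_mono _ _ _ ?_) (R_add_le (pt s) (pt (cz F y)) hkill)
    intro D hD i
    exact hD (Sum.inr i)
  have h3 : Low.R E (pt s) + Low.R F (pt y) ≤ Low.R E (pt y) := by
    refine le_trans (R_add_ge hEF (pt s) (pt y) pt_mem) (Low.R_mono _ _ _ ?_)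
    intro D hD
    have hk := kills_Fs (E := E) (s := y) (D := D.restrictScalars ℚ)
      (fun w hw => D.map_algebraMap (⟨w, hw⟩ : E)) hD
    have hsF : Fs E s ≤ Fs E y := by
      apply Fs_le cl_Fs le_Fs
      rintro (i | i)
      · exact LL_Fs (hsy' i)
      · exact exp_LL_mem hE (hsy' i)
    rintro (i | i)
    · exact hk _ (hsF (pt_mem i))
    · exact hD i
  have h4 : Low.R E (pt (Fin.snoc s w : Fin (m + 1) → ℂ)) ≤ Low.R E (pt s) + 2 := by
    have h5 := Low.R_sum E (pt s) (![w, Complex.exp w])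
    rw [Fintype.card_fin] at h5
    refine le_trans (Low.R_mono _ _ _ ?_) h5
    intro D hD
    rintro (i | i)
    · refine Fin.lastCases ?_ (fun j => ?_) i
      · change D ((Fin.snoc s w : Fin (m + 1) → ℂ) (Fin.last m)) = 0
        rw [Fin.snoc_last]
        exact hD (Sum.inr 0)
      · change D ((Fin.snoc s w : Fin (m + 1) → ℂ) j.castSucc) = 0
        rw [Fin.snoc_castSucc]
        exact hD (Sum.inl (Sum.inl j))
    · refine Fin.lastCases ?_ (fun j => ?_) i
      · change D (Complex.exp ((Fin.snoc s w : Fin (m + 1) → ℂ) (Fin.last m))) = 0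
        rw [Fin.snoc_last]
        exact hD (Sum.inr 1)
      · change D (Complex.exp ((Fin.snoc s w : Fin (m + 1) → ℂ) j.castSucc)) = 0
        rw [Fin.snoc_castSucc]
        exact hD (Sum.inl (Sum.inr j))
  omega

/-- **The step.** Points over `Fs E s` without special quotients can be moved to exponential points. -/
theorem tower_step (hc : Countable E) (hE : HC E) (hi : Ind E s) (hs : SS E s) {u v : ℂ}
    (hv : v ≠ 0) (huv : ¬ (u ∈ Fs E s ∧ v ∈ Fs E s))
    (hsp : ∀ q, AlgebraicIndependent E ![u - cb s q, (Complex.exp (cb s q))⁻¹ * v]) :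
    ∃ ρ : ℂ ≃+* ℂ, Fix (Fs E s) ρ ∧ ρ v = Complex.exp (ρ u) ∧
      Ind E (Fin.snoc s (ρ u) : Fin (m + 1) → ℂ) ∧ SS E (Fin.snoc s (ρ u) : Fin (m + 1) → ℂ) := by
  classical
  have hcF : Countable (Fs E s) := countable_Fs hc
  set F := Fs E s with hFdef
  have hclF : Cl F := cl_Fs
  have hua : ∀ q, u - cb s q ∉ E := fun q hq => not_algInd_left hq (hsp q)
  have hva : ∀ w, Complex.exp w = v → ∀ q, w - cb s q ∉ E := by
    intro w hw q hq
    refine not_algInd_right ?_ (hsp q)
    have h1 : (Complex.exp (cb s q))⁻¹ * v = Complex.exp (w - cb s q) := by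
      rw [Complex.exp_sub, hw]
      field_simp
    rw [h1]
    exact hE.exp_mem _ hq
  by_cases hai : AlgebraicIndependent F ![u, v]
  · obtain ⟨w, hw⟩ : ∃ w, w ∉ ecl F := by
      by_contra hcon
      push Not at hcon
      have h1 : ((ecl F : IntermediateField ℚ ℂ) : Set ℂ) = Set.univ := by
        rw [Set.eq_univ_iff_forall]
        exact hcon
      have h2 : ((ecl F : IntermediateField ℚ ℂ) : Set ℂ).Countable :=
        Set.countable_coe_iff.1 (Closure.countable hcF)
      rw [h1] at h2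
      exact not_countable_complex h2
    have hai' : AlgebraicIndependent F ![w, Complex.exp w] := by
      by_contra h
      exact hw (mem_ecl_of_rel hclF h)
    obtain ⟨ρ, h1, h2⟩ := exists_aut hcF ![u, v] ![w, Complex.exp w] (fun P => by
      constructor
      · intro h
        rw [(injective_iff_map_eq_zero _).1 hai P h, map_zero]
      · intro h
        rw [(injective_iff_map_eq_zero _).1 hai' P h, map_zero])
    have h3 : ρ u = w := h2 0
    refine ⟨ρ, h1, ?_, ?_, ?_⟩
    · rw [h3]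
      exact h2 1
    · rw [h3]
      refine ind_snoc hi (fun q hq => hw ?_)
      have h4 : w = (w - cb s q) + cb s q := by ring
      rw [h4]
      exact le_ecl (add_mem (le_Fs hq) (cb_mem q))
    · rw [h3]
      exact ss_snoc_gen hE hs hw
  -- dependent pairs
  have hmain : ∃ ρ : ℂ ≃+* ℂ, Fix F ρ ∧ ρ v = Complex.exp (ρ u) ∧ ∀ q, ρ u - cb s q ∉ E := by
    by_cases hvF : v ∈ F
    · have huF : u ∉ F := fun h => huv ⟨h, hvF⟩
      have hexp : Complex.exp (Complex.log v) = v := Complex.exp_log hv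
      have hlF : Complex.log v ∉ F := by
        intro h
        obtain ⟨q, hq⟩ := closed hs (tight_self hi) h (by rw [hexp]; exact hvF)
        exact hva _ hexp q hq
      obtain ⟨ρ, h1, h2⟩ := aut_of_tr hcF (x := u) (y := Complex.log v)
        (fun h => huF (hclF _ h)) (fun h => hlF (hclF _ h))
      exact ⟨ρ, h1, by rw [h2, hexp]; exact h1 v hvF, by rw [h2]; exact hva _ hexp⟩
    by_cases huF : u ∈ F
    · have heF : Complex.exp u ∉ F := by
        intro h
        obtain ⟨q, hq⟩ := closed hs (tight_self hi) huF h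
        exact hua q hq
      obtain ⟨ρ, h1, h2⟩ := aut_of_tr hcF (x := v) (y := Complex.exp u)
        (fun h => hvF (hclF _ h)) (fun h => heF (hclF _ h))
      exact ⟨ρ, h1, by rw [h2, h1 u huF], by rw [h1 u huF]; exact hua⟩
    · have hut : Transcendental F u := fun h => huF (hclF _ h)
      have hvt : Transcendental F v := fun h => hvF (hclF _ h)
      rw [AlgebraicIndependent, injective_iff_map_eq_zero] at hai
      push Not at hai
      obtain ⟨g, hg, hg0⟩ := hai
      obtain ⟨p, hp, hpx⟩ := exists_factor' hg0 hg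
      have hd0 : 0 < p.degreeOf 0 :=
        degreeOf_pos (i := 0) (j := 1) hp.ne_zero hpx (by decide) hvt
      have hd1 : 0 < p.degreeOf 1 :=
        degreeOf_pos (i := 1) (j := 0) hp.ne_zero hpx (by decide) hut
      have hmain : ∃ z', aeval ![z', Complex.exp z'] p = 0 ∧ ∀ q, z' - cb s q ∉ E := by
        rcases zero_or hE hi hp hd0 hd1 with h | ⟨q, hq⟩
        · exact h
        · exfalso
          obtain ⟨g, hg, hgz⟩ := caseI (E := E) (F := F) le_Fs (fun c hc => hE.exp_mem c hc)
            (cb_mem q) (exp_cb_mem q) (Complex.exp_ne_zero _) hp hq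
          exact hg ((injective_iff_map_eq_zero _).1 (hsp q) g (hgz u v hpx))
      obtain ⟨z', hz'p, hz'⟩ := hmain
      have htr : ∃ i, Transcendental F (![z', Complex.exp z'] i) := by
        by_contra hcon
        push Not at hcon
        have h1 : z' ∈ F := hclF _ (by
          have := hcon 0
          unfold Transcendental at this
          push Not at this
          exact this)
        have h2 : Complex.exp z' ∈ F := hclF _ (by
          have := hcon 1
          unfold Transcendental at this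
          push Not at this
          exact this)
        obtain ⟨q, hq⟩ := closed hs (tight_self hi) h1 h2
        exact hz' q hq
      obtain ⟨ρ, h1, h2⟩ := exists_aut hcF ![u, v] ![z', Complex.exp z'] (fun P => by
        constructor
        · intro h
          obtain ⟨r, rfl⟩ := irr_dvd2 (x := ![u, v]) ⟨0, hut⟩ hp hpx h
          rw [map_mul, hz'p, zero_mul]
        · intro h
          obtain ⟨r, rfl⟩ := irr_dvd2 htr hp hz'p h
          rw [map_mul, hpx, zero_mul])
      have h3 : ρ u = z' := h2 0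
      exact ⟨ρ, h1, by rw [h3]; exact h2 1, by rw [h3]; exact hz'⟩
  obtain ⟨ρ, h1, h2, h3⟩ := hmain
  refine ⟨ρ, h1, h2, ind_snoc hi h3, ?_⟩
  have hdep : ¬ AlgebraicIndependent F ![ρ u, Complex.exp (ρ u)] := by
    intro h
    apply hai
    rw [AlgebraicIndependent, injective_iff_map_eq_zero]
    intro P hP
    refine (injective_iff_map_eq_zero _).1 h P ?_
    have h4 := map_aeval' h1 ![u, v] P
    rw [hP, map_zero] at h4
    rw [h4]
    congr 2
    funext i
    fin_cases i
    · rfl
    · exact h2.symm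
  exact ss_of_tight hs ((tight_self hi).snoc h3 hdep)

end Pool.Agent.Helper78.EC.Qn
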