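import Mathlib
import Pool.Agent.Helper78.EC.QnW

/-!
# Hulls of self-sufficient tuples are strong
-/

set_option autoImplicit false

namespace Pool.Agent.Helper78.EC.Qn

open Set MvPolynomial Module Cardinal
open Pool.Agent.Helper78.SC Pool.Agent.Helper78.SC.Ax Pool.Agent.Helper78.SC.Cov
open Pool.Agent.Helper78.EC.Closure Pool.Agent.Helper78.EC.Generic Pool.Agent.Helper78.EC.Use
open Pool.Agent.Helper78.EC.Qm (Fix Cl Fs cb cb_add cb_sub cb_smul cb_zero cb_mem M0 exp_int_mem
  exists_aut exists_aut' exists_move exists_den pre sig_cb sig_exp bounded le_Fs pt_mem cl_Fs R_map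
  Fs_le adj_le_Fs alg_of_range map_mem_Fs cb_snoc dep_map mem_ecl_of_rel cl_ecl kills_Fs)

/-- a basis of the coordinates, and finitely many coefficients -/
theorem exists_basis (H : IntermediateField ℚ ℂ) {σ : Type} [Fintype σ] (x : σ → ℂ) :
    ∃ (J : Finset σ) (S : Finset ℂ), (∀ w ∈ S, w ∈ H) ∧
      AlgebraicIndependent H (fun j : J => x j) ∧
      ∀ F : IntermediateField ℚ ℂ, (∀ w ∈ S, w ∈ F) → Low.R F x ≤ J.card := by
  classical
  have hex : (Finset.univ.filter (fun J : Finset σ =>
      AlgebraicIndependent H (fun j : J => x j))).Nonempty :=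
    ⟨∅, Finset.mem_filter.2 ⟨Finset.mem_univ _, algebraicIndependent_empty_type⟩⟩
  obtain ⟨J, hJ, hmax⟩ := Finset.exists_max_image _ (fun J : Finset σ => J.card) hex
  have hJ' : AlgebraicIndependent H (fun j : J => x j) := (Finset.mem_filter.1 hJ).2
  set K := IntermediateField.adjoin ℚ ((H : Set ℂ) ∪ {y | ∃ j ∈ J, y = x j}) with hK
  have hHK : ∀ w ∈ H, w ∈ K := fun w hw => IntermediateField.subset_adjoin _ _ (Or.inl hw)
  have hJK : ∀ j ∈ J, x j ∈ K := fun j hj => IntermediateField.subset_adjoin _ _ (Or.inr ⟨j, hj, rfl⟩)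
  have halg : ∀ i, IsAlgebraic K (x i) := by
    intro i
    by_contra htr
    have hi : i ∉ J := fun h => htr (isAlgebraic_algebraMap (⟨x i, hJK i h⟩ : K))
    have h1 : AlgebraicIndependent K (fun _ : Unit => x i) :=
      algebraicIndependent_unique_type_iff.2 htr
    obtain ⟨D₂, hD₂, hD₂i⟩ := exists_der h1 (fun _ => (1 : ℂ))
    have hD₂i' : D₂ (x i) = 1 := hD₂i ()
    have h2 : AlgebraicIndependent H (fun j : (insert i J : Finset σ) => x j) := by
      apply algInd_of_der
      intro v
      obtain ⟨D₁, hD₁, hD₁J⟩ := exists_der hJ'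
        (fun j : J => v ⟨j, Finset.mem_insert_of_mem j.2⟩)
      refine ⟨D₁ + (v ⟨i, Finset.mem_insert_self _ _⟩ - D₁ (x i)) • D₂, fun w hw => ?_,
        fun j => ?_⟩
      · rw [Derivation.add_apply, Derivation.smul_apply, hD₁ w hw, hD₂ w (hHK w hw), smul_zero,
          add_zero]
      · obtain ⟨j, hj⟩ := j
        rcases Finset.mem_insert.1 hj with h3 | h3
        · subst h3
          rw [Derivation.add_apply, Derivation.smul_apply, hD₂i', smul_eq_mul, mul_one]
          ring
        · rw [Derivation.add_apply, Derivation.smul_apply, hD₂ _ (hJK j h3), smul_zero, add_zero]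
          exact hD₁J ⟨j, h3⟩
    have h3 := hmax _ (Finset.mem_filter.2 ⟨Finset.mem_univ _, h2⟩)
    rw [Finset.card_insert_of_notMem hi] at h3
    omega
  -- the coefficients
  have hco : ∀ w ∈ K, ∃ S : Finset ℂ, (∀ v ∈ S, v ∈ H) ∧ ∀ F : IntermediateField ℚ ℂ,
      (∀ v ∈ S, v ∈ F) → w ∈ IntermediateField.adjoin ℚ ((F : Set ℂ) ∪ {y | ∃ j ∈ J, y = x j}) := by
    intro w hw
    induction hw using IntermediateField.adjoin_induction with
    | mem w hw =>
      rcases hw with hw | hw
      · exact ⟨{w}, by simpa using hw, fun F hF =>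
          IntermediateField.subset_adjoin _ _ (Or.inl (hF w (by simp)))⟩
      · exact ⟨∅, by simp, fun F _ => IntermediateField.subset_adjoin _ _ (Or.inr hw)⟩
    | algebraMap q => exact ⟨∅, by simp, fun F _ => IntermediateField.algebraMap_mem _ q⟩
    | add y z _ _ ihy ihz =>
      obtain ⟨S, hS, hS'⟩ := ihy
      obtain ⟨T, hT, hT'⟩ := ihz
      exact ⟨S ∪ T, fun v hv => (Finset.mem_union.1 hv).elim (hS v) (hT v), fun F hF =>
        add_mem (hS' F fun v hv => hF v (Finset.mem_union_left _ hv))
          (hT' F fun v hv => hF v (Finset.mem_union_right _ hv))⟩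
    | inv y _ ihy =>
      obtain ⟨S, hS, hS'⟩ := ihy
      exact ⟨S, hS, fun F hF => inv_mem (hS' F hF)⟩
    | mul y z _ _ ihy ihz =>
      obtain ⟨S, hS, hS'⟩ := ihy
      obtain ⟨T, hT, hT'⟩ := ihz
      exact ⟨S ∪ T, fun v hv => (Finset.mem_union.1 hv).elim (hS v) (hT v), fun F hF =>
        mul_mem (hS' F fun v hv => hF v (Finset.mem_union_left _ hv))
          (hT' F fun v hv => hF v (Finset.mem_union_right _ hv))⟩
  choose p hp0 hp using halg
  choose T hT hT' using fun (i : σ) (l : ℕ) => hco ((p i).coeff l) ((p i).coeff l).2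
  refine ⟨J, Finset.univ.biUnion fun i => (p i).support.biUnion fun l => T i l, ?_, hJ', ?_⟩
  · intro w hw
    obtain ⟨i, -, hw⟩ := Finset.mem_biUnion.1 hw
    obtain ⟨l, -, hw⟩ := Finset.mem_biUnion.1 hw
    exact hT i l w hw
  · intro F hF
    have h1 : Low.R F x ≤ Low.R F (fun j : J => x j) := by
      apply Low.R_mono
      intro D hD i
      set G := IntermediateField.adjoin ℚ ((F : Set ℂ) ∪ {y | ∃ j ∈ J, y = x j}) with hG
      have hkG : ∀ w ∈ G, D w = 0 := by
        apply kills_adjoin (D := D.restrictScalars ℚ)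
        rintro w (hw | ⟨j, hj, rfl⟩)
        · exact D.map_algebraMap (⟨w, hw⟩ : F)
        · exact hD ⟨j, hj⟩
      have hcG : ∀ l, ((p i).coeff l : ℂ) ∈ G := by
        intro l
        by_cases hl : l ∈ (p i).support
        · refine hT' i l F (fun v hv => hF v ?_)
          exact Finset.mem_biUnion.2 ⟨i, Finset.mem_univ i, Finset.mem_biUnion.2 ⟨l, hl, hv⟩⟩
        · rw [Polynomial.notMem_support_iff.1 hl]
          exact zero_mem _
      have halg' : IsAlgebraic G (x i) := by
        refine ⟨∑ l ∈ (p i).support, Polynomial.monomial l ⟨_, hcG l⟩, ?_, ?_⟩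
        · intro h0
          apply hp0 i
          ext l
          have h1 := congrArg (fun q => Polynomial.coeff q l) h0
          simp only [Polynomial.finsetSum_coeff, Polynomial.coeff_zero] at h1
          by_cases hl : l ∈ (p i).support
          · rw [Finset.sum_eq_single l] at h1
            · rw [Polynomial.coeff_monomial, if_pos rfl] at h1
              have h2 := congrArg Subtype.val h1
              exact h2
            · intro l' _ hl'
              rw [Polynomial.coeff_monomial, if_neg hl']
            · exact fun h => absurd hl h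
          · rw [Polynomial.notMem_support_iff.1 hl]
            rfl
        · rw [map_sum, ← hp i, Polynomial.aeval_eq_sum_range' (n := (p i).natDegree + 1) (by omega),
            Finset.sum_subset (s₂ := Finset.range ((p i).natDegree + 1))]
          · refine Finset.sum_congr rfl (fun l _ => ?_)
            rw [Polynomial.aeval_monomial, Algebra.smul_def]
            rfl
          · exact Polynomial.supp_subset_range_natDegree_succ
          · intro l _ hl
            have h2 : (⟨_, hcG l⟩ : G) = 0 := by
              apply Subtype.ext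
              change ((p i).coeff l : ℂ) = 0
              rw [Polynomial.notMem_support_iff.1 hl]
              rfl
            rw [h2, Polynomial.monomial_zero_right, map_zero]
      exact kills_alg (D := D.restrictScalars ℚ) hkG halg'
    have h2 : Low.R F (fun j : J => x j) ≤ J.card := by
      unfold Low.R
      refine (Submodule.finrank_le _).trans ?_
      rw [finrank_fintype_fun_eq_card, Fintype.card_coe]
    exact h1.trans h2

variable {E : IntermediateField ℚ ℂ} {n : ℕ} {a : Fin n → ℂ}

/-- ranks over the field of a self-sufficient tuple -/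
theorem rank_over {m : ℕ} {s : Fin m → ℂ} (hi : Ind E s) (hs : SS E s) {H : IntermediateField ℚ ℂ}
    (hEH : E ≤ H) (hsH : ∀ j, s j ∈ H) {r : ℕ} {w : Fin r → ℂ} (hw : Ind H w) :
    r ≤ Low.R (Fs E s) (pt w) := by
  have hcb : ∀ (q : Fin (m + r) → ℚ), cb (Fin.append s w) q =
      cb s (fun i => q (Fin.castAdd r i)) + cb w (fun i => q (Fin.natAdd m i)) := by
    intro q
    unfold cb
    rw [Fin.sum_univ_add]
    simp only [Fin.append_left, Fin.append_right]
  have hind : Ind E (Fin.append s w) := by
    intro q hq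
    rw [hcb] at hq
    have h1 : cb s (fun i => q (Fin.castAdd r i)) ∈ H := by
      unfold cb
      exact sum_mem fun i _ => mul_mem (H.algebraMap_mem (q (Fin.castAdd r i))) (hsH i)
    have h2 : (fun i => q (Fin.natAdd m i)) = 0 := by
      apply hw
      have h3 := sub_mem (hEH hq) h1
      rwa [add_sub_cancel_left] at h3
    have h3 : (fun i => q (Fin.castAdd r i)) = 0 := by
      apply hi
      rw [h2, cb_zero, add_zero] at hq
      exact hq
    funext i
    refine Fin.addCases (fun j => ?_) (fun j => ?_) i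
    · exact congrFun h3 j
    · exact congrFun h2 j
  have h1 := hs (m + r) (Fin.append s w) hind (fun j => by
    refine ⟨Pi.single (Fin.castAdd r j) 1, ?_⟩
    rw [cb_single, Fin.append_left, Rat.cast_one, one_mul, sub_self]
    exact zero_mem E)
  have h2 : Low.R E (pt (Fin.append s w)) ≤ Low.R E (pt s) + Low.R (Fs E s) (pt w) := by
    refine le_trans (Low.R_mono _ _ _ ?_) (R_add_le (pt s) (pt w) (fun D hD =>
      kills_Fs (E := E) (s := s) (D := D.restrictScalars ℚ)
        (fun w hw => D.map_algebraMap (⟨w, hw⟩ : E)) hD))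
    intro D hD
    rintro (i | i)
    · refine Fin.addCases (fun j => ?_) (fun j => ?_) i
      · change D ((Fin.append s w) (Fin.castAdd r j)) = 0
        rw [Fin.append_left]
        exact hD (Sum.inl (Sum.inl j))
      · change D ((Fin.append s w) (Fin.natAdd m j)) = 0
        rw [Fin.append_right]
        exact hD (Sum.inr (Sum.inl j))
    · refine Fin.addCases (fun j => ?_) (fun j => ?_) i
      · change D (Complex.exp ((Fin.append s w) (Fin.castAdd r j))) = 0
        rw [Fin.append_left]
        exact hD (Sum.inl (Sum.inr j))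
      · change D (Complex.exp ((Fin.append s w) (Fin.natAdd m j))) = 0
        rw [Fin.append_right]
        exact hD (Sum.inr (Sum.inr j))
  omega

/-- **Hulls of self-sufficient tuples are strong.** -/
theorem strong (hc : Countable E) (hE : HC E) (hi : Ind E a) (ha : SS E a) {r : ℕ} {w : Fin r → ℂ}
    (hw : Ind (hull ((E : Set ℂ) ∪ range a)) w) :
    ∃ J : Finset (Fin r ⊕ Fin r), J.card = r ∧
      AlgebraicIndependent (hull ((E : Set ℂ) ∪ range a)) (fun j : J => pt w j) := by
  classical
  obtain ⟨J, S, hS, hJ, hF⟩ := exists_basis (hull ((E : Set ℂ) ∪ range a)) (pt w)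
  obtain ⟨p₀⟩ := exists_PI hc hE (a' := a) hi (fun _ _ _ => Iff.rfl)
  obtain ⟨p, -, hp⟩ := reach_finset S (fun z hz => reach hc hE ha ha (hS z hz)) p₀
  have h1 := rank_over (H := hull ((E : Set ℂ) ∪ range a)) p.tight.ind (ss_of_tight ha p.tight)
    (fun _ hx => subset_hull _ (Or.inl hx)) p.mem hw
  have h2 := hF (Fs E p.s) (fun z hz => LL_Fs (hp z hz))
  obtain ⟨J', hJ', hcard⟩ := Finset.exists_subset_card_eq (h1.trans h2)
  refine ⟨J', hcard, ?_⟩
  exact hJ.comp (fun j : J' => (⟨j, hJ' j.2⟩ : J)) (fun j j' h => by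
    apply Subtype.ext
    exact congrArg (fun j : J => (j : Fin r ⊕ Fin r)) h)

end Pool.Agent.Helper78.EC.Qn
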