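import Mathlib
import Pool.Agent.Helper78.SC.Low

/-!
# Points with exponentials in a field of small transcendence degree
-/

set_option autoImplicit false

namespace Pool.Agent.Helper78.EC.Dict

open Module MeasureTheory Pool.Agent.Helper78.SC Pool.Agent.Helper78.SC.Ax Pool.Agent.Helper78.SC.Cov
open Pool.Agent.Helper78.SC.Low
open Pool.Agent.W252 Pool.Agent.W669.Gel Pool.Agent.TH813.Core Pool.Agent.TH813.Rank
open scoped ENNReal

theorem trd_eq {σ : Type} [Finite σ] (x : σ → ℂ) :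
    Algebra.trdeg ℚ (IntermediateField.adjoin ℚ (Set.range x)) =
      ((finrank ℂ (LinearMap.range (Trd.vl x :
        Derivation ℚ ℂ ℂ →ₗ[ℂ] (σ → ℂ))) : ℕ) : Cardinal) := by
  have := Fintype.ofFinite σ
  rw [← Trd.trdeg_eq]
  congr 1

theorem bot_der (D : Derivation ℚ ℂ ℂ) : D ∈ VK (⊥ : IntermediateField ℚ ℂ) := by
  intro w hw
  obtain ⟨q, rfl⟩ := IntermediateField.mem_bot.1 hw
  exact D.map_algebraMap q

/-- transcendence degrees over the field of rational numbers -/
theorem trd_R {σ : Type} [Finite σ] (x : σ → ℂ) :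
    Algebra.trdeg ℚ (IntermediateField.adjoin ℚ (Set.range x)) = ((R ⊥ x : ℕ) : Cardinal) := by
  rw [trd_eq]
  congr 1
  apply le_antisymm
  · apply Submodule.finrank_mono
    rintro _ ⟨D, rfl⟩
    exact ⟨Td.up ⊥ D (bot_der D), rfl⟩
  · apply Submodule.finrank_mono
    rintro _ ⟨D, rfl⟩
    exact ⟨D.restrictScalars ℚ, rfl⟩

theorem countable_bot : Countable (⊥ : IntermediateField ℚ ℂ) :=
  Countable.of_equiv ℚ (IntermediateField.botEquiv ℚ ℂ).symm.toEquiv

theorem cz_indep {n : ℕ} {z : Fin n → ℂ} (hz : LinearIndependent ℚ z) :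
    LinearIndependent ℚ (cz ⊥ z) := by
  have h1 : LinearMap.ker (Fintype.linearCombination ℚ z) = ⊥ := by
    rw [LinearMap.ker_eq_bot']
    intro q hq
    rw [Fintype.linearCombination_apply] at hq
    exact funext (Fintype.linearIndependent_iff.1 hz q hq)
  have h2 := (AA_indep (K := ⊥) (z := z)).map' (Fintype.linearCombination ℚ z) h1
  have h3 : (Fintype.linearCombination ℚ z : (Fin n → ℚ) → ℂ) ∘ (fun l => AA ⊥ z l) = cz ⊥ z := by
    funext l
    change Fintype.linearCombination ℚ z (AA ⊥ z l) = _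
    rw [Fintype.linearCombination_apply]
    exact Finset.sum_congr rfl (fun j _ => Rat.smul_def _ _)
  rw [h3] at h2
  exact h2

/-- the exponentials of the coordinates -/
noncomputable def ex {n : ℕ} (z : Fin n → ℂ) (i : Fin n) : ℂ := Complex.exp (z i)

theorem rk_eq_R (E : IntermediateField ℚ ℂ) {n : ℕ} (z : Fin n → ℂ) : rk E z = R E (pt z) := by
  have h1 := Td.td_eq E z
  rw [td_eq_R] at h1
  exact_mod_cast h1.symm

/-- if the transcendence degree of the exponentials is at most the rank, then all derivations of the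
field of the exponentials come from derivations of the exponential field -/
theorem lift {n m : ℕ} {z : Fin n → ℂ} (h1 : R ⊥ (ex z) ≤ m) (h2 : m ≤ wd ⊥ z)
    (D : Derivation ℚ ℂ ℂ) : ∃ D' ∈ Dl ⊥ z, ∀ i, D (ex z i) = D' (ex z i) := by
  let V : Submodule ℂ (Fin n → ℂ) :=
    LinearMap.range (Trd.vl (ex z) : Derivation (⊥ : IntermediateField ℚ ℂ) ℂ ℂ →ₗ[ℂ] (Fin n → ℂ))
  let s : (Fin n → ℂ) →ₗ[ℂ] (Fin n → ℂ) :=
    { toFun := fun v i => ex z i * v i
      map_add' := fun v w => by funext i; simp [mul_add]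
      map_smul' := fun r v => by funext i; simp [mul_left_comm] }
  have hs : Function.Injective s := by
    intro v w hvw
    funext i
    exact mul_left_cancel₀ (Complex.exp_ne_zero _) (congrFun hvw i)
  let T : Submodule ℂ (Fin n → ℂ) := ((Dl ⊥ z).map (zv z)).map s
  have hTV : T ≤ V := by
    rintro _ ⟨_, ⟨D, hD, rfl⟩, rfl⟩
    refine ⟨Td.up ⊥ D (bot_der D), ?_⟩
    funext i
    change D (Complex.exp (z i)) = Complex.exp (z i) * D (z i)
    have h3 := hD.2 i
    unfold dlog at h3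
    rw [← h3, mul_div_cancel₀ _ (Complex.exp_ne_zero _)]
  have hT : finrank ℂ T = wd ⊥ z := by
    change finrank ℂ (((Dl ⊥ z).map (zv z)).map s) = _
    exact (Submodule.equivMapOfInjective s hs ((Dl ⊥ z).map (zv z))).finrank_eq.symm
  have hVfin : finrank ℂ V = R ⊥ (ex z) := rfl
  have hTV2 : T = V := Submodule.eq_of_le_of_finrank_le hTV (by rw [hT, hVfin]; exact h1.trans h2)
  have h4 : (fun i => D (ex z i)) ∈ V := ⟨Td.up ⊥ D (bot_der D), rfl⟩
  rw [← hTV2] at h4
  obtain ⟨_, ⟨D', hD', rfl⟩, h5⟩ := h4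
  refine ⟨D', hD', fun i => ?_⟩
  have h6 : ex z i * D' (z i) = D (ex z i) := congrFun h5 i
  have h3 := hD'.2 i
  unfold dlog at h3
  rw [← h6, ← h3]
  unfold ex
  rw [mul_div_cancel₀ _ (Complex.exp_ne_zero _)]

/-- a number killed by all derivations is algebraic -/
theorem alg_of_kills {w : ℂ} (hw : ∀ D : Derivation ℚ ℂ ℂ, D w = 0) : IsAlgebraic ℚ w := by
  by_contra hcon
  have h1 : AlgebraicIndependent ℚ (fun _ : Unit => w) :=
    algebraicIndependent_unique_type_iff.2 hcon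
  obtain ⟨D, hD⟩ := Pool.Agent.H135R2.VS.exists_der h1 (fun _ => (1 : ℂ))
  have h2 := hD ()
  rw [hw D] at h2
  exact zero_ne_one h2

theorem dlog_eq {D : Derivation ℚ ℂ ℂ} {x : ℂ} : D (Complex.exp x) = Complex.exp x * dlog D x := by
  unfold dlog
  rw [mul_div_cancel₀ _ (Complex.exp_ne_zero _)]

/-- the constants of the exponential derivations in the span of the coordinates are logarithms -/
theorem cz_log {n m : ℕ} {z : Fin n → ℂ} (h1 : R ⊥ (ex z) ≤ m) (h2 : m ≤ wd ⊥ z)
    (l : Fin (finrank ℚ (Q ⊥ z))) : IsAlgebraic ℚ (Complex.exp (cz ⊥ z l)) := by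
  apply alg_of_kills
  intro D
  obtain ⟨D', hD', h3⟩ := lift h1 h2 D
  have h4 : D' (Complex.exp (cz ⊥ z l)) = 0 := exp_cz_mem l D' hD'
  rw [← h4, dlog_eq, dlog_eq]
  congr 1
  have h5 : ∀ E : Derivation ℚ ℂ ℂ, dlog E (cz ⊥ z l) = ∑ j, ((AA ⊥ z l j : ℚ) : ℂ) * dlog E (z j) :=
    fun E => dlog_comb (fun l => AA ⊥ z l) E l
  rw [h5, h5]
  refine Finset.sum_congr rfl (fun j _ => ?_)
  congr 1
  have h6 := h3 j
  unfold dlog
  unfold ex at h6
  rw [h6]

/-- the number of the independent logarithms in the span -/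
theorem key {n m h : ℕ} {z : Fin n → ℂ} (hn : n = h + m) (h1 : R ⊥ (ex z) ≤ m) (h2 : m ≤ wd ⊥ z)
    (hz : LinearIndependent ℚ z) (δ : ℕ)
    (hL : ∀ j ≤ h, ∀ c : Fin j → ℂ, (∀ i, IsAlgebraic ℚ (Complex.exp (c i))) →
      LinearIndependent ℚ c → j ≤ R ⊥ c + δ) : h + 2 * m ≤ R ⊥ (pt z) + δ := by
  have h3 := wd_add_le (K := ⊥) (z := z)
  have h4 := main (K := ⊥) (z := z)
  have h5 := hL _ (by omega) (cz ⊥ z) (cz_log h1 h2) (cz_indep hz)
  have h6 : R ⊥ (cz ⊥ z) ≤ R ⊥ (pt (cz ⊥ z)) := by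
    apply R_mono
    exact fun D hD t => hD (Sum.inl t)
  rw [rk_eq_R, rk_eq_R] at h4
  omega

/-- a set which contains almost all points with some fixed coordinates -/
theorem dimH_ge {ι : Type} [Finite ι] {n m : ℕ} (e : Fin n ≃ ι ⊕ Fin m) (c : ι → ℂ)
    (hc : LinearIndependent ℚ c) (A : Set (Fin n → ℂ))
    (hA : ∀ y : Fin m → ℂ, LinearIndependent ℚ (Sum.elim c y) → Sum.elim c y ∘ e ∈ A) :
    ((2 * m : ℕ) : ℝ≥0∞) ≤ dimH A := by
  let Z : (Fin m → ℂ) → (Fin n → ℂ) := fun y => Sum.elim c y ∘ e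
  let G : Set (Fin m → ℂ) := {y | LinearIndependent ℚ (Sum.elim c y)}
  have hZ : Z '' G ⊆ A := by
    rintro _ ⟨y, hy, rfl⟩
    exact hA y hy
  let P : (Fin n → ℂ) →L[ℂ] (Fin m → ℂ) :=
    ContinuousLinearMap.pi (fun i => ContinuousLinearMap.proj (e.symm (Sum.inr i)))
  have hP : ∀ y, P (Z y) = y := by
    intro y
    funext i
    change Sum.elim c y (e (e.symm (Sum.inr i))) = y i
    rw [Equiv.apply_symm_apply]
    rfl
  have h1 : G = P '' (Z '' G) := by
    rw [← Set.image_comp]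
    have : (P ∘ Z) = id := funext hP
    rw [this, Set.image_id]
  have h2 : dimH G ≤ dimH A := by
    rw [h1]
    exact (P.lipschitz.dimH_image_le _).trans (dimH_mono hZ)
  have h3 : finrank ℝ (Fin m → ℂ) = 2 * m := by
    rw [finrank_real_of_complex, finrank_fintype_fun_eq_card, Fintype.card_fin]
  have h4 : (Measure.hausdorffMeasure (finrank ℝ (Fin m → ℂ) : ℝ) :
      Measure (Fin m → ℂ)).IsAddHaarMeasure := isAddHaarMeasure_hausdorffMeasure
  have h5 := dimH_full G (null_dep c hc m _)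
  rw [h3] at h5
  exact h5.trans h2

/-- algebraic elements over a larger field -/
theorem alg_mono {F G : IntermediateField ℚ ℂ} (h : F ≤ G) {x : ℂ} (hx : IsAlgebraic F x) :
    IsAlgebraic G x := by
  obtain ⟨p, hp, hp0⟩ := hx
  refine ⟨p.map (IntermediateField.inclusion h).toRingHom, ?_, ?_⟩
  · exact (Polynomial.map_ne_zero_iff (IntermediateField.inclusion h).injective).2 hp
  · rw [Polynomial.aeval_def, Polynomial.eval₂_map]
    rw [Polynomial.aeval_def] at hp0
    exact hp0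

end Pool.Agent.Helper78.EC.Dict
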