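import Mathlib
import Pool.Agent.Helper78.EC.Use
import Pool.Agent.Helper78.EC.Dict

/-!
# Towers of exponentials and logarithms over a generic point
-/

set_option autoImplicit false

namespace Pool.Agent.Helper78.EC.Tow

open MvPolynomial Filter Topology Module Set
open Pool.Agent.Helper78.SC Pool.Agent.Helper78.SC.Ax Pool.Agent.Helper78.SC.Cov
open Pool.Agent.Helper78.EC.Flow Pool.Agent.Helper78.EC.Move Pool.Agent.Helper78.EC.Closure
open Pool.Agent.Helper78.EC.Generic Pool.Agent.Helper78.EC.Use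
open Pool.Agent.W252 Pool.Agent.W669.Gel Pool.Agent.TH813.Core Pool.Agent.TH813.Rank

/-- The field `F` is closed under exponentials and logarithms and is algebraically closed. -/
def Closed (F : IntermediateField ℚ ℂ) : Prop :=
  (∀ x ∈ F, Complex.exp x ∈ F) ∧ (∀ x, Complex.exp x ∈ F → x ∈ F) ∧ ∀ x, IsAlgebraic F x → x ∈ F

/-- The smallest field of complex numbers which is closed under exponentials and logarithms and is
algebraically closed. -/
noncomputable def EL : IntermediateField ℚ ℂ := sInf {F | Closed F}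

theorem EL_le {F : IntermediateField ℚ ℂ} (hF : Closed F) : EL ≤ F := sInf_le hF

theorem mem_EL {x : ℂ} : x ∈ EL ↔ ∀ F : IntermediateField ℚ ℂ, Closed F → x ∈ F := by
  unfold EL
  rw [← SetLike.mem_coe, IntermediateField.coe_sInf]
  simp

theorem closed_EL : Closed EL := by
  refine ⟨fun x hx => mem_EL.2 fun F hF => hF.1 x (mem_EL.1 hx F hF),
    fun x hx => mem_EL.2 fun F hF => hF.2.1 x (mem_EL.1 hx F hF), fun x hx => mem_EL.2 fun F hF => ?_⟩
  apply hF.2.2
  obtain ⟨p, hp, hp0⟩ := hx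
  refine ⟨p.map (IntermediateField.inclusion (EL_le hF)).toRingHom, ?_, ?_⟩
  · exact (Polynomial.map_ne_zero_iff (IntermediateField.inclusion (EL_le hF)).injective).2 hp
  · rw [Polynomial.aeval_def, Polynomial.eval₂_map]
    rw [Polynomial.aeval_def] at hp0
    exact hp0

theorem closed_ecl (K : IntermediateField ℚ ℂ) : Closed (ecl K) :=
  ⟨fun _ hx => exp_mem hx, fun _ hx => log_mem hx, fun _ hx => alg_mem hx⟩

variable {K F : IntermediateField ℚ ℂ}

/-- elements of the closure which are algebraic over a field generated by independent elements -/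
theorem mem_of_ecl (hF : ∀ x, IsAlgebraic F x → x ∈ F) (hFE : F ≤ ecl K) {σ : Type} [Fintype σ]
    {y : σ → ℂ} (hy : AlgebraicIndependent (ecl K) y) {w : ℂ} (hw : w ∈ ecl K)
    (hwy : ∀ D : Derivation ℚ ℂ ℂ, (∀ u ∈ F, D u = 0) → (∀ s, D (y s) = 0) → D w = 0) : w ∈ F := by
  by_contra hcon
  have h1 : AlgebraicIndependent F (fun _ : Unit => w) :=
    algebraicIndependent_unique_type_iff.2 (fun h => hcon (hF w h))
  obtain ⟨D₀, hD₀, hD₀w⟩ := exists_der h1 (fun _ => (1 : ℂ))
  obtain ⟨D₁, hD₁, hD₁y⟩ := exists_der hy (fun s => D₀ (y s))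
  have h3 := hwy (D₀ - D₁) (fun u hu => by
    rw [Derivation.sub_apply, hD₀ u hu, hD₁ u (hFE hu), sub_zero]) (fun s => by
    rw [Derivation.sub_apply, hD₁y, sub_self])
  rw [Derivation.sub_apply, hD₁ w hw, sub_zero, hD₀w ()] at h3
  exact one_ne_zero h3

/-- the field generated by `F`, `t` and the first coordinates of `z` and their exponentials -/
noncomputable def Stage (F : IntermediateField ℚ ℂ) {m n : ℕ} (t : Fin m → ℂ) (z : Fin n → ℂ)
    (i : Fin n) : IntermediateField ℚ ℂ :=
  IntermediateField.adjoin ℚ ((F : Set ℂ) ∪ range t ∪ z '' {j | j < i} ∪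
    (fun j => Complex.exp (z j)) '' {j | j < i})

/-- a tower of exponentials and logarithms -/
def Tower (F : IntermediateField ℚ ℂ) {m n : ℕ} (t : Fin m → ℂ) (z : Fin n → ℂ) : Prop :=
  ∀ i, IsAlgebraic (Stage F t z i) (z i) ∨ IsAlgebraic (Stage F t z i) (Complex.exp (z i))

/-- derivations killing the generators -/
theorem kills_tower {m n : ℕ} {t : Fin m → ℂ} {z : Fin n → ℂ}
    (y : Fin n → ℂ) (hy : ∀ i, (IsAlgebraic (Stage F t z i) (z i) ∧ y i = Complex.exp (z i)) ∨
      (IsAlgebraic (Stage F t z i) (Complex.exp (z i)) ∧ y i = z i))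
    {D : Derivation ℚ ℂ ℂ} (hDF : ∀ u ∈ F, D u = 0) (hDt : ∀ j, D (t j) = 0) (k : ℕ) :
    (∀ i : Fin n, (i : ℕ) < k → D (y i) = 0) →
      ∀ i : Fin n, (i : ℕ) < k → D (z i) = 0 ∧ D (Complex.exp (z i)) = 0 := by
  induction k with
  | zero => intro _ i hi; omega
  | succ k ih =>
    intro hk i hi
    have ih' := ih (fun i hi => hk i (by omega))
    rcases Nat.lt_succ_iff_lt_or_eq.1 hi with h1 | h1
    · exact ih' i h1
    · have h2 : ∀ w ∈ Stage F t z i, D w = 0 := by
        apply kills_adjoin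
        rintro w (((hw | ⟨j, rfl⟩) | ⟨j, hj, rfl⟩) | ⟨j, hj, rfl⟩)
        · exact hDF w hw
        · exact hDt j
        · have hj' : j < i := hj
          exact (ih' j (by have := Fin.lt_def.1 hj'; omega)).1
        · have hj' : j < i := hj
          exact (ih' j (by have := Fin.lt_def.1 hj'; omega)).2
      rcases hy i with ⟨h3, h4⟩ | ⟨h3, h4⟩
      · have h5 := hk i hi
        rw [h4] at h5
        exact ⟨kills_alg h2 h3, h5⟩
      · have h5 := hk i hi
        rw [h4] at h5
        exact ⟨h5, kills_alg h2 h3⟩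

/-- derivations killing the exponentials of the coordinates kill the exponentials of the rational
combinations -/
theorem kills_exp_sum {n : ℕ} {z : Fin n → ℂ} {D : Derivation ℚ ℂ ℂ} (q : Fin n → ℚ)
    (h : ∀ i, q i ≠ 0 → D (Complex.exp (z i)) = 0) : D (Complex.exp (∑ i, (q i : ℂ) * z i)) = 0 := by
  rw [Dict.dlog_eq]
  have h1 := dlog_comb (z := z) (fun _ : Fin 1 => q) D 0
  have h2 : dlog D (∑ i, (q i : ℂ) * z i) = 0 := by
    refine h1.trans (Finset.sum_eq_zero (fun i _ => ?_))
    by_cases hq : q i = 0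
    · change ((q i : ℚ) : ℂ) * _ = 0
      rw [hq, Rat.cast_zero, zero_mul]
    · have h3 := h i hq
      rw [Dict.dlog_eq] at h3
      rw [(mul_eq_zero.1 h3).resolve_left (Complex.exp_ne_zero _), mul_zero]
  rw [h2, mul_zero]

/-- the type of the new generators -/
def New (F : IntermediateField ℚ ℂ) {m n : ℕ} (t : Fin m → ℂ) (z y : Fin n → ℂ) : Prop :=
  ∀ i, (IsAlgebraic (Stage F t z i) (z i) ∧ y i = Complex.exp (z i)) ∨
    (IsAlgebraic (Stage F t z i) (Complex.exp (z i)) ∧ y i = z i)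

theorem exists_new {m n : ℕ} {t : Fin m → ℂ} {z : Fin n → ℂ} (h : Tower F t z) :
    ∃ y, New F t z y := by
  classical
  refine ⟨fun i => if IsAlgebraic (Stage F t z i) (z i) then Complex.exp (z i) else z i, fun i => ?_⟩
  by_cases h1 : IsAlgebraic (Stage F t z i) (z i)
  · exact Or.inl ⟨h1, if_pos h1⟩
  · exact Or.inr ⟨(h i).resolve_left h1, if_neg h1⟩

theorem sum_cast {n k : ℕ} (hk : k ≤ n) (q : Fin k → ℚ) (z : Fin n → ℂ) :
    ∑ i : Fin n, ((if h : (i : ℕ) < k then q ⟨i, h⟩ else 0 : ℚ) : ℂ) * z i =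
      ∑ i : Fin k, (q i : ℂ) * z (Fin.castLE hk i) := by
  classical
  obtain ⟨d, rfl⟩ := Nat.exists_eq_add_of_le hk
  rw [Fin.sum_univ_add]
  have h1 : ∑ i : Fin d, ((if h : ((Fin.natAdd k i : Fin (k + d)) : ℕ) < k then
      q ⟨(Fin.natAdd k i : Fin (k + d)), h⟩ else 0 : ℚ) : ℂ) * z (Fin.natAdd k i) = 0 := by
    refine Finset.sum_eq_zero (fun i _ => ?_)
    rw [dif_neg (by rw [Fin.val_natAdd]; omega), Rat.cast_zero, zero_mul]
  rw [h1, add_zero]
  refine Finset.sum_congr rfl (fun i _ => ?_)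
  rw [dif_pos (show ((Fin.castAdd d i : Fin (k + d)) : ℕ) < k from i.2)]
  rfl

/-- the independence of the first elements -/
theorem indep_of {m n : ℕ} {t : Fin m → ℂ} (ht : Gen K t) {z y : Fin n → ℂ} (hy : New F t z y)
    (hFE : F ≤ ecl K) {k : ℕ} (hk : k ≤ n)
    (hP : ∀ q : Fin n → ℚ, (∀ i : Fin n, k ≤ i → q i = 0) → ∑ i, (q i : ℂ) * z i ∈ ecl K → q = 0) :
    AlgebraicIndependent (ecl K) (Sum.elim t (fun i : Fin k => y (Fin.castLE hk i))) := by
  classical
  apply algInd_of_R
  have h1 := key t ht (fun i : Fin k => z (Fin.castLE hk i)) (by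
    intro q hq
    have h2 := hP (fun i => if h : (i : ℕ) < k then q ⟨i, h⟩ else 0)
      (fun i hi => dif_neg (by omega)) (by rw [sum_cast hk]; exact hq)
    funext i
    have h3 := congrFun h2 (Fin.castLE hk i)
    change (if h : (i : ℕ) < k then q ⟨i, h⟩ else 0) = 0 at h3
    rw [dif_pos i.2] at h3
    exact h3)
  rw [Fintype.card_sum, Fintype.card_fin, Fintype.card_fin]
  refine h1.trans ?_
  apply Low.R_mono
  intro D hD
  have h4 := kills_tower y hy (D := D.restrictScalars ℚ)
    (fun u hu => D.map_algebraMap (⟨u, hFE hu⟩ : ecl K)) (fun j => hD (Sum.inl j)) k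
    (fun i hi => hD (Sum.inr ⟨i, hi⟩))
  rintro (j | (i | i))
  · exact hD (Sum.inl j)
  · exact (h4 (Fin.castLE hk i) i.2).1
  · exact (h4 (Fin.castLE hk i) i.2).2

/-- **Towers.** If the combinations of the elements of a tower are not in `F`, then they are not in
the closure. -/
theorem tower {m n : ℕ} {t : Fin m → ℂ} (ht : Gen K t) (hF : Closed F) (hFE : F ≤ ecl K)
    {z y : Fin n → ℂ} (hy : New F t z y) (hz : ∀ q : Fin n → ℚ, ∑ i, (q i : ℂ) * z i ∈ F → q = 0)
    (k : ℕ) : k ≤ n → ∀ q : Fin n → ℚ, (∀ i : Fin n, k ≤ i → q i = 0) →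
      ∑ i, (q i : ℂ) * z i ∈ ecl K → q = 0 := by
  induction k with
  | zero =>
    intro _ q hq _
    exact funext fun i => hq i (Nat.zero_le _)
  | succ k ih =>
    intro hk q hq hc
    have ih' := ih (by omega)
    by_cases hqk : q ⟨k, hk⟩ = 0
    · apply ih' q _ hc
      intro i hi
      rcases Nat.lt_or_eq_of_le hi with h1 | h1
      · exact hq i h1
      · rw [← hqk]
        congr 1
        exact Fin.ext h1.symm
    · have h2 := indep_of ht hy hFE (k := k) (by omega) ih'
      have h3 : ∀ D : Derivation ℚ ℂ ℂ, (∀ u ∈ F, D u = 0) →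
          (∀ s, D (Sum.elim t (fun i : Fin k => y (Fin.castLE (by omega) i)) s) = 0) →
          (∀ j, D (t j) = 0) ∧
          (∀ i : Fin n, (i : ℕ) < k → D (z i) = 0 ∧ D (Complex.exp (z i)) = 0) ∧
          (∀ w ∈ Stage F t z ⟨k, hk⟩, D w = 0) := by
        intro D hDF hD
        have h4 := kills_tower y hy hDF (fun j => hD (Sum.inl j)) k
          (fun i hi => hD (Sum.inr ⟨i, hi⟩))
        refine ⟨fun j => hD (Sum.inl j), h4, ?_⟩
        apply kills_adjoin
        rintro w (((hw | ⟨j, rfl⟩) | ⟨j, hj, rfl⟩) | ⟨j, hj, rfl⟩)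
        · exact hDF w hw
        · exact hD (Sum.inl j)
        · exact (h4 j (Fin.lt_def.1 hj)).1
        · exact (h4 j (Fin.lt_def.1 hj)).2
      apply hz
      rcases hy ⟨k, hk⟩ with ⟨h5, -⟩ | ⟨h5, -⟩
      · apply mem_of_ecl hF.2.2 hFE h2 hc
        intro D hDF hD
        obtain ⟨-, h6, h7⟩ := h3 D hDF hD
        rw [map_sum]
        refine Finset.sum_eq_zero (fun i _ => ?_)
        rw [rat_mul]
        rcases lt_trichotomy (i : ℕ) k with h8 | h8 | h8
        · rw [(h6 i h8).1, mul_zero]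
        · have h9 : i = ⟨k, hk⟩ := Fin.ext h8
          rw [h9, kills_alg h7 h5, mul_zero]
        · rw [hq i h8, Rat.cast_zero, zero_mul]
      · apply hF.2.1
        apply mem_of_ecl hF.2.2 hFE h2 (exp_mem hc)
        intro D hDF hD
        obtain ⟨-, h6, h7⟩ := h3 D hDF hD
        apply kills_exp_sum
        intro i hi
        rcases lt_trichotomy (i : ℕ) k with h8 | h8 | h8
        · exact (h6 i h8).2
        · have h9 : i = ⟨k, hk⟩ := Fin.ext h8
          rw [h9]
          exact kills_alg h7 h5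
        · exact absurd (hq i h8) hi

/-- the new generators are independent over the closure -/
theorem tower_indep {m n : ℕ} {t : Fin m → ℂ} (ht : Gen K t) (hF : Closed F) (hFE : F ≤ ecl K)
    {z y : Fin n → ℂ} (hy : New F t z y) (hz : ∀ q : Fin n → ℚ, ∑ i, (q i : ℂ) * z i ∈ F → q = 0) :
    AlgebraicIndependent (ecl K) (Sum.elim t y) := by
  have h1 := indep_of ht hy hFE le_rfl (tower ht hF hFE hy hz n le_rfl)
  exact h1

end Pool.Agent.Helper78.EC.Tow
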