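import Mathlib
import Pool.Agent.Helper78.EC.Tow

/-!
# The closure of a generic point under exponentials and logarithms
-/

set_option autoImplicit false

namespace Pool.Agent.Helper78.EC.Hull

open Module Set
open Pool.Agent.Helper78.SC Pool.Agent.Helper78.SC.Ax Pool.Agent.Helper78.SC.Cov
open Pool.Agent.Helper78.EC.Closure Pool.Agent.Helper78.EC.Generic Pool.Agent.Helper78.EC.Use
open Pool.Agent.Helper78.EC.Tow

/-- The smallest field of complex numbers which contains `t_1, …, t_m`, is closed under exponentials and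
logarithms and is algebraically closed. -/
noncomputable def ELt {m : ℕ} (t : Fin m → ℂ) : IntermediateField ℚ ℂ :=
  sInf {F | Closed F ∧ ∀ j, t j ∈ F}

variable {m : ℕ} (t : Fin m → ℂ)

/-- the field `EL(t, z, e^z)` -/
noncomputable def Kt {n : ℕ} (z : Fin n → ℂ) : IntermediateField ℚ ℂ :=
  IntermediateField.adjoin ℚ ((EL : Set ℂ) ∪ range t ∪ range (pt z))

/-- towers, with the new element in the first place -/
inductive Tw : ∀ n : ℕ, (Fin n → ℂ) → Prop
  | nil (z : Fin 0 → ℂ) : Tw 0 z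
  | step (n : ℕ) (z : Fin n → ℂ) (h : Tw n z) (x : ℂ)
      (hx : IsAlgebraic (Kt t z) x ∨ IsAlgebraic (Kt t z) (Complex.exp x))
      (hx' : ∀ q : Fin n → ℚ, x + ∑ i, (q i : ℂ) * z i ∉ EL) : Tw (n + 1) (Fin.cons x z)

variable {t}

theorem kills_Kt {n : ℕ} {z : Fin n → ℂ} {D : Derivation ℚ ℂ ℂ} (h1 : ∀ u ∈ EL, D u = 0)
    (h2 : ∀ j, D (t j) = 0) (h3 : ∀ s, D (pt z s) = 0) : ∀ w ∈ Kt t z, D w = 0 := by
  apply kills_adjoin
  rintro w ((hw | ⟨j, rfl⟩) | ⟨s, rfl⟩)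
  · exact h1 w hw
  · exact h2 j
  · exact h3 s

/-- the value vector -/
noncomputable def vec (t : Fin m → ℂ) {n : ℕ} (z : Fin n → ℂ) : Fin m ⊕ (Fin n ⊕ Fin n) → ℂ :=
  Sum.elim t (pt z)

/-- elements of the closure which are algebraic over `EL(t, z, e^z)` -/
theorem mem_EL_of {n : ℕ} {z : Fin n → ℂ}
    (hR : Low.R EL (vec t z) ≤ Low.R (ecl ⊥) (vec t z)) {w : ℂ} (hw : w ∈ ecl ⊥)
    (hwa : IsAlgebraic (Kt t z) w) : w ∈ EL := by
  by_contra hcon
  have h1 : AlgebraicIndependent EL (fun _ : Unit => w) :=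
    algebraicIndependent_unique_type_iff.2 (fun h => hcon (closed_EL.2.2 w h))
  obtain ⟨D₀, hD₀, hD₀w⟩ := exists_der h1 (fun _ => (1 : ℂ))
  let A : Submodule ℂ (Fin m ⊕ (Fin n ⊕ Fin n) → ℂ) :=
    LinearMap.range (Trd.vl (vec t z) : Derivation EL ℂ ℂ →ₗ[ℂ] _)
  let B : Submodule ℂ (Fin m ⊕ (Fin n ⊕ Fin n) → ℂ) :=
    LinearMap.range (Trd.vl (vec t z) : Derivation (ecl ⊥) ℂ ℂ →ₗ[ℂ] _)
  have hEL : EL ≤ ecl ⊥ := EL_le (closed_ecl ⊥)
  have hBA : B ≤ A := by
    rintro _ ⟨D, rfl⟩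
    exact ⟨Td.up EL (D.restrictScalars ℚ) (fun u hu => D.map_algebraMap (⟨u, hEL hu⟩ : ecl ⊥)), rfl⟩
  have hAB : B = A := Submodule.eq_of_le_of_finrank_le hBA hR
  have h2 : (fun s => D₀ (vec t z s)) ∈ A := ⟨Td.up EL D₀ hD₀, rfl⟩
  rw [← hAB] at h2
  obtain ⟨D₁, hD₁⟩ := h2
  have hD₁' : ∀ s, D₁ (vec t z s) = D₀ (vec t z s) := fun s => congrFun hD₁ s
  have h3 : ∀ u ∈ Kt t z, (D₀ - D₁.restrictScalars ℚ) u = 0 := by
    apply kills_Kt
    · intro u hu
      rw [Derivation.sub_apply, hD₀ u hu]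
      change 0 - D₁ u = 0
      rw [show D₁ u = 0 from D₁.map_algebraMap (⟨u, hEL hu⟩ : ecl ⊥), sub_zero]
    · intro j
      rw [Derivation.sub_apply]
      change D₀ (t j) - D₁ (t j) = 0
      rw [show D₁ (t j) = D₀ (t j) from hD₁' (Sum.inl j), sub_self]
    · intro s
      rw [Derivation.sub_apply]
      change D₀ (pt z s) - D₁ (pt z s) = 0
      rw [show D₁ (pt z s) = D₀ (pt z s) from hD₁' (Sum.inr s), sub_self]
  have h4 := kills_alg h3 hwa
  rw [Derivation.sub_apply, hD₀w ()] at h4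
  change 1 - D₁ w = 0 at h4
  rw [show D₁ w = 0 from D₁.map_algebraMap (⟨w, hw⟩ : ecl ⊥), sub_zero] at h4
  exact one_ne_zero h4

theorem alg_exp_sum {F : IntermediateField ℚ ℂ} {n : ℕ} {l : Fin n → ℂ}
    (hl : ∀ i, IsAlgebraic F (Complex.exp (l i))) (q : Fin n → ℚ) :
    IsAlgebraic F (Complex.exp (∑ i, (q i : ℂ) * l i)) := Use.exp_sum hl q

theorem alg_mem' {F : IntermediateField ℚ ℂ} {w : ℂ} (hw : w ∈ F) : IsAlgebraic F w :=
  isAlgebraic_algebraMap (⟨w, hw⟩ : F)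

theorem sum_mem' {n : ℕ} (z : Fin n → ℂ) (q : Fin n → ℚ) : ∑ i, (q i : ℂ) * z i ∈ Kt t z := by
  apply sum_mem
  intro i _
  exact (Kt t z).mul_mem ((Kt t z).algebraMap_mem (q i))
    (IntermediateField.subset_adjoin ℚ _ (Or.inr ⟨Sum.inl i, rfl⟩))

theorem exp_sum_mem {n : ℕ} (z : Fin n → ℂ) (q : Fin n → ℚ) :
    IsAlgebraic (Kt t z) (Complex.exp (∑ i, (q i : ℂ) * z i)) :=
  alg_exp_sum (fun i => alg_mem' (IntermediateField.subset_adjoin ℚ _ (Or.inr ⟨Sum.inr i, rfl⟩))) q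

theorem EL_le_Kt {n : ℕ} (z : Fin n → ℂ) : EL ≤ Kt t z := fun _ hw =>
  IntermediateField.subset_adjoin ℚ _ (Or.inl (Or.inl hw))

theorem q_smul_EL {x : ℂ} {q : ℚ} (hq : q ≠ 0) (h : (q : ℂ) * x ∈ EL) : x ∈ EL := by
  have h4 := EL.mul_mem (EL.algebraMap_mem q⁻¹) h
  have h5 : (algebraMap ℚ ℂ) q⁻¹ * ((q : ℂ) * x) = x := by
    rw [← mul_assoc]
    have h6 : (algebraMap ℚ ℂ) q⁻¹ * (q : ℂ) = 1 := by
      rw [map_inv₀]
      exact inv_mul_cancel₀ ((map_ne_zero (algebraMap ℚ ℂ)).2 hq)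
    rw [h6, one_mul]
  rwa [h5] at h4

/-- the main properties of towers -/
theorem tw_main (ht : Gen ⊥ t) {n : ℕ} {z : Fin n → ℂ} (h : Tw t n z) :
    Low.R EL (vec t z) ≤ m + n ∧ ∀ q : Fin n → ℚ, ∑ i, (q i : ℂ) * z i ∈ ecl ⊥ → q = 0 := by
  induction h with
  | nil z =>
    refine ⟨?_, fun q _ => funext fun i => i.elim0⟩
    refine (Submodule.finrank_le _).trans ?_
    rw [finrank_fintype_fun_eq_card]
    simp
  | step n z h x hx hx' ih =>
    obtain ⟨ih1, ih2⟩ := ih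
    constructor
    · -- one new generator
      have h1 : ∃ y : ℂ, Low.R EL (vec t (Fin.cons x z : Fin (n + 1) → ℂ)) ≤
          Low.R EL (Sum.elim (vec t z) (fun _ : Unit => y)) := by
        rcases hx with hx | hx
        · refine ⟨Complex.exp x, ?_⟩
          apply Low.R_mono
          intro D hD
          have h2 : ∀ w ∈ Kt t z, (D.restrictScalars ℚ) w = 0 :=
            kills_Kt (fun u hu => D.map_algebraMap (⟨u, hu⟩ : EL)) (fun j => hD (Sum.inl (Sum.inl j)))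
              (fun s => hD (Sum.inl (Sum.inr s)))
          have h3 : D x = 0 := kills_alg h2 hx
          have h4 : D (Complex.exp x) = 0 := hD (Sum.inr ())
          rintro (j | (i | i))
          · exact hD (Sum.inl (Sum.inl j))
          · refine Fin.cases ?_ (fun i => ?_) i
            · exact h3
            · exact hD (Sum.inl (Sum.inr (Sum.inl i)))
          · refine Fin.cases ?_ (fun i => ?_) i
            · exact h4
            · exact hD (Sum.inl (Sum.inr (Sum.inr i)))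
        · refine ⟨x, ?_⟩
          apply Low.R_mono
          intro D hD
          have h2 : ∀ w ∈ Kt t z, (D.restrictScalars ℚ) w = 0 :=
            kills_Kt (fun u hu => D.map_algebraMap (⟨u, hu⟩ : EL)) (fun j => hD (Sum.inl (Sum.inl j)))
              (fun s => hD (Sum.inl (Sum.inr s)))
          have h3 : D (Complex.exp x) = 0 := kills_alg h2 hx
          have h4 : D x = 0 := hD (Sum.inr ())
          rintro (j | (i | i))
          · exact hD (Sum.inl (Sum.inl j))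
          · refine Fin.cases ?_ (fun i => ?_) i
            · exact h4
            · exact hD (Sum.inl (Sum.inr (Sum.inl i)))
          · refine Fin.cases ?_ (fun i => ?_) i
            · exact h3
            · exact hD (Sum.inl (Sum.inr (Sum.inr i)))
      obtain ⟨y, hy⟩ := h1
      have h2 := Low.R_sum EL (vec t z) (fun _ : Unit => y)
      rw [Fintype.card_unit] at h2
      omega
    · have hkey : Low.R EL (vec t z) ≤ Low.R (ecl ⊥) (vec t z) := ih1.trans (key t ht z ih2)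
      intro q hq
      rw [Fin.sum_univ_succ] at hq
      simp only [Fin.cons_zero, Fin.cons_succ] at hq
      by_cases hq0 : q 0 = 0
      · rw [hq0, Rat.cast_zero, zero_mul, zero_add] at hq
        have h3 := ih2 (fun i => q i.succ) hq
        funext i
        refine Fin.cases hq0 (fun i => ?_) i
        exact congrFun h3 i
      · exfalso
        have hmem : (q 0 : ℂ) * x + ∑ i : Fin n, (q i.succ : ℂ) * z i ∈ EL := by
          rcases hx with hx | hx
          · apply mem_EL_of hkey hq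
            exact ((alg_mem' ((Kt t z).algebraMap_mem (q 0))).mul hx).add (alg_mem' (sum_mem' z _))
          · apply closed_EL.2.1
            apply mem_EL_of hkey (exp_mem hq)
            rw [Complex.exp_add]
            exact (Use.exp_rat hx (q 0)).mul (exp_sum_mem z _)
        have h4 := q_smul_EL (q := q 0) (x := x + ∑ i : Fin n, ((q i.succ / q 0 : ℚ) : ℂ) * z i) hq0 (by
          have h5 : (q 0 : ℂ) ≠ 0 := by exact_mod_cast hq0
          have h6 : (q 0 : ℂ) * (x + ∑ i : Fin n, ((q i.succ / q 0 : ℚ) : ℂ) * z i) =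
              (q 0 : ℂ) * x + ∑ i : Fin n, (q i.succ : ℂ) * z i := by
            rw [mul_add, Finset.mul_sum]
            congr 1
            refine Finset.sum_congr rfl (fun i _ => ?_)
            push_cast
            field_simp
          rw [h6]
          exact hmem)
        exact hx' _ h4

/-! ### the union of the towers -/

/-- the elements algebraic over `EL(t, z, e^z)` -/
noncomputable def Al (t : Fin m → ℂ) {n : ℕ} (z : Fin n → ℂ) : IntermediateField ℚ ℂ :=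
  (algebraicClosure (Kt t z) ℂ).restrictScalars ℚ

theorem mem_Al {n : ℕ} {z : Fin n → ℂ} {w : ℂ} : w ∈ Al t z ↔ IsAlgebraic (Kt t z) w :=
  mem_algebraicClosure_iff

theorem Kt_le_Al {n : ℕ} (z : Fin n → ℂ) : Kt t z ≤ Al t z := fun _ hw => mem_Al.2 (alg_mem' hw)

theorem Al_closed {n : ℕ} {z : Fin n → ℂ} {w : ℂ} (hw : IsAlgebraic (Al t z) w) : w ∈ Al t z := by
  rw [mem_Al]
  have h1 : IsAlgebraic (algebraicClosure (Kt t z) ℂ) w := hw
  exact h1.restrictScalars (Kt t z)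

theorem Al_le {n n' : ℕ} {z : Fin n → ℂ} {z' : Fin n' → ℂ} (h : Kt t z ≤ Al t z') :
    Al t z ≤ Al t z' := by
  intro w hw
  exact Al_closed (Dict.alg_mono h (mem_Al.1 hw))

theorem Kt_le {n : ℕ} {z : Fin n → ℂ} {F : IntermediateField ℚ ℂ} (h1 : EL ≤ F) (h2 : ∀ j, t j ∈ F)
    (h3 : ∀ s, pt z s ∈ F) : Kt t z ≤ F := by
  unfold Kt
  rw [IntermediateField.adjoin_le_iff]
  rintro w ((hw | ⟨j, rfl⟩) | ⟨s, rfl⟩)
  · exact h1 hw
  · exact h2 j
  · exact h3 s

theorem EL_le_Al {n : ℕ} (z : Fin n → ℂ) : EL ≤ Al t z := (EL_le_Kt z).trans (Kt_le_Al z)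

theorem t_mem_Al {n : ℕ} (z : Fin n → ℂ) (j : Fin m) : t j ∈ Al t z :=
  Kt_le_Al z (IntermediateField.subset_adjoin ℚ _ (Or.inl (Or.inr ⟨j, rfl⟩)))

theorem pt_mem_Al {n : ℕ} (z : Fin n → ℂ) (s : Fin n ⊕ Fin n) : pt z s ∈ Al t z :=
  Kt_le_Al z (IntermediateField.subset_adjoin ℚ _ (Or.inr ⟨s, rfl⟩))

/-- dependent elements -/
theorem dep_mem {n : ℕ} {z : Fin n → ℂ} {x : ℂ} {q : Fin n → ℚ}
    (h : x + ∑ i, (q i : ℂ) * z i ∈ EL) : x ∈ Al t z ∧ Complex.exp x ∈ Al t z := by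
  constructor
  · have h1 := (Al t z).sub_mem (EL_le_Al z h) (Kt_le_Al z (sum_mem' z q))
    rwa [add_sub_cancel_right] at h1
  · have h1 := (Al t z).mul_mem (EL_le_Al z (closed_EL.1 _ h))
      ((Al t z).inv_mem (mem_Al.2 (exp_sum_mem z q)))
    rwa [Complex.exp_add, mul_assoc, mul_inv_cancel₀ (Complex.exp_ne_zero _), mul_one] at h1

theorem pt_cons {n : ℕ} {z : Fin n → ℂ} {x : ℂ} {F : IntermediateField ℚ ℂ} (h1 : x ∈ F)
    (h2 : Complex.exp x ∈ F) (h3 : ∀ s, pt z s ∈ F) (s : Fin (n + 1) ⊕ Fin (n + 1)) :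
    pt (Fin.cons x z : Fin (n + 1) → ℂ) s ∈ F := by
  rcases s with i | i
  · refine Fin.cases ?_ (fun i => ?_) i
    · exact h1
    · exact h3 (Sum.inl i)
  · refine Fin.cases ?_ (fun i => ?_) i
    · exact h2
    · exact h3 (Sum.inr i)

theorem Al_le_cons {n : ℕ} (z : Fin n → ℂ) (x : ℂ) :
    Al t z ≤ Al t (Fin.cons x z : Fin (n + 1) → ℂ) := by
  apply Al_le
  apply Kt_le (EL_le_Al _) (t_mem_Al _)
  rintro (i | i)
  · exact pt_mem_Al (t := t) (Fin.cons x z : Fin (n + 1) → ℂ) (Sum.inl i.succ)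
  · exact pt_mem_Al (t := t) (Fin.cons x z : Fin (n + 1) → ℂ) (Sum.inr i.succ)

theorem head_mem {n : ℕ} (z : Fin n → ℂ) (x : ℂ) :
    x ∈ Al t (Fin.cons x z : Fin (n + 1) → ℂ) ∧
      Complex.exp x ∈ Al t (Fin.cons x z : Fin (n + 1) → ℂ) :=
  ⟨pt_mem_Al (t := t) (Fin.cons x z : Fin (n + 1) → ℂ) (Sum.inl 0),
    pt_mem_Al (t := t) (Fin.cons x z : Fin (n + 1) → ℂ) (Sum.inr 0)⟩

/-- two towers have a common extension -/
theorem merge {n : ℕ} {z : Fin n → ℂ} (h : Tw t n z) {n' : ℕ} {z' : Fin n' → ℂ} (h' : Tw t n' z') :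
    ∃ (k : ℕ) (y : Fin k → ℂ), Tw t k y ∧ Al t z ≤ Al t y ∧ Al t z' ≤ Al t y := by
  induction h' with
  | nil z' =>
    refine ⟨n, z, h, le_rfl, Al_le (Kt_le (EL_le_Al _) (t_mem_Al _) ?_)⟩
    rintro (i | i) <;> exact i.elim0
  | step n' z' h' x hx hx' ih =>
    obtain ⟨k, y, hy, h1, h2⟩ := ih
    by_cases hq : ∃ q : Fin k → ℚ, x + ∑ i, (q i : ℂ) * y i ∈ EL
    · obtain ⟨q, hq⟩ := hq
      obtain ⟨h3, h4⟩ := dep_mem (t := t) hq
      refine ⟨k, y, hy, h1, Al_le (Kt_le (EL_le_Al _) (t_mem_Al _) ?_)⟩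
      exact pt_cons h3 h4 (fun s => h2 (pt_mem_Al z' s))
    · push Not at hq
      have hx2 : IsAlgebraic (Kt t y) x ∨ IsAlgebraic (Kt t y) (Complex.exp x) := by
        rcases hx with hx | hx
        · exact Or.inl (mem_Al.1 (h2 (mem_Al.2 hx)))
        · exact Or.inr (mem_Al.1 (h2 (mem_Al.2 hx)))
      refine ⟨k + 1, Fin.cons x y, Tw.step k y hy x hx2 hq, h1.trans (Al_le_cons y x),
        Al_le (Kt_le (EL_le_Al _) (t_mem_Al _) ?_)⟩
      exact pt_cons (head_mem y x).1 (head_mem y x).2 (fun s => Al_le_cons y x (h2 (pt_mem_Al z' s)))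

/-- the union of all towers -/
noncomputable def U (t : Fin m → ℂ) : IntermediateField ℚ ℂ where
  carrier := {w | ∃ (n : ℕ) (z : Fin n → ℂ), Tw t n z ∧ w ∈ Al t z}
  mul_mem' := by
    rintro a b ⟨n, z, hz, ha⟩ ⟨n', z', hz', hb⟩
    obtain ⟨k, y, hy, h1, h2⟩ := merge hz hz'
    exact ⟨k, y, hy, (Al t y).mul_mem (h1 ha) (h2 hb)⟩
  add_mem' := by
    rintro a b ⟨n, z, hz, ha⟩ ⟨n', z', hz', hb⟩
    obtain ⟨k, y, hy, h1, h2⟩ := merge hz hz'
    exact ⟨k, y, hy, (Al t y).add_mem (h1 ha) (h2 hb)⟩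
  algebraMap_mem' := fun q => ⟨0, Fin.elim0, Tw.nil _, (Al t _).algebraMap_mem q⟩
  inv_mem' := by
    rintro a ⟨n, z, hz, ha⟩
    exact ⟨n, z, hz, (Al t z).inv_mem ha⟩

theorem common_tower (A : Finset ℂ) (hA : ∀ a ∈ A, a ∈ U t) :
    ∃ (n : ℕ) (z : Fin n → ℂ), Tw t n z ∧ ∀ a ∈ A, a ∈ Al t z := by
  classical
  induction A using Finset.induction_on with
  | empty => exact ⟨0, Fin.elim0, Tw.nil _, by simp⟩
  | insert a A ha ih =>
    obtain ⟨n, z, hz, h1⟩ := ih (fun b hb => hA b (Finset.mem_insert_of_mem hb))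
    obtain ⟨n', z', hz', h2⟩ := hA a (Finset.mem_insert_self _ _)
    obtain ⟨k, y, hy, h3, h4⟩ := merge hz hz'
    refine ⟨k, y, hy, fun b hb => ?_⟩
    rcases Finset.mem_insert.1 hb with rfl | hb
    · exact h4 h2
    · exact h3 (h1 b hb)

theorem closed_U : Closed (U t) := by
  refine ⟨?_, ?_, ?_⟩
  · rintro w ⟨n, z, hz, hw⟩
    by_cases hq : ∃ q : Fin n → ℚ, w + ∑ i, (q i : ℂ) * z i ∈ EL
    · obtain ⟨q, hq⟩ := hq
      exact ⟨n, z, hz, (dep_mem hq).2⟩
    · push Not at hq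
      exact ⟨n + 1, Fin.cons w z, Tw.step n z hz w (Or.inl (mem_Al.1 hw)) hq, (head_mem z w).2⟩
  · rintro w ⟨n, z, hz, hw⟩
    by_cases hq : ∃ q : Fin n → ℚ, w + ∑ i, (q i : ℂ) * z i ∈ EL
    · obtain ⟨q, hq⟩ := hq
      exact ⟨n, z, hz, (dep_mem hq).1⟩
    · push Not at hq
      exact ⟨n + 1, Fin.cons w z, Tw.step n z hz w (Or.inr (mem_Al.1 hw)) hq, (head_mem z w).1⟩
  · rintro w ⟨p, hp, hp0⟩
    classical
    obtain ⟨n, z, hz, h1⟩ := common_tower (t := t) (p.support.image fun s => ((p.coeff s : U t) : ℂ)) (by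
      intro c hc
      obtain ⟨s, -, rfl⟩ := Finset.mem_image.1 hc
      exact (p.coeff s).2)
    refine ⟨n, z, hz, ?_⟩
    have h2 : ∀ s, ((p.coeff s : U t) : ℂ) ∈ Al t z := by
      intro s
      by_cases hs : p.coeff s = 0
      · rw [hs]
        exact (Al t z).zero_mem
      · exact h1 _ (Finset.mem_image_of_mem _ (Polynomial.mem_support_iff.2 hs))
    apply Al_closed
    have h3 : (p.map (algebraMap (U t) ℂ)) ∈ Polynomial.lifts (algebraMap (Al t z) ℂ) := by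
      rw [Polynomial.lifts_iff_coeff_lifts]
      intro s
      rw [Polynomial.coeff_map]
      exact ⟨⟨_, h2 s⟩, rfl⟩
    obtain ⟨p', hp'⟩ := (Polynomial.mem_lifts _).1 h3
    refine ⟨p', ?_, ?_⟩
    · rintro rfl
      rw [Polynomial.map_zero] at hp'
      exact hp ((Polynomial.map_eq_zero (algebraMap (U t) ℂ)).1 hp'.symm)
    · rw [Polynomial.aeval_def, Polynomial.eval₂_eq_eval_map, hp', ← Polynomial.eval₂_eq_eval_map,
        ← Polynomial.aeval_def]
      exact hp0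

theorem ELt_le : ELt t ≤ U t :=
  sInf_le ⟨closed_U, fun j => ⟨0, Fin.elim0, Tw.nil _, t_mem_Al _ j⟩⟩

/-- **The closure of a generic point meets the exponential closure in `EL`.** -/
theorem inter (ht : Gen ⊥ t) {w : ℂ} (hw : w ∈ ELt t) (hwe : w ∈ ecl ⊥) : w ∈ EL := by
  obtain ⟨n, z, hz, h1⟩ := ELt_le hw
  obtain ⟨h2, h3⟩ := tw_main ht hz
  exact mem_EL_of (h2.trans (key t ht z h3)) hwe (mem_Al.1 h1)

end Pool.Agent.Helper78.EC.Hull
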