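import Mathlib
import Pool.Agent.Helper78.SC.Low

/-!
# Linearly independent logarithms
-/

set_option autoImplicit false

namespace Pool.Agent.Helper78.EC.Logs

open Module

theorem val_prod (q : Nat.Primes) (s : Finset Nat.Primes) (g : Nat.Primes → ℤ) :
    padicValRat q (∏ p ∈ s, ((p : ℕ) : ℚ) ^ g p) = if q ∈ s then g q else 0 := by
  classical
  have hq : Fact (q : ℕ).Prime := ⟨q.2⟩
  induction s using Finset.induction_on with
  | empty => simp
  | insert a s ha ih =>
    have ha0 : ((a : ℕ) : ℚ) ≠ 0 := by exact_mod_cast a.2.ne_zero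
    have hp0 : ∏ p ∈ s, ((p : ℕ) : ℚ) ^ g p ≠ 0 :=
      Finset.prod_ne_zero_iff.2 (fun p _ => zpow_ne_zero _ (by exact_mod_cast p.2.ne_zero))
    rw [Finset.prod_insert ha, padicValRat.mul (zpow_ne_zero _ ha0) hp0, ih, padicValRat.zpow]
    by_cases h : q = a
    · subst h
      rw [padicValRat.self q.2.one_lt, if_neg ha, if_pos (Finset.mem_insert_self _ _)]
      ring
    · have h1 : padicValRat (q : ℕ) ((a : ℕ) : ℚ) = 0 := by
        rw [padicValRat.of_nat]
        have : padicValNat (q : ℕ) (a : ℕ) = 0 := by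
          apply padicValNat.eq_zero_of_not_dvd
          intro hd
          exact h (Subtype.ext ((Nat.prime_dvd_prime_iff_eq q.2 a.2).1 hd))
        rw [this]
        rfl
      rw [h1, mul_zero, zero_add]
      by_cases hs : q ∈ s
      · rw [if_pos hs, if_pos (Finset.mem_insert_of_mem hs)]
      · rw [if_neg hs, if_neg (by
          rw [Finset.mem_insert]
          tauto)]

theorem indep_log : LinearIndependent ℚ (fun p : Nat.Primes => ((Real.log (p : ℕ) : ℝ) : ℂ)) := by
  have h1 : LinearIndependent ℤ (fun p : Nat.Primes => ((Real.log (p : ℕ) : ℝ) : ℂ)) := by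
    rw [linearIndependent_iff']
    intro s g hg p hp
    have h2 : ∑ p ∈ s, (g p : ℝ) * Real.log (p : ℕ) = 0 := by
      have h3 : ((∑ p ∈ s, (g p : ℝ) * Real.log (p : ℕ) : ℝ) : ℂ) = 0 := by
        rw [← hg]
        push_cast
        exact Finset.sum_congr rfl (fun p _ => (zsmul_eq_mul _ _).symm)
      exact_mod_cast h3
    have h4 : ((∏ p ∈ s, ((p : ℕ) : ℚ) ^ g p : ℚ) : ℝ) = 1 := by
      rw [← Real.exp_zero, ← h2, Real.exp_sum]
      push_cast
      refine Finset.prod_congr rfl (fun p _ => ?_)
      have hp : (0 : ℝ) < ((p : ℕ) : ℝ) := by exact_mod_cast p.2.pos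
      rw [mul_comm, Real.exp_mul, Real.exp_log hp, Real.rpow_intCast]
    have h5 : (∏ p ∈ s, ((p : ℕ) : ℚ) ^ g p : ℚ) = 1 := by exact_mod_cast h4
    have h6 := val_prod p s g
    rw [h5, if_pos hp, padicValRat.one] at h6
    exact h6.symm
  exact (LinearIndependent.iff_fractionRing ℤ ℚ).1 h1

/-- a space of finite dimension does not contain all logarithms -/
theorem exists_log (W : Submodule ℚ ℂ) [FiniteDimensional ℚ W] :
    ∃ l : ℂ, IsAlgebraic ℚ (Complex.exp l) ∧ l ∉ W := by
  by_contra hcon
  push Not at hcon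
  have h1 : ∀ p : Nat.Primes, ((Real.log (p : ℕ) : ℝ) : ℂ) ∈ W := by
    intro p
    apply hcon
    rw [← Complex.ofReal_exp, Real.exp_log (by exact_mod_cast p.2.pos)]
    exact_mod_cast isAlgebraic_algebraMap (R := ℚ) (A := ℂ) ((p : ℕ) : ℚ)
  have h2 : LinearIndependent ℚ (fun p : Nat.Primes => (⟨_, h1 p⟩ : W)) := by
    apply LinearIndependent.of_comp W.subtype
    exact indep_log
  have h3 := h2.finite
  exact not_finite Nat.Primes

/-- logarithms which are independent modulo given numbers -/
theorem exists_logs {ι : Type} [Finite ι] (c : ι → ℂ) (hc : LinearIndependent ℚ c) (r : ℕ) :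
    ∃ β : Fin r → ℂ, (∀ i, IsAlgebraic ℚ (Complex.exp (β i))) ∧
      LinearIndependent ℚ (Sum.elim c β) := by
  induction r with
  | zero =>
    refine ⟨fun i => i.elim0, fun i => i.elim0, ?_⟩
    rw [← linearIndependent_equiv (Equiv.sumEmpty ι (Fin 0)).symm]
    exact hc
  | succ r ih =>
    obtain ⟨β, hβ, hli⟩ := ih
    have hfin : FiniteDimensional ℚ (Submodule.span ℚ (Set.range (Sum.elim c β))) :=
      FiniteDimensional.span_of_finite ℚ (Set.finite_range _)
    obtain ⟨b, hb, hbW⟩ := exists_log (Submodule.span ℚ (Set.range (Sum.elim c β)))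
    refine ⟨Fin.cons b β, fun i => Fin.cases hb hβ i, ?_⟩
    have h1 := hli.option hbW
    let e : ι ⊕ Fin (r + 1) ≃ Option (ι ⊕ Fin r) :=
      { toFun := Sum.elim (fun i => some (Sum.inl i))
          (fun j => Fin.cases none (fun k => some (Sum.inr k)) j)
        invFun := fun o => o.elim (Sum.inr 0) (Sum.elim Sum.inl (fun k => Sum.inr k.succ))
        left_inv := by
          rintro (i | j)
          · rfl
          · refine Fin.cases ?_ (fun k => ?_) j <;> rfl
        right_inv := by
          rintro (_ | (i | k)) <;> rfl }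
    rw [← linearIndependent_equiv e] at h1
    have h2 : (fun o : Option (ι ⊕ Fin r) => o.casesOn' b (Sum.elim c β)) ∘ e =
        Sum.elim c (Fin.cons b β : Fin (r + 1) → ℂ) := by
      funext s
      rcases s with i | j
      · rfl
      · refine Fin.cases ?_ (fun k => ?_) j <;> rfl
    rw [h2] at h1
    exact h1

end Pool.Agent.Helper78.EC.Logs
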