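import Mathlib
import Pool.Agent.Helper78.EC.Mar2

/-!
# Zeros of polynomials in `z` and `e^z`: the zeros in the exponential closure
-/

set_option autoImplicit false

namespace Pool.Agent.Helper78.EC.Mar

open Set MvPolynomial Module
open Pool.Agent.Helper78.SC Pool.Agent.Helper78.SC.Ax
open Pool.Agent.Helper78.EC.Closure Pool.Agent.Helper78.EC.Generic Pool.Agent.Helper78.EC.Use
open Pool.Agent.Helper78.EC.Disj Pool.Agent.Helper78.EC.Str Pool.Agent.Helper78.EC.Curve
open Pool.Agent.W252 Pool.Agent.W669.Gel Pool.Agent.TH813.Core Pool.Agent.TH813.Rank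

variable {m : ℕ} {t : Fin m → ℂ}

/-- relations between elements which are killed by derivations dual to `t` -/
theorem relation' {n : ℕ} (x : Fin n → ℂ) (D : Fin m → Derivation ℚ ℂ ℂ)
    (hD2 : ∀ i j, D i (t j) = if i = j then 1 else 0)
    (hDQ : ∀ i, ∀ w ∈ QB, D i w = 0) (hDx : ∀ i j, D i (x j) = 0)
    (f : MvPolynomial (Fin n) (Kt t)) (hf : aeval x f = 0) :
    ∃ (N : ℕ) (κ : Fin N → Kt t) (g : Fin N → MvPolynomial (Fin n) QB),
      (∀ k, aeval x (g k) = 0) ∧ map (algebraMap (Kt t) ℂ) f =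
        ∑ k, C ((κ k : Kt t) : ℂ) * map (algebraMap QB ℂ) (g k) := by
  classical
  let V : Submodule QB ℂ := Submodule.span QB
    ((f.support.image (fun s => ((f.coeff s : Kt t) : ℂ)) : Finset ℂ) : Set ℂ)
  have hfin : FiniteDimensional QB V := FiniteDimensional.span_finset QB _
  let b := finBasis QB V
  have hVK : ∀ v ∈ V, v ∈ Kt t := by
    intro v hv
    induction hv using Submodule.span_induction with
    | mem a ha =>
      obtain ⟨s, -, rfl⟩ := Finset.mem_image.1 (Finset.mem_coe.1 ha)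
      exact Subtype.property _
    | zero => exact zero_mem _
    | add a b _ _ iha ihb => exact add_mem iha ihb
    | smul c a _ iha =>
      rw [Algebra.smul_def]
      exact mul_mem (QB_le t c.2) iha
  let c' : (Fin n →₀ ℕ) → V := fun s => if hs : s ∈ f.support then
    ⟨((f.coeff s : Kt t) : ℂ), Submodule.subset_span
      (Finset.mem_coe.2 (Finset.mem_image.2 ⟨s, hs, rfl⟩))⟩ else 0
  have hc' : ∀ s, ((c' s : V) : ℂ) = ((f.coeff s : Kt t) : ℂ) := by
    intro s
    by_cases hs : s ∈ f.support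
    · simp only [c', dif_pos hs]
    · simp only [c', dif_neg hs]
      rw [notMem_support_iff.1 hs]
      simp
  have hrep : ∀ s, ((f.coeff s : Kt t) : ℂ) = ∑ q, ((b.repr (c' s) q : QB) : ℂ) * (b q : ℂ) := by
    intro s
    rw [← hc' s]
    conv_lhs => rw [← b.sum_repr (c' s)]
    rw [Submodule.coe_sum]
    rfl
  let g : Fin (finrank QB V) → MvPolynomial (Fin n) QB := fun q =>
    ∑ s ∈ f.support, monomial s (b.repr (c' s) q)
  have hg : map (algebraMap (Kt t) ℂ) f = ∑ k, C ((b k : V) : ℂ) * map (algebraMap QB ℂ) (g k) := by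
    conv_lhs => rw [f.as_sum]
    rw [map_sum]
    simp only [g, map_sum, map_monomial, Finset.mul_sum, C_mul_monomial]
    rw [Finset.sum_comm]
    refine Finset.sum_congr rfl (fun s _ => ?_)
    rw [← map_sum (monomial s)]
    congr 1
    change ((f.coeff s : Kt t) : ℂ) = _
    rw [hrep s]
    exact Finset.sum_congr rfl (fun q _ => mul_comm _ _)
  refine ⟨_, fun k => ⟨(b k : ℂ), hVK _ (b k).2⟩, g, ?_, hg⟩
  have h1 : ∑ k, ((b k : V) : ℂ) * aeval x (g k) = 0 := by
    have h2 : eval x (map (algebraMap (Kt t) ℂ) f) = 0 := by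
      rw [eval_map]
      exact hf
    rw [hg, map_sum] at h2
    rw [← h2]
    refine Finset.sum_congr rfl (fun k _ => ?_)
    rw [map_mul, eval_C, eval_map]
    rfl
  have hli : LinearIndependent QB (fun k => ((b k : V) : ℂ)) :=
    b.linearIndependent.map' V.subtype (Submodule.ker_subtype V)
  refine disj_symm D hD2 hDQ (fun k => ((b k : V) : ℂ)) (fun k => aeval x (g k))
    (fun k => hVK _ (b k).2) (fun k i => ?_) hli h1
  rw [Closure.der_aeval (D i) x (g k) (fun s => hDQ i _ ((g k).coeff s).2)]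
  unfold Ext.dv
  refine Finset.sum_eq_zero (fun j _ => ?_)
  change D i (x j) * _ = 0
  rw [hDx, zero_mul]

/-- an irreducible polynomial with a zero in the closure is defined over the algebraic numbers -/
theorem constant' (x : Fin 2 → ℂ) (D : Fin m → Derivation ℚ ℂ ℂ)
    (hD2 : ∀ i j, D i (t j) = if i = j then 1 else 0)
    (hDQ : ∀ i, ∀ w ∈ QB, D i w = 0) (hDx : ∀ i j, D i (x j) = 0)
    (htr : ∃ i, Transcendental QB (x i)) (f : MvPolynomial (Fin 2) (Kt t)) (hf : Irreducible f)
    (hfx : aeval x f = 0) :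
    ∃ (c : Kt t) (p : MvPolynomial (Fin 2) QB), Irreducible p ∧ aeval x p = 0 ∧
      map (algebraMap (Kt t) ℂ) f = C (c : ℂ) * map (algebraMap QB ℂ) p := by
  classical
  obtain ⟨N, κ, g, hg, hfg⟩ := relation' x D hD2 hDQ hDx f hfx
  have hex : ∃ k, g k ≠ 0 := by
    by_contra hcon
    push Not at hcon
    apply hf.ne_zero
    apply map_injective (algebraMap (Kt t) ℂ) (algebraMap (Kt t) ℂ).injective
    rw [hfg, map_zero]
    exact Finset.sum_eq_zero (fun k _ => by rw [hcon k, map_zero, mul_zero])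
  obtain ⟨k₀, hk₀⟩ := hex
  obtain ⟨p, hp, hpx⟩ := exists_factor hk₀ (hg k₀)
  have hdvd : ∀ k, p ∣ g k := fun k => irr_dvd2 htr hp hpx (hg k)
  choose h hh using hdvd
  let j : QB →+* Kt t := (IntermediateField.inclusion (QB_le t)).toRingHom
  have hjmap : ∀ q : MvPolynomial (Fin 2) QB,
      map (algebraMap (Kt t) ℂ) (map j q) = map (algebraMap QB ℂ) q := by
    intro q
    rw [MvPolynomial.map_map]
    rfl
  have hfac : f = map j p * ∑ k, C (κ k) * map j (h k) := by
    apply map_injective (algebraMap (Kt t) ℂ) (algebraMap (Kt t) ℂ).injective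
    rw [hfg, map_mul, hjmap, map_sum, Finset.mul_sum]
    refine Finset.sum_congr rfl (fun k _ => ?_)
    rw [map_mul, hjmap, hh k, map_mul, map_C]
    change C ((κ k : Kt t) : ℂ) * _ = _ * (C ((κ k : Kt t) : ℂ) * _)
    ring
  rcases hf.isUnit_or_isUnit hfac with h1 | h1
  · exfalso
    obtain ⟨c, -, hc⟩ := (MvPolynomial.isUnit_iff_eq_C_of_isReduced).1 h1
    have h2 : ∀ s, s ≠ 0 → p.coeff s = 0 := by
      intro s hs
      have h3 := congrArg (coeff s) hc
      rw [coeff_map, coeff_C, if_neg (Ne.symm hs)] at h3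
      exact (map_eq_zero j).1 h3
    apply not_const hp hpx (p.coeff 0)
    ext s
    rw [coeff_C]
    split_ifs with h3
    · rw [← h3]
    · rw [h2 s (Ne.symm h3)]
  · obtain ⟨c, -, hc⟩ := (MvPolynomial.isUnit_iff_eq_C_of_isReduced).1 h1
    refine ⟨c, p, hp, hpx, ?_⟩
    rw [hfac, hc, map_mul, hjmap, map_C, mul_comm]
    rfl

/-- derivations dual to a generic point which kill the closure -/
theorem exists_dual_E (ht : Gen ⊥ t) : ∃ D : Fin m → Derivation ℚ ℂ ℂ,
    (∀ i j, D i (t j) = if i = j then 1 else 0) ∧ (∀ i, ∀ w ∈ ecl ⊥, D i w = 0) := by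
  choose D hD1 hD2 using fun i : Fin m =>
    exists_der (gen_algInd ht) (fun j => if i = j then (1 : ℂ) else 0)
  exact ⟨D, hD2, hD1⟩

/-- one of `z` and `e^z` is transcendental -/
theorem exists_tr {z : ℂ} (hz : z ≠ 0) : ∃ i, Transcendental QB ((![z, Complex.exp z] : Fin 2 → ℂ) i) := by
  by_cases h : z ∈ QB
  · refine ⟨1, transcendental_QB (fun h1 => lindemann (l := z) ?_ hz h)⟩
    exact h1
  · exact ⟨0, transcendental_QB h⟩

/-- **A polynomial which is not defined over the algebraic numbers has no zeros in the closure.** -/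
theorem not_mem_ecl (ht : Gen ⊥ t) {p : MvPolynomial (Fin 2) (Kt t)} (hp : Irreducible p)
    (hnc : ¬ ∃ (c : ℂ) (q : MvPolynomial (Fin 2) QB),
      map (algebraMap (Kt t) ℂ) p = C c * map (algebraMap QB ℂ) q)
    {z : ℂ} (hz : z ≠ 0) (hzp : aeval ![z, Complex.exp z] p = 0) : z ∉ ecl ⊥ := by
  intro hzE
  obtain ⟨D, hD2, hD1⟩ := exists_dual_E ht
  obtain ⟨c, q, -, -, hq⟩ := constant' ![z, Complex.exp z] D hD2
    (fun i w hw => hD1 i w (QB_le_ecl hw)) (fun i j => by
      fin_cases j
      · exact hD1 i z hzE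
      · exact hD1 i _ (exp_mem hzE)) (exists_tr hz) p hp hzp
  exact hnc ⟨c, q, hq⟩

/-- **The zeros of a polynomial which is defined over the algebraic numbers are in the closure.** -/
theorem mem_ecl_of_QB {p : MvPolynomial (Fin 2) QB} (hp : Irreducible p) (hd : 0 < p.degreeOf 0)
    {z : ℂ} (hz : z ≠ 0) (hzp : aeval ![z, Complex.exp z] p = 0) : z ∈ ecl ⊥ := by
  refine ⟨1, fun _ => z, fun D hD => ?_⟩
  have hDQ : ∀ w ∈ QB, D w = 0 := by
    intro w hw
    have h1 : ∀ u ∈ (⊥ : IntermediateField ℚ ℂ), D u = 0 := hD.1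
    exact kills_alg h1 ((mem_QB.1 hw).tower_top _)
  have h1 := chain hDQ z (Complex.exp z) p
  rw [hzp, map_zero] at h1
  have h2 : D (Complex.exp z) = Complex.exp z * D z := by
    have h3 := hD.2 0
    unfold dlog at h3
    have h4 := Complex.exp_ne_zero z
    field_simp at h3
    linear_combination h3
  rw [h2] at h1
  have h3 : D z * aeval ![z, Complex.exp z] (pderiv 0 p + C (1 : QB) * (X 1 * pderiv 1 p)) = 0 := by
    rw [map_add, map_mul, map_mul, aeval_C, aeval_X, map_one, one_mul]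
    change D z * (_ + Complex.exp z * _) = 0
    linear_combination -h1
  refine (mul_eq_zero.1 h3).resolve_right (fun h4 => ?_)
  exact noInv hd (1 : QB) (irr_dvd2 (exists_tr hz) hp hzp h4)

end Pool.Agent.Helper78.EC.Mar
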