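import Mathlib
import Pool.Agent.Helper78.EC.Mar3

/-!
# Zeros of polynomials in `z` and `e^z`: algebraic independence
-/

set_option autoImplicit false

namespace Pool.Agent.Helper78.EC.Mar

open Set MvPolynomial Module
open Pool.Agent.Helper78.SC Pool.Agent.Helper78.SC.Ax
open Pool.Agent.Helper78.EC.Closure Pool.Agent.Helper78.EC.Generic Pool.Agent.Helper78.EC.Use
open Pool.Agent.Helper78.EC.Disj Pool.Agent.Helper78.EC.Str Pool.Agent.Helper78.EC.Curve
open Pool.Agent.W252 Pool.Agent.W669.Gel Pool.Agent.TH813.Core Pool.Agent.TH813.Rank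

variable {m : ℕ} {t : Fin m → ℂ}

theorem kills_Kt {D : Derivation ℚ ℂ ℂ} (h : ∀ j, D (t j) = 0) : ∀ w ∈ Kt t, D w = 0 := fun w hw =>
  kills_alg (kills_adjoin (by rintro _ ⟨j, rfl⟩; exact h j)) (mem_Kt.1 hw)

theorem Kt_closed {w : ℂ} (hw : IsAlgebraic (Kt t) w) : w ∈ Kt t := by
  have h1 : IsAlgebraic (algebraicClosure (IntermediateField.adjoin ℚ (range t)) ℂ) w := hw
  have : Algebra.IsAlgebraic (IntermediateField.adjoin ℚ (range t))
      (algebraicClosure (IntermediateField.adjoin ℚ (range t)) ℂ) :=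
    algebraicClosure.isAlgebraic _ _
  exact mem_Kt.2 (h1.restrictScalars _)

theorem dlog_sub (D : Derivation ℚ ℂ ℂ) (x y : ℂ) : dlog D (x - y) = dlog D x - dlog D y := by
  have h := map_sub (dl D) x y
  rwa [dl_apply, dl_apply, dl_apply] at h

theorem dlog_comb' {r : ℕ} (D : Derivation ℚ ℂ ℂ) (a : Fin r → ℚ) (z : Fin r → ℂ) :
    dlog D (∑ i, (a i : ℂ) * z i) = ∑ i, (a i : ℂ) * dlog D (z i) := by
  rw [← dl_apply, map_sum]
  exact Finset.sum_congr rfl (fun i _ => by rw [dl_apply, dlog_rat])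

theorem der_comb' {r : ℕ} (D : Derivation ℚ ℂ ℂ) (a : Fin r → ℚ) (z : Fin r → ℂ) :
    D (∑ i, (a i : ℂ) * z i) = ∑ i, (a i : ℂ) * D (z i) := by
  rw [map_sum]
  exact Finset.sum_congr rfl (fun i _ => rat_mul _ _ _)

theorem step (ht : Gen ⊥ t) {p : MvPolynomial (Fin 2) (Kt t)} (hp : Irreducible p)
    (hd0 : 0 < p.degreeOf 0) (hd1 : 0 < p.degreeOf 1)
    (hnc : ¬ ∃ (c : ℂ) (q : MvPolynomial (Fin 2) QB),
      map (algebraMap (Kt t) ℂ) p = C c * map (algebraMap QB ℂ) q)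
    {r : ℕ} (z : Fin r → ℂ) (hz : ∀ i, aeval ![z i, Complex.exp (z i)] p = 0)
    (hind : AlgebraicIndependent (ecl ⊥) (Sum.elim t z)) {z' : ℂ}
    (hz' : aeval ![z', Complex.exp z'] p = 0) (hz'0 : z' ≠ 0)
    (hne : ∀ i, z' ≠ z i ∧ z' ≠ -z i) (a : Fin r → ℚ)
    (hδ : z' - ∑ i, (a i : ℂ) * z i ∈ ecl ⊥) : False := by
  classical
  obtain ⟨δ, hδdef⟩ : ∃ δ, δ = z' - ∑ i, (a i : ℂ) * z i := ⟨_, rfl⟩
  rw [← hδdef] at hδ
  have hz'E : z' ∉ ecl ⊥ := not_mem_ecl ht hp hnc hz'0 hz'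
  have hz'eq : z' = ∑ i, (a i : ℂ) * z i + δ := by rw [hδdef]; ring
  obtain ⟨i, hi⟩ : ∃ i, a i ≠ 0 := by
    by_contra hcon
    push Not at hcon
    apply hz'E
    rw [hz'eq]
    simpa [hcon] using hδ
  have hder : ∀ D : Derivation ℚ ℂ ℂ, D z' = ∑ j, (a j : ℂ) * D (z j) + D δ := by
    intro D
    rw [hz'eq, map_add, der_comb']
  have hdl : ∀ D : Derivation ℚ ℂ ℂ, dlog D z' = ∑ j, (a j : ℂ) * dlog D (z j) + dlog D δ := by
    intro D
    rw [hz'eq, dlog_add, dlog_comb']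
  choose D hDE hDx using fun i : Fin r => exists_der hind (Sum.elim 0 (Pi.single i 1))
  have hDt : ∀ i j, D i (t j) = 0 := fun i j => hDx i (Sum.inl j)
  have hDz : ∀ i j, D i (z j) = if j = i then 1 else 0 := by
    intro i j
    have h1 : D i (z j) = Pi.single (M := fun _ : Fin r => ℂ) i 1 j := hDx i (Sum.inr j)
    rw [h1, Pi.single_apply]
  have hDK : ∀ i, ∀ w ∈ Kt t, D i w = 0 := fun i => kills_Kt (hDt i)
  have hDδ : ∀ i, D i δ = 0 := fun i => hDE i δ hδ
  have hDδ' : ∀ i, dlog (D i) δ = 0 := fun i => dlog_eq_zero.2 (hDE i _ (exp_mem hδ))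
  have hDz' : ∀ i, D i z' = a i := by
    intro i
    rw [hder, hDδ, add_zero]
    simp [hDz]
  have hZ : ∀ j, Zer (Kt t) p (z j) := by
    intro j
    refine ⟨hp, hd0, hd1, hz j, fun h => ?_⟩
    have h1 := hDK j _ (Kt_closed h)
    rw [hDz, if_pos rfl] at h1
    exact one_ne_zero h1
  have hZ' : Zer (Kt t) p z' := by
    refine ⟨hp, hd0, hd1, hz', fun h => ?_⟩
    have h1 := hDK i _ (Kt_closed h)
    rw [hDz'] at h1
    exact hi (by exact_mod_cast h1)
  have hlam : ∀ j, a j ≠ 0 → lam p (z j) = lam p z' := by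
    intro j hj
    have h1 := hdl (D j)
    rw [hZ'.dlog_eq (hDK j), hDz', hDδ', add_zero] at h1
    have h2 : ∑ k, (a k : ℂ) * dlog (D j) (z k) = a j * lam p (z j) := by
      rw [Finset.sum_eq_single j]
      · rw [(hZ j).dlog_eq (hDK j), hDz, if_pos rfl, mul_one]
      · intro k _ hk
        rw [(hZ k).dlog_eq (hDK j), hDz, if_neg hk, mul_zero, mul_zero]
      · intro h
        exact absurd (Finset.mem_univ j) h
    rw [h2] at h1
    have h3 : (a j : ℂ) ≠ 0 := by exact_mod_cast hj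
    apply mul_left_cancel₀ h3
    rw [← h1, mul_comm]
  -- only one coefficient is nonzero
  have hone : ∀ j, j ≠ i → a j = 0 := by
    intro j hj
    by_contra hcon
    have h1 : lam p (z i) = lam p (z j) := (hlam i hi).trans (hlam j hcon).symm
    have h2 : D i (lam p (z i)) = 0 := by
      rw [h1]
      exact (hZ j).dep_lam (D i) (hDK i) (by rw [hDz, if_neg hj])
    have h3 := exch (hZ i).dep_lam (hDK i) h2 (by rw [hDz, if_pos rfl]; exact one_ne_zero)
    exact (hZ i).lam_not_mem (Kt_closed h3)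
  have hsum : ∀ f : Fin r → ℂ, ∑ j, (a j : ℂ) * f j = a i * f i := by
    intro f
    rw [Finset.sum_eq_single i]
    · intro k _ hk
      rw [hone k hk, Rat.cast_zero, zero_mul]
    · intro h
      exact absurd (Finset.mem_univ i) h
  have hz'1 : z' = a i * z i + δ := by rw [hz'eq, hsum]
  have hl : lam p (z i) = lam p z' := hlam i hi
  -- the constant is algebraic
  have hδQ : δ ∈ QB := by
    rw [mem_QB]
    by_contra hcon
    have h1 : AlgebraicIndependent ℚ (fun _ : Unit => δ) :=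
      algebraicIndependent_unique_type_iff.2 hcon
    obtain ⟨D₀, hD₀⟩ := Pool.Agent.H135R2.VS.exists_der h1 (fun _ => (1 : ℂ))
    obtain ⟨D₁, hD₁, hD₁x⟩ := exists_der hind (fun s => D₀ (Sum.elim t z s))
    have h2 : ∀ j, (D₀ - D₁) (t j) = 0 := by
      intro j
      rw [Derivation.sub_apply]
      have := hD₁x (Sum.inl j)
      change D₁ (t j) = D₀ (t j) at this
      rw [this, sub_self]
    have h3 : ∀ j, (D₀ - D₁) (z j) = 0 := by
      intro j
      rw [Derivation.sub_apply]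
      have := hD₁x (Sum.inr j)
      change D₁ (z j) = D₀ (z j) at this
      rw [this, sub_self]
    have h4 : (D₀ - D₁) δ = 1 := by
      rw [Derivation.sub_apply, hD₀ (), hD₁ δ hδ, sub_zero]
    have h5 : (D₀ - D₁) z' ≠ 0 := by
      rw [hder, h4]
      simp [h3]
    have h6 : (D₀ - D₁) (lam p z') = 0 := by
      rw [← hl]
      exact (hZ i).dep_lam _ (kills_Kt h2) (h3 i)
    exact hZ'.lam_not_mem (Kt_closed (exch hZ'.dep_lam (kills_Kt h2) h6 h5))
  -- the exponential of the constant is in the field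
  have hδe : Complex.exp δ ∈ Kt t := by
    have h1 : Dep (Kt t) (z i) (Complex.exp δ) := by
      intro D' hD' hDz'
      have h2 : D' z' = 0 := by
        rw [hz'1, map_add, rat_mul, hDz', mul_zero, hD' δ (QB_le t hδQ), add_zero]
      have h3 : dlog D' δ = 0 := by
        have h4 := hdl D'
        rw [hsum, dlog_eq_zero.2 ((hZ i).dep_exp D' hD' hDz'),
          dlog_eq_zero.2 (hZ'.dep_exp D' hD' h2), mul_zero, zero_add] at h4
        exact h4.symm
      exact dlog_eq_zero.1 h3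
    exact Kt_closed (exch h1 (hDK i) (hDE i _ (exp_mem hδ))
      (by rw [hDz, if_pos rfl]; exact one_ne_zero))
  have hδ0 : δ = 0 := by
    by_contra hcon
    exact not_mem_QB ht hδe hcon hδQ
  rw [hδ0, add_zero] at hz'1
  rcases Zer.pm (fun w hw => Kt_closed hw) (hZ i) hZ' hl hz'1 with h | h
  · exact (hne i).1 h
  · exact (hne i).2 h

end Pool.Agent.Helper78.EC.Mar
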