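import Mathlib
import Pool.Agent.Helper78.EC.Mar4

/-!
# Zeros of polynomials in `z` and `e^z`: the main theorem
-/

set_option autoImplicit false

namespace Pool.Agent.Helper78.EC.Mar

open Set MvPolynomial Module
open Pool.Agent.Helper78.SC Pool.Agent.Helper78.SC.Ax Pool.Agent.Helper78.SC.Cov
open Pool.Agent.Helper78.EC.Closure Pool.Agent.Helper78.EC.Generic Pool.Agent.Helper78.EC.Use
open Pool.Agent.Helper78.EC.Disj Pool.Agent.Helper78.EC.Str Pool.Agent.Helper78.EC.Curve
open Pool.Agent.W252 Pool.Agent.W669.Gel Pool.Agent.TH813.Core Pool.Agent.TH813.Rank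

variable {m : ℕ} {t : Fin m → ℂ}

theorem exp_mem_Kt {p : MvPolynomial (Fin 2) (Kt t)} (hp : Irreducible p)
    (hd1 : 0 < p.degreeOf 1) {z : ℂ} (hzp : aeval ![z, Complex.exp z] p = 0) (hz : z ∈ Kt t) :
    Complex.exp z ∈ Kt t := by
  classical
  apply Kt_closed
  by_contra hcon
  have h1 : p ∣ X 0 - C (⟨z, hz⟩ : Kt t) := by
    refine irr_dvd2 (x := ![z, Complex.exp z]) ⟨1, hcon⟩ hp hzp ?_
    rw [map_sub, aeval_X, aeval_C]
    exact sub_self z
  have h2 : (X 0 - C (⟨z, hz⟩ : Kt t) : MvPolynomial (Fin 2) (Kt t)) ≠ 0 := by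
    intro h0
    have h3 := congrArg (coeff (Finsupp.single 0 1)) h0
    rw [coeff_sub, coeff_X_same, coeff_C, if_neg, sub_zero, coeff_zero] at h3
    · exact one_ne_zero h3
    · intro h4
      have := DFunLike.congr_fun h4 0
      simp at this
  obtain ⟨h, hh⟩ := h1
  have hp0 : p ≠ 0 := hp.ne_zero
  have hh0 : h ≠ 0 := by
    rintro rfl
    rw [mul_zero] at hh
    exact h2 hh
  have h5 : degreeOf 1 (X 0 - C (⟨z, hz⟩ : Kt t) : MvPolynomial (Fin 2) (Kt t)) = 0 := by
    apply Nat.le_zero.1
    refine (degreeOf_sub_le _ _ _).trans ?_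
    rw [degreeOf_C, degreeOf_X_of_ne (by decide)]
    simp
  rw [hh, degreeOf_mul_eq hp0 hh0] at h5
  omega

theorem tr_of_not_mem (ht : Gen ⊥ t) {p : MvPolynomial (Fin 2) (Kt t)} (hp : Irreducible p)
    (hd1 : 0 < p.degreeOf 1) {z : ℂ} (hzp : aeval ![z, Complex.exp z] p = 0) (hz : z ∉ ecl ⊥) :
    Transcendental (Kt t) z := by
  intro h
  have hzK := Kt_closed h
  have hyK := exp_mem_Kt hp hd1 hzp hzK
  have h1 := key t ht (fun _ : Fin 1 => z) (fun q hq => by
    by_contra hcon
    apply hz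
    have hq0 : q 0 ≠ 0 := by
      intro h0
      apply hcon
      funext i
      fin_cases i
      exact h0
    have h2 : ((q 0 : ℚ) : ℂ) * z ∈ ecl ⊥ := by simpa using hq
    have h3 : z = ((q 0 : ℚ) : ℂ)⁻¹ * (((q 0 : ℚ) : ℂ) * z) := by
      rw [inv_mul_cancel_left₀]
      exact_mod_cast hq0
    rw [h3]
    refine mul_mem (inv_mem ?_) h2
    exact SubfieldClass.ratCast_mem _ _)
  have h2 : Low.R (ecl ⊥) (Sum.elim t (pt (fun _ : Fin 1 => z))) ≤ Low.R (ecl ⊥) t := by
    apply Low.R_mono
    intro D hD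
    have hDK : ∀ w ∈ Kt t, (D.restrictScalars ℚ) w = 0 := kills_Kt hD
    rintro (j | (i | i))
    · exact hD j
    · exact hDK z hzK
    · exact hDK _ hyK
  have h3 : Low.R (ecl ⊥) t ≤ m := by
    have := Submodule.finrank_le
      (LinearMap.range (Trd.vl t : Derivation (ecl ⊥) ℂ ℂ →ₗ[ℂ] (Fin m → ℂ)))
    rwa [finrank_fintype_fun_eq_card, Fintype.card_fin] at this
  omega

/-- **Main theorem.** -/
theorem indep (ht : Gen ⊥ t) {p : MvPolynomial (Fin 2) (Kt t)} (hp : Irreducible p)
    (hd0 : 0 < p.degreeOf 0) (hd1 : 0 < p.degreeOf 1)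
    (hnc : ¬ ∃ (c : ℂ) (q : MvPolynomial (Fin 2) QB),
      map (algebraMap (Kt t) ℂ) p = C c * map (algebraMap QB ℂ) q)
    {r : ℕ} (z : Fin r → ℂ) (hz : ∀ i, aeval ![z i, Complex.exp (z i)] p = 0)
    (hz0 : ∀ i, z i ≠ 0) (hne : ∀ i j, i ≠ j → z i ≠ z j ∧ z i ≠ -z j) :
    AlgebraicIndependent (ecl ⊥) (Sum.elim t z) := by
  classical
  induction r with
  | zero =>
    apply algInd_of_R
    have h1 := key t ht z (fun q _ => funext fun i => i.elim0)
    have h2 : Low.R (ecl ⊥) (Sum.elim t (pt z)) ≤ Low.R (ecl ⊥) (Sum.elim t z) := by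
      apply Low.R_mono
      intro D hD
      rintro (j | (i | i))
      · exact hD (Sum.inl j)
      · exact i.elim0
      · exact i.elim0
    rw [Fintype.card_sum, Fintype.card_fin, Fintype.card_fin]
    exact h1.trans h2
  | succ k ih =>
    have hind := ih (Fin.init z) (fun i => hz i.castSucc) (fun i => hz0 i.castSucc)
      (fun i j hij => hne i.castSucc j.castSucc (fun h => hij (Fin.castSucc_injective _ h)))
    have hq : ∀ q : Fin (k + 1) → ℚ, ∑ i, (q i : ℂ) * z i ∈ ecl ⊥ → q = 0 := by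
      intro q hq
      rw [Fin.sum_univ_castSucc] at hq
      by_cases hl : q (Fin.last k) = 0
      · rw [hl, Rat.cast_zero, zero_mul, add_zero] at hq
        have h0 : ∀ i : Fin k, q i.castSucc = 0 := by
          intro i
          obtain ⟨D, hDE, hDx⟩ := exists_der hind (Sum.elim 0 (Pi.single i 1))
          have h1 := hDE _ hq
          rw [der_comb' D (fun i => q i.castSucc) (fun i => z i.castSucc)] at h1
          rw [Finset.sum_eq_single i] at h1
          · have h2 : D (z i.castSucc) = Pi.single (M := fun _ : Fin k => ℂ) i 1 i :=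
              hDx (Sum.inr i)
            rw [h2, Pi.single_eq_same, mul_one] at h1
            exact_mod_cast h1
          · intro j _ hj
            have h2 : D (z j.castSucc) = Pi.single (M := fun _ : Fin k => ℂ) i 1 j :=
              hDx (Sum.inr j)
            rw [h2, Pi.single_eq_of_ne hj, mul_zero]
          · intro h
            exact absurd (Finset.mem_univ i) h
        funext i
        refine Fin.lastCases hl (fun j => h0 j) i
      · exfalso
        have hlc : ((q (Fin.last k) : ℚ) : ℂ) ≠ 0 := by exact_mod_cast hl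
        refine step ht hp hd0 hd1 hnc (Fin.init z) (fun i => hz i.castSucc) hind
          (hz (Fin.last k)) (hz0 _)
          (fun i => hne (Fin.last k) i.castSucc (Fin.castSucc_lt_last i).ne')
          (fun i => - q i.castSucc / q (Fin.last k)) ?_
        have h1 : z (Fin.last k) - ∑ i, ((- q i.castSucc / q (Fin.last k) : ℚ) : ℂ) * Fin.init z i =
            ((q (Fin.last k) : ℚ) : ℂ)⁻¹ * (∑ i : Fin k, (q i.castSucc : ℂ) * z i.castSucc +
              (q (Fin.last k) : ℂ) * z (Fin.last k)) := by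
          rw [mul_add, inv_mul_cancel_left₀ hlc, Finset.mul_sum, sub_eq_add_neg, add_comm,
            ← Finset.sum_neg_distrib]
          congr 1
          refine Finset.sum_congr rfl (fun i _ => ?_)
          change -(((- q i.castSucc / q (Fin.last k) : ℚ) : ℂ) * z i.castSucc) = _
          push_cast
          ring
        rw [h1]
        exact mul_mem (inv_mem (SubfieldClass.ratCast_mem _ _)) hq
    apply algInd_of_R
    have h1 := key t ht z hq
    have h2 : Low.R (ecl ⊥) (Sum.elim t (pt z)) ≤ Low.R (ecl ⊥) (Sum.elim t z) := by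
      apply Low.R_mono
      intro D hD
      have hDK : ∀ w ∈ Kt t, (D.restrictScalars ℚ) w = 0 := kills_Kt (fun j => hD (Sum.inl j))
      rintro (j | (i | i))
      · exact hD (Sum.inl j)
      · exact hD (Sum.inr i)
      · have hZ : Zer (Kt t) p (z i) := ⟨hp, hd0, hd1, hz i,
          tr_of_not_mem ht hp hd1 (hz i) (not_mem_ecl ht hp hnc (hz0 i) (hz i))⟩
        exact hZ.dep_exp (D.restrictScalars ℚ) hDK (hD (Sum.inr i))
    rw [Fintype.card_sum, Fintype.card_fin, Fintype.card_fin]
    exact h1.trans h2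

/-- algebraic independence over `K_t` -/
theorem indep_Kt {r : ℕ} {z : Fin r → ℂ} (h : AlgebraicIndependent (ecl ⊥) (Sum.elim t z)) :
    AlgebraicIndependent (Kt t) z := by
  apply algInd_of_der
  intro v
  obtain ⟨D, -, hD⟩ := exists_der h (Sum.elim 0 v)
  exact ⟨D, kills_Kt (fun j => hD (Sum.inl j)), fun s => hD (Sum.inr s)⟩

end Pool.Agent.Helper78.EC.Mar
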