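import Mathlib
import Pool.Agent.Helper78.EC.Mar5

/-!
# Zeros of several polynomials in `z` and `e^z`, logarithms and exponentials
-/

set_option autoImplicit false

namespace Pool.Agent.Helper78.EC.Mar

open Set MvPolynomial Module
open Pool.Agent.Helper78.SC Pool.Agent.Helper78.SC.Ax Pool.Agent.Helper78.SC.Cov
open Pool.Agent.Helper78.EC.Closure Pool.Agent.Helper78.EC.Generic Pool.Agent.Helper78.EC.Use
open Pool.Agent.Helper78.EC.Disj Pool.Agent.Helper78.EC.Str Pool.Agent.Helper78.EC.Curve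
open Pool.Agent.W252 Pool.Agent.W669.Gel Pool.Agent.TH813.Core Pool.Agent.TH813.Rank

variable {m : ℕ} {t : Fin m → ℂ}

/-- `z ≠ 0` is a zero of the polynomial `p` in `z` and `e^z`, which is not defined over `ℚ̄` -/
structure Sol (t : Fin m → ℂ) (p : MvPolynomial (Fin 2) (Kt t)) (z : ℂ) : Prop where
  irr : Irreducible p
  d0 : 0 < p.degreeOf 0
  d1 : 0 < p.degreeOf 1
  nc : ¬ ∃ (c : ℂ) (q : MvPolynomial (Fin 2) QB),
      map (algebraMap (Kt t) ℂ) p = C c * map (algebraMap QB ℂ) q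
  ne : z ≠ 0
  zero : aeval ![z, Complex.exp z] p = 0

variable {p p' : MvPolynomial (Fin 2) (Kt t)} {z z' : ℂ}

theorem Sol.not_mem (ht : Gen ⊥ t) (h : Sol t p z) : z ∉ ecl ⊥ :=
  not_mem_ecl ht h.irr h.nc h.ne h.zero

theorem Sol.zer (ht : Gen ⊥ t) (h : Sol t p z) : Zer (Kt t) p z :=
  ⟨h.irr, h.d0, h.d1, h.zero, tr_of_not_mem ht h.irr h.d1 h.zero (h.not_mem ht)⟩

/-- the three kinds of numbers; `v` is the transcendental coordinate -/
def Ty (t : Fin m → ℂ) (u v : ℂ) : Prop :=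
  ((∃ p, Sol t p u) ∧ v = u) ∨ (Complex.exp u ∈ Kt t ∧ v = u) ∨ (u ∈ Kt t ∧ v = Complex.exp u)

theorem Ty.kill (ht : Gen ⊥ t) {u v : ℂ} (h : Ty t u v) {D : Derivation ℚ ℂ ℂ}
    (hD : ∀ w ∈ Kt t, D w = 0) (hv : D v = 0) : D u = 0 ∧ D (Complex.exp u) = 0 := by
  rcases h with ⟨⟨p, hp⟩, rfl⟩ | ⟨h, rfl⟩ | ⟨h, rfl⟩
  · exact ⟨hv, (hp.zer ht).dep_exp D hD hv⟩
  · exact ⟨hv, hD _ h⟩
  · exact ⟨hD _ h, hv⟩

theorem ind_of_Q (ht : Gen ⊥ t) {n : ℕ} {u v : Fin n → ℂ} (h : ∀ i, Ty t (u i) (v i))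
    (hq : ∀ q : Fin n → ℚ, ∑ i, (q i : ℂ) * u i ∈ ecl ⊥ → q = 0) :
    AlgebraicIndependent (ecl ⊥) (Sum.elim t v) := by
  apply algInd_of_R
  have h1 := key t ht u hq
  have h2 : Low.R (ecl ⊥) (Sum.elim t (pt u)) ≤ Low.R (ecl ⊥) (Sum.elim t v) := by
    apply Low.R_mono
    intro D hD
    have hDK : ∀ w ∈ Kt t, (D.restrictScalars ℚ) w = 0 := kills_Kt (fun j => hD (Sum.inl j))
    have h3 := fun i => (h i).kill ht hDK (hD (Sum.inr i))
    rintro (j | (i | i))
    · exact hD (Sum.inl j)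
    · exact (h3 i).1
    · exact (h3 i).2
  rw [Fintype.card_sum, Fintype.card_fin, Fintype.card_fin]
  exact h1.trans h2

/-- **The main step.** -/
theorem step' (ht : Gen ⊥ t) {n : ℕ} {u v : Fin n → ℂ} (hty : ∀ i, Ty t (u i) (v i))
    (hind : AlgebraicIndependent (ecl ⊥) (Sum.elim t v)) (hs : Sol t p' z') (a : Fin n → ℚ)
    (hδ : z' - ∑ i, (a i : ℂ) * u i ∈ ecl ⊥) :
    ∃ i, z' = a i * u i ∧ Complex.exp (u i) ∉ Kt t ∧ u i ∉ Kt t := by
  classical
  obtain ⟨δ, hδdef⟩ : ∃ δ, δ = z' - ∑ i, (a i : ℂ) * u i := ⟨_, rfl⟩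
  rw [← hδdef] at hδ
  have hz'E : z' ∉ ecl ⊥ := hs.not_mem ht
  have hZ' : Zer (Kt t) p' z' := hs.zer ht
  have hz'eq : z' = ∑ i, (a i : ℂ) * u i + δ := by rw [hδdef]; ring
  obtain ⟨i, hi⟩ : ∃ i, a i ≠ 0 := by
    by_contra hcon
    push Not at hcon
    apply hz'E
    rw [hz'eq]
    simpa [hcon] using hδ
  have hder : ∀ D : Derivation ℚ ℂ ℂ, D z' = ∑ j, (a j : ℂ) * D (u j) + D δ := by
    intro D
    rw [hz'eq, map_add, der_comb']
  have hdl : ∀ D : Derivation ℚ ℂ ℂ, dlog D z' = ∑ j, (a j : ℂ) * dlog D (u j) + dlog D δ := by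
    intro D
    rw [hz'eq, dlog_add, dlog_comb']
  choose D hDE hDx using fun i : Fin n => exists_der hind (Sum.elim 0 (Pi.single i 1))
  have hDt : ∀ i j, D i (t j) = 0 := fun i j => hDx i (Sum.inl j)
  have hDv : ∀ i j, D i (v j) = if j = i then 1 else 0 := by
    intro i j
    have h1 : D i (v j) = Pi.single (M := fun _ : Fin n => ℂ) i 1 j := hDx i (Sum.inr j)
    rw [h1, Pi.single_apply]
  have hDK : ∀ i, ∀ w ∈ Kt t, D i w = 0 := fun i => kills_Kt (hDt i)
  have hDδ : ∀ i, D i δ = 0 := fun i => hDE i δ hδ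
  have hDδ' : ∀ i, dlog (D i) δ = 0 := fun i => dlog_eq_zero.2 (hDE i _ (exp_mem hδ))
  have hkill : ∀ i j, j ≠ i → D i (u j) = 0 ∧ dlog (D i) (u j) = 0 := by
    intro i j hj
    have h1 := (hty j).kill ht (hDK i) (by rw [hDv, if_neg hj])
    exact ⟨h1.1, dlog_eq_zero.2 h1.2⟩
  have hDz' : ∀ i, D i z' = a i * D i (u i) := by
    intro i
    rw [hder, hDδ, add_zero, Finset.sum_eq_single i]
    · intro k _ hk
      rw [(hkill i k hk).1, mul_zero]
    · intro h
      exact absurd (Finset.mem_univ i) h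
  have hdz' : ∀ i, dlog (D i) z' = a i * dlog (D i) (u i) := by
    intro i
    rw [hdl, hDδ', add_zero, Finset.sum_eq_single i]
    · intro k _ hk
      rw [(hkill i k hk).2, mul_zero]
    · intro h
      exact absurd (Finset.mem_univ i) h
  have hrel : ∀ i, a i ≠ 0 → dlog (D i) (u i) = lam p' z' * D i (u i) := by
    intro i hi
    have h1 := hZ'.dlog_eq (hDK i)
    rw [hDz', hdz'] at h1
    have h3 : (a i : ℂ) ≠ 0 := by exact_mod_cast hi
    apply mul_left_cancel₀ h3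
    rw [h1]
    ring
  have hl0 : lam p' z' ≠ 0 := fun h => hZ'.lam_not_mem (by rw [h]; exact zero_mem _)
  -- only zeros of polynomials occur
  have htype : ∀ i, a i ≠ 0 → ∃ p, Sol t p (u i) ∧ v i = u i := by
    intro i hi
    rcases hty i with ⟨⟨p, hp⟩, hv⟩ | ⟨h, hv⟩ | ⟨h, hv⟩
    · exact ⟨p, hp, hv⟩
    · exfalso
      have h1 := hrel i hi
      rw [dlog_eq_zero.2 (hDK i _ h), ← hv, hDv, if_pos rfl, mul_one] at h1
      exact hl0 h1.symm
    · exfalso
      have h1 := hrel i hi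
      rw [hDK i _ h, mul_zero, dlog_eq_zero, ← hv, hDv, if_pos rfl] at h1
      exact one_ne_zero h1
  have hlam : ∀ j, a j ≠ 0 → ∃ p, Zer (Kt t) p (u j) ∧ v j = u j ∧ lam p (u j) = lam p' z' := by
    intro j hj
    obtain ⟨p, hp, hv⟩ := htype j hj
    refine ⟨p, hp.zer ht, hv, ?_⟩
    have h1 := hrel j hj
    rw [(hp.zer ht).dlog_eq (hDK j), ← hv, hDv, if_pos rfl, mul_one, mul_one] at h1
    rw [← hv]
    exact h1
  obtain ⟨p, hZ, hvi, hl⟩ := hlam i hi
  have hDui : D i (u i) = 1 := by rw [← hvi, hDv, if_pos rfl]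
  -- only one coefficient is nonzero
  have hone : ∀ j, j ≠ i → a j = 0 := by
    intro j hj
    by_contra hcon
    obtain ⟨q, hZq, hvj, hlj⟩ := hlam j hcon
    have h1 : lam p (u i) = lam q (u j) := hl.trans hlj.symm
    have h2 : D i (lam p (u i)) = 0 := by
      rw [h1]
      exact hZq.dep_lam (D i) (hDK i) (hkill i j hj).1
    have h3 := exch hZ.dep_lam (hDK i) h2 (by rw [hDui]; exact one_ne_zero)
    exact hZ.lam_not_mem (Kt_closed h3)
  have hsum : ∀ f : Fin n → ℂ, ∑ j, (a j : ℂ) * f j = a i * f i := by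
    intro f
    rw [Finset.sum_eq_single i]
    · intro k _ hk
      rw [hone k hk, Rat.cast_zero, zero_mul]
    · intro h
      exact absurd (Finset.mem_univ i) h
  have hz'1 : z' = a i * u i + δ := by rw [hz'eq, hsum]
  -- the constant is algebraic
  have hδQ : δ ∈ QB := by
    rw [mem_QB]
    by_contra hcon
    have h1 : AlgebraicIndependent ℚ (fun _ : Unit => δ) :=
      algebraicIndependent_unique_type_iff.2 hcon
    obtain ⟨D₀, hD₀⟩ := Pool.Agent.H135R2.VS.exists_der h1 (fun _ => (1 : ℂ))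
    obtain ⟨D₁, hD₁, hD₁x⟩ := exists_der hind (fun s => D₀ (Sum.elim t v s))
    have h2 : ∀ j, (D₀ - D₁) (t j) = 0 := by
      intro j
      rw [Derivation.sub_apply]
      have := hD₁x (Sum.inl j)
      change D₁ (t j) = D₀ (t j) at this
      rw [this, sub_self]
    have h3 : (D₀ - D₁) (u i) = 0 := by
      rw [Derivation.sub_apply, ← hvi]
      have := hD₁x (Sum.inr i)
      change D₁ (v i) = D₀ (v i) at this
      rw [this, sub_self]
    have h4 : (D₀ - D₁) δ = 1 := by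
      rw [Derivation.sub_apply, hD₀ (), hD₁ δ hδ, sub_zero]
    have h5 : (D₀ - D₁) z' ≠ 0 := by
      rw [hz'1, map_add, rat_mul, h3, h4, mul_zero, zero_add]
      exact one_ne_zero
    have h6 : (D₀ - D₁) (lam p' z') = 0 := by
      rw [← hl]
      exact hZ.dep_lam _ (kills_Kt h2) h3
    exact hZ'.lam_not_mem (Kt_closed (exch hZ'.dep_lam (kills_Kt h2) h6 h5))
  -- the exponential of the constant is in the field
  have hδe : Complex.exp δ ∈ Kt t := by
    have h1 : Dep (Kt t) (u i) (Complex.exp δ) := by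
      intro D' hD' hDz'
      have h2 : D' z' = 0 := by
        rw [hz'1, map_add, rat_mul, hDz', mul_zero, hD' δ (QB_le t hδQ), add_zero]
      have h3 : dlog D' δ = 0 := by
        have h4 := hdl D'
        rw [hsum, dlog_eq_zero.2 (hZ.dep_exp D' hD' hDz'),
          dlog_eq_zero.2 (hZ'.dep_exp D' hD' h2), mul_zero, zero_add] at h4
        exact h4.symm
      exact dlog_eq_zero.1 h3
    exact Kt_closed (exch h1 (hDK i) (hDE i _ (exp_mem hδ))
      (by rw [hDui]; exact one_ne_zero))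
  have hδ0 : δ = 0 := by
    by_contra hcon
    exact not_mem_QB ht hδe hcon hδQ
  rw [hδ0, add_zero] at hz'1
  refine ⟨i, hz'1, fun h => ?_, fun h => ?_⟩
  · have h1 := hrel i hi
    rw [dlog_eq_zero.2 (hDK i _ h), hDui, mul_one] at h1
    exact hl0 h1.symm
  · have h1 := hDK i _ h
    rw [hDui] at h1
    exact one_ne_zero h1

end Pool.Agent.Helper78.EC.Mar
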