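import Mathlib
import Pool.Agent.Helper78.EC.Mar6

/-!
# Joint algebraic independence
-/

set_option autoImplicit false

namespace Pool.Agent.Helper78.EC.Mar

open Set MvPolynomial Module
open Pool.Agent.Helper78.SC Pool.Agent.Helper78.SC.Ax Pool.Agent.Helper78.SC.Cov
open Pool.Agent.Helper78.EC.Closure Pool.Agent.Helper78.EC.Generic Pool.Agent.Helper78.EC.Use
open Pool.Agent.Helper78.EC.Disj Pool.Agent.Helper78.EC.Str Pool.Agent.Helper78.EC.Curve
open Pool.Agent.W252 Pool.Agent.W669.Gel Pool.Agent.TH813.Core Pool.Agent.TH813.Rank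

variable {m : ℕ} {t : Fin m → ℂ}

/-- logarithms and exponents -/
theorem base (ht : Gen ⊥ t) {n₁ n₂ : ℕ} (l : Fin n₁ → ℂ) (β : Fin n₂ → ℂ)
    (hl : ∀ j, Complex.exp (l j) ∈ Kt t)
    (hl' : ∀ q : Fin n₁ → ℚ, Complex.exp (∑ j, (q j : ℂ) * l j) ∈ QB → q = 0)
    (hβ : ∀ k, β k ∈ Kt t) (hβ' : ∀ q : Fin n₂ → ℚ, ∑ k, (q k : ℂ) * β k ∈ QB → q = 0)
    (b : Fin n₁ → ℚ) (c : Fin n₂ → ℚ)
    (h : ∑ j, (b j : ℂ) * l j + ∑ k, (c k : ℂ) * β k ∈ ecl ⊥) : b = 0 ∧ c = 0 := by
  classical
  have hind := Use.log_algInd ht (l := l) (fun i => mem_Kt.1 (hl i))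
    (fun q hq => hl' q (mem_QB.2 hq))
  have hb : ∀ i, b i = 0 := by
    intro i
    obtain ⟨D, hDE, hDx⟩ := exists_der hind (Sum.elim 0 (Pi.single i 1))
    have hDK : ∀ w ∈ Kt t, D w = 0 := kills_Kt (fun j => hDx (Sum.inl j))
    have h1 := hDE _ h
    rw [map_add, der_comb', der_comb'] at h1
    have h2 : ∑ k, (c k : ℂ) * D (β k) = 0 :=
      Finset.sum_eq_zero (fun k _ => by rw [hDK _ (hβ k), mul_zero])
    rw [h2, add_zero, Finset.sum_eq_single i] at h1
    · have h3 : D (l i) = Pi.single (M := fun _ : Fin n₁ => ℂ) i 1 i := hDx (Sum.inr i)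
      rw [h3, Pi.single_eq_same, mul_one] at h1
      exact_mod_cast h1
    · intro j _ hj
      have h3 : D (l j) = Pi.single (M := fun _ : Fin n₁ => ℂ) i 1 j := hDx (Sum.inr j)
      rw [h3, Pi.single_eq_of_ne hj, mul_zero]
    · intro h
      exact absurd (Finset.mem_univ i) h
  have hb0 : b = 0 := funext hb
  refine ⟨hb0, hβ' c ?_⟩
  have h1 : ∑ j, (b j : ℂ) * l j = 0 :=
    Finset.sum_eq_zero (fun k _ => by rw [hb, Rat.cast_zero, zero_mul])
  rw [h1, zero_add] at h
  refine mem_QB.2 (alg_of_mem ht h (mem_Kt.1 ?_))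
  exact sum_mem (fun k _ => mul_mem (SubfieldClass.ratCast_mem _ _) (hβ k))

/-- adding zeros of polynomials -/
theorem extend (ht : Gen ⊥ t) {n : ℕ} {w v : Fin n → ℂ}
    (hty : ∀ i, (Complex.exp (w i) ∈ Kt t ∧ v i = w i) ∨ (w i ∈ Kt t ∧ v i = Complex.exp (w i)))
    (hw : ∀ q : Fin n → ℚ, ∑ i, (q i : ℂ) * w i ∈ ecl ⊥ → q = 0) {r : ℕ} (z : Fin r → ℂ)
    (hz : ∀ i, ∃ p, Sol t p (z i)) (hne : ∀ i j, i ≠ j → ∀ a : ℚ, z i ≠ a * z j)
    (q : Fin n → ℚ) (a : Fin r → ℚ)
    (h : ∑ i, (q i : ℂ) * w i + ∑ j, (a j : ℂ) * z j ∈ ecl ⊥) : q = 0 ∧ a = 0 := by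
  classical
  induction r generalizing q with
  | zero =>
    refine ⟨hw q ?_, funext fun i => i.elim0⟩
    simpa using h
  | succ k ih =>
    have hih := ih (Fin.init z) (fun i => hz i.castSucc)
      (fun i j hij => hne i.castSucc j.castSucc (fun h => hij (Fin.castSucc_injective _ h)))
    rw [Fin.sum_univ_castSucc] at h
    by_cases hl : a (Fin.last k) = 0
    · rw [hl, Rat.cast_zero, zero_mul, add_zero] at h
      obtain ⟨h1, h2⟩ := hih q (fun i => a i.castSucc) h
      refine ⟨h1, funext fun i => ?_⟩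
      refine Fin.lastCases hl (fun j => congrFun h2 j) i
    · exfalso
      have hlc : ((a (Fin.last k) : ℚ) : ℂ) ≠ 0 := by exact_mod_cast hl
      let u : Fin (n + k) → ℂ := Fin.append w (Fin.init z)
      let v' : Fin (n + k) → ℂ := Fin.append v (Fin.init z)
      have hu : ∀ i, Ty t (u i) (v' i) := by
        intro i
        refine Fin.addCases (fun j => ?_) (fun j => ?_) i
        · simp only [u, v', Fin.append_left]
          exact Or.inr (hty j)
        · simp only [u, v', Fin.append_right]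
          exact Or.inl ⟨hz j.castSucc, rfl⟩
      have hsum : ∀ f : Fin (n + k) → ℚ, ∑ i, (f i : ℂ) * u i =
          ∑ i, (f (Fin.castAdd k i) : ℂ) * w i +
            ∑ j, (f (Fin.natAdd n j) : ℂ) * Fin.init z j := by
        intro f
        rw [Fin.sum_univ_add]
        simp only [u, Fin.append_left, Fin.append_right]
      have huq : ∀ f : Fin (n + k) → ℚ, ∑ i, (f i : ℂ) * u i ∈ ecl ⊥ → f = 0 := by
        intro f hf
        rw [hsum] at hf
        obtain ⟨h1, h2⟩ := hih _ _ hf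
        funext i
        refine Fin.addCases (fun j => ?_) (fun j => ?_) i
        · exact congrFun h1 j
        · exact congrFun h2 j
      have hind := ind_of_Q ht hu huq
      obtain ⟨p, hp⟩ := hz (Fin.last k)
      let f : Fin (n + k) → ℚ := Fin.append (fun i => - q i / a (Fin.last k))
        (fun j => - a j.castSucc / a (Fin.last k))
      have hmem : z (Fin.last k) - ∑ i, (f i : ℂ) * u i ∈ ecl ⊥ := by
        have h1 : z (Fin.last k) - ∑ i, (f i : ℂ) * u i =
            ((a (Fin.last k) : ℚ) : ℂ)⁻¹ * (∑ i, (q i : ℂ) * w i +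
              (∑ i : Fin k, (a i.castSucc : ℂ) * z i.castSucc +
              (a (Fin.last k) : ℂ) * z (Fin.last k))) := by
          rw [hsum]
          simp only [f, Fin.append_left, Fin.append_right]
          rw [mul_add, mul_add, inv_mul_cancel_left₀ hlc, Finset.mul_sum, Finset.mul_sum]
          have h2 : ∑ i, ((- q i / a (Fin.last k) : ℚ) : ℂ) * w i =
              - ∑ i, ((a (Fin.last k) : ℚ) : ℂ)⁻¹ * ((q i : ℂ) * w i) := by
            rw [← Finset.sum_neg_distrib]
            refine Finset.sum_congr rfl (fun i _ => ?_)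
            push_cast
            ring
          have h3 : ∑ i, ((- a i.castSucc / a (Fin.last k) : ℚ) : ℂ) * Fin.init z i =
              - ∑ i : Fin k, ((a (Fin.last k) : ℚ) : ℂ)⁻¹ * ((a i.castSucc : ℂ) * z i.castSucc) := by
            rw [← Finset.sum_neg_distrib]
            refine Finset.sum_congr rfl (fun i _ => ?_)
            change _ * z i.castSucc = _
            push_cast
            ring
          rw [h2, h3]
          ring
        rw [h1]
        exact mul_mem (inv_mem (SubfieldClass.ratCast_mem _ _)) h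
      obtain ⟨i, hi1, hi2, hi3⟩ := step' ht hu hind hp f hmem
      revert hi1 hi2 hi3
      refine Fin.addCases (fun j => ?_) (fun j => ?_) i
      · simp only [u, Fin.append_left]
        intro _ h2 h3
        rcases hty j with h4 | h4
        · exact h2 h4.1
        · exact h3 h4.1
      · simp only [u, Fin.append_right]
        intro h1 _ _
        exact hne (Fin.last k) j.castSucc (Fin.castSucc_lt_last j).ne' _ h1

/-- **Joint algebraic independence.** -/
theorem joint (ht : Gen ⊥ t) {n₀ n₁ n₂ r : ℕ} (y : Fin n₀ → ℂ) (l : Fin n₁ → ℂ)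
    (β : Fin n₂ → ℂ) (z : Fin r → ℂ) (hy : ∀ i, y i ∈ ecl ⊥) (hy' : AlgebraicIndependent QB y)
    (hl : ∀ j, Complex.exp (l j) ∈ Kt t)
    (hl' : ∀ q : Fin n₁ → ℚ, Complex.exp (∑ j, (q j : ℂ) * l j) ∈ QB → q = 0)
    (hβ : ∀ k, β k ∈ Kt t) (hβ' : ∀ q : Fin n₂ → ℚ, ∑ k, (q k : ℂ) * β k ∈ QB → q = 0)
    (hz : ∀ i, ∃ p, Sol t p (z i)) (hne : ∀ i j, i ≠ j → ∀ a : ℚ, z i ≠ a * z j) :
    AlgebraicIndependent (Kt t)
      (Sum.elim y (Sum.elim l (Sum.elim (fun k => Complex.exp (β k)) z))) := by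
  classical
  let w : Fin (n₁ + n₂) → ℂ := Fin.append l β
  let v : Fin (n₁ + n₂) → ℂ := Fin.append l (fun k => Complex.exp (β k))
  have hty : ∀ i, (Complex.exp (w i) ∈ Kt t ∧ v i = w i) ∨
      (w i ∈ Kt t ∧ v i = Complex.exp (w i)) := by
    intro i
    refine Fin.addCases (fun j => ?_) (fun j => ?_) i
    · simp only [w, v, Fin.append_left]
      exact Or.inl ⟨hl j, trivial⟩
    · simp only [w, v, Fin.append_right]
      exact Or.inr ⟨hβ j, trivial⟩
  have hw : ∀ q : Fin (n₁ + n₂) → ℚ, ∑ i, (q i : ℂ) * w i ∈ ecl ⊥ → q = 0 := by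
    intro q hq
    rw [Fin.sum_univ_add] at hq
    simp only [w, Fin.append_left, Fin.append_right] at hq
    obtain ⟨h1, h2⟩ := base ht l β hl hl' hβ hβ' _ _ hq
    funext i
    refine Fin.addCases (fun j => ?_) (fun j => ?_) i
    · exact congrFun h1 j
    · exact congrFun h2 j
  let u' : Fin (n₁ + n₂ + r) → ℂ := Fin.append w z
  let v' : Fin (n₁ + n₂ + r) → ℂ := Fin.append v z
  have hind : AlgebraicIndependent (ecl ⊥) (Sum.elim t v') := by
    refine ind_of_Q ht (u := u') (v := v') ?_ ?_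
    · intro i
      refine Fin.addCases (fun j => ?_) (fun j => ?_) i
      · simp only [u', v', Fin.append_left]
        exact Or.inr (hty j)
      · simp only [u', v', Fin.append_right]
        exact Or.inl ⟨hz j, rfl⟩
    · intro q hq
      rw [Fin.sum_univ_add] at hq
      simp only [u', Fin.append_left, Fin.append_right] at hq
      obtain ⟨h1, h2⟩ := extend ht hty hw z hz hne _ _ hq
      funext i
      refine Fin.addCases (fun j => ?_) (fun j => ?_) i
      · exact congrFun h1 j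
      · exact congrFun h2 j
  apply algInd_of_der
  intro val
  obtain ⟨D₀, hD₀, hD₀y⟩ := exists_der hy' (fun i => val (Sum.inl i))
  let tg : Fin (n₁ + n₂ + r) → ℂ := Fin.append (Fin.append (fun j => val (Sum.inr (Sum.inl j)))
    (fun k => val (Sum.inr (Sum.inr (Sum.inl k))))) (fun i => val (Sum.inr (Sum.inr (Sum.inr i))))
  obtain ⟨D₁, hD₁, hD₁x⟩ := exists_der hind
    (Sum.elim (fun j => D₀ (t j)) (fun i => D₀ (v' i) - tg i))
  have hDt : ∀ j, (D₀ - D₁) (t j) = 0 := by
    intro j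
    rw [Derivation.sub_apply]
    have : D₁ (t j) = D₀ (t j) := hD₁x (Sum.inl j)
    rw [this, sub_self]
  have hDv : ∀ i, (D₀ - D₁) (v' i) = tg i := by
    intro i
    rw [Derivation.sub_apply]
    have : D₁ (v' i) = D₀ (v' i) - tg i := hD₁x (Sum.inr i)
    rw [this, sub_sub_cancel]
  refine ⟨D₀ - D₁, kills_Kt hDt, ?_⟩
  rintro (i | (j | (k | i)))
  · rw [Derivation.sub_apply]
    change D₀ (y i) - D₁ (y i) = _
    rw [hD₁ _ (hy i), sub_zero, hD₀y]
  · have h1 := hDv (Fin.castAdd r (Fin.castAdd n₂ j))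
    simp only [v', v, tg, Fin.append_left] at h1
    exact h1
  · have h1 := hDv (Fin.castAdd r (Fin.natAdd n₁ k))
    simp only [v', v, tg, Fin.append_left, Fin.append_right] at h1
    exact h1
  · have h1 := hDv (Fin.natAdd (n₁ + n₂) i)
    simp only [v', tg, Fin.append_right] at h1
    exact h1

/-- two rationally proportional zeros of the same polynomial -/
theorem rigid (ht : Gen ⊥ t) {p : MvPolynomial (Fin 2) (Kt t)} {z z' : ℂ} (h : Sol t p z)
    (h' : Sol t p z') (a : ℚ) (ha : z' = a * z) : z' = z ∨ z' = -z := by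
  have hZ := h.zer ht
  have hZ' := h'.zer ht
  have ha0 : a ≠ 0 := by
    rintro rfl
    apply h'.ne
    rw [ha, Rat.cast_zero, zero_mul]
  refine Zer.pm (fun w hw => Kt_closed hw) hZ hZ' ?_ ha
  have h1 : AlgebraicIndependent (Kt t) (fun _ : Unit => z) :=
    algebraicIndependent_unique_type_iff.2 hZ.tr
  obtain ⟨D, hD, hDz⟩ := exists_der h1 (fun _ => (1 : ℂ))
  have h2 := hZ'.dlog_eq hD
  rw [ha, dlog_rat, rat_mul, hDz (), hZ.dlog_eq hD, hDz (), mul_one, mul_one] at h2
  have h3 : (a : ℂ) ≠ 0 := by exact_mod_cast ha0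
  apply mul_left_cancel₀ h3
  rw [h2, ← ha]
  ring

end Pool.Agent.Helper78.EC.Mar
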