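import Mathlib
import Pool.Agent.Helper78.EC.Mar7
import Pool.Agent.Helper78.EC.Zeros

/-!
# Genericity of the zeros
-/

set_option autoImplicit false

namespace Pool.Agent.Helper78.EC.Mar

open Set MvPolynomial Module
open Pool.Agent.Helper78.SC Pool.Agent.Helper78.SC.Ax Pool.Agent.Helper78.SC.Cov
open Pool.Agent.Helper78.EC.Closure Pool.Agent.Helper78.EC.Generic Pool.Agent.Helper78.EC.Use
open Pool.Agent.Helper78.EC.Disj Pool.Agent.Helper78.EC.Str Pool.Agent.Helper78.EC.Curve
open Pool.Agent.W252 Pool.Agent.W669.Gel Pool.Agent.TH813.Core Pool.Agent.TH813.Rank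

variable {m : ℕ} {t : Fin m → ℂ}

/-- numbers which are algebraically dependent on their exponential over the algebraic numbers -/
theorem mem_ecl_of_dep {y : ℂ} (hy : ¬ AlgebraicIndependent QB ![y, Complex.exp y]) :
    y ∈ ecl ⊥ := by
  by_cases hy0 : y = 0
  · rw [hy0]
    exact zero_mem _
  rw [AlgebraicIndependent, injective_iff_map_eq_zero] at hy
  push Not at hy
  obtain ⟨g, hg, hg0⟩ := hy
  obtain ⟨q, hq, hqy⟩ := exists_factor hg0 hg
  by_cases hd : 0 < q.degreeOf 0
  · exact mem_ecl_of_QB hq hd hy0 hqy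
  · have hd0 : q.degreeOf 0 = 0 := by omega
    have hd1 : 0 < q.degreeOf 1 := by
      by_contra hcon
      have h1 := eq_C_of_deg (h := q) (fun i => by
        fin_cases i
        · exact hd0
        · change q.degreeOf 1 = 0
          omega)
      exact not_const hq hqy _ h1
    refine ⟨1, fun _ => y, fun D hD => ?_⟩
    have hDQ : ∀ w ∈ QB, D w = 0 := by
      intro w hw
      have h1 : ∀ u ∈ (⊥ : IntermediateField ℚ ℂ), D u = 0 := hD.1
      exact kills_alg h1 ((mem_QB.1 hw).tower_top _)
    have h1 := chain hDQ y (Complex.exp y) q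
    have h2 : D (Complex.exp y) = Complex.exp y * D y := by
      have h3 := hD.2 0
      unfold dlog at h3
      have h4 := Complex.exp_ne_zero y
      field_simp at h3
      linear_combination h3
    have h3 : pderiv 0 q = 0 := by
      classical
      ext s
      rw [coeff_pderiv, coeff_zero]
      have h4 : q.coeff (s + Finsupp.single 0 1) = 0 := by
        by_contra h5
        have h6 := (degreeOf_le_iff (n := 0) (f := q) (d := 0)).1 hd0.le _
          (MvPolynomial.mem_support_iff.2 h5)
        have h7 : (s + Finsupp.single 0 1 : Fin 2 →₀ ℕ) 0 = s 0 + 1 := by simp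
        omega
      rw [h4, zero_mul]
    rw [hqy, map_zero, h3, map_zero, mul_zero, zero_add, h2] at h1
    have h4 : aeval ![y, Complex.exp y] (pderiv 1 q) ≠ 0 := fun h5 =>
      pderiv_not_dvd hd1 (irr_dvd2 (exists_tr hy0) hq hqy h5)
    have h5 := (mul_eq_zero.1 h1.symm).resolve_right h4
    exact (mul_eq_zero.1 h5).resolve_left (Complex.exp_ne_zero y)

/-- **All nonzero zeros are transcendental over `K_t`.** -/
theorem generic (ht : Gen ⊥ t) {p : MvPolynomial (Fin 2) (Kt t)} (hp : Irreducible p)
    (hd1 : 0 < p.degreeOf 1) {z : ℂ} (hz : z ≠ 0) (hzp : aeval ![z, Complex.exp z] p = 0) :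
    Transcendental (Kt t) z := by
  by_cases hnc : ∃ (c : ℂ) (q : MvPolynomial (Fin 2) QB),
      map (algebraMap (Kt t) ℂ) p = C c * map (algebraMap QB ℂ) q
  · obtain ⟨c, q, hq⟩ := hnc
    have hp0 : map (algebraMap (Kt t) ℂ) p ≠ 0 := by
      intro h
      apply hp.ne_zero
      apply map_injective (algebraMap (Kt t) ℂ) (algebraMap (Kt t) ℂ).injective
      rw [h, map_zero]
    have hc : c ≠ 0 := by
      rintro rfl
      rw [hq, C_0, zero_mul] at hp0
      exact hp0 rfl
    have hq0 : q ≠ 0 := by
      rintro rfl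
      rw [hq, map_zero, mul_zero] at hp0
      exact hp0 rfl
    have hqz : aeval ![z, Complex.exp z] q = 0 := by
      have h1 := congrArg (eval ![z, Complex.exp z]) hq
      rw [eval_map, map_mul, eval_C, eval_map] at h1
      have h2 : eval₂ (algebraMap (Kt t) ℂ) ![z, Complex.exp z] p = 0 := hzp
      rw [h2] at h1
      exact (mul_eq_zero.1 h1.symm).resolve_left hc
    have hzE : z ∈ ecl ⊥ := by
      apply mem_ecl_of_dep
      intro hai
      apply hq0
      exact (injective_iff_map_eq_zero _).1 hai q hqz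
    intro h
    have hzK := Kt_closed h
    have hzQ : z ∈ QB := mem_QB.2 (alg_of_mem ht hzE (mem_Kt.1 hzK))
    exact lindemann (exp_mem_QB ht hzQ (exp_mem_Kt hp hd1 hzp hzK)) hz hzQ
  · exact tr_of_not_mem ht hp hd1 hzp (not_mem_ecl ht hp hnc hz hzp)

end Pool.Agent.Helper78.EC.Mar
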