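import Mathlib
import Pool.Agent.Helper78.EC.QnW

/-!
# Towers of pairs
-/

set_option autoImplicit false

namespace Pool.Agent.Helper78.EC.Qn

open Set MvPolynomial Module Cardinal
open Pool.Agent.Helper78.SC Pool.Agent.Helper78.SC.Ax Pool.Agent.Helper78.SC.Cov
open Pool.Agent.Helper78.EC.Closure Pool.Agent.Helper78.EC.Generic Pool.Agent.Helper78.EC.Use
open Pool.Agent.Helper78.EC.Qm (Fix Cl Fs cb cb_add cb_sub cb_smul cb_zero cb_mem M0 exp_int_mem
  exists_aut exists_aut' exists_move exists_den pre sig_cb sig_exp bounded le_Fs pt_mem cl_Fs R_map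
  Fs_le adj_le_Fs alg_of_range map_mem_Fs cb_snoc dep_map mem_ecl_of_rel cl_ecl kills_Fs
  countable_Fs aut_of_tr degreeOf_pos map_aeval' caseI)

variable {E : IntermediateField ℚ ℂ}

/-- independence of the roots -/
theorem algInd_of_pow {x y : ℂ} (hy : y ≠ 0) {N : ℕ} (hN : 0 < N)
    (h : AlgebraicIndependent E ![(N : ℂ) * x, y ^ N]) : AlgebraicIndependent E ![x, y] := by
  have hNC : (N : ℂ) ≠ 0 := by exact_mod_cast hN.ne'
  apply algInd_of_der
  intro v
  obtain ⟨D, hD1, hD2⟩ := exists_der h ![(N : ℂ) * v 0, (N : ℂ) * y ^ (N - 1) * v 1]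
  refine ⟨D, hD1, fun i => ?_⟩
  have h0 : D ((N : ℂ) * x) = (N : ℂ) * v 0 := hD2 0
  have h1 : D (y ^ N) = (N : ℂ) * y ^ (N - 1) * v 1 := hD2 1
  fin_cases i
  · change D x = v 0
    rw [Derivation.leibniz, Derivation.map_natCast, smul_zero, add_zero, smul_eq_mul] at h0
    exact mul_left_cancel₀ hNC h0
  · change D y = v 1
    rw [Derivation.leibniz_pow, nsmul_eq_mul, smul_eq_mul, ← mul_assoc] at h1
    exact mul_left_cancel₀ (mul_ne_zero hNC (pow_ne_zero _ hy)) h1

/-- independence after automorphisms -/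
theorem algInd_sig {σ : ℂ ≃+* ℂ} (hσ : Fix E σ) {x y : ℂ} (h : AlgebraicIndependent E ![x, y]) :
    AlgebraicIndependent E ![σ x, σ y] := by
  rw [AlgebraicIndependent, injective_iff_map_eq_zero] at h ⊢
  intro P hP
  apply h
  have h1 := map_aeval' hσ ![x, y] P
  have h2 : (fun i => σ (![x, y] i)) = ![σ x, σ y] := by
    funext i
    fin_cases i <;> rfl
  rw [h2, hP, map_eq_zero_iff σ σ.injective] at h1
  exact h1

/-- the field generated by the first pairs -/
noncomputable def lev {n : ℕ} (k : IntermediateField ℚ ℂ) (α β : Fin n → ℂ) (i : ℕ) :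
    IntermediateField ℚ ℂ :=
  IntermediateField.adjoin ℚ ((k : Set ℂ) ∪ {x | ∃ j : Fin n, (j : ℕ) < i ∧ (x = α j ∨ x = β j)})

/-- **Exponential points of towers.** -/
theorem tower (hc : Countable E) (hE : HC E) {r : ℕ} {a : Fin r → ℂ} (hi : Ind E a) (ha : SS E a)
    {n : ℕ} {α β : Fin n → ℂ} (hβ : ∀ i, β i ≠ 0)
    (hdim : ∀ i : Fin n, ¬ (IsAlgebraic (lev (Fs E a) α β i) (α i) ∧
      IsAlgebraic (lev (Fs E a) α β i) (β i)))
    (hsp : ∀ M : Fin n → ℤ, M ≠ 0 → ∀ c ∈ Fs E a, Complex.exp c ∈ Fs E a →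
      AlgebraicIndependent E ![∑ i, (M i : ℂ) * α i - c, (Complex.exp c)⁻¹ * ∏ i, β i ^ M i]) :
    ∃ σ : ℂ ≃+* ℂ, Fix (Fs E a) σ ∧ ∀ i, σ (β i) = Complex.exp (σ (α i)) := by
  classical
  set k := Fs E a with hk
  have hEk : E ≤ k := le_Fs
  suffices H : ∀ i : ℕ, i ≤ n → ∃ (σ : ℂ ≃+* ℂ) (N : ℕ) (s : Fin N → ℂ), Fix k σ ∧ Ind E s ∧ SS E s ∧
      k ≤ Fs E s ∧ (∀ j : Fin n, (j : ℕ) < i → σ (β j) = Complex.exp (σ (α j)) ∧ σ (α j) ∈ LL E s) ∧
      ∀ κ : Fin N → ℤ, ∃ (M : Fin n → ℤ) (c : ℂ), c ∈ k ∧ Complex.exp c ∈ k ∧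
        (∀ j : Fin n, i ≤ (j : ℕ) → M j = 0) ∧
        cb s (fun l => (κ l : ℚ)) = c + ∑ j, (M j : ℂ) * σ (α j) by
    obtain ⟨σ, N, s, h1, -, -, -, h2, -⟩ := H n le_rfl
    exact ⟨σ, h1, fun i => (h2 i i.2).1⟩
  intro i
  induction i with
  | zero =>
    intro _
    refine ⟨RingEquiv.refl ℂ, r, a, fun _ _ => rfl, hi, ha, le_rfl, fun j hj => absurd hj (by omega),
      fun κ => ⟨0, cb a (fun l => (κ l : ℚ)), cb_mem _, exp_cb_mem _, fun _ _ => rfl, by simp⟩⟩
  | succ i ih =>
    intro hin
    obtain ⟨σ, N, s, h1, h2, h3, h4, h5, h6⟩ := ih (by omega)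
    let i₀ : Fin n := ⟨i, by omega⟩
    set F := Fs E s with hF
    -- exponentials of the combinations
    have hexp : ∀ (M : Fin n → ℤ), (∀ j : Fin n, i ≤ (j : ℕ) → M j = 0) →
        Complex.exp (∑ j, (M j : ℂ) * σ (α j)) = ∏ j, σ (β j) ^ M j := by
      intro M hM
      rw [Complex.exp_sum]
      refine Finset.prod_congr rfl (fun j _ => ?_)
      by_cases hj : (j : ℕ) < i
      · rw [(h5 j hj).1, ← Complex.exp_int_mul]
      · rw [hM j (by omega)]
        simp
    -- the field `F` is algebraic over the image of the level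
    have hlev : ∀ x : ℂ, σ x ∈ F → IsAlgebraic (lev k α β i) x := by
      intro x hx
      let G : IntermediateField ℚ ℂ :=
        (algebraicClosure (lev k α β i) ℂ).restrictScalars ℚ
      have hG : ∀ {w : ℂ}, w ∈ G ↔ IsAlgebraic (lev k α β i) w := by
        intro w
        change w ∈ (algebraicClosure (lev k α β i) ℂ).restrictScalars ℚ ↔ _
        rw [IntermediateField.mem_restrictScalars, mem_algebraicClosure_iff]
      have hGcl : Cl G := by
        intro w hw
        have h1 : IsAlgebraic (algebraicClosure (lev k α β i) ℂ) w := hw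
        have : Algebra.IsAlgebraic (lev k α β i) (algebraicClosure (lev k α β i) ℂ) :=
          algebraicClosure.isAlgebraic _ _
        exact hG.2 (h1.restrictScalars (lev k α β i))
      have hlG : lev k α β i ≤ G := fun w hw => hG.2 (isAlgebraic_algebraMap (⟨w, hw⟩ : lev k α β i))
      have hkG : k ≤ G := fun w hw => hlG (IntermediateField.subset_adjoin _ _ (Or.inl hw))
      have hαG : ∀ j : Fin n, (j : ℕ) < i → α j ∈ G := fun j hj =>
        hlG (IntermediateField.subset_adjoin _ _ (Or.inr ⟨j, hj, Or.inl rfl⟩))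
      have hβG : ∀ j : Fin n, (j : ℕ) < i → β j ∈ G := fun j hj =>
        hlG (IntermediateField.subset_adjoin _ _ (Or.inr ⟨j, hj, Or.inr rfl⟩))
      have hle : F ≤ pre σ.symm G := by
        apply Fs_le (Qm.cl_pre hGcl)
        · intro w hw
          change σ.symm w ∈ G
          rw [h1.symm w (hEk hw)]
          exact hkG (hEk hw)
        · have hl : ∀ l : Fin N, ∃ (M : Fin n → ℤ) (c : ℂ), c ∈ k ∧ Complex.exp c ∈ k ∧
              (∀ j : Fin n, i ≤ (j : ℕ) → M j = 0) ∧ s l = c + ∑ j, (M j : ℂ) * σ (α j) := by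
            intro l
            obtain ⟨M, c, e1, e2, e3, e4⟩ := h6 (Pi.single l 1)
            refine ⟨M, c, e1, e2, e3, ?_⟩
            rw [← e4]
            have e5 : (fun l' => (((Pi.single l 1 : Fin N → ℤ) l' : ℤ) : ℚ)) = Pi.single l 1 := by
              funext l'
              by_cases hl' : l' = l
              · subst hl'
                simp
              · simp [Pi.single_eq_of_ne hl']
            rw [e5, cb_single]
            simp
          rintro (l | l)
          · obtain ⟨M, c, e1, e2, e3, e4⟩ := hl l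
            change σ.symm (s l) ∈ G
            rw [e4, map_add, h1.symm c e1, map_sum]
            refine add_mem (hkG e1) (sum_mem fun j _ => ?_)
            rw [map_mul, map_intCast, RingEquiv.symm_apply_apply]
            by_cases hj : (j : ℕ) < i
            · exact mul_mem (G.intCast_mem _) (hαG j hj)
            · rw [e3 j (by omega), Int.cast_zero, zero_mul]
              exact zero_mem _
          · obtain ⟨M, c, e1, e2, e3, e4⟩ := hl l
            change σ.symm (Complex.exp (s l)) ∈ G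
            rw [e4, Complex.exp_add, map_mul, h1.symm _ e2, hexp M e3, map_prod]
            refine mul_mem (hkG e2) (prod_mem fun j _ => ?_)
            rw [map_zpow₀, RingEquiv.symm_apply_apply]
            by_cases hj : (j : ℕ) < i
            · exact zpow_mem (hβG j hj) _
            · rw [e3 j (by omega), zpow_zero]
              exact one_mem _
      have h7 : σ.symm (σ x) ∈ G := hle hx
      rw [RingEquiv.symm_apply_apply] at h7
      exact hG.1 h7
    have huv : ¬ (σ (α i₀) ∈ F ∧ σ (β i₀) ∈ F) := fun h =>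
      hdim i₀ ⟨hlev _ h.1, hlev _ h.2⟩
    have hv : σ (β i₀) ≠ 0 := by
      rw [Ne, map_eq_zero_iff σ σ.injective]
      exact hβ _
    have hq : ∀ q, AlgebraicIndependent E
        ![σ (α i₀) - cb s q, (Complex.exp (cb s q))⁻¹ * σ (β i₀)] := by
      intro q
      obtain ⟨D, κ, hD, hκ⟩ := exists_den q
      obtain ⟨M, c, e1, e2, e3, e4⟩ := h6 κ
      have e5 : (D : ℂ) * cb s q = c + ∑ j, (M j : ℂ) * σ (α j) := by
        rw [← e4, ← hκ, cb_smul]
        push_cast
        rfl
      have e6 : Pi.single i₀ (D : ℤ) - M ≠ 0 := by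
        intro h
        have h7 := congrFun h i₀
        rw [Pi.sub_apply, Pi.single_eq_same, e3 i₀ le_rfl, Pi.zero_apply, sub_zero] at h7
        exact hD.ne' (by exact_mod_cast h7)
      have e7 := algInd_sig (h1.mono hEk) (hsp _ e6 c e1 e2)
      apply algInd_of_pow (mul_ne_zero (inv_ne_zero (Complex.exp_ne_zero _)) hv) hD
      have e8 : σ (∑ j, (((Pi.single i₀ (D : ℤ) - M : Fin n → ℤ) j : ℤ) : ℂ) * α j - c) =
          (D : ℂ) * (σ (α i₀) - cb s q) := by
        rw [mul_sub, e5, map_sub, h1 c e1, map_sum]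
        have e9 : ∀ j, σ ((((Pi.single i₀ (D : ℤ) - M : Fin n → ℤ) j : ℤ) : ℂ) * α j) =
            ((Pi.single i₀ (D : ℤ) : Fin n → ℤ) j : ℂ) * σ (α j) - (M j : ℂ) * σ (α j) := by
          intro j
          rw [map_mul, map_intCast, Pi.sub_apply]
          push_cast
          ring
        simp only [e9]
        rw [Finset.sum_sub_distrib, Finset.sum_eq_single i₀]
        · rw [Pi.single_eq_same]
          push_cast
          ring
        · intro j _ hj
          rw [Pi.single_eq_of_ne hj, Int.cast_zero, zero_mul]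
        · intro h
          exact absurd (Finset.mem_univ _) h
      have e9 : σ ((Complex.exp c)⁻¹ * ∏ j, β j ^ (Pi.single i₀ (D : ℤ) - M : Fin n → ℤ) j) =
          ((Complex.exp (cb s q))⁻¹ * σ (β i₀)) ^ D := by
        rw [map_mul, map_inv₀, h1 _ e2, map_prod, mul_pow, inv_pow, ← Complex.exp_nat_mul, e5,
          Complex.exp_add, hexp M e3]
        have e10 : ∀ j, σ (β j ^ (Pi.single i₀ (D : ℤ) - M : Fin n → ℤ) j) =
            σ (β j) ^ (Pi.single i₀ (D : ℤ) : Fin n → ℤ) j * (σ (β j) ^ M j)⁻¹ := by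
          intro j
          have hj0 : σ (β j) ≠ 0 := by
            rw [Ne, map_eq_zero_iff σ σ.injective]
            exact hβ _
          rw [map_zpow₀, Pi.sub_apply, zpow_sub₀ hj0, div_eq_mul_inv]
        simp only [e10]
        rw [Finset.prod_mul_distrib, Finset.prod_eq_single i₀, Finset.prod_inv_distrib,
          Pi.single_eq_same, zpow_natCast, mul_inv]
        · ring
        · intro j _ hj
          rw [Pi.single_eq_of_ne hj, zpow_zero]
        · intro h
          exact absurd (Finset.mem_univ _) h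
      rw [e8, e9] at e7
      exact e7
    obtain ⟨ρ, g1, g2, g3, g4⟩ := tower_step hc hE h2 h3 hv huv hq
    have hρk : ∀ w ∈ k, ρ w = w := fun w hw => g1 w (h4 hw)
    refine ⟨σ.trans ρ, N + 1, Fin.snoc s (ρ (σ (α i₀))), fun w hw => ?_, g3, g4, ?_, ?_, ?_⟩
    · change ρ (σ w) = w
      rw [h1 w hw, hρk w hw]
    · exact h4.trans (Qm.Fs_snoc_le s _)
    · intro j hj
      rcases Nat.lt_succ_iff_lt_or_eq.1 hj with hj' | hj'
      · obtain ⟨e1, e2⟩ := h5 j hj'
        have e3 : ρ (σ (α j)) = σ (α j) := g1 _ (LL_Fs e2)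
        have e4 : ρ (σ (β j)) = σ (β j) := by
          rw [e1]
          exact g1 _ (exp_LL_mem hE e2)
        refine ⟨?_, ?_⟩
        · change ρ (σ (β j)) = Complex.exp (ρ (σ (α j)))
          rw [e3, e4, e1]
        · change ρ (σ (α j)) ∈ _
          rw [e3]
          exact LL_snoc e2
      · have e1 : j = i₀ := Fin.ext hj'
        rw [e1]
        refine ⟨g2, ?_⟩
        change ρ (σ (α i₀)) ∈ _
        exact last_LL
    · intro κ
      obtain ⟨M, c, e1, e2, e3, e4⟩ := h6 (fun l => κ l.castSucc)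
      refine ⟨M + Pi.single i₀ (κ (Fin.last N)), c, e1, e2, fun j hj => ?_, ?_⟩
      · have e5 : j ≠ i₀ := by
          rintro rfl
          have : ((i₀ : Fin n) : ℕ) = i := rfl
          omega
        rw [Pi.add_apply, Pi.single_eq_of_ne e5, e3 j (by omega), add_zero]
      · have hval : ∀ w : ℂ, cb (Fin.snoc s w : Fin (N + 1) → ℂ) (fun l => (κ l : ℚ)) =
            cb s (fun l => (κ l.castSucc : ℚ)) + (κ (Fin.last N) : ℂ) * w := by
          intro w
          rw [cb_snoc]
          push_cast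
          rfl
        have htr : ∀ j, (σ.trans ρ) (α j) = ρ (σ (α j)) := fun j => rfl
        rw [hval, e4]
        simp only [htr]
        have e5 : ∀ j, (((M + Pi.single i₀ (κ (Fin.last N)) : Fin n → ℤ) j : ℤ) : ℂ) * ρ (σ (α j)) =
            (M j : ℂ) * σ (α j) +
              ((Pi.single i₀ (κ (Fin.last N)) : Fin n → ℤ) j : ℂ) * ρ (σ (α j)) := by
          intro j
          by_cases hj : (j : ℕ) < i
          · rw [show ρ (σ (α j)) = σ (α j) from g1 _ (LL_Fs (h5 j hj).2), Pi.add_apply,
              Int.cast_add, add_mul]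
          · rw [Pi.add_apply, e3 j (by omega), zero_add, Int.cast_zero, zero_mul, zero_add]
        have e6 : ∑ j, ((Pi.single i₀ (κ (Fin.last N)) : Fin n → ℤ) j : ℂ) * ρ (σ (α j)) =
            (κ (Fin.last N) : ℂ) * ρ (σ (α i₀)) := by
          rw [Finset.sum_eq_single i₀]
          · rw [Pi.single_eq_same]
          · intro j _ hj
            rw [Pi.single_eq_of_ne hj, Int.cast_zero, zero_mul]
          · intro h
            exact absurd (Finset.mem_univ _) h
        rw [Finset.sum_congr rfl (fun j _ => e5 j), Finset.sum_add_distrib, e6, add_assoc]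

end Pool.Agent.Helper78.EC.Qn
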