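import Mathlib
import Pool.Agent.Helper78.EC.QnX

/-!
# Varieties given by generic points in extensions of `ℂ`
-/

set_option autoImplicit false

namespace Pool.Agent.Helper78.EC.Qn

open Set MvPolynomial Module Cardinal
open Pool.Agent.Helper78.SC Pool.Agent.Helper78.SC.Cov
open Pool.Agent.Helper78.EC.Qm (Fix Fs le_Fs countable_Fs)

/-- countable fields over a countable field embed -/
theorem exists_embedding {k : IntermediateField ℚ ℂ} (hk : Countable k) {M : Type} [Field M]
    [Countable M] (j : k →+* M) : ∃ f : M →+* ℂ, ∀ c : k, f (j c) = c := by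
  let P := MvPolynomial ℂ M
  let Fr := FractionRing P
  let Ω := AlgebraicClosure Fr
  let g : M →+* Ω := (algebraMap Fr Ω).comp ((algebraMap P Fr).comp C)
  have hC : ℵ₀ < #ℂ := by
    rw [Cardinal.mk_complex]
    exact Cardinal.aleph0_lt_continuum
  have h1 : #P ≤ #ℂ := by
    refine MvPolynomial.cardinalMk_le_max.trans ?_
    exact max_le (max_le (mk_le_aleph0.trans hC.le) le_rfl) hC.le
  have h2 : #Fr ≤ #ℂ := (Cardinal.mk_fractionRing P).le.trans h1
  have h3 : #Ω ≤ #ℂ := by
    refine (Algebra.IsAlgebraic.cardinalMk_le_max Fr Ω).trans ?_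
    exact max_le h2 hC.le
  have h4 : #ℂ ≤ #Ω := by
    have h5 : Function.Injective (fun c : ℂ => algebraMap Fr Ω (algebraMap P Fr (X c))) := by
      intro a b hab
      have h6 := (algebraMap Fr Ω).injective hab
      have h7 := IsFractionRing.injective P Fr h6
      exact MvPolynomial.X_injective h7
    exact mk_le_of_injective h5
  have hΩ : #Ω = #ℂ := le_antisymm h3 h4
  obtain ⟨σ, hσ⟩ := Qm.exists_equiv (R := k) (K := Ω) (L := ℂ) (g.comp j) (algebraMap k ℂ)
    (RingHom.injective _) (RingHom.injective _) (by rw [hΩ]; exact hC) hΩ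
  exact ⟨σ.toRingHom.comp g, fun c => hσ c⟩

variable {L : Type} [Field L] [Algebra ℂ L]

open scoped IntermediateField.algebraAdjoinAdjoin in
/-- points with the same relations give homomorphisms -/
theorem exists_hom (k : IntermediateField ℚ ℂ) {ι : Type} (x : ι → L) (y : ι → ℂ)
    (h : ∀ P : MvPolynomial ι k, aeval y P = 0 ↔ aeval x P = 0) :
    ∃ f : IntermediateField.adjoin k (range x) →+* ℂ, (∀ c : k, f (algebraMap k _ c) = c) ∧
      ∀ i, f ⟨x i, IntermediateField.subset_adjoin _ _ ⟨i, rfl⟩⟩ = y i := by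
  let A := Algebra.adjoin k (range x)
  let π : MvPolynomial ι k →ₐ[k] A := aeval (fun i => (⟨x i, Algebra.subset_adjoin ⟨i, rfl⟩⟩ : A))
  have hπ : ∀ P, ((π P : A) : L) = aeval x P := by
    intro P
    have h1 : (A.val.comp π) = aeval x := by
      apply MvPolynomial.algHom_ext
      intro i
      rw [AlgHom.comp_apply, aeval_X, aeval_X]
      rfl
    rw [← h1]
    rfl
  have hsur : Function.Surjective π := by
    rintro ⟨w, hw⟩
    have h1 : w ∈ (aeval x : MvPolynomial ι k →ₐ[k] L).range := by
      rw [← Algebra.adjoin_range_eq_range_aeval]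
      exact hw
    obtain ⟨P, hP⟩ := h1
    refine ⟨P, Subtype.ext ?_⟩
    rw [hπ]
    exact hP
  have hker : RingHom.ker π.toRingHom ≤ RingHom.ker (aeval y : MvPolynomial ι k →ₐ[k] ℂ).toRingHom := by
    intro P hP
    rw [RingHom.mem_ker] at hP ⊢
    refine (h P).2 ?_
    rw [← hπ]
    change π P = 0 at hP
    rw [hP]
    rfl
  let φ : A →+* ℂ := RingHom.liftOfSurjective π.toRingHom hsur ⟨_, hker⟩
  have hφ : ∀ P, φ (π P) = aeval y P := fun P =>
    RingHom.liftOfSurjective_comp_apply π.toRingHom hsur ⟨_, hker⟩ P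
  have hinj : Function.Injective φ := by
    rw [injective_iff_map_eq_zero]
    intro w hw
    obtain ⟨P, rfl⟩ := hsur w
    rw [hφ, h] at hw
    apply Subtype.ext
    rw [hπ]
    exact hw
  let f : IntermediateField.adjoin k (range x) →+* ℂ := IsFractionRing.lift hinj
  have hf : ∀ w : A, f (algebraMap A _ w) = φ w := fun w => IsFractionRing.lift_algebraMap hinj w
  refine ⟨f, fun c => ?_, fun i => ?_⟩
  · have h1 := hf (algebraMap k A c)
    have h2 : φ (algebraMap k A c) = c := by
      have h3 := hφ (C c)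
      have h4 : π (C c) = algebraMap k A c := by
        change π (algebraMap k _ c) = _
        exact π.commutes c
      rw [h4, aeval_C] at h3
      exact h3
    rw [h2] at h1
    exact h1
  · have h1 := hf (π (X i))
    rw [hφ, aeval_X, aeval_X] at h1
    exact h1

/-- evaluation through the generated field -/
theorem aeval_coe {k : IntermediateField ℚ ℂ} {T : Set L} {ι : Type}
    (x : ι → IntermediateField.adjoin k T) (P : MvPolynomial ι k) :
    ((aeval x P : IntermediateField.adjoin k T) : L) = aeval (fun i => (x i : L)) P := by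
  have h1 : (IntermediateField.adjoin k T).val.comp (aeval x) =
      (aeval (fun i => (x i : L)) : MvPolynomial ι k →ₐ[k] L) := by
    apply MvPolynomial.algHom_ext
    intro i
    rw [AlgHom.comp_apply, aeval_X, aeval_X]
    rfl
  rw [← h1]
  rfl

/-- homomorphisms of the generated field and evaluations -/
theorem map_aeval_hom {k : IntermediateField ℚ ℂ} {T : Set L} {ι : Type}
    {f : IntermediateField.adjoin k T →+* ℂ} (hf : ∀ c : k, f (algebraMap k _ c) = c)
    (x : ι → IntermediateField.adjoin k T) (P : MvPolynomial ι k) :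
    f (aeval x P) = aeval (fun i => f (x i)) P := by
  induction P using MvPolynomial.induction_on with
  | C a => rw [aeval_C, aeval_C]; exact hf a
  | add p q hp hq => rw [map_add, map_add, map_add, hp, hq]
  | mul_X p j hp => rw [map_mul, map_mul, map_mul, hp, aeval_X, aeval_X]

/-- relations are preserved -/
theorem hom_iff {k : IntermediateField ℚ ℂ} {T : Set L} {ι : Type}
    {f : IntermediateField.adjoin k T →+* ℂ} (hf : ∀ c : k, f (algebraMap k _ c) = c)
    (x : ι → IntermediateField.adjoin k T) (P : MvPolynomial ι k) :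
    aeval (fun i => f (x i)) P = 0 ↔ aeval (fun i => (x i : L)) P = 0 := by
  rw [← map_aeval_hom hf, map_eq_zero_iff f f.injective, ← aeval_coe]
  exact (ZeroMemClass.coe_eq_zero).symm

/-- the tower condition: all fibres have positive dimension -/
def IsTower {n : ℕ} (α β : Fin n → L) : Prop :=
  ∀ i : Fin n, ¬ (IsAlgebraic (IntermediateField.adjoin ℂ {x | ∃ j < i, x = α j ∨ x = β j}) (α i) ∧
    IsAlgebraic (IntermediateField.adjoin ℂ {x | ∃ j < i, x = α j ∨ x = β j}) (β i))

/-- no quotient of dimension one is a translate of a curve over `E` -/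
def NoQuot (E : IntermediateField ℚ ℂ) {n : ℕ} (α β : Fin n → L) : Prop :=
  ∀ m : Fin n → ℤ, m ≠ 0 → ∀ c : ℂ, AlgebraicIndependent E
    ![∑ i, (m i : L) * α i - algebraMap ℂ L c,
      (algebraMap ℂ L (Complex.exp c))⁻¹ * ∏ i, β i ^ m i]

variable {E : IntermediateField ℚ ℂ}

/-- **Generic exponential points of towers.** -/
theorem tower_points (hc : Countable E) (hE : HC E)
    (hsch : ∀ (k : ℕ) (z : Fin k → ℂ), Ind E z → k ≤ Low.R E (pt z)) {n : ℕ} {α β : Fin n → L}
    (hβ : ∀ i, β i ≠ 0) (ht : IsTower α β) (hn : NoQuot E α β) (S : Finset ℂ) :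
    ∃ z : Fin n → ℂ, ∀ P : MvPolynomial (Fin n ⊕ Fin n)
      (IntermediateField.adjoin ℚ ((E : Set ℂ) ∪ S)),
      aeval (Sum.elim z (fun i => Complex.exp (z i))) P = 0 ↔ aeval (Sum.elim α β) P = 0 := by
  classical
  let e := S.equivFin
  obtain ⟨r, a, hi, ha, haS⟩ := exists_SS hsch (fun j => ((e.symm j : S) : ℂ))
  set k := Fs E a with hk
  have hck : Countable k := countable_Fs hc
  have hSk : ∀ w ∈ S, w ∈ k := by
    intro w hw
    have h1 := haS (e ⟨w, hw⟩)
    rw [Equiv.symm_apply_apply] at h1
    exact LL_Fs h1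
  have hle : IntermediateField.adjoin ℚ ((E : Set ℂ) ∪ S) ≤ k := by
    rw [IntermediateField.adjoin_le_iff]
    rintro x (hx | hx)
    · exact le_Fs hx
    · exact hSk _ hx
  set x : Fin n ⊕ Fin n → L := Sum.elim α β with hx
  set M := IntermediateField.adjoin k (range x) with hM
  have hcM : Countable M := by
    rw [← mk_le_aleph0_iff]
    refine (IntermediateField.cardinalMk_adjoin_le k _).trans ?_
    exact max_le (max_le mk_le_aleph0 (mk_le_aleph0_iff.2 (countable_range x).to_subtype)) le_rfl
  obtain ⟨f, hf⟩ := exists_embedding hck (algebraMap k M)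
  let xM : Fin n ⊕ Fin n → M := fun i => ⟨x i, IntermediateField.subset_adjoin _ _ ⟨i, rfl⟩⟩
  let α' : Fin n → ℂ := fun i => f (xM (Sum.inl i))
  let β' : Fin n → ℂ := fun i => f (xM (Sum.inr i))
  have hβ' : ∀ i, β' i ≠ 0 := by
    intro i h
    rw [map_eq_zero_iff f f.injective] at h
    exact hβ i (congrArg (fun w : M => (w : L)) h)
  -- the levels
  have hlev : ∀ (i : Fin n) (y : ℂ), y ∈ lev k α' β' i → ∃ w : M,
      (w : L) ∈ IntermediateField.adjoin ℂ {x | ∃ j < i, x = α j ∨ x = β j} ∧ f w = y := by
    intro i y hy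
    unfold lev at hy
    induction hy using IntermediateField.adjoin_induction with
    | mem y hy =>
      rcases hy with hy | ⟨j, hj, rfl | rfl⟩
      · exact ⟨algebraMap k M ⟨y, hy⟩, IntermediateField.algebraMap_mem _ (y : ℂ), hf ⟨y, hy⟩⟩
      · exact ⟨xM (Sum.inl j), IntermediateField.subset_adjoin _ _ ⟨j, hj, Or.inl rfl⟩, rfl⟩
      · exact ⟨xM (Sum.inr j), IntermediateField.subset_adjoin _ _ ⟨j, hj, Or.inr rfl⟩, rfl⟩
    | algebraMap q =>
      refine ⟨(q : M), ?_, ?_⟩
      · push_cast
        exact SubfieldClass.ratCast_mem _ q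
      · rw [map_ratCast]
        rfl
    | add y z _ _ ihy ihz =>
      obtain ⟨v, hv, hv'⟩ := ihy
      obtain ⟨w, hw, hw'⟩ := ihz
      exact ⟨v + w, add_mem hv hw, by rw [map_add, hv', hw']⟩
    | inv y _ ihy =>
      obtain ⟨v, hv, hv'⟩ := ihy
      exact ⟨v⁻¹, inv_mem hv, by rw [map_inv₀, hv']⟩
    | mul y z _ _ ihy ihz =>
      obtain ⟨v, hv, hv'⟩ := ihy
      obtain ⟨w, hw, hw'⟩ := ihz
      exact ⟨v * w, mul_mem hv hw, by rw [map_mul, hv', hw']⟩
  have halg : ∀ (i : Fin n) (w : M), IsAlgebraic (lev k α' β' i) (f w) →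
      IsAlgebraic (IntermediateField.adjoin ℂ {x | ∃ j < i, x = α j ∨ x = β j}) (w : L) := by
    rintro i w ⟨p, hp, hpw⟩
    choose g hg hg' using fun l => hlev i (p.coeff l) (p.coeff l).2
    refine ⟨∑ l ∈ p.support, Polynomial.monomial l ⟨_, hg l⟩, ?_, ?_⟩
    · intro h0
      obtain ⟨l, hl⟩ : ∃ l, p.coeff l ≠ 0 := by
        by_contra hcon
        push Not at hcon
        exact hp (Polynomial.ext (by simpa using hcon))
      have h1 := congrArg (fun q => Polynomial.coeff q l) h0
      simp only [Polynomial.finsetSum_coeff, Polynomial.coeff_zero] at h1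
      rw [Finset.sum_eq_single l] at h1
      · rw [Polynomial.coeff_monomial, if_pos rfl] at h1
        have h1' := congrArg Subtype.val h1
        have h2 : g l = 0 := Subtype.ext h1'
        apply hl
        apply Subtype.ext
        rw [← hg' l, h2, map_zero]
        rfl
      · intro l' _ hl'
        rw [Polynomial.coeff_monomial, if_neg hl']
      · intro h
        exact absurd (Polynomial.mem_support_iff.2 hl) h
    · rw [map_sum]
      have h1 : f (∑ l ∈ p.support, g l * w ^ l) = 0 := by
        rw [map_sum, ← hpw, Polynomial.aeval_eq_sum_range' (n := p.natDegree + 1) (by omega)]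
        rw [Finset.sum_subset (s₂ := Finset.range (p.natDegree + 1))]
        · refine Finset.sum_congr rfl (fun l _ => ?_)
          rw [map_mul, map_pow, hg' l]
          rfl
        · exact Polynomial.supp_subset_range_natDegree_succ
        · intro l _ hl
          have h2 : p.coeff l = 0 := by simpa using hl
          rw [map_mul, hg' l, h2]
          simp
      rw [map_eq_zero_iff f f.injective] at h1
      have h2 := congrArg (fun w : M => (w : L)) h1
      have h3 : ((∑ l ∈ p.support, g l * w ^ l : M) : L) = ∑ l ∈ p.support, (g l : L) * (w : L) ^ l := by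
        push_cast
        rfl
      rw [h3] at h2
      rw [← show ((0 : M) : L) = 0 from rfl, ← h2]
      refine Finset.sum_congr rfl (fun l _ => ?_)
      rw [Polynomial.aeval_monomial]
      rfl
  obtain ⟨σ, hσ1, hσ2⟩ := tower hc hE hi ha hβ' (fun i h => ht i ⟨halg i (xM (Sum.inl i)) h.1,
    halg i (xM (Sum.inr i)) h.2⟩) (fun m hm c hck hce => by
      have h1 := hn m hm c
      rw [AlgebraicIndependent, injective_iff_map_eq_zero] at h1 ⊢
      intro P hP
      apply h1
      let y : Fin 2 → M := ![∑ i, (m i : M) * xM (Sum.inl i) - algebraMap k M ⟨c, hck⟩,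
        (algebraMap k M ⟨_, hce⟩)⁻¹ * ∏ i, xM (Sum.inr i) ^ m i]
      let P' : MvPolynomial (Fin 2) k := map (IntermediateField.inclusion (le_Fs (s := a))).toRingHom P
      have h2 := hom_iff hf y P'
      have h3 : aeval (fun i => f (y i)) P' = aeval ![∑ i, (m i : ℂ) * α' i - c,
          (Complex.exp c)⁻¹ * ∏ i, β' i ^ m i] P := by
        rw [aeval_def, aeval_def, eval₂_map]
        congr 1
        funext i
        fin_cases i
        · change f (∑ i, (m i : M) * xM (Sum.inl i) - algebraMap k M ⟨c, hck⟩) = _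
          rw [map_sub, hf, map_sum]
          simp only [map_mul, map_intCast]
          rfl
        · change f ((algebraMap k M ⟨_, hce⟩)⁻¹ * ∏ i, xM (Sum.inr i) ^ m i) = _
          rw [map_mul, map_inv₀, hf, map_prod]
          simp only [map_zpow₀]
          rfl
      have h4 : aeval (fun i => (y i : L)) P' = aeval ![∑ i, (m i : L) * α i - algebraMap ℂ L c,
          (algebraMap ℂ L (Complex.exp c))⁻¹ * ∏ i, β i ^ m i] P := by
        rw [aeval_def, aeval_def, eval₂_map]
        congr 1
        funext i
        fin_cases i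
        · change ((∑ i, (m i : M) * xM (Sum.inl i) - algebraMap k M ⟨c, hck⟩ : M) : L) = _
          push_cast
          rfl
        · change (((algebraMap k M ⟨_, hce⟩)⁻¹ * ∏ i, xM (Sum.inr i) ^ m i : M) : L) = _
          push_cast
          rfl
      rw [h3, h4] at h2
      exact h2.1 hP)
  refine ⟨fun i => σ (α' i), fun P => ?_⟩
  let P' : MvPolynomial (Fin n ⊕ Fin n) k := map (IntermediateField.inclusion hle).toRingHom P
  have h1 := hom_iff hf xM P'
  have h2 : aeval (fun i => ((xM i : M) : L)) P' = aeval (Sum.elim α β) P := by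
    rw [aeval_def, aeval_def, eval₂_map]
    rfl
  have h3 : σ (aeval (fun i => f (xM i)) P') =
      aeval (Sum.elim (fun i => σ (α' i)) (fun i => Complex.exp (σ (α' i)))) P := by
    rw [Qm.map_aeval' hσ1, aeval_def, aeval_def, eval₂_map]
    congr 1
    funext i
    rcases i with i | i
    · rfl
    · exact hσ2 i
  rw [← h3, map_eq_zero_iff σ σ.injective, h1, h2]

end Pool.Agent.Helper78.EC.Qn
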