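import Mathlib
import Pool.Agent.Helper78.EC.QnY

/-!
# Towers: the converse and changes of coordinates
-/

set_option autoImplicit false

namespace Pool.Agent.Helper78.EC.Qn

open Set MvPolynomial Module Cardinal
open Pool.Agent.Helper78.SC Pool.Agent.Helper78.SC.Cov
open Pool.Agent.Helper78.EC.Qm (Fix Fs le_Fs countable_Fs)

variable {L : Type} [Field L] [Algebra ℂ L] {E : IntermediateField ℚ ℂ} {n : ℕ}

/-- towers have no quotients of dimension zero -/
theorem free_of_tower {α β : Fin n → L} (hβ : ∀ i, β i ≠ 0) (ht : IsTower α β) {m : Fin n → ℤ}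
    (hm : m ≠ 0) {u v : ℂ} (hu : ∑ i, (m i : L) * α i = algebraMap ℂ L u)
    (hv : ∏ i, β i ^ m i = algebraMap ℂ L v) : False := by
  classical
  have hchar : CharZero L := charZero_of_injective_algebraMap (algebraMap ℂ L).injective
  obtain ⟨i, hi, hmax⟩ : ∃ i, m i ≠ 0 ∧ ∀ j, i < j → m j = 0 := by
    have h1 : (Finset.univ.filter (fun i => m i ≠ 0)).Nonempty := by
      by_contra hcon
      rw [Finset.not_nonempty_iff_eq_empty, Finset.filter_eq_empty_iff] at hcon
      apply hm
      funext i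
      exact not_not.1 (hcon (Finset.mem_univ i))
    refine ⟨_, (Finset.mem_filter.1 (Finset.max'_mem _ h1)).2, fun j hj => ?_⟩
    by_contra hcon
    have h2 := Finset.le_max' (Finset.univ.filter (fun i => m i ≠ 0)) j
      (Finset.mem_filter.2 ⟨Finset.mem_univ j, hcon⟩)
    exact absurd h2 (not_le.2 hj)
  apply ht i
  set N := IntermediateField.adjoin ℂ {x | ∃ j < i, x = α j ∨ x = β j} with hN
  have hαN : ∀ j, j < i → α j ∈ N := fun j hj =>
    IntermediateField.subset_adjoin _ _ ⟨j, hj, Or.inl rfl⟩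
  have hβN : ∀ j, j < i → β j ∈ N := fun j hj =>
    IntermediateField.subset_adjoin _ _ ⟨j, hj, Or.inr rfl⟩
  constructor
  · have h1 : α i = (algebraMap ℂ L u - ∑ j ∈ Finset.univ.erase i, (m j : L) * α j) / (m i : L) := by
      rw [← hu, ← Finset.add_sum_erase Finset.univ _ (Finset.mem_univ i)]
      have h2 : (m i : L) ≠ 0 := by exact_mod_cast hi
      field_simp
      ring
    have h2 : α i ∈ N := by
      rw [h1]
      refine div_mem (sub_mem (N.algebraMap_mem u) (sum_mem fun j hj => ?_)) (intCast_mem N _)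
      rcases lt_or_gt_of_ne (Finset.ne_of_mem_erase hj) with h3 | h3
      · exact mul_mem (intCast_mem N _) (hαN j h3)
      · rw [hmax j h3, Int.cast_zero, zero_mul]
        exact zero_mem N
    exact isAlgebraic_algebraMap (⟨α i, h2⟩ : N)
  · have h1 : β i ^ m i = algebraMap ℂ L v / ∏ j ∈ Finset.univ.erase i, β j ^ m j := by
      rw [← hv, ← Finset.mul_prod_erase Finset.univ _ (Finset.mem_univ i), mul_div_cancel_right₀]
      rw [Finset.prod_ne_zero_iff]
      intro j _
      exact zpow_ne_zero _ (hβ j)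
    have h2 : β i ^ m i ∈ N := by
      rw [h1]
      refine div_mem (N.algebraMap_mem v) (prod_mem fun j hj => ?_)
      rcases lt_or_gt_of_ne (Finset.ne_of_mem_erase hj) with h3 | h3
      · exact zpow_mem (hβN j h3) _
      · rw [hmax j h3, zpow_zero]
        exact one_mem N
    have h3 : β i ^ (m i).natAbs ∈ N := by
      rcases Int.natAbs_eq (m i) with h4 | h4
      · rw [h4, zpow_natCast] at h2
        exact h2
      · rw [h4, zpow_neg, zpow_natCast] at h2
        have h5 := inv_mem h2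
        rwa [inv_inv] at h5
    exact IsAlgebraic.of_pow (Int.natAbs_pos.2 hi) (isAlgebraic_algebraMap (⟨_, h3⟩ : N))

/-- the points with the same relations over `E` and `S` -/
def Rels (E : IntermediateField ℚ ℂ) (S : Finset ℂ) (α β : Fin n → L) (z : Fin n → ℂ) : Prop :=
  ∀ P : MvPolynomial (Fin n ⊕ Fin n) (IntermediateField.adjoin ℚ ((E : Set ℂ) ∪ S)),
    aeval (Sum.elim z (fun i => Complex.exp (z i))) P = 0 ↔ aeval (Sum.elim α β) P = 0

/-- **Quotients in translates of curves over `E` prevent generic exponential points.** -/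
theorem quot_of_dep (hE : HC E) {α β : Fin n → L} {m : Fin n → ℤ} {c : ℂ}
    (hdep : ¬ AlgebraicIndependent E ![∑ i, (m i : L) * α i - algebraMap ℂ L c,
      (algebraMap ℂ L (Complex.exp c))⁻¹ * ∏ i, β i ^ m i])
    {z : Fin n → ℂ} (hz : Rels E {c, Complex.exp c} α β z) :
    ∃ u v : ℂ, ∑ i, (m i : L) * α i = algebraMap ℂ L u ∧ ∏ i, β i ^ m i = algebraMap ℂ L v := by
  classical
  rw [AlgebraicIndependent, injective_iff_map_eq_zero] at hdep
  push Not at hdep
  obtain ⟨g, hg, hg0⟩ := hdep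
  set k := IntermediateField.adjoin ℚ ((E : Set ℂ) ∪ (({c, Complex.exp c} : Finset ℂ) : Set ℂ)) with hk
  have hEk : E ≤ k := fun x hx => IntermediateField.subset_adjoin _ _ (Or.inl hx)
  have hck : c ∈ k := IntermediateField.subset_adjoin _ _ (Or.inr (by simp))
  have hce : Complex.exp c ∈ k := IntermediateField.subset_adjoin _ _ (Or.inr (by simp))
  let x : Fin n ⊕ Fin n → L := Sum.elim α β
  let M := IntermediateField.adjoin k (range x)
  obtain ⟨f, hf, hfx⟩ : ∃ f : M →+* ℂ, (∀ c : k, f (algebraMap k M c) = c) ∧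
      ∀ i, f ⟨x i, IntermediateField.subset_adjoin _ _ ⟨i, rfl⟩⟩ =
        Sum.elim z (fun i => Complex.exp (z i)) i :=
    exists_hom k x (Sum.elim z (fun i => Complex.exp (z i))) hz
  let xM : Fin n ⊕ Fin n → M := fun i => ⟨x i, IntermediateField.subset_adjoin _ _ ⟨i, rfl⟩⟩
  let y : Fin 2 → M := ![∑ i, (m i : M) * xM (Sum.inl i) - algebraMap k M ⟨c, hck⟩,
    (algebraMap k M ⟨_, hce⟩)⁻¹ * ∏ i, xM (Sum.inr i) ^ m i]
  set w := ∑ i, (m i : ℂ) * z i - c with hw
  have hexp : (Complex.exp c)⁻¹ * ∏ i, Complex.exp (z i) ^ m i = Complex.exp w := by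
    rw [hw, Complex.exp_sub, Complex.exp_sum, div_eq_inv_mul]
    congr 1
    exact Finset.prod_congr rfl (fun i _ => by rw [← Complex.exp_int_mul])
  have hf0 : f (y 0) = w := by
    change f (∑ i, (m i : M) * xM (Sum.inl i) - algebraMap k M ⟨c, hck⟩) = _
    rw [map_sub, hf, map_sum]
    simp only [map_mul, map_intCast]
    have h1 : ∀ i, f (xM (Sum.inl i)) = z i := fun i => hfx (Sum.inl i)
    simp only [h1]
    rfl
  have hf1 : f (y 1) = Complex.exp w := by
    change f ((algebraMap k M ⟨_, hce⟩)⁻¹ * ∏ i, xM (Sum.inr i) ^ m i) = _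
    rw [map_mul, map_inv₀, hf, map_prod, ← hexp]
    simp only [map_zpow₀]
    have h1 : ∀ i, f (xM (Sum.inr i)) = Complex.exp (z i) := fun i => hfx (Sum.inr i)
    simp only [h1]
  have hy0 : ((y 0 : M) : L) = ∑ i, (m i : L) * α i - algebraMap ℂ L c := by
    change ((∑ i, (m i : M) * xM (Sum.inl i) - algebraMap k M ⟨c, hck⟩ : M) : L) = _
    push_cast
    rfl
  have hy1 : ((y 1 : M) : L) = (algebraMap ℂ L (Complex.exp c))⁻¹ * ∏ i, β i ^ m i := by
    change (((algebraMap k M ⟨_, hce⟩)⁻¹ * ∏ i, xM (Sum.inr i) ^ m i : M) : L) = _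
    push_cast
    rfl
  have hwE : w ∈ E := by
    apply hE.rel_mem
    intro hai
    apply hg0
    refine (injective_iff_map_eq_zero _).1 hai g ?_
    let P' : MvPolynomial (Fin 2) k := map (IntermediateField.inclusion hEk).toRingHom g
    have h2 := hom_iff hf y P'
    have h3 : aeval (fun i => f (y i)) P' = aeval ![w, Complex.exp w] g := by
      rw [aeval_def, aeval_def, eval₂_map]
      congr 1
      funext i
      fin_cases i
      · exact hf0
      · exact hf1
    have h4 : aeval (fun i => (y i : L)) P' = aeval ![∑ i, (m i : L) * α i - algebraMap ℂ L c,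
        (algebraMap ℂ L (Complex.exp c))⁻¹ * ∏ i, β i ^ m i] g := by
      rw [aeval_def, aeval_def, eval₂_map]
      congr 1
      funext i
      fin_cases i
      · exact hy0
      · exact hy1
    rw [h3, h4] at h2
    exact h2.2 hg
  refine ⟨w + c, Complex.exp w * Complex.exp c, ?_, ?_⟩
  · have h1 : y 0 = algebraMap k M ⟨w, hEk hwE⟩ := by
      apply f.injective
      rw [hf0, hf]
    have h2 : ((y 0 : M) : L) = algebraMap ℂ L w := by rw [h1]; rfl
    rw [hy0] at h2
    rw [map_add, ← h2, sub_add_cancel]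
  · have h1 : y 1 = algebraMap k M ⟨_, hEk (hE.exp_mem _ hwE)⟩ := by
      apply f.injective
      rw [hf1, hf]
    have h2 : ((y 1 : M) : L) = algebraMap ℂ L (Complex.exp w) := by rw [h1]; rfl
    rw [hy1] at h2
    have h3 : algebraMap ℂ L (Complex.exp c) ≠ 0 := by
      rw [Ne, map_eq_zero_iff _ (algebraMap ℂ L).injective]
      exact Complex.exp_ne_zero c
    rw [map_mul, ← h2, mul_comm, ← mul_assoc, mul_inv_cancel₀ h3, one_mul]

/-! ### Changes of coordinates -/

/-- the sums -/
def mulA (A : Matrix (Fin n) (Fin n) ℤ) (α : Fin n → L) : Fin n → L := fun i => ∑ j, (A i j : L) * α j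

/-- the products -/
def powA (A : Matrix (Fin n) (Fin n) ℤ) (β : Fin n → L) : Fin n → L := fun i => ∏ j, β j ^ A i j

theorem sum_mulA (A : Matrix (Fin n) (Fin n) ℤ) (α : Fin n → L) (m : Fin n → ℤ) :
    ∑ i, (m i : L) * mulA A α i = ∑ j, ((Matrix.vecMul m A j : ℤ) : L) * α j := by
  unfold mulA Matrix.vecMul dotProduct
  simp only [Finset.mul_sum]
  rw [Finset.sum_comm]
  refine Finset.sum_congr rfl (fun j _ => ?_)
  push_cast
  rw [Finset.sum_mul]
  exact Finset.sum_congr rfl (fun i _ => by ring)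

theorem prod_powA (A : Matrix (Fin n) (Fin n) ℤ) {β : Fin n → L} (hβ : ∀ i, β i ≠ 0)
    (m : Fin n → ℤ) : ∏ i, powA A β i ^ m i = ∏ j, β j ^ (Matrix.vecMul m A j) := by
  unfold powA Matrix.vecMul dotProduct
  have h1 : ∀ i, (∏ j, β j ^ A i j) ^ m i = ∏ j, β j ^ (m i * A i j) := by
    intro i
    rw [← Finset.prod_zpow]
    exact Finset.prod_congr rfl (fun j _ => by rw [← zpow_mul, mul_comm])
  simp only [h1]
  rw [Finset.prod_comm]
  refine Finset.prod_congr rfl (fun j _ => ?_)
  have h2 : ∀ S : Finset (Fin n), ∏ i ∈ S, β j ^ (m i * A i j) = β j ^ (∑ i ∈ S, m i * A i j) := by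
    classical
    intro S
    induction S using Finset.induction_on with
    | empty => simp
    | insert i S hi ih => rw [Finset.prod_insert hi, Finset.sum_insert hi, zpow_add₀ (hβ j), ih]
  exact h2 _

/-- **The criterion.** -/
theorem criterion (hc : Countable E) (hE : HC E)
    (hsch : ∀ (k : ℕ) (z : Fin k → ℂ), Ind E z → k ≤ Low.R E (pt z)) {α β : Fin n → L}
    (hβ : ∀ i, β i ≠ 0) {A : Matrix (Fin n) (Fin n) ℤ} (hA : IsUnit A.det)
    (ht : IsTower (mulA A α) (powA A β)) :
    (∀ S : Finset ℂ, ∃ z : Fin n → ℂ, Rels E S α β z) ↔ NoQuot E α β := by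
  classical
  have hAB : A * A⁻¹ = 1 := Matrix.mul_nonsing_inv A hA
  have hBA : A⁻¹ * A = 1 := Matrix.nonsing_inv_mul A hA
  have hβA : ∀ i, powA A β i ≠ 0 := fun i => Finset.prod_ne_zero_iff.2 fun j _ =>
    zpow_ne_zero _ (hβ j)
  constructor
  · intro h m hm c
    by_contra hdep
    obtain ⟨z, hz⟩ := h {c, Complex.exp c}
    obtain ⟨u, v, hu, hv⟩ := quot_of_dep hE hdep hz
    have h1 : Matrix.vecMul (Matrix.vecMul m A⁻¹) A = m := by
      rw [Matrix.vecMul_vecMul, hBA, Matrix.vecMul_one]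
    refine free_of_tower hβA ht (m := Matrix.vecMul m A⁻¹) (fun h0 => hm ?_) (u := u) (v := v) ?_ ?_
    · rw [← h1, h0, Matrix.zero_vecMul]
    · rw [sum_mulA, h1, hu]
    · rw [prod_powA A hβ, h1, hv]
  · intro hn S
    have hn' : NoQuot E (mulA A α) (powA A β) := by
      intro m hm c
      have h1 := hn (Matrix.vecMul m A) (fun h0 => hm (by
        have h2 : Matrix.vecMul (Matrix.vecMul m A) A⁻¹ = m := by
          rw [Matrix.vecMul_vecMul, hAB, Matrix.vecMul_one]
        rw [← h2, h0, Matrix.zero_vecMul])) c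
      rw [sum_mulA, prod_powA A hβ]
      exact h1
    obtain ⟨z, hz⟩ := tower_points hc hE hsch hβA ht hn' S
    set k := IntermediateField.adjoin ℚ ((E : Set ℂ) ∪ (S : Set ℂ)) with hk
    let x : Fin n ⊕ Fin n → L := Sum.elim (mulA A α) (powA A β)
    let M := IntermediateField.adjoin k (range x)
    obtain ⟨f, hf, hfx⟩ : ∃ f : M →+* ℂ, (∀ c : k, f (algebraMap k M c) = c) ∧
        ∀ i, f ⟨x i, IntermediateField.subset_adjoin _ _ ⟨i, rfl⟩⟩ =
          Sum.elim z (fun i => Complex.exp (z i)) i :=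
      exists_hom k x (Sum.elim z (fun i => Complex.exp (z i))) hz
    let xM : Fin n ⊕ Fin n → M := fun i => ⟨x i, IntermediateField.subset_adjoin _ _ ⟨i, rfl⟩⟩
    have hrow : ∀ i, Matrix.vecMul (A⁻¹ i) A = Pi.single i 1 := by
      intro i
      have h1 : Matrix.vecMul (A⁻¹ i) A = (A⁻¹ * A) i := rfl
      rw [h1, hBA]
      funext j
      rw [Matrix.one_apply, Pi.single_apply]
      simp only [eq_comm]
    have hα : ∀ i, α i = ∑ j, (A⁻¹ i j : L) * mulA A α j := by
      intro i
      rw [sum_mulA A α (A⁻¹ i), hrow, Finset.sum_eq_single i]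
      · rw [Pi.single_eq_same, Int.cast_one, one_mul]
      · intro j _ hj
        rw [Pi.single_eq_of_ne hj, Int.cast_zero, zero_mul]
      · intro h
        exact absurd (Finset.mem_univ _) h
    have hβ' : ∀ i, β i = ∏ j, powA A β j ^ A⁻¹ i j := by
      intro i
      rw [prod_powA A hβ (A⁻¹ i), hrow, Finset.prod_eq_single i]
      · rw [Pi.single_eq_same, zpow_one]
      · intro j _ hj
        rw [Pi.single_eq_of_ne hj, zpow_zero]
      · intro h
        exact absurd (Finset.mem_univ _) h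
    let yM : Fin n ⊕ Fin n → M := Sum.elim (fun i => ∑ j, (A⁻¹ i j : M) * xM (Sum.inl j))
      (fun i => ∏ j, xM (Sum.inr j) ^ A⁻¹ i j)
    refine ⟨fun i => ∑ j, (A⁻¹ i j : ℂ) * z j, fun P => ?_⟩
    have h1 := hom_iff hf yM P
    have h2 : (fun i => ((yM i : M) : L)) = Sum.elim α β := by
      funext i
      rcases i with i | i
      · change ((∑ j, (A⁻¹ i j : M) * xM (Sum.inl j) : M) : L) = α i
        rw [hα i]
        push_cast
        rfl
      · change ((∏ j, xM (Sum.inr j) ^ A⁻¹ i j : M) : L) = β i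
        rw [hβ' i]
        push_cast
        rfl
    have h3 : (fun i => f (yM i)) = Sum.elim (fun i => ∑ j, (A⁻¹ i j : ℂ) * z j)
        (fun i => Complex.exp (∑ j, (A⁻¹ i j : ℂ) * z j)) := by
      funext i
      rcases i with i | i
      · change f (∑ j, (A⁻¹ i j : M) * xM (Sum.inl j)) = _
        rw [map_sum]
        refine Finset.sum_congr rfl (fun j _ => ?_)
        rw [map_mul, map_intCast]
        congr 1
        exact hfx (Sum.inl j)
      · change f (∏ j, xM (Sum.inr j) ^ A⁻¹ i j) = Complex.exp (∑ j, (A⁻¹ i j : ℂ) * z j)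
        rw [map_prod, Complex.exp_sum]
        refine Finset.prod_congr rfl (fun j _ => ?_)
        rw [map_zpow₀, Complex.exp_int_mul]
        congr 1
        exact hfx (Sum.inr j)
    rw [h2, h3] at h1
    exact h1

end Pool.Agent.Helper78.EC.Qn
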