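import Mathlib
import Pool.Agent.Helper78.EC.Mar8

/-!
# Free exponentials of algebraic numbers
-/

set_option autoImplicit false

namespace Pool.Agent.Helper78.EC.Tra

open Set MvPolynomial Module
open Pool.Agent.Helper78.SC Pool.Agent.Helper78.SC.Ax Pool.Agent.Helper78.SC.Cov
open Pool.Agent.Helper78.EC.Closure Pool.Agent.Helper78.EC.Generic Pool.Agent.Helper78.EC.Use
open Pool.Agent.Helper78.EC.Disj Pool.Agent.Helper78.EC.Str Pool.Agent.Helper78.EC.Curve
open Pool.Agent.Helper78.EC.Mar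
open Pool.Agent.W252 Pool.Agent.W669.Gel Pool.Agent.TH813.Core Pool.Agent.TH813.Rank

/-- coordinates on which a subspace projects onto -/
theorem exists_coord {N : ℕ} (V : Submodule ℂ (Fin N → ℂ)) :
    ∃ J : Fin (finrank ℂ V) → Fin N, ∀ v : Fin (finrank ℂ V) → ℂ, ∃ f ∈ V, ∀ i, f (J i) = v i := by
  classical
  let φ : Fin N → Dual ℂ V := fun i => (LinearMap.proj i : (Fin N → ℂ) →ₗ[ℂ] ℂ) ∘ₗ V.subtype
  have hspan : Submodule.span ℂ (range φ) = ⊤ := by
    rw [← Subspace.dualCoannihilator_dualAnnihilator_eq (W := Submodule.span ℂ (range φ))]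
    have h1 : (Submodule.span ℂ (range φ)).dualCoannihilator = ⊥ := by
      rw [eq_bot_iff]
      intro v hv
      rw [Submodule.mem_dualCoannihilator] at hv
      rw [Submodule.mem_bot]
      apply Subtype.ext
      funext i
      exact hv _ (Submodule.subset_span ⟨i, rfl⟩)
    rw [h1, Submodule.dualAnnihilator_bot]
  obtain ⟨f, hf1, hf2, hf3⟩ := Submodule.exists_fun_fin_finrank_span_eq ℂ (range φ)
  have hd : finrank ℂ (Submodule.span ℂ (range φ)) = finrank ℂ V := by
    rw [hspan, finrank_top, Subspace.dual_finrank_eq]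
  choose J' hJ' using hf1
  let c : Fin (finrank ℂ V) → Fin (finrank ℂ (Submodule.span ℂ (range φ))) := Fin.cast hd.symm
  refine ⟨fun i => J' (c i), ?_⟩
  let Φ : V →ₗ[ℂ] (Fin (finrank ℂ V) → ℂ) := LinearMap.pi (fun i => φ (J' (c i)))
  have hinj : Function.Injective Φ := by
    rw [← LinearMap.ker_eq_bot, eq_bot_iff]
    intro v hv
    have h1 : ∀ i, φ (J' (c i)) v = 0 := fun i => congrFun hv i
    have h2 : ∀ ψ ∈ Submodule.span ℂ (range φ), ψ v = 0 := by
      rw [← hf2]
      intro ψ hψ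
      induction hψ using Submodule.span_induction with
      | mem a ha =>
        obtain ⟨i, rfl⟩ := ha
        have h3 := h1 (Fin.cast hd i)
        have h4 : c (Fin.cast hd i) = i := Fin.ext rfl
        rw [h4, hJ'] at h3
        exact h3
      | zero => rfl
      | add a b _ _ iha ihb => rw [LinearMap.add_apply, iha, ihb, add_zero]
      | smul c a _ iha => rw [LinearMap.smul_apply, iha, smul_zero]
    rw [Submodule.mem_bot]
    apply Subtype.ext
    funext i
    exact h2 _ (Submodule.subset_span ⟨i, rfl⟩)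
  have hsurj : Function.Surjective Φ :=
    (LinearMap.injective_iff_surjective_of_finrank_eq_finrank (by
      rw [finrank_fintype_fun_eq_card, Fintype.card_fin])).1 hinj
  intro v
  obtain ⟨u, hu⟩ := hsurj v
  exact ⟨u, u.2, fun i => congrFun hu i⟩

/-- values of the derivations which kill finitely many numbers -/
theorem finrank_killing {N k : ℕ} (x : Fin N → ℂ) (y : Fin k → ℂ)
    (hx : AlgebraicIndependent QB x) :
    N ≤ finrank ℂ ((LinearMap.ker (Trd.vl y : Derivation QB ℂ ℂ →ₗ[ℂ] (Fin k → ℂ))).map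
      (Trd.vl x : Derivation QB ℂ ℂ →ₗ[ℂ] (Fin N → ℂ))) + k := by
  let f : Derivation QB ℂ ℂ →ₗ[ℂ] (Fin N → ℂ) := Trd.vl x
  let g : Derivation QB ℂ ℂ →ₗ[ℂ] (Fin k → ℂ) := Trd.vl y
  have hf : Function.Surjective f := by
    intro v
    have : CharZero QB := charZero_of_injective_algebraMap (algebraMap ℚ QB).injective
    obtain ⟨D, hD⟩ := Pool.Agent.H135R2.VS.exists_der hx v
    exact ⟨D, funext hD⟩
  let V : Submodule ℂ (Fin N → ℂ) := (LinearMap.ker g).map f
  let h : (Derivation QB ℂ ℂ ⧸ LinearMap.ker g) →ₗ[ℂ] ((Fin N → ℂ) ⧸ V) :=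
    (LinearMap.ker g).mapQ V f (fun D hD => ⟨D, hD, rfl⟩)
  have hh : Function.Surjective h := by
    intro v
    obtain ⟨v, rfl⟩ := Submodule.mkQ_surjective V v
    obtain ⟨D, rfl⟩ := hf v
    exact ⟨(LinearMap.ker g).mkQ D, rfl⟩
  have hfin : FiniteDimensional ℂ (Derivation QB ℂ ℂ ⧸ LinearMap.ker g) :=
    g.quotKerEquivRange.symm.finiteDimensional
  have h1 := LinearMap.finrank_le_finrank_of_surjective hh
  have h2 : finrank ℂ (Derivation QB ℂ ℂ ⧸ LinearMap.ker g) ≤ k := by
    rw [g.quotKerEquivRange.finrank_eq]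
    have := Submodule.finrank_le (LinearMap.range g)
    rwa [finrank_fintype_fun_eq_card, Fintype.card_fin] at this
  have h3 := Submodule.finrank_quotient_add_finrank V
  rw [finrank_fintype_fun_eq_card, Fintype.card_fin] at h3
  change N ≤ finrank ℂ V + k
  omega

/-- the field generated by the algebraic numbers and finitely many numbers -/
noncomputable def FF {k : ℕ} (y : Fin k → ℂ) : IntermediateField ℚ ℂ :=
  IntermediateField.adjoin ℚ ((QB : Set ℂ) ∪ range y)

theorem QB_le_FF {k : ℕ} (y : Fin k → ℂ) : QB ≤ FF y := fun _ hw =>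
  IntermediateField.subset_adjoin ℚ _ (Or.inl hw)

theorem mem_FF {k : ℕ} (y : Fin k → ℂ) (i : Fin k) : y i ∈ FF y :=
  IntermediateField.subset_adjoin ℚ _ (Or.inr ⟨i, rfl⟩)

/-- **Free exponentials of algebraic numbers.** -/
theorem exists_exps {k : ℕ} (y : Fin k → ℂ) (s : ℕ) :
    ∃ ρ : Fin s → ℂ, (∀ j, ρ j ∈ QB) ∧
      AlgebraicIndependent (FF y) (fun j => Complex.exp (ρ j)) := by
  classical
  obtain ⟨β, hβ, hli⟩ := Low.exists_algs (Fin.elim0 : Fin 0 → ℂ) linearIndependent_empty_type (k + s)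
  have hli' : LinearIndependent ℚ β := hli.comp Sum.inr Sum.inr_injective
  have hx : AlgebraicIndependent ℚ (fun i => Complex.exp (β i)) :=
    Pool.Agent.H327R2.SC.lw_algInd β hβ hli'
  have hx' : AlgebraicIndependent QB (fun i => Complex.exp (β i)) := by
    apply algInd_of_der
    intro v
    obtain ⟨D, hD⟩ := Pool.Agent.H135R2.VS.exists_der hx v
    exact ⟨D, fun w hw => Pool.Agent.H327R2.SC.der_alg (K := ℚ) (L := ℂ) ⊥ D (fun x hx => by
      obtain ⟨q, rfl⟩ := IntermediateField.mem_bot.1 hx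
      exact D.map_algebraMap q) ((mem_QB.1 hw).tower_top _), hD⟩
  have h1 := finrank_killing (fun i => Complex.exp (β i)) y hx'
  obtain ⟨J, hJ⟩ := exists_coord
    ((LinearMap.ker (Trd.vl y : Derivation QB ℂ ℂ →ₗ[ℂ] (Fin k → ℂ))).map
      (Trd.vl (fun i => Complex.exp (β i)) : Derivation QB ℂ ℂ →ₗ[ℂ] (Fin (k + s) → ℂ)))
  let c : Fin s → Fin (finrank ℂ ((LinearMap.ker (Trd.vl y : Derivation QB ℂ ℂ →ₗ[ℂ] (Fin k → ℂ))).map
      (Trd.vl (fun i => Complex.exp (β i)) : Derivation QB ℂ ℂ →ₗ[ℂ] (Fin (k + s) → ℂ)))) :=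
    Fin.castLE (by omega)
  have hc : Function.Injective c := Fin.castLE_injective _
  refine ⟨fun j => β (J (c j)), fun j => mem_QB.2 (hβ _), ?_⟩
  apply algInd_of_der
  intro v
  obtain ⟨f, ⟨D, hD, rfl⟩, hf⟩ := hJ (Function.extend c v 0)
  refine ⟨D.restrictScalars ℚ, ?_, fun j => ?_⟩
  · apply kills_adjoin
    rintro w (hw | ⟨i, rfl⟩)
    · exact D.map_algebraMap (⟨w, hw⟩ : QB)
    · exact congrFun (LinearMap.mem_ker.1 hD) i
  · have h2 := hf (c j)
    rw [hc.extend_apply] at h2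
    exact h2

end Pool.Agent.Helper78.EC.Tra
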