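import Mathlib
import Pool.Agent.Helper78.EC.Tra

/-!
# Decompositions of points over generic fields
-/

set_option autoImplicit false

namespace Pool.Agent.Helper78.EC.Tra

open Set MvPolynomial Module
open Pool.Agent.Helper78.SC Pool.Agent.Helper78.SC.Ax Pool.Agent.Helper78.SC.Cov
open Pool.Agent.Helper78.EC.Closure Pool.Agent.Helper78.EC.Generic Pool.Agent.Helper78.EC.Use
open Pool.Agent.Helper78.EC.Disj Pool.Agent.Helper78.EC.Str Pool.Agent.Helper78.EC.Curve
open Pool.Agent.Helper78.EC.Mar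
open Pool.Agent.W252 Pool.Agent.W669.Gel Pool.Agent.TH813.Core Pool.Agent.TH813.Rank

/-- decomposition modulo a space -/
theorem decompP (P : Submodule ℚ ℂ) {n : ℕ} (x : Fin n → ℂ) :
    ∃ (s : ℕ) (a : Fin n → ℂ) (A : Fin n → Fin s → ℚ) (w : Fin s → ℂ),
      (∀ i, a i ∈ P) ∧ (∀ i, x i = a i + ∑ j, (A i j : ℂ) * w j) ∧
      (∀ i, a i ∈ Submodule.span ℚ (range x)) ∧ (∀ j, w j ∈ Submodule.span ℚ (range x)) ∧
      (∀ q : Fin s → ℚ, ∑ j, (q j : ℂ) * w j ∈ P → q = 0) := by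
  let W : Submodule ℚ ℂ := Submodule.span ℚ (range x)
  have hfin : FiniteDimensional ℚ W := FiniteDimensional.span_of_finite ℚ (finite_range x)
  let W₀ : Submodule ℚ W := P.comap W.subtype
  obtain ⟨W₁, hc⟩ := W₀.exists_isCompl
  let b₁ := finBasis ℚ W₁
  have hdec : ∀ i, ∃ a ∈ W₀, ∃ b ∈ W₁, a + b = (⟨x i, Submodule.subset_span ⟨i, rfl⟩⟩ : W) := by
    intro i
    apply Submodule.mem_sup.1
    rw [hc.sup_eq_top]
    trivial
  choose a ha b hb hab using hdec
  refine ⟨finrank ℚ W₁, fun i => (a i : ℂ), fun i k => b₁.repr ⟨b i, hb i⟩ k,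
    fun k => ((b₁ k : W) : ℂ), fun i => ha i, fun i => ?_, fun i => (a i).2,
    fun j => (b₁ j : W).2, ?_⟩
  · have h2 : b i = ∑ k, b₁.repr ⟨b i, hb i⟩ k • (b₁ k : W) := by
      have := congrArg (fun y : W₁ => (y : W)) (b₁.sum_repr ⟨b i, hb i⟩)
      change ((∑ k, b₁.repr ⟨b i, hb i⟩ k • b₁ k : W₁) : W) = b i at this
      rw [Submodule.coe_sum] at this
      exact this.symm
    have h3 : x i = ((a i + b i : W) : ℂ) := by rw [hab]
    rw [h3, Submodule.coe_add]
    congr 1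
    conv_lhs => rw [h2]
    rw [Submodule.coe_sum]
    exact Finset.sum_congr rfl (fun r _ => Rat.smul_def _ _)
  · intro q hq
    have h2 : (∑ i, q i • b₁ i : W₁) = 0 := by
      have h3 : ((∑ i, q i • b₁ i : W₁) : W) ∈ W₀ := by
        change (((∑ i, q i • b₁ i : W₁) : W) : ℂ) ∈ P
        have h4 : (((∑ i, q i • b₁ i : W₁) : W) : ℂ) = ∑ i, (q i : ℂ) * ((b₁ i : W) : ℂ) := by
          rw [Submodule.coe_sum, Submodule.coe_sum]
          exact Finset.sum_congr rfl (fun i _ => Rat.smul_def _ _)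
        rw [h4]
        exact hq
      exact Subtype.ext (Submodule.disjoint_def.1 hc.disjoint _ h3 (∑ i, q i • b₁ i : W₁).2)
    exact funext (Fintype.linearIndependent_iff.1 b₁.linearIndependent q h2)

/-- a common denominator -/
theorem exists_den {n s : ℕ} (A : Fin n → Fin s → ℚ) :
    ∃ (N : ℤ) (M : Fin n → Fin s → ℤ), N ≠ 0 ∧ ∀ i j, (M i j : ℚ) = N * A i j := by
  classical
  let N : ℕ := ∏ i, ∏ j, (A i j).den
  have hN : N ≠ 0 := Finset.prod_ne_zero_iff.2 (fun i _ => Finset.prod_ne_zero_iff.2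
    (fun j _ => (A i j).den_nz))
  have hdvd : ∀ i j, (A i j).den ∣ N := fun i j =>
    (Finset.dvd_prod_of_mem (fun j => (A i j).den) (Finset.mem_univ j)).trans
      (Finset.dvd_prod_of_mem (fun i => ∏ j, (A i j).den) (Finset.mem_univ i))
  choose k hk using hdvd
  refine ⟨N, fun i j => k i j * (A i j).num, by exact_mod_cast hN, fun i j => ?_⟩
  have h1 : (A i j) * (A i j).den = (A i j).num := Rat.mul_den_eq_num _
  push_cast
  rw [hk i j, ← h1]
  push_cast
  ring

/-- the integral version -/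
theorem decompZ (P : Submodule ℚ ℂ) {n : ℕ} (x : Fin n → ℂ) :
    ∃ (s : ℕ) (a : Fin n → ℂ) (A : Fin n → Fin s → ℤ) (w : Fin s → ℂ),
      (∀ i, a i ∈ P) ∧ (∀ i, x i = a i + ∑ j, (A i j : ℂ) * w j) ∧
      (∀ i, a i ∈ Submodule.span ℚ (range x)) ∧ (∀ j, w j ∈ Submodule.span ℚ (range x)) ∧
      (∀ q : Fin s → ℚ, ∑ j, (q j : ℂ) * w j ∈ P → q = 0) := by
  obtain ⟨s, a, A, w, h1, h2, h3, h4, h5⟩ := decompP P x
  obtain ⟨N, M, hN, hM⟩ := exists_den A
  have hNC : (N : ℂ) ≠ 0 := by exact_mod_cast hN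
  have hNQ : (N : ℚ) ≠ 0 := by exact_mod_cast hN
  refine ⟨s, a, M, fun j => ((N : ℚ)⁻¹ : ℚ) • w j, h1, fun i => ?_, h3,
    fun j => Submodule.smul_mem _ _ (h4 j), fun q hq => ?_⟩
  · rw [h2 i]
    congr 1
    refine Finset.sum_congr rfl (fun j _ => ?_)
    change (A i j : ℂ) * w j = (M i j : ℂ) * (((N : ℚ)⁻¹ : ℚ) • w j)
    rw [Rat.smul_def]
    have h6 : (M i j : ℂ) = N * (A i j : ℂ) := by
      have := hM i j
      exact_mod_cast congrArg (fun z : ℚ => (z : ℂ)) this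
    rw [h6]
    push_cast
    field_simp
  · have h6 : ∑ j, ((q j / N : ℚ) : ℂ) * w j ∈ P := by
      convert hq using 2 with j
      change ((q j / N : ℚ) : ℂ) * w j = (q j : ℂ) * (((N : ℚ)⁻¹ : ℚ) • w j)
      rw [Rat.smul_def]
      push_cast
      ring
    have h7 := h5 _ h6
    funext j
    have h8 := congrFun h7 j
    simp only [Pi.zero_apply] at h8 ⊢
    exact (div_eq_zero_iff.1 h8).resolve_right hNQ

/-- the space of the elements of a field -/
noncomputable def spK (K : IntermediateField ℚ ℂ) : Submodule ℚ ℂ := K.toSubalgebra.toSubmodule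

theorem mem_spK {K : IntermediateField ℚ ℂ} {x : ℂ} : x ∈ spK K ↔ x ∈ K := Iff.rfl

/-- the space of the logarithms of the elements of a relatively algebraically closed field -/
noncomputable def spL (K : IntermediateField ℚ ℂ) (hK : ∀ w : ℂ, IsAlgebraic K w → w ∈ K) : Submodule ℚ ℂ where
  carrier := {l | Complex.exp l ∈ K}
  add_mem' := by
    intro a b ha hb
    rw [mem_ofPred_eq, Complex.exp_add]
    exact mul_mem ha hb
  zero_mem' := by
    rw [mem_ofPred_eq, Complex.exp_zero]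
    exact one_mem K
  smul_mem' := by
    intro q l hl
    rw [mem_ofPred_eq, Rat.smul_def]
    exact hK _ (Use.exp_rat (F := K) (isAlgebraic_algebraMap (⟨_, hl⟩ : K)) q)

theorem mem_spL {K : IntermediateField ℚ ℂ} {hK : ∀ w : ℂ, IsAlgebraic K w → w ∈ K} {l : ℂ} :
    l ∈ spL K hK ↔ Complex.exp l ∈ K := Iff.rfl

theorem QB_closed : ∀ w : ℂ, IsAlgebraic QB w → w ∈ QB := by
  intro w hw
  rw [mem_QB]
  have : Algebra.IsAlgebraic ℚ QB := algebraicClosure.isAlgebraic ℚ ℂ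
  exact hw.restrictScalars ℚ

end Pool.Agent.Helper78.EC.Tra
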