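import Mathlib
import Pool.Agent.Helper78.EC.Tra2
import Pool.Agent.Helper78.RK.Free

/-!
# Exact specialisation of relations of bounded degree
-/

set_option autoImplicit false

namespace Pool.Agent.Helper78.EC.Tra

open Set MvPolynomial Module
open Pool.Agent.Helper78.SC Pool.Agent.Helper78.SC.Ax Pool.Agent.Helper78.SC.Cov
open Pool.Agent.Helper78.EC.Closure Pool.Agent.Helper78.EC.Generic Pool.Agent.Helper78.EC.Use
open Pool.Agent.Helper78.EC.Disj Pool.Agent.Helper78.EC.Str Pool.Agent.Helper78.EC.Curve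
open Pool.Agent.Helper78.EC.Mar
open Pool.Agent.W252 Pool.Agent.W669.Gel Pool.Agent.TH813.Core Pool.Agent.TH813.Rank

variable {m : ℕ} {t : Fin m → ℂ}

/-- independence of exponentials and logarithms -/
theorem base_ind (ht : Gen ⊥ t) {n₁ n₂ : ℕ} (l : Fin n₁ → ℂ) (β : Fin n₂ → ℂ)
    (hl : ∀ j, Complex.exp (l j) ∈ Kt t)
    (hl' : ∀ q : Fin n₁ → ℚ, Complex.exp (∑ j, (q j : ℂ) * l j) ∈ QB → q = 0)
    (hβ : ∀ k, β k ∈ Kt t) (hβ' : ∀ q : Fin n₂ → ℚ, ∑ k, (q k : ℂ) * β k ∈ QB → q = 0) :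
    AlgebraicIndependent (ecl ⊥)
      (Sum.elim t (Fin.append l (fun k => Complex.exp (β k)))) := by
  classical
  refine ind_of_Q ht (u := Fin.append l β) ?_ ?_
  · intro i
    refine Fin.addCases (fun j => ?_) (fun j => ?_) i
    · simp only [Fin.append_left]
      exact Or.inr (Or.inl ⟨hl j, rfl⟩)
    · simp only [Fin.append_right]
      exact Or.inr (Or.inr ⟨hβ j, rfl⟩)
  · intro q hq
    rw [Fin.sum_univ_add] at hq
    simp only [Fin.append_left, Fin.append_right] at hq
    obtain ⟨h1, h2⟩ := base ht l β hl hl' hβ hβ' _ _ hq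
    funext i
    refine Fin.addCases (fun j => ?_) (fun j => ?_) i
    · exact congrFun h1 j
    · exact congrFun h2 j

/-- derivations with given values -/
theorem ders (ht : Gen ⊥ t) {n₁ n₂ : ℕ} (l : Fin n₁ → ℂ) (β : Fin n₂ → ℂ)
    (hl : ∀ j, Complex.exp (l j) ∈ Kt t)
    (hl' : ∀ q : Fin n₁ → ℚ, Complex.exp (∑ j, (q j : ℂ) * l j) ∈ QB → q = 0)
    (hβ : ∀ k, β k ∈ Kt t) (hβ' : ∀ q : Fin n₂ → ℚ, ∑ k, (q k : ℂ) * β k ∈ QB → q = 0)
    (u : Fin m → ℂ) (v : Fin n₁ → ℂ) (w : Fin n₂ → ℂ) :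
    ∃ D : Derivation ℚ ℂ ℂ, (∀ z ∈ ecl ⊥, D z = 0) ∧ (∀ j, D (t j) = u j) ∧
      (∀ j, D (l j) = v j) ∧ ∀ k, D (Complex.exp (β k)) = w k := by
  obtain ⟨D, hD, hDx⟩ := exists_der (base_ind ht l β hl hl' hβ hβ')
    (Sum.elim u (Fin.append v w))
  refine ⟨D, hD, fun j => hDx (Sum.inl j), fun j => ?_, fun k => ?_⟩
  · have h1 := hDx (Sum.inr (Fin.castAdd n₂ j))
    simp only [Sum.elim_inr, Fin.append_left] at h1
    exact h1
  · have h1 := hDx (Sum.inr (Fin.natAdd n₁ k))
    simp only [Sum.elim_inr, Fin.append_right] at h1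
    exact h1

section frac

variable {F : IntermediateField ℚ ℂ} {ι : Type} {Z : ι → ℂ}

/-- evaluation of rational functions at an independent point -/
noncomputable def ev (hZ : AlgebraicIndependent F Z) :
    FractionRing (MvPolynomial ι F) →+* ℂ :=
  IsFractionRing.lift (A := MvPolynomial ι F) (K := FractionRing (MvPolynomial ι F))
    (g := (aeval Z : MvPolynomial ι F →ₐ[F] ℂ).toRingHom) hZ

theorem ev_algebraMap (hZ : AlgebraicIndependent F Z) (p : MvPolynomial ι F) :
    ev hZ (algebraMap _ (FractionRing (MvPolynomial ι F)) p) = aeval Z p :=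
  IsFractionRing.lift_algebraMap (A := MvPolynomial ι F) (K := FractionRing (MvPolynomial ι F))
    (g := (aeval Z : MvPolynomial ι F →ₐ[F] ℂ).toRingHom) hZ p

/-- relations between rational functions -/
theorem ev_rel {Y : ι → ℂ} (hZ : AlgebraicIndependent F Z) (hY : AlgebraicIndependent F Y)
    (hF : QB ≤ F) {σ : Type} (G : σ → FractionRing (MvPolynomial ι F)) (P : MvPolynomial σ QB) :
    aeval (fun s => ev hZ (G s)) P = 0 ↔ aeval (fun s => ev hY (G s)) P = 0 := by
  let κ : QB →+* FractionRing (MvPolynomial ι F) :=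
    (algebraMap (MvPolynomial ι F) (FractionRing (MvPolynomial ι F))).comp
      (C.comp (IntermediateField.inclusion hF).toRingHom)
  have h : ∀ {Z : ι → ℂ} (hZ : AlgebraicIndependent F Z),
      aeval (fun s => ev hZ (G s)) P = ev hZ (eval₂ κ G P) := by
    intro Z hZ
    rw [aeval_def, MvPolynomial.hom_eval₂]
    congr 1
    ext c
    rw [RingHom.comp_apply, RingHom.comp_apply, ev_algebraMap, RingHom.comp_apply, aeval_C]
    rfl
  rw [h hZ, h hY, map_eq_zero, map_eq_zero]

/-- the coordinates as rational functions -/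
noncomputable def GG {a b s r : ℕ} (α : Fin a → F) (c : Fin b → F) (n : Fin a → Fin s → ℤ)
    (B : Fin b → Fin r → ℚ) : Fin a ⊕ Fin b → FractionRing (MvPolynomial (Fin s ⊕ Fin r) F) :=
  Sum.elim (fun i => algebraMap _ _ (C (α i) : MvPolynomial (Fin s ⊕ Fin r) F) *
      ∏ j, (algebraMap (MvPolynomial (Fin s ⊕ Fin r) F) _ (X (Sum.inl j))) ^ (n i j))
    (fun k => algebraMap _ _ (C (c k) + ∑ j, C ((B k j : ℚ) : F) * X (Sum.inr j) :
      MvPolynomial (Fin s ⊕ Fin r) F))

theorem ev_GG {a b s r : ℕ} (α : Fin a → ℂ) (hα : ∀ i, Complex.exp (α i) ∈ F)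
    (c : Fin b → ℂ) (hc : ∀ k, c k ∈ F) (n : Fin a → Fin s → ℤ) (B : Fin b → Fin r → ℚ)
    {η : Fin s → ℂ} {w : Fin r → ℂ}
    (hZ : AlgebraicIndependent F (Sum.elim (fun j => Complex.exp (η j)) w)) :
    (fun s => ev hZ (GG (fun i => (⟨_, hα i⟩ : F)) (fun k => (⟨_, hc k⟩ : F)) n B s)) =
      Sum.elim (fun i => Complex.exp (α i + ∑ j, (n i j : ℂ) * η j))
        (fun k => c k + ∑ j, (B k j : ℂ) * w j) := by
  funext s
  rcases s with i | k
  · simp only [GG, Sum.elim_inl, map_mul, map_prod, map_zpow₀]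
    rw [ev_algebraMap, aeval_C, Complex.exp_add, Complex.exp_sum]
    congr 1
    refine Finset.prod_congr rfl (fun j _ => ?_)
    rw [ev_algebraMap, aeval_X, Complex.exp_int_mul]
    rfl
  · simp only [GG, Sum.elim_inr]
    rw [ev_algebraMap, map_add, map_sum, aeval_C]
    congr 1
    refine Finset.sum_congr rfl (fun j _ => ?_)
    rw [map_mul, aeval_C, aeval_X]
    congr 1

end frac

section free

variable {a b r : ℕ} (x : Fin a → ℂ) (c : Fin b → ℂ) (B : Fin b → Fin r → ℚ)

/-- the polynomials in the free logarithms -/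
noncomputable def TT' : MvPolynomial (Fin a ⊕ Fin b) QB →+* MvPolynomial (Fin r) ℂ :=
  eval₂Hom (C.comp (algebraMap QB ℂ))
    (Sum.elim (fun i => C (Complex.exp (x i))) (fun k => C (c k) + ∑ j, C (B k j : ℂ) * X j))

theorem eval_TT (ω : Fin r → ℂ) (P : MvPolynomial (Fin a ⊕ Fin b) QB) :
    eval ω (TT' x c B P) = aeval (Sum.elim (fun i => Complex.exp (x i))
      (fun k => c k + ∑ j, (B k j : ℂ) * ω j)) P := by
  have h : (eval ω).comp (TT' x c B) = (aeval (Sum.elim (fun i => Complex.exp (x i))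
      (fun k => c k + ∑ j, (B k j : ℂ) * ω j)) : MvPolynomial (Fin a ⊕ Fin b) QB →ₐ[QB] ℂ).toRingHom := by
    apply MvPolynomial.ringHom_ext
    · intro z
      rw [RingHom.comp_apply]
      unfold TT'
      rw [coe_eval₂Hom, eval₂_C]
      simp
    · intro s
      rw [RingHom.comp_apply]
      unfold TT'
      rw [coe_eval₂Hom, eval₂_X]
      rcases s with i | k
      · simp
      · simp
  exact RingHom.congr_fun h P

theorem exists_free_TT {w : Fin r → ℂ} (hw : AlgebraicIndependent (ecl ⊥) w)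
    (hx : ∀ i, x i ∈ ecl ⊥) (hc : ∀ k, c k ∈ ecl ⊥) (M : Finset (Fin a ⊕ Fin b →₀ ℕ)) :
    ∃ v : Fin r → ℂ, (∀ k, Complex.exp (v k) ∈ QB) ∧
      ∀ P : MvPolynomial (Fin a ⊕ Fin b) QB, P.support ⊆ M →
        (aeval (Sum.elim (fun i => Complex.exp (x i)) (fun k => c k + ∑ j, (B k j : ℂ) * w j)) P = 0 ↔
        aeval (Sum.elim (fun i => Complex.exp (x i)) (fun k => c k + ∑ j, (B k j : ℂ) * v j)) P = 0) := by
  classical
  let T := TT' x c B
  let W : Submodule QB ℂ := Submodule.span QB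
    ((M.biUnion (fun s => (T (monomial s 1)).support.image (fun μ => coeff μ (T (monomial s 1)))) :
      Finset ℂ) : Set ℂ)
  have hfin : FiniteDimensional QB W := FiniteDimensional.span_finset QB _
  let D' : ℕ := M.sup (fun s => Finset.univ.sup fun i => degreeOf i (T (monomial s 1)))
  obtain ⟨v, hv1, hv2⟩ := Pool.Agent.Helper78.RK.exists_free r D' W
  have hexp : ∀ P : MvPolynomial (Fin a ⊕ Fin b) QB, ∀ μ, coeff μ (T P) =
      ∑ s ∈ P.support, ((P.coeff s : QB) : ℂ) * coeff μ (T (monomial s 1)) := by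
    intro P μ
    conv_lhs => rw [P.as_sum]
    rw [map_sum, coeff_sum]
    refine Finset.sum_congr rfl (fun s _ => ?_)
    have h1 : (monomial s (P.coeff s) : MvPolynomial (Fin a ⊕ Fin b) QB) =
        C (P.coeff s) * monomial s 1 := by
      rw [C_mul_monomial, mul_one]
    have h2 : T (C (P.coeff s)) = C ((P.coeff s : QB) : ℂ) := by
      change TT' x c B (C (P.coeff s)) = _
      unfold TT'
      rw [coe_eval₂Hom, eval₂_C]
      rfl
    rw [h1, map_mul, h2, coeff_C_mul]
  have hcoe : ∀ P : MvPolynomial (Fin a ⊕ Fin b) QB, P.support ⊆ M → ∀ μ, coeff μ (T P) ∈ W := by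
    intro P hP μ
    rw [hexp]
    refine sum_mem (fun s hs => ?_)
    have h1 : coeff μ (T (monomial s 1)) ∈ W := by
      by_cases h2 : coeff μ (T (monomial s 1)) = 0
      · rw [h2]
        exact zero_mem _
      · exact Submodule.subset_span (Finset.mem_coe.2 (Finset.mem_biUnion.2 ⟨s, hP hs,
          Finset.mem_image.2 ⟨μ, MvPolynomial.mem_support_iff.2 h2, rfl⟩⟩))
    have h2 := W.smul_mem (P.coeff s) h1
    rwa [Algebra.smul_def] at h2
  have hdeg : ∀ P : MvPolynomial (Fin a ⊕ Fin b) QB, P.support ⊆ M → ∀ i,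
      degreeOf i (T P) ≤ D' := by
    intro P hP i
    rw [degreeOf_le_iff]
    intro μ hμ
    rw [MvPolynomial.mem_support_iff, hexp] at hμ
    obtain ⟨s, hs, h1⟩ := Finset.exists_ne_zero_of_sum_ne_zero hμ
    have h2 := right_ne_zero_of_mul h1
    have h3 := (degreeOf_le_iff (n := i) (f := T (monomial s 1))
      (d := degreeOf i (T (monomial s 1)))).1 le_rfl μ (MvPolynomial.mem_support_iff.2 h2)
    refine h3.trans ?_
    exact (Finset.le_sup (f := fun i => degreeOf i (T (monomial s 1))) (Finset.mem_univ i)).trans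
      (Finset.le_sup (f := fun s => Finset.univ.sup fun i => degreeOf i (T (monomial s 1))) (hP hs))
  have hE : ∀ P : MvPolynomial (Fin a ⊕ Fin b) QB, ∃ q : MvPolynomial (Fin r) (ecl ⊥),
      map (algebraMap (ecl ⊥) ℂ) q = T P := by
    intro P
    induction P using MvPolynomial.induction_on with
    | C z =>
      refine ⟨C ⟨(z : ℂ), QB_le_ecl z.2⟩, ?_⟩
      rw [map_C]
      change _ = TT' x c B (C z)
      unfold TT'
      rw [coe_eval₂Hom, eval₂_C]
      rfl
    | add p q hp hq =>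
      obtain ⟨p', hp'⟩ := hp
      obtain ⟨q', hq'⟩ := hq
      exact ⟨p' + q', by rw [map_add, map_add, hp', hq']⟩
    | mul_X p s hp =>
      obtain ⟨p', hp'⟩ := hp
      have h1 : ∃ q : MvPolynomial (Fin r) (ecl ⊥), map (algebraMap (ecl ⊥) ℂ) q = T (X s) := by
        rcases s with i | k
        · refine ⟨C ⟨_, exp_mem (hx i)⟩, ?_⟩
          rw [map_C]
          change _ = TT' x c B (X (Sum.inl i))
          unfold TT'
          rw [coe_eval₂Hom, eval₂_X]
          rfl
        · refine ⟨C ⟨_, hc k⟩ + ∑ j, C ((B k j : ℚ) : ecl ⊥) * X j, ?_⟩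
          rw [map_add, map_C, map_sum]
          change _ = TT' x c B (X (Sum.inr k))
          unfold TT'
          rw [coe_eval₂Hom, eval₂_X]
          simp only [map_mul, map_C, map_X, Sum.elim_inr]
          congr 1
      obtain ⟨q', hq'⟩ := h1
      exact ⟨p' * q', by rw [map_mul, map_mul, hp', hq']⟩
  refine ⟨v, fun k => mem_QB.2 (hv1 k), fun P hP => ?_⟩
  rw [← eval_TT, ← eval_TT]
  constructor
  · intro h
    obtain ⟨q, hq⟩ := hE P
    have h1 : aeval w q = 0 := by
      change eval w (T P) = 0 at h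
      rw [← hq, eval_map] at h
      exact h
    have h2 : q = 0 := (injective_iff_map_eq_zero _).1 hw q h1
    change eval v (T P) = 0
    rw [← hq, h2, map_zero, map_zero]
  · intro h
    have h1 : T P = 0 := hv2 (T P) (hcoe P hP) (hdeg P hP) h
    change eval w (T P) = 0
    rw [h1, map_zero]

end free

end Pool.Agent.Helper78.EC.Tra
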