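import Mathlib
import Pool.Agent.Helper78.EC.Tra3

/-!
# Exact specialisation
-/

set_option autoImplicit false

namespace Pool.Agent.Helper78.EC.Tra

open Set MvPolynomial Module
open Pool.Agent.Helper78.SC Pool.Agent.Helper78.SC.Ax Pool.Agent.Helper78.SC.Cov
open Pool.Agent.Helper78.EC.Closure Pool.Agent.Helper78.EC.Generic Pool.Agent.Helper78.EC.Use
open Pool.Agent.Helper78.EC.Disj Pool.Agent.Helper78.EC.Str Pool.Agent.Helper78.EC.Curve
open Pool.Agent.Helper78.EC.Mar
open Pool.Agent.W252 Pool.Agent.W669.Gel Pool.Agent.TH813.Core Pool.Agent.TH813.Rank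

variable {m : ℕ} {t : Fin m → ℂ}

theorem dlog_combZ {r : ℕ} (D : Derivation ℚ ℂ ℂ) (a : Fin r → ℤ) (z : Fin r → ℂ) :
    dlog D (∑ i, (a i : ℂ) * z i) = ∑ i, (a i : ℂ) * dlog D (z i) := by
  have h := dlog_comb' D (fun i => (a i : ℚ)) z
  simpa using h

theorem FF_le {k : ℕ} {y : Fin k → ℂ} (hy : ∀ i, y i ∈ ecl ⊥) : FF y ≤ ecl ⊥ := by
  unfold FF
  rw [IntermediateField.adjoin_le_iff]
  rintro w (hw | ⟨i, rfl⟩)
  · exact QB_le_ecl hw
  · exact hy i

/-- **Exact specialisation.** -/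
theorem exact (ht : Gen ⊥ t) {a b : ℕ} (x : Fin a → ℂ) (l : Fin b → ℂ) (hx : ∀ i, x i ∈ Kt t)
    (hxi : LinearIndependent ℚ x) (hl : ∀ j, Complex.exp (l j) ∈ Kt t)
    (hli : LinearIndependent ℚ l) (M : Finset (Fin a ⊕ Fin b →₀ ℕ)) :
    ∃ (x' : Fin a → ℂ) (l' : Fin b → ℂ), (∀ i, x' i ∈ QB) ∧ LinearIndependent ℚ x' ∧
      (∀ j, Complex.exp (l' j) ∈ QB) ∧ LinearIndependent ℚ l' ∧
      ∀ P : MvPolynomial (Fin a ⊕ Fin b) QB, P.support ⊆ M →
        (aeval (Sum.elim (fun i => Complex.exp (x i)) l) P = 0 ↔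
          aeval (Sum.elim (fun i => Complex.exp (x' i)) l') P = 0) := by
  classical
  obtain ⟨s, α, n, ξ, hα, hxα, -, hξ, hξq⟩ := decompZ (spK QB) x
  obtain ⟨r, c, B, w, hc, hlc, -, hw, hwq⟩ := decompP (spL QB QB_closed) l
  have hξK : ∀ j, ξ j ∈ Kt t := by
    intro j
    have h1 : Submodule.span ℚ (range x) ≤ spK (Kt t) :=
      Submodule.span_le.2 (by rintro _ ⟨i, rfl⟩; exact hx i)
    exact h1 (hξ j)
  have hwK : ∀ k, Complex.exp (w k) ∈ Kt t := by
    intro k
    have h1 : Submodule.span ℚ (range l) ≤ spL (Kt t) (fun _ h => Kt_closed h) :=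
      Submodule.span_le.2 (by rintro _ ⟨i, rfl⟩; exact hl i)
    exact h1 (hw k)
  have hαE : ∀ i, α i ∈ ecl ⊥ := fun i => QB_le_ecl (hα i)
  have hcE : ∀ k, c k ∈ ecl ⊥ := fun k => log_mem (QB_le_ecl (hc k))
  let y : Fin (a + b) → ℂ := Fin.append (fun i => Complex.exp (α i)) c
  have hyE : ∀ i, y i ∈ ecl ⊥ := by
    intro i
    refine Fin.addCases (fun j => ?_) (fun j => ?_) i
    · simp only [y, Fin.append_left]
      exact exp_mem (hαE j)
    · simp only [y, Fin.append_right]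
      exact hcE j
  have hFE : FF y ≤ ecl ⊥ := FF_le hyE
  have hαF : ∀ i, Complex.exp (α i) ∈ FF y := by
    intro i
    have := mem_FF y (Fin.castAdd b i)
    simpa only [y, Fin.append_left] using this
  have hcF : ∀ k, c k ∈ FF y := by
    intro k
    have := mem_FF y (Fin.natAdd a k)
    simpa only [y, Fin.append_right] using this
  obtain ⟨ρ, hρQ, hρ⟩ := exists_exps y s
  -- algebraic independence of the generic part
  have hder := ders ht w ξ hwK (fun q hq => hwq q hq) hξK (fun q hq => hξq q hq)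
  have hX : AlgebraicIndependent (FF y) (Sum.elim (fun j => Complex.exp (ξ j)) w) := by
    apply algInd_of_der
    intro v
    obtain ⟨D, hD, -, hDw, hDξ⟩ := hder 0 (fun k => v (Sum.inr k)) (fun j => v (Sum.inl j))
    refine ⟨D, fun z hz => hD z (hFE hz), ?_⟩
    rintro (j | k)
    · exact hDξ j
    · exact hDw k
  have hY : AlgebraicIndependent (FF y) (Sum.elim (fun j => Complex.exp (ρ j)) w) := by
    apply algInd_of_der
    intro v
    obtain ⟨D₀, hD₀, hD₀ρ⟩ := exists_der hρ (fun j => v (Sum.inl j))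
    obtain ⟨D₁, hD₁, -, hD₁w, -⟩ := hder 0 (fun k => v (Sum.inr k) - D₀ (w k)) 0
    refine ⟨D₀ + D₁, fun z hz => ?_, ?_⟩
    · rw [Derivation.add_apply, hD₀ z hz, hD₁ z (hFE hz), add_zero]
    · rintro (j | k)
      · change (D₀ + D₁) (Complex.exp (ρ j)) = _
        rw [Derivation.add_apply, hD₀ρ, hD₁ _ (exp_mem (QB_le_ecl (hρQ j))), add_zero]
      · change (D₀ + D₁) (w k) = _
        rw [Derivation.add_apply, hD₁w, add_sub_cancel]
  have hwE : AlgebraicIndependent (ecl ⊥) w := by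
    apply algInd_of_der
    intro v
    obtain ⟨D, hD, -, hDw, -⟩ := hder 0 v 0
    exact ⟨D, hD, hDw⟩
  let x' : Fin a → ℂ := fun i => α i + ∑ j, (n i j : ℂ) * ρ j
  have hx'Q : ∀ i, x' i ∈ QB := fun i =>
    add_mem (hα i) (sum_mem (fun j _ => mul_mem (intCast_mem _ _) (hρQ j)))
  obtain ⟨v, hv1, hv2⟩ := exists_free_TT x' c B hwE (fun i => QB_le_ecl (hx'Q i)) hcE
    (M ∪ Finset.univ.image (fun k : Fin b => Finsupp.single (Sum.inr k) 1))
  let l' : Fin b → ℂ := fun k => c k + ∑ j, (B k j : ℂ) * v j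
  -- the equivalence
  have hval : ∀ i, x i = α i + ∑ j, (n i j : ℂ) * ξ j := hxα
  have heq : ∀ P : MvPolynomial (Fin a ⊕ Fin b) QB,
      P.support ⊆ M ∪ Finset.univ.image (fun k : Fin b => Finsupp.single (Sum.inr k) 1) →
      (aeval (Sum.elim (fun i => Complex.exp (x i)) l) P = 0 ↔
        aeval (Sum.elim (fun i => Complex.exp (x' i)) l') P = 0) := by
    intro P hP
    have h1 := ev_rel hX hY (QB_le_FF y) (GG (fun i => (⟨_, hαF i⟩ : FF y))
      (fun k => (⟨_, hcF k⟩ : FF y)) n B) P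
    rw [ev_GG α hαF c hcF n B hX, ev_GG α hαF c hcF n B hY] at h1
    have h2 : (Sum.elim (fun i => Complex.exp (x i)) l : Fin a ⊕ Fin b → ℂ) =
        Sum.elim (fun i => Complex.exp (α i + ∑ j, (n i j : ℂ) * ξ j))
          (fun k => c k + ∑ j, (B k j : ℂ) * w j) := by
      funext q
      rcases q with i | k
      · simp only [Sum.elim_inl, hval i]
      · simp only [Sum.elim_inr, hlc k]
    rw [h2]
    exact h1.trans (hv2 P hP)
  refine ⟨x', l', hx'Q, ?_, fun j => ?_, ?_, fun P hP =>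
    heq P (hP.trans Finset.subset_union_left)⟩
  · rw [Fintype.linearIndependent_iff] at hxi ⊢
    intro g hg
    apply hxi g
    have h1 : ∀ j, ∑ i, (g i : ℂ) * (n i j : ℂ) = 0 := by
      intro j
      obtain ⟨D, hD, hDρ⟩ := exists_der hρ (fun k => if k = j then Complex.exp (ρ k) else 0)
      have h2 : ∀ k, dlog D (ρ k) = if k = j then 1 else 0 := by
        intro k
        unfold dlog
        rw [hDρ k]
        split_ifs
        · exact div_self (Complex.exp_ne_zero _)
        · rw [zero_div]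
      have h3 : ∀ i, dlog D (x' i) = n i j := by
        intro i
        change dlog D (α i + ∑ j, (n i j : ℂ) * ρ j) = _
        rw [dlog_add, dlog_eq_zero.2 (hD _ (hαF i)), zero_add, dlog_combZ]
        simp [h2]
      have h4 : dlog D (∑ i, (g i : ℂ) * x' i) = ∑ i, (g i : ℂ) * dlog D (x' i) :=
        dlog_comb' D g x'
      have h5 : ∑ i, (g i : ℂ) * x' i = 0 := by
        rw [← hg]
        exact Finset.sum_congr rfl (fun i _ => (Rat.smul_def _ _).symm)
      rw [h5] at h4
      have h6 : dlog D 0 = 0 := by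
        have := dl_apply D 0
        rw [← this, map_zero]
      rw [h6] at h4
      rw [h4]
      exact Finset.sum_congr rfl (fun i _ => by rw [h3])
    have h7 : ∀ η : Fin s → ℂ, ∑ i, (g i : ℂ) * (α i + ∑ j, (n i j : ℂ) * η j) =
        ∑ i, (g i : ℂ) * α i := by
      intro η
      have h8 : ∑ i, (g i : ℂ) * (α i + ∑ j, (n i j : ℂ) * η j) =
          ∑ i, (g i : ℂ) * α i + ∑ j, (∑ i, (g i : ℂ) * (n i j : ℂ)) * η j := by
        simp only [mul_add, Finset.sum_add_distrib, Finset.mul_sum, Finset.sum_mul]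
        congr 1
        rw [Finset.sum_comm]
        exact Finset.sum_congr rfl (fun i _ => Finset.sum_congr rfl (fun j _ => by ring))
      rw [h8]
      simp [h1]
    have h9 : ∑ i, g i • x i = ∑ i, (g i : ℂ) * (α i + ∑ j, (n i j : ℂ) * ξ j) := by
      refine Finset.sum_congr rfl (fun i _ => ?_)
      rw [Rat.smul_def, ← hval i]
    have h10 : ∑ i, g i • x' i = ∑ i, (g i : ℂ) * (α i + ∑ j, (n i j : ℂ) * ρ j) :=
      Finset.sum_congr rfl (fun i _ => Rat.smul_def _ _)
    rw [h9, h7 ξ, ← h7 ρ, ← h10, hg]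
  · have h1 : (fun k => c k + ∑ j, (B k j : ℂ) * v j) j ∈ spL QB QB_closed := by
      refine add_mem (hc j) (sum_mem (fun k _ => ?_))
      have := (spL QB QB_closed).smul_mem (B j k) (show v k ∈ spL QB QB_closed from hv1 k)
      rwa [Rat.smul_def] at this
    exact h1
  · rw [Fintype.linearIndependent_iff] at hli ⊢
    intro g hg
    apply hli g
    let P : MvPolynomial (Fin a ⊕ Fin b) QB := ∑ k, monomial (Finsupp.single (Sum.inr k) 1) ((g k : ℚ) : QB)
    have hPs : P.support ⊆ M ∪ Finset.univ.image (fun k : Fin b => Finsupp.single (Sum.inr k) 1) := by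
      intro u hu
      rw [MvPolynomial.mem_support_iff, coeff_sum] at hu
      obtain ⟨k, -, hk⟩ := Finset.exists_ne_zero_of_sum_ne_zero hu
      rw [coeff_monomial] at hk
      by_cases h : Finsupp.single (Sum.inr k) 1 = u
      · exact Finset.mem_union_right _ (Finset.mem_image.2 ⟨k, Finset.mem_univ k, h⟩)
      · rw [if_neg h] at hk
        exact absurd rfl hk
    have hPe : ∀ (e : Fin a → ℂ) (κ : Fin b → ℂ), aeval (Sum.elim e κ) P = ∑ k, g k • κ k := by
      intro e κ
      rw [map_sum]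
      refine Finset.sum_congr rfl (fun k _ => ?_)
      have h11 : ((Finsupp.single (Sum.inr k : Fin a ⊕ Fin b) 1).prod
          (fun i k => (Sum.elim e κ : Fin a ⊕ Fin b → ℂ) i ^ k)) = κ k := by
        rw [Finsupp.prod_single_index]
        · simp
        · simp
      rw [aeval_monomial, h11, Rat.smul_def]
      congr 1
    have h1 := (heq P hPs).2 (by rw [hPe]; exact hg)
    rwa [hPe] at h1

end Pool.Agent.Helper78.EC.Tra
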