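import Mathlib
import Pool.Agent.Helper78.EC.Tra4
import Pool.Graph.R_pool_sql_team_seeded_f72693b1.Results.MP_c82530_nt.LinearInLogs

/-!
# Relations over generic fields are defined over the algebraic numbers
-/

set_option autoImplicit false

namespace Pool.Agent.Helper78.EC.Tra

open Set MvPolynomial Module
open Pool.Agent.Helper78.SC Pool.Agent.Helper78.SC.Ax Pool.Agent.Helper78.SC.Cov
open Pool.Agent.Helper78.EC.Closure Pool.Agent.Helper78.EC.Generic Pool.Agent.Helper78.EC.Use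
open Pool.Agent.Helper78.EC.Disj Pool.Agent.Helper78.EC.Str Pool.Agent.Helper78.EC.Curve
open Pool.Agent.Helper78.EC.Mar
open Pool.Agent.W252 Pool.Agent.W669.Gel Pool.Agent.TH813.Core Pool.Agent.TH813.Rank

variable {m : ℕ} {t : Fin m → ℂ}

/-- relations between elements which are killed by derivations dual to `t` -/
theorem relationS {σ : Type} [Fintype σ] (x : σ → ℂ) (D : Fin m → Derivation ℚ ℂ ℂ)
    (hD2 : ∀ i j, D i (t j) = if i = j then 1 else 0)
    (hDQ : ∀ i, ∀ w ∈ QB, D i w = 0) (hDx : ∀ i j, D i (x j) = 0)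
    (f : MvPolynomial σ (Kt t)) (hf : aeval x f = 0) :
    ∃ (N : ℕ) (κ : Fin N → Kt t) (g : Fin N → MvPolynomial σ QB),
      (∀ k, aeval x (g k) = 0) ∧ (∀ k, (g k).support ⊆ f.support) ∧ map (algebraMap (Kt t) ℂ) f =
        ∑ k, C ((κ k : Kt t) : ℂ) * map (algebraMap QB ℂ) (g k) := by
  classical
  let V : Submodule QB ℂ := Submodule.span QB
    ((f.support.image (fun s => ((f.coeff s : Kt t) : ℂ)) : Finset ℂ) : Set ℂ)
  have hfin : FiniteDimensional QB V := FiniteDimensional.span_finset QB _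
  let b := finBasis QB V
  have hVK : ∀ v ∈ V, v ∈ Kt t := by
    intro v hv
    induction hv using Submodule.span_induction with
    | mem a ha =>
      obtain ⟨s, -, rfl⟩ := Finset.mem_image.1 (Finset.mem_coe.1 ha)
      exact Subtype.property _
    | zero => exact zero_mem _
    | add a b _ _ iha ihb => exact add_mem iha ihb
    | smul c a _ iha =>
      rw [Algebra.smul_def]
      exact mul_mem (QB_le t c.2) iha
  let c' : (σ →₀ ℕ) → V := fun s => if hs : s ∈ f.support then
    ⟨((f.coeff s : Kt t) : ℂ), Submodule.subset_span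
      (Finset.mem_coe.2 (Finset.mem_image.2 ⟨s, hs, rfl⟩))⟩ else 0
  have hc' : ∀ s, ((c' s : V) : ℂ) = ((f.coeff s : Kt t) : ℂ) := by
    intro s
    by_cases hs : s ∈ f.support
    · simp only [c', dif_pos hs]
    · simp only [c', dif_neg hs]
      rw [notMem_support_iff.1 hs]
      simp
  have hrep : ∀ s, ((f.coeff s : Kt t) : ℂ) = ∑ q, ((b.repr (c' s) q : QB) : ℂ) * (b q : ℂ) := by
    intro s
    rw [← hc' s]
    conv_lhs => rw [← b.sum_repr (c' s)]
    rw [Submodule.coe_sum]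
    rfl
  let g : Fin (finrank QB V) → MvPolynomial σ QB := fun q =>
    ∑ s ∈ f.support, monomial s (b.repr (c' s) q)
  have hg : map (algebraMap (Kt t) ℂ) f = ∑ k, C ((b k : V) : ℂ) * map (algebraMap QB ℂ) (g k) := by
    conv_lhs => rw [f.as_sum]
    rw [map_sum]
    simp only [g, map_sum, map_monomial, Finset.mul_sum, C_mul_monomial]
    rw [Finset.sum_comm]
    refine Finset.sum_congr rfl (fun s _ => ?_)
    rw [← map_sum (monomial s)]
    congr 1
    change ((f.coeff s : Kt t) : ℂ) = _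
    rw [hrep s]
    exact Finset.sum_congr rfl (fun q _ => mul_comm _ _)
  have hsupp : ∀ q, (g q).support ⊆ f.support := by
    intro q u hu
    rw [MvPolynomial.mem_support_iff] at hu
    change coeff u (∑ s ∈ f.support, monomial s (b.repr (c' s) q)) ≠ 0 at hu
    rw [coeff_sum] at hu
    obtain ⟨s, hs, h1⟩ := Finset.exists_ne_zero_of_sum_ne_zero hu
    rw [coeff_monomial] at h1
    by_cases h : s = u
    · rw [← h]
      exact hs
    · rw [if_neg h] at h1
      exact absurd rfl h1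
  refine ⟨_, fun k => ⟨(b k : ℂ), hVK _ (b k).2⟩, g, ?_, hsupp, hg⟩
  have h1 : ∑ k, ((b k : V) : ℂ) * aeval x (g k) = 0 := by
    have h2 : eval x (map (algebraMap (Kt t) ℂ) f) = 0 := by
      rw [eval_map]
      exact hf
    rw [hg, map_sum] at h2
    rw [← h2]
    refine Finset.sum_congr rfl (fun k _ => ?_)
    rw [map_mul, eval_C, eval_map]
    rfl
  have hli : LinearIndependent QB (fun k => ((b k : V) : ℂ)) :=
    b.linearIndependent.map' V.subtype (Submodule.ker_subtype V)
  refine disj_symm D hD2 hDQ (fun k => ((b k : V) : ℂ)) (fun k => aeval x (g k))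
    (fun k => hVK _ (b k).2) (fun k i => ?_) hli h1
  rw [Closure.der_aeval (D i) x (g k) (fun s => hDQ i _ ((g k).coeff s).2)]
  unfold Ext.dv
  refine Finset.sum_eq_zero (fun j _ => ?_)
  change D i (x j) * _ = 0
  rw [hDx, zero_mul]

/-- **All relations are defined over the algebraic numbers.** -/
theorem defined (ht : Gen ⊥ t) {a b : ℕ} (x : Fin a → ℂ) (l : Fin b → ℂ) (hx : ∀ i, x i ∈ Kt t)
    (hl : ∀ j, Complex.exp (l j) ∈ Kt t) (f : MvPolynomial (Fin a ⊕ Fin b) (Kt t))
    (hf : aeval (Sum.elim (fun i => Complex.exp (x i)) l) f = 0) :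
    ∃ (N : ℕ) (κ : Fin N → Kt t) (g : Fin N → MvPolynomial (Fin a ⊕ Fin b) QB),
      (∀ k, aeval (Sum.elim (fun i => Complex.exp (x i)) l) (g k) = 0) ∧
      (∀ k, (g k).support ⊆ f.support) ∧ map (algebraMap (Kt t) ℂ) f =
        ∑ k, C ((κ k : Kt t) : ℂ) * map (algebraMap QB ℂ) (g k) := by
  classical
  obtain ⟨s, α, n, ξ, hα, hxα, -, hξ, hξq⟩ := decompZ (spK QB) x
  obtain ⟨r, c, B, w, hc, hlc, -, hw, hwq⟩ := decompP (spL QB QB_closed) l
  have hξK : ∀ j, ξ j ∈ Kt t := by
    intro j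
    have h1 : Submodule.span ℚ (range x) ≤ spK (Kt t) :=
      Submodule.span_le.2 (by rintro _ ⟨i, rfl⟩; exact hx i)
    exact h1 (hξ j)
  have hwK : ∀ k, Complex.exp (w k) ∈ Kt t := by
    intro k
    have h1 : Submodule.span ℚ (range l) ≤ spL (Kt t) (fun _ h => Kt_closed h) :=
      Submodule.span_le.2 (by rintro _ ⟨i, rfl⟩; exact hl i)
    exact h1 (hw k)
  have hαE : ∀ i, α i ∈ ecl ⊥ := fun i => QB_le_ecl (hα i)
  have hcE : ∀ k, c k ∈ ecl ⊥ := fun k => log_mem (QB_le_ecl (hc k))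
  have hder := ders ht w ξ hwK (fun q hq => hwq q hq) hξK (fun q hq => hξq q hq)
  choose D hD hDt hDw hDξ using fun i : Fin m => hder (fun j => if i = j then 1 else 0) 0 0
  refine relationS _ D hDt (fun i w hw => hD i w (QB_le_ecl hw)) ?_ f hf
  rintro i (j | k)
  · change D i (Complex.exp (x j)) = 0
    rw [← dlog_eq_zero, hxα, dlog_add, dlog_eq_zero.2 (hD i _ (exp_mem (hαE j))), zero_add,
      dlog_combZ]
    exact Finset.sum_eq_zero (fun k _ => by rw [dlog_eq_zero.2 (hDξ i k), mul_zero])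
  · change D i (l k) = 0
    rw [hlc, map_add, hD i _ (hcE k), zero_add, der_comb']
    exact Finset.sum_eq_zero (fun j _ => by rw [hDw i j]; exact mul_zero _)

open Pool.Agent.Results.MP_c82530_nt.LinearInLogs in
/-- **Relations which are linear in the logarithms.** -/
theorem linear (ht : Gen ⊥ t) {a b : ℕ} (D : ℕ) (x : Fin a → ℂ) (l : Fin b → ℂ)
    (hx : ∀ i, x i ∈ Kt t) (hxi : LinearIndependent ℚ x) (hl : ∀ j, Complex.exp (l j) ∈ Kt t)
    (hli : LinearIndependent ℚ l) :
    ∃ E : Finset (Fin b), E.card ≤ (4 * D) ^ a - 2 ^ a ∧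
      ∀ f : MvPolynomial (Fin a ⊕ Fin b) (Kt t),
        (∀ u ∈ f.support, (∀ i, u (Sum.inl i) ≤ D) ∧ ((∀ s, u (Sum.inr s) = 0) ∨
          ∃ s, s ∉ E ∧ u (Sum.inr s) = 1 ∧ ∀ s', s' ≠ s → u (Sum.inr s') = 0)) →
        aeval (Sum.elim (fun i => Complex.exp (x i)) l) f = 0 → f = 0 := by
  classical
  let M : Finset (Fin a ⊕ Fin b →₀ ℕ) :=
    Finset.Icc 0 (Finsupp.equivFunOnFinite.symm fun _ => max D 1)
  obtain ⟨x', l', hx', hxi', hl', hli', heq⟩ := exact ht x l hx hxi hl hli M
  obtain ⟨E, hE, h⟩ := Pool.Agent.Results.MP_c82530_nt.LinearInLogs.result a D x'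
    (fun i => mem_QB.1 (hx' i)) hxi' (Fin b) l' (fun i => mem_QB.1 (hl' i)) hli'
  refine ⟨E, hE, fun f hf hf0 => ?_⟩
  obtain ⟨N, κ, g, hg0, hgs, hg⟩ := defined ht x l hx hl f hf0
  have hg1 : ∀ k, g k = 0 := by
    intro k
    apply h (g k) (fun u hu => hf u (hgs k hu))
    refine (heq (g k) (fun u hu => ?_)).1 (hg0 k)
    rw [Finset.mem_Icc]
    refine ⟨zero_le, fun i => ?_⟩
    have h1 := hf u (hgs k hu)
    rw [Finsupp.equivFunOnFinite_symm_apply_apply]
    rcases i with i | s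
    · exact (h1.1 i).trans (le_max_left _ _)
    · rcases h1.2 with h2 | ⟨s', -, h3, h4⟩
      · rw [h2 s]
        exact Nat.zero_le _
      · by_cases hs : s = s'
        · rw [hs, h3]
          exact le_max_right _ _
        · rw [h4 s hs]
          exact Nat.zero_le _
  apply map_injective (algebraMap (Kt t) ℂ) (algebraMap (Kt t) ℂ).injective
  rw [hg, map_zero]
  exact Finset.sum_eq_zero (fun k _ => by rw [hg1 k, map_zero, mul_zero])

end Pool.Agent.Helper78.EC.Tra
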